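import Pool.Agent.Lib.MP_e2b89c_an.Top

/-!
Maximality of the limit of the flow from the top, with respect to kinked subsolutions.
-/

namespace Pool.Agent.LV65

open MeasureTheory Set Filter Topology

lemma deriv_le_zero_of_right {u : ℝ → ℝ} {u' c d : ℝ} (hcd : c < d) (h : HasDerivAt u u' d)
    (hn : ∀ x ∈ Icc c d, u d ≤ u x) : u' ≤ 0 := by
  have hs : Tendsto (slope u d) (𝓝[<] d) (𝓝 u') :=
    (hasDerivAt_iff_tendsto_slope.1 h).mono_left (nhdsWithin_mono _ (fun x hx => ne_of_lt hx))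
  refine le_of_tendsto hs ?_
  filter_upwards [Ioo_mem_nhdsLT hcd] with x hx
  rw [slope_def_field]
  exact div_nonpos_of_nonneg_of_nonpos (by linarith [hn x ⟨hx.1.le, hx.2.le⟩]) (by linarith [hx.2])

lemma deriv_ge_zero_of_left {u : ℝ → ℝ} {u' c d : ℝ} (hcd : c < d) (h : HasDerivAt u u' c)
    (hn : ∀ x ∈ Icc c d, u c ≤ u x) : 0 ≤ u' := by
  have hs : Tendsto (slope u c) (𝓝[>] c) (𝓝 u') :=
    (hasDerivAt_iff_tendsto_slope.1 h).mono_left (nhdsWithin_mono _ (fun x hx => ne_of_gt hx))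
  refine ge_of_tendsto hs ?_
  filter_upwards [Ioo_mem_nhdsGT hcd] with x hx
  rw [slope_def_field]
  exact div_nonneg (by linarith [hn x ⟨hx.1.le, hx.2.le⟩]) (by linarith [hx.1])

/-- stationary subsolutions stay below the flow from the top and below its limit -/
theorem top_ge {L a b β : ℝ} (hL : 0 < L) (ha : 0 ≤ a) (hb : 0 ≤ b)
    {Z W : ℝ → ℝ → ℝ} (F : IsFlow L a b β (fun _ => 1) (fun _ => 1) Z W)
    {p q gp gq : ℝ → ℝ} {l1 r1 l2 r2 m1 m2 c : ℝ} (hc : c ∈ Icc 0 L)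
    (S1 : Sol L p (fun _ => p) (fun _ => gp) (fun _ => l1) (fun _ => r1) m1 c)
    (S2 : Sol L q (fun _ => q) (fun _ => gq) (fun _ => l2) (fun _ => r2) m2 c)
    (hm1 : m1 ≤ 0) (hm2 : m2 ≤ 0) (hl1 : l1 ≤ 0) (hl2 : l2 ≤ 0) (hr1 : r1 ≤ β) (hr2 : r2 ≤ β)
    (hpc : Continuous p) (hqc : Continuous q)
    (hr : ∀ x ∈ Icc 0 L, p x ∈ Icc (0 : ℝ) 1 ∧ q x ∈ Icc (0 : ℝ) 1)
    (hg : ∀ x ∈ Icc 0 L, gp x ≤ G1 a (p x) (q x) ∧ gq x ≤ G2 b (p x) (q x)) {t : ℝ} (ht : 0 < t) :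
    ∀ x ∈ Icc 0 L, p x ≤ Z t x ∧ q x ≤ W t x := by
  have key := sys_le hL ha hb (F.solZ c hc) (F.solW c hc) S1 S2 hc hm1 hm2 ht.le (by
      rw [ae_restrict_iff' measurableSet_Ioc]
      exact Eventually.of_forall fun x hx => (hr x ⟨hx.1.le, hx.2⟩).1.2) (by
      rw [ae_restrict_iff' measurableSet_Ioc]
      exact Eventually.of_forall fun x hx => (hr x ⟨hx.1.le, hx.2⟩).2.2)
    (fun s _ => hl1) (fun s _ => hr1) (fun s _ => hl2) (fun s _ => hr2) (by
      intro s hs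
      rw [ae_restrict_iff' measurableSet_Ioc]
      refine Eventually.of_forall fun x hx => ?_
      have h1 := F.range s hs.1 x ⟨hx.1.le, hx.2⟩
      have h2 := hr x ⟨hx.1.le, hx.2⟩
      exact ⟨h1.1, h1.2, h2.1, h2.2⟩) (by
      intro s hs
      rw [ae_restrict_iff' measurableSet_Ioc]
      refine Eventually.of_forall fun x hx => ?_
      have h2 := hg x ⟨hx.1.le, hx.2⟩
      exact ⟨le_rfl, le_rfl, h2.1, h2.2⟩)
  have k1 := forall_of_ae hL (f := fun x => Z t x - p x) ((F.cont t ht).1.sub hpc)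
    (by filter_upwards [key] with x hx; linarith [hx.1])
  have k2 := forall_of_ae hL (f := fun x => W t x - q x) ((F.cont t ht).2.sub hqc)
    (by filter_upwards [key] with x hx; linarith [hx.2])
  intro x hx
  exact ⟨by linarith [k1 x hx], by linarith [k2 x hx]⟩

/-- barriers in cooperative variables -/
def ZBar (L a b : ℝ) : Prop :=
  ∃ U U' g V V' h : ℝ → ℝ, Stat L a b U U' g V V' h ∧ U 0 = 0 ∧ V 0 = 0 ∧ U L = 0 ∧ V L = 0 ∧
    ∃ x ∈ Icc 0 L, ¬ (U x = 0 ∧ V x = 0)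

/-- a subsolution with one convex kink gives a maximal solution above it -/
theorem exists_max {L a b β : ℝ} (hL : 0 < L) (ha : 0 ≤ a) (hb : 0 ≤ b) (hβ : β ∈ Icc (0 : ℝ) 1) :
    ∃ U U' g V V' h : ℝ → ℝ, Stat L a b U U' g V V' h ∧ U 0 = 0 ∧ V 0 = 0 ∧ U L = β ∧ V L = β ∧
    ∀ (A A' gA B B' gB C C' gC D D' gD : ℝ → ℝ) (c : ℝ), c ∈ Icc 0 L →
      (∀ x, HasDerivAt A (A' x) x) → (∀ x, HasDerivAt A' (-gA x) x) → Continuous gA →
      (∀ x, HasDerivAt B (B' x) x) → (∀ x, HasDerivAt B' (-gB x) x) → Continuous gB → A c = B c →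
      (∀ x, HasDerivAt C (C' x) x) → (∀ x, HasDerivAt C' (-gC x) x) → Continuous gC →
      (∀ x, HasDerivAt D (D' x) x) → (∀ x, HasDerivAt D' (-gD x) x) → Continuous gD → C c = D c →
      A' c ≤ B' c → C' c ≤ D' c → A 0 ≤ 0 → C 0 ≤ 0 → B L ≤ β → D L ≤ β →
      (∀ x ∈ Icc 0 c, A x ∈ Icc (0 : ℝ) 1 ∧ C x ∈ Icc (0 : ℝ) 1 ∧
        gA x ≤ G1 a (A x) (C x) ∧ gC x ≤ G2 b (A x) (C x)) →
      (∀ x ∈ Icc c L, B x ∈ Icc (0 : ℝ) 1 ∧ D x ∈ Icc (0 : ℝ) 1 ∧
        gB x ≤ G1 a (B x) (D x) ∧ gD x ≤ G2 b (B x) (D x)) →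
      (∀ x ∈ Icc 0 c, A x ≤ U x ∧ C x ≤ V x) ∧ (∀ x ∈ Icc c L, B x ≤ U x ∧ D x ≤ V x) := by
  obtain ⟨Z, W, F⟩ := exists_flow (z0 := fun _ => 1) (w0 := fun _ => 1) hL ha hb hβ
    (BS.const L 1) (BS.const L 1) (fun x _ => ⟨⟨zero_le_one, le_rfl⟩, ⟨zero_le_one, le_rfl⟩⟩)
  obtain ⟨U, U', g, V, V', h, S, hU0, hV0, hUL, hVL, hlU, hlV⟩ := top_limit hL ha hb F
  refine ⟨U, U', g, V, V', h, S, hU0, hV0, hUL, hVL, ?_⟩
  intro A A' gA B B' gB C C' gC D D' gD c hc hA hA' hgA hB hB' hgB hAB hC hC' hgC hD hD' hgD hCD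
    k1 k2 A0 C0 BL DL P1 P2
  have S1 := kinkSol hL hc hA hA' hgA hB hB' hgB hAB
  have S2 := kinkSol hL hc hC hC' hgC hD hD' hgD hCD
  have cA : Continuous A := continuous_iff_continuousAt.2 fun x => (hA x).continuousAt
  have cB : Continuous B := continuous_iff_continuousAt.2 fun x => (hB x).continuousAt
  have cC : Continuous C := continuous_iff_continuousAt.2 fun x => (hC x).continuousAt
  have cD : Continuous D := continuous_iff_continuousAt.2 fun x => (hD x).continuousAt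
  have cp : Continuous fun x => if x ≤ c then A x else B x :=
    Continuous.if_le cA cB continuous_id continuous_const (fun x hx => by
      have : x = c := hx
      rw [this, hAB])
  have cq : Continuous fun x => if x ≤ c then C x else D x :=
    Continuous.if_le cC cD continuous_id continuous_const (fun x hx => by
      have : x = c := hx
      rw [this, hCD])
  have key := fun (t : ℝ) (ht : 0 < t) => top_ge (t := t) hL ha hb F hc S1 S2 (by linarith)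
    (by linarith) A0 C0 BL DL cp cq (by
      intro x hx
      by_cases h : x ≤ c
      · simp only [if_pos h]
        exact ⟨(P1 x ⟨hx.1, h⟩).1, (P1 x ⟨hx.1, h⟩).2.1⟩
      · simp only [if_neg h]
        exact ⟨(P2 x ⟨(not_le.1 h).le, hx.2⟩).1, (P2 x ⟨(not_le.1 h).le, hx.2⟩).2.1⟩) (by
      intro x hx
      by_cases h : x ≤ c
      · simp only [if_pos h]
        exact (P1 x ⟨hx.1, h⟩).2.2
      · simp only [if_neg h]
        exact (P2 x ⟨(not_le.1 h).le, hx.2⟩).2.2) ht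
  have fin : ∀ x ∈ Icc 0 L, (if x ≤ c then A x else B x) ≤ U x ∧
      (if x ≤ c then C x else D x) ≤ V x := by
    intro x hx
    constructor
    · exact ge_of_tendsto (hlU x hx) (by
        filter_upwards [eventually_gt_atTop 0] with t ht using (key t ht x hx).1)
    · exact ge_of_tendsto (hlV x hx) (by
        filter_upwards [eventually_gt_atTop 0] with t ht using (key t ht x hx).2)
  constructor
  · intro x hx
    have := fin x ⟨hx.1, hx.2.trans hc.2⟩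
    simpa only [if_pos hx.2] using this
  · intro x hx
    rcases hx.1.eq_or_lt with h | h
    · subst h
      have := fin c hc
      simp only [le_refl, if_true] at this
      rw [← hAB, ← hCD]
      exact this
    · have := fin x ⟨hc.1.trans hx.1, hx.2⟩
      simpa only [if_neg (not_le.2 h)] using this

lemma G1_zero (a : ℝ) : G1 a 0 0 = 0 := by simp [G1]

lemma G2_zero (b : ℝ) : G2 b 0 0 = 0 := by simp [G2]

/-- the set of lengths with a barrier is upward closed -/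
theorem ZBar.mono {L L' a b : ℝ} (hL : 0 < L) (hLL : L ≤ L') (ha : 0 ≤ a) (hb : 0 ≤ b)
    (h : ZBar L a b) : ZBar L' a b := by
  obtain ⟨U, U', g, V, V', k, S, hU0, hV0, hUL, hVL, x0, hx0, hne⟩ := h
  have hL' : 0 < L' := lt_of_lt_of_le hL hLL
  obtain ⟨P, P', e, Q, Q', f, S', hP0, hQ0, hPL, hQL, hmax⟩ :=
    exists_max (β := 0) hL' ha hb ⟨le_rfl, zero_le_one⟩
  have hz : ∀ x : ℝ, HasDerivAt (fun _ : ℝ => (0 : ℝ)) ((fun _ : ℝ => (0 : ℝ)) x) x :=
    fun x => hasDerivAt_const x 0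
  have hz' : ∀ x : ℝ, HasDerivAt (fun _ : ℝ => (0 : ℝ)) (-(fun _ : ℝ => (0 : ℝ)) x) x :=
    fun x => by simpa using hasDerivAt_const x (0 : ℝ)
  have dU : U' L ≤ 0 := deriv_le_zero_of_right hL (S.dU L) (fun x hx => by
    rw [hUL]; exact (S.range x hx).1.1)
  have dV : V' L ≤ 0 := deriv_le_zero_of_right hL (S.dV L) (fun x hx => by
    rw [hVL]; exact (S.range x hx).2.1)
  have key := hmax U U' g (fun _ => 0) (fun _ => 0) (fun _ => 0) V V' k (fun _ => 0) (fun _ => 0)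
    (fun _ => 0) L ⟨hL.le, hLL⟩ S.dU S.dU' S.cg hz hz' continuous_const hUL S.dV S.dV' S.ch hz hz'
    continuous_const hVL dU dV hU0.le hV0.le le_rfl le_rfl (fun x hx =>
      ⟨(S.range x hx).1, (S.range x hx).2, (S.eg x hx).le, (S.eh x hx).le⟩) (fun x _ =>
      ⟨⟨le_rfl, zero_le_one⟩, ⟨le_rfl, zero_le_one⟩, (G1_zero a).ge, (G2_zero b).ge⟩)
  refine ⟨P, P', e, Q, Q', f, S', hP0, hQ0, hPL, hQL, x0, ⟨hx0.1, hx0.2.trans hLL⟩, ?_⟩
  intro hh
  apply hne
  have h1 := key.1 x0 hx0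
  rw [hh.1, hh.2] at h1
  exact ⟨le_antisymm h1.1 (S.range x0 hx0).1.1, le_antisymm h1.2 (S.range x0 hx0).2.1⟩

/-- monotone connections between `(0,1)` and `(1,0)` on bounded intervals -/
theorem exists_monotone {L a b : ℝ} (hL : 0 < L) (ha : 0 ≤ a) (hb : 0 ≤ b) :
    ∃ U U' g V V' h : ℝ → ℝ, Stat L a b U U' g V V' h ∧ U 0 = 0 ∧ V 0 = 0 ∧ U L = 1 ∧ V L = 1 ∧
      (∀ x ∈ Icc 0 L, ∀ y ∈ Icc 0 L, x ≤ y → U x ≤ U y ∧ V x ≤ V y) := by
  obtain ⟨U, U', g, V, V', h, S, hU0, hV0, hUL, hVL, hmax⟩ :=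
    exists_max (β := 1) hL ha hb ⟨zero_le_one, le_rfl⟩
  refine ⟨U, U', g, V, V', h, S, hU0, hV0, hUL, hVL, ?_⟩
  intro x hx y hy hxy
  set d := y - x with hd
  have hd0 : 0 ≤ d := by linarith
  have hdL : d ≤ L := by linarith [hx.1, hy.2]
  have hz : ∀ x : ℝ, HasDerivAt (fun _ : ℝ => (0 : ℝ)) ((fun _ : ℝ => (0 : ℝ)) x) x :=
    fun x => hasDerivAt_const x 0
  have hz' : ∀ x : ℝ, HasDerivAt (fun _ : ℝ => (0 : ℝ)) (-(fun _ : ℝ => (0 : ℝ)) x) x :=
    fun x => by simpa using hasDerivAt_const x (0 : ℝ)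
  have hsh : ∀ {u u' : ℝ → ℝ}, (∀ x, HasDerivAt u (u' x) x) →
      ∀ x, HasDerivAt (fun x => u (x - d)) (u' (x - d)) x := by
    intro u u' hu x
    have := (hu (x - d)).comp_sub_const x d
    exact this
  have dU : 0 ≤ U' 0 := deriv_ge_zero_of_left hL (S.dU 0) (fun x hx => by
    rw [hU0]; exact (S.range x hx).1.1)
  have dV : 0 ≤ V' 0 := deriv_ge_zero_of_left hL (S.dV 0) (fun x hx => by
    rw [hV0]; exact (S.range x hx).2.1)
  have key := hmax (fun _ => 0) (fun _ => 0) (fun _ => 0) (fun x => U (x - d)) (fun x => U' (x - d))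
    (fun x => g (x - d)) (fun _ => 0) (fun _ => 0) (fun _ => 0) (fun x => V (x - d))
    (fun x => V' (x - d)) (fun x => h (x - d)) d ⟨hd0, hdL⟩ hz hz' continuous_const (hsh S.dU)
    (hsh (u' := fun x => -g x) S.dU') (S.cg.comp (continuous_id.sub continuous_const))
    (by simp [hU0]) hz hz' continuous_const (hsh S.dV) (hsh (u' := fun x => -h x) S.dV')
    (S.ch.comp (continuous_id.sub continuous_const)) (by simp [hV0]) (by simpa using dU)
    (by simpa using dV) le_rfl le_rfl (S.range (L - d) ⟨by linarith, by linarith⟩).1.2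
    (S.range (L - d) ⟨by linarith, by linarith⟩).2.2 (fun x _ =>
      ⟨⟨le_rfl, zero_le_one⟩, ⟨le_rfl, zero_le_one⟩, (G1_zero a).ge, (G2_zero b).ge⟩) (by
    intro x hx
    have hx' : x - d ∈ Icc 0 L := ⟨by linarith [hx.1], by linarith [hx.2]⟩
    exact ⟨(S.range _ hx').1, (S.range _ hx').2, (S.eg _ hx').le, (S.eh _ hx').le⟩)
  have h1 := key.2 y ⟨by linarith [hx.1], hy.2⟩
  have h2 : y - d = x := by rw [hd]; ring
  simp only [h2] at h1
  exact h1

end Pool.Agent.LV65
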