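import Pool.Agent.Lib.MP_e2b89c_an.System

/-!
From sine modes to general test functions.
-/

namespace Pool.Agent.LV65

open MeasureTheory Set Filter Topology

/-- sine polynomials approximate continuous functions in the mean -/
lemma dense_sine {L : ℝ} (hL : 0 < L) {r : ℝ → ℝ} (hr : Continuous r) {ε : ℝ} (hε : 0 < ε) :
    ∃ (N : ℕ) (c : ℕ → ℝ),
      ∫ x in (0 : ℝ)..L, |r x - ∑ n ∈ Finset.range N, c n * sn L n x| ≤ ε := by
  have csn := continuous_sn L 0
  have hint : ∀ {f : ℝ → ℝ}, Continuous f → IntervalIntegrable f volume 0 L :=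
    fun hf => hf.intervalIntegrable _ _
  -- the cut off functions
  have hmaxpos : ∀ (k : ℕ) (x : ℝ), 0 < max (sn L 0 x) (1 / ((k : ℝ) + 1)) :=
    fun k x => lt_max_of_lt_right (by positivity)
  have cg : ∀ k : ℕ, Continuous fun x => r x / max (sn L 0 x) (1 / ((k : ℝ) + 1)) :=
    fun k => hr.div (csn.max continuous_const) (fun x => (hmaxpos k x).ne')
  have hq : ∀ (k : ℕ) (x : ℝ), x ∈ Icc 0 L →
      |r x - sn L 0 x * (r x / max (sn L 0 x) (1 / ((k : ℝ) + 1)))| ≤ |r x| := by
    intro k x hx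
    have h0 := sn0_nonneg hL hx
    have hm := hmaxpos k x
    have e1 : r x - sn L 0 x * (r x / max (sn L 0 x) (1 / ((k : ℝ) + 1))) =
        r x * (1 - sn L 0 x / max (sn L 0 x) (1 / ((k : ℝ) + 1))) := by ring
    rw [e1, abs_mul]
    have e2 : sn L 0 x / max (sn L 0 x) (1 / ((k : ℝ) + 1)) ≤ 1 := by
      rw [div_le_one hm]; exact le_max_left _ _
    have e3 : 0 ≤ sn L 0 x / max (sn L 0 x) (1 / ((k : ℝ) + 1)) := div_nonneg h0 hm.le
    have e4 : |1 - sn L 0 x / max (sn L 0 x) (1 / ((k : ℝ) + 1))| ≤ 1 := by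
      rw [abs_le]; constructor <;> linarith
    have := mul_le_mul_of_nonneg_left e4 (abs_nonneg (r x))
    linarith
  have hlim : Tendsto (fun k : ℕ => ∫ x in (0 : ℝ)..L,
      |r x - sn L 0 x * (r x / max (sn L 0 x) (1 / ((k : ℝ) + 1)))|) atTop
      (𝓝 (∫ x in (0 : ℝ)..L, (0 : ℝ))) := by
    apply intervalIntegral.tendsto_integral_filter_of_dominated_convergence (fun x => |r x|)
    · refine Eventually.of_forall fun k => ?_
      exact ((hr.sub (csn.mul (cg k))).abs).aestronglyMeasurable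
    · refine Eventually.of_forall fun k => ?_
      refine Eventually.of_forall fun x hx => ?_
      rw [uIoc_of_le hL.le] at hx
      rw [Real.norm_eq_abs, abs_abs]
      exact hq k x ⟨hx.1.le, hx.2⟩
    · exact hint hr.abs
    · have hne : ∀ᵐ x ∂(volume : Measure ℝ), x ≠ L := by
        simp [ae_iff, measure_singleton]
      filter_upwards [hne] with x hxL hx
      rw [uIoc_of_le hL.le] at hx
      have hpos := sn0_pos hL (x := x) ⟨hx.1, lt_of_le_of_ne hx.2 hxL⟩
      have hev : ∀ᶠ k : ℕ in atTop, 1 / ((k : ℝ) + 1) < sn L 0 x :=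
        tendsto_one_div_add_atTop_nhds_zero_nat.eventually_lt_const hpos
      apply tendsto_const_nhds.congr'
      filter_upwards [hev] with k hk
      rw [max_eq_left hk.le]
      have : r x - sn L 0 x * (r x / sn L 0 x) = 0 := by field_simp; ring
      rw [this, abs_zero]
  rw [intervalIntegral.integral_zero] at hlim
  obtain ⟨k, hk⟩ := (hlim.eventually_lt_const (show 0 < ε / 2 by linarith)).exists
  set g : ℝ → ℝ := fun x => r x / max (sn L 0 x) (1 / ((k : ℝ) + 1)) with hg
  have hgc : Continuous g := cg k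
  set δ : ℝ := ε / (2 * L) with hδ
  have hδ0 : 0 < δ := by positivity
  set h1 : ℝ → ℝ := fun c => g (L / Real.pi * Real.arccos c) with hh1
  have h1c : ContinuousOn h1 (Icc (-1) 1) := by
    apply Continuous.continuousOn
    exact hgc.comp (continuous_const.mul Real.continuous_arccos)
  obtain ⟨p, hp⟩ := exists_polynomial_near_of_continuousOn (-1) 1 h1 h1c δ hδ0
  obtain ⟨N, c, hc⟩ := mem_sineSpan_iff L (sineSpan_poly L p)
  refine ⟨N, c, ?_⟩
  have hwn : wn L 0 * L = Real.pi := by rw [wn_mul_L hL]; simp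
  have hval : ∀ x ∈ Icc 0 L, h1 (Real.cos (wn L 0 * x)) = g x := by
    intro x hx
    simp only [hh1]
    rw [Real.arccos_cos (mul_nonneg (wn_pos hL 0).le hx.1)
      (by rw [← hwn]; exact mul_le_mul_of_nonneg_left hx.2 (wn_pos hL 0).le)]
    congr 1
    have : wn L 0 = Real.pi / L := by simp [wn]
    rw [this]
    field_simp
  have cP : Continuous fun x => sn L 0 x * p.eval (Real.cos (wn L 0 * x)) := by
    apply csn.mul
    exact p.continuous.comp (by fun_prop)
  have hpt : ∀ x ∈ Icc 0 L, |r x - ∑ n ∈ Finset.range N, c n * sn L n x| ≤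
      |r x - sn L 0 x * g x| + δ := by
    intro x hx
    rw [← hc x]
    have h2 : |p.eval (Real.cos (wn L 0 * x)) - g x| < δ := by
      rw [← hval x hx]
      exact hp _ ⟨Real.neg_one_le_cos _, Real.cos_le_one _⟩
    have e1 : r x - sn L 0 x * p.eval (Real.cos (wn L 0 * x)) =
        (r x - sn L 0 x * g x) - sn L 0 x * (p.eval (Real.cos (wn L 0 * x)) - g x) := by ring
    rw [e1]
    refine (abs_sub _ _).trans ?_
    rw [abs_mul]
    have e2 := mul_le_mul (abs_sn_le_one L 0 x) h2.le (abs_nonneg _) zero_le_one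
    linarith
  have ci1 : Continuous fun x => |r x - ∑ n ∈ Finset.range N, c n * sn L n x| := by
    have : (fun x => |r x - ∑ n ∈ Finset.range N, c n * sn L n x|) =
        fun x => |r x - sn L 0 x * p.eval (Real.cos (wn L 0 * x))| := by
      funext x; rw [← hc x]
    rw [this]
    exact (hr.sub cP).abs
  have ci2 : Continuous fun x => |r x - sn L 0 x * g x| := (hr.sub (csn.mul hgc)).abs
  calc ∫ x in (0 : ℝ)..L, |r x - ∑ n ∈ Finset.range N, c n * sn L n x|
      ≤ ∫ x in (0 : ℝ)..L, (|r x - sn L 0 x * g x| + δ) :=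
        intervalIntegral.integral_mono_on hL.le (hint ci1)
          ((hint ci2).add (hint continuous_const)) hpt
    _ = (∫ x in (0 : ℝ)..L, |r x - sn L 0 x * g x|) + L * δ := by
        rw [intervalIntegral.integral_add (hint ci2) (hint continuous_const),
          intervalIntegral.integral_const, smul_eq_mul, sub_zero]
    _ ≤ ε / 2 + ε / 2 := by
        have e1 : L * δ = ε / 2 := by rw [hδ]; field_simp
        rw [e1]
        linarith
    _ = ε := by ring

/-- a function with small second derivative in the mean, vanishing at the end points, is small -/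
lemma small_green {L : ℝ} (hL : 0 < L) {e e' e'' : ℝ → ℝ} (he : ∀ x, HasDerivAt e (e' x) x)
    (he' : ∀ x, HasDerivAt e' (e'' x) x) (hc : Continuous e'') (h0 : e 0 = 0) (h1 : e L = 0)
    {ε : ℝ} (hε : ∫ x in (0 : ℝ)..L, |e'' x| ≤ ε) :
    ∀ x ∈ Icc 0 L, |e' x| ≤ ε ∧ |e x| ≤ ε * L := by
  have ce' : Continuous e' := continuous_iff_continuousAt.2 fun x => (he' x).continuousAt
  obtain ⟨ξ, hξ, hξ0⟩ := exists_hasDerivAt_eq_zero hL
    (fun x _ => (he x).continuousAt.continuousWithinAt) (h0.trans h1.symm) (fun x _ => he x)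
  have hε0 : 0 ≤ ε := by
    refine le_trans ?_ hε
    exact intervalIntegral.integral_nonneg hL.le (fun x _ => abs_nonneg _)
  have hd : ∀ x ∈ Icc 0 L, |e' x| ≤ ε := by
    intro x hx
    have e1 : ∫ y in ξ..x, e'' y = e' x - e' ξ :=
      intervalIntegral.integral_eq_sub_of_hasDerivAt (fun y _ => he' y) (hc.intervalIntegrable _ _)
    rw [hξ0, sub_zero] at e1
    rw [← e1, ← Real.norm_eq_abs]
    refine (intervalIntegral.norm_integral_le_abs_integral_norm).trans ?_
    have e2 : |∫ y in ξ..x, ‖e'' y‖| ≤ |∫ y in (0 : ℝ)..L, ‖e'' y‖| := by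
      apply intervalIntegral.abs_integral_mono_interval
      · rw [uIoc_of_le hL.le]
        intro y hy
        rw [mem_uIoc] at hy
        rcases hy with hy | hy
        · exact ⟨hξ.1.trans hy.1, hy.2.trans hx.2⟩
        · exact ⟨lt_of_le_of_lt hx.1 hy.1, hy.2.trans hξ.2.le⟩
      · exact Eventually.of_forall fun y => norm_nonneg _
      · exact hc.norm.intervalIntegrable _ _
    refine e2.trans ?_
    rw [abs_of_nonneg (intervalIntegral.integral_nonneg hL.le (fun x _ => norm_nonneg _))]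
    exact hε
  intro x hx
  refine ⟨hd x hx, ?_⟩
  have e1 : ∫ y in (0 : ℝ)..x, e' y = e x - e 0 :=
    intervalIntegral.integral_eq_sub_of_hasDerivAt (fun y _ => he y) (ce'.intervalIntegrable _ _)
  rw [h0, sub_zero] at e1
  rw [← e1, ← Real.norm_eq_abs]
  have e2 : ‖∫ y in (0 : ℝ)..x, e' y‖ ≤ ε * |x - 0| := by
    apply intervalIntegral.norm_integral_le_of_norm_le_const
    intro y hy
    rw [uIoc_of_le hx.1] at hy
    exact hd y ⟨hy.1.le, hy.2.trans hx.2⟩
  refine e2.trans ?_
  rw [sub_zero, abs_of_nonneg hx.1]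
  exact mul_le_mul_of_nonneg_left hx.2 hε0

/-- space integrals of bounded measurable functions -/
lemma BM.space_integral {L : ℝ} (hL : 0 < L) {f : ℝ → ℝ → ℝ} (hf : BM L f) :
    BG (fun s => ∫ x in (0 : ℝ)..L, f s x) := by
  refine ⟨?_, fun T => ?_⟩
  · have h1 : (fun s => ∫ x in (0 : ℝ)..L, f s x) =
        fun s => ∫ x, f s x ∂(volume.restrict (Ioc 0 L)) := by
      funext s
      rw [intervalIntegral.integral_of_le hL.le]
    rw [h1]
    apply StronglyMeasurable.measurable
    apply StronglyMeasurable.integral_prod_right (f := f)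
    exact hf.meas.stronglyMeasurable
  · obtain ⟨C, hC⟩ := hf.bdd T
    refine ⟨C * L, fun t ht => ?_⟩
    have : ‖∫ x in (0 : ℝ)..L, f t x‖ ≤ C * |L - 0| := by
      apply intervalIntegral.norm_integral_le_of_norm_le_const
      intro x hx
      rw [uIoc_of_le hL.le] at hx
      exact hC t ht x ⟨hx.1.le, hx.2⟩
    rw [sub_zero, abs_of_pos hL] at this
    exact this

section Test

variable {L t : ℝ} {z0 : ℝ → ℝ} {z F : ℝ → ℝ → ℝ} {gl gr : ℝ → ℝ}

/-- the defect of the weak formulation -/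
noncomputable def defect (L t : ℝ) (z0 : ℝ → ℝ) (z F : ℝ → ℝ → ℝ) (gl gr : ℝ → ℝ)
    (φ : ℝ → ℝ) (p q : ℝ) (ψ : ℝ → ℝ) : ℝ :=
  (∫ x in (0 : ℝ)..L, z t x * φ x) - (∫ x in (0 : ℝ)..L, z0 x * φ x) -
    ∫ s in (0 : ℝ)..t, ((∫ x in (0 : ℝ)..L, (z s x * ψ x + F s x * φ x)) + gl s * p - gr s * q)

lemma BM.pair {φ ψ : ℝ → ℝ} (hz : BM L z) (hF : BM L F) (cφ : Continuous φ) (cψ : Continuous ψ) :
    BM L (fun s x => z s x * ψ x + F s x * φ x) :=
  (hz.mul (BM.of_space (BS.of_continuous cψ))).add (hF.mul (BM.of_space (BS.of_continuous cφ)))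

lemma defect_rhs_bg (hL : 0 < L) {φ ψ : ℝ → ℝ} {p q : ℝ} (hz : BM L z) (hF : BM L F)
    (hgl : BG gl) (hgr : BG gr) (cφ : Continuous φ) (cψ : Continuous ψ) :
    BG (fun s => (∫ x in (0 : ℝ)..L, (z s x * ψ x + F s x * φ x)) + gl s * p - gr s * q) :=
  (((BM.pair hz hF cφ cψ).space_integral hL).add (hgl.mul (BG.const p))).sub
    (hgr.mul (BG.const q))

lemma defect_lin (hL : 0 < L) (ht : 0 ≤ t) (hz0 : BS L z0) (hz : BM L z) (hF : BM L F)
    (hgl : BG gl) (hgr : BG gr) {φ ψ φ' ψ' : ℝ → ℝ} {p q p' q' : ℝ} (cφ : Continuous φ)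
    (cψ : Continuous ψ) (cφ' : Continuous φ') (cψ' : Continuous ψ') (r : ℝ) :
    defect L t z0 z F gl gr (fun x => φ x + r * φ' x) (p + r * p') (q + r * q')
      (fun x => ψ x + r * ψ' x) = defect L t z0 z F gl gr φ p q ψ +
        r * defect L t z0 z F gl gr φ' p' q' ψ' := by
  have e1 : ∀ {w : ℝ → ℝ}, BS L w → ∫ x in (0 : ℝ)..L, w x * (φ x + r * φ' x) =
      (∫ x in (0 : ℝ)..L, w x * φ x) + r * ∫ x in (0 : ℝ)..L, w x * φ' x := by
    intro w hw
    have h1 : ∀ x, w x * (φ x + r * φ' x) = w x * φ x + r * (w x * φ' x) := fun x => by ring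
    simp_rw [h1]
    rw [intervalIntegral.integral_add (hw.int hL cφ) ((hw.int hL cφ').const_mul r),
      intervalIntegral.integral_const_mul]
  have e2 : ∫ s in (0 : ℝ)..t, ((∫ x in (0 : ℝ)..L, (z s x * (ψ x + r * ψ' x) +
      F s x * (φ x + r * φ' x))) + gl s * (p + r * p') - gr s * (q + r * q')) =
      (∫ s in (0 : ℝ)..t, ((∫ x in (0 : ℝ)..L, (z s x * ψ x + F s x * φ x)) + gl s * p -
        gr s * q)) + r * ∫ s in (0 : ℝ)..t, ((∫ x in (0 : ℝ)..L, (z s x * ψ' x + F s x * φ' x)) +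
          gl s * p' - gr s * q') := by
    rw [← intervalIntegral.integral_const_mul, ← intervalIntegral.integral_add
      ((defect_rhs_bg hL hz hF hgl hgr cφ cψ).intervalIntegrable ht)
      (((defect_rhs_bg hL hz hF hgl hgr cφ' cψ').intervalIntegrable ht).const_mul r)]
    apply intervalIntegral.integral_congr
    intro s hs
    rw [uIcc_of_le ht] at hs
    have hi1 : IntervalIntegrable (fun x => z s x * ψ x + F s x * φ x) volume 0 L :=
      ((hz.bs hs.1).int hL cψ).add ((hF.bs hs.1).int hL cφ)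
    have hi2 : IntervalIntegrable (fun x => z s x * ψ' x + F s x * φ' x) volume 0 L :=
      ((hz.bs hs.1).int hL cψ').add ((hF.bs hs.1).int hL cφ')
    have h1 : ∫ x in (0 : ℝ)..L, (z s x * (ψ x + r * ψ' x) + F s x * (φ x + r * φ' x)) =
        (∫ x in (0 : ℝ)..L, (z s x * ψ x + F s x * φ x)) +
          r * ∫ x in (0 : ℝ)..L, (z s x * ψ' x + F s x * φ' x) := by
      rw [← intervalIntegral.integral_const_mul,
        ← intervalIntegral.integral_add hi1 (hi2.const_mul r)]
      apply intervalIntegral.integral_congr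
      intro x _
      simp only []
      ring
    simp only []
    rw [h1]
    ring
  unfold defect
  rw [e1 (hz.bs ht), e1 hz0, e2]
  ring

lemma space_bound (hL : 0 < L) {w e : ℝ → ℝ} {C D : ℝ} (hw : ∀ x ∈ Icc 0 L, |w x| ≤ C)
    (he : ∀ x ∈ Icc 0 L, |e x| ≤ D) : |∫ x in (0 : ℝ)..L, w x * e x| ≤ C * D * L := by
  have hC : 0 ≤ C := (abs_nonneg _).trans (hw 0 ⟨le_rfl, hL.le⟩)
  have : ‖∫ x in (0 : ℝ)..L, w x * e x‖ ≤ C * D * |L - 0| := by
    apply intervalIntegral.norm_integral_le_of_norm_le_const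
    intro x hx
    rw [uIoc_of_le hL.le] at hx
    have hx' : x ∈ Icc 0 L := ⟨hx.1.le, hx.2⟩
    rw [norm_mul]
    exact mul_le_mul (hw x hx') (he x hx') (abs_nonneg _) hC
  rwa [sub_zero, abs_of_pos hL] at this

lemma space_bound' (hL : 0 < L) {w e : ℝ → ℝ} {C ε : ℝ} (hw : ∀ x ∈ Icc 0 L, |w x| ≤ C)
    (hwm : BS L w) (hc : Continuous e) (he : ∫ x in (0 : ℝ)..L, |e x| ≤ ε) :
    |∫ x in (0 : ℝ)..L, w x * e x| ≤ C * ε := by
  have hC : 0 ≤ C := (abs_nonneg _).trans (hw 0 ⟨le_rfl, hL.le⟩)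
  have h1 : ‖∫ x in (0 : ℝ)..L, w x * e x‖ ≤ ∫ x in (0 : ℝ)..L, ‖w x * e x‖ :=
    intervalIntegral.norm_integral_le_integral_norm hL.le
  have h2 : ∫ x in (0 : ℝ)..L, ‖w x * e x‖ ≤ ∫ x in (0 : ℝ)..L, C * |e x| := by
    apply intervalIntegral.integral_mono_on hL.le (hwm.int hL hc).norm
      ((hc.abs.intervalIntegrable _ _).const_mul C)
    intro x hx
    rw [norm_mul]
    exact mul_le_mul_of_nonneg_right (hw x hx) (abs_nonneg _)
  rw [intervalIntegral.integral_const_mul] at h2
  have h3 := mul_le_mul_of_nonneg_left he hC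
  rw [Real.norm_eq_abs] at h1
  linarith

lemma defect_bound (hL : 0 < L) (ht : 0 ≤ t) (hz : BM L z) (hF : BM L F)
    {C : ℝ} (b0 : ∀ x ∈ Icc 0 L, |z0 x| ≤ C)
    (bz : ∀ s ∈ Icc 0 t, ∀ x ∈ Icc 0 L, |z s x| ≤ C)
    (bF : ∀ s ∈ Icc 0 t, ∀ x ∈ Icc 0 L, |F s x| ≤ C)
    (bl : ∀ s ∈ Icc 0 t, |gl s| ≤ C) (br : ∀ s ∈ Icc 0 t, |gr s| ≤ C)
    {e e' e'' : ℝ → ℝ} (he : ∀ x, HasDerivAt e (e' x) x)
    (he' : ∀ x, HasDerivAt e' (e'' x) x) (hc : Continuous e'') (h0 : e 0 = 0) (h1 : e L = 0)
    {ε : ℝ} (hε : ∫ x in (0 : ℝ)..L, |e'' x| ≤ ε) :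
    |defect L t z0 z F gl gr e (e' 0) (e' L) e''| ≤
      (2 * C * L * L + (3 * C + C * L * L) * t) * ε := by
  have hs := small_green hL he he' hc h0 h1 hε
  have hC : 0 ≤ C := (abs_nonneg _).trans (b0 0 ⟨le_rfl, hL.le⟩)
  have ce : Continuous e := continuous_iff_continuousAt.2 fun x => (he x).continuousAt
  have i1 : |∫ x in (0 : ℝ)..L, z t x * e x| ≤ C * (ε * L) * L :=
    space_bound hL (bz t ⟨ht, le_rfl⟩) (fun x hx => (hs x hx).2)
  have i2 : |∫ x in (0 : ℝ)..L, z0 x * e x| ≤ C * (ε * L) * L :=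
    space_bound hL b0 (fun x hx => (hs x hx).2)
  have i3 : |∫ s in (0 : ℝ)..t, ((∫ x in (0 : ℝ)..L, (z s x * e'' x + F s x * e x)) +
      gl s * e' 0 - gr s * e' L)| ≤ (C * ε + C * (ε * L) * L + C * ε + C * ε) * t := by
    have : ‖∫ s in (0 : ℝ)..t, ((∫ x in (0 : ℝ)..L, (z s x * e'' x + F s x * e x)) +
      gl s * e' 0 - gr s * e' L)‖ ≤ (C * ε + C * (ε * L) * L + C * ε + C * ε) * |t - 0| := by
      apply intervalIntegral.norm_integral_le_of_norm_le_const
      intro s hs'
      rw [uIoc_of_le ht] at hs'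
      have hsI : s ∈ Icc 0 t := ⟨hs'.1.le, hs'.2⟩
      have j0 : ∫ x in (0 : ℝ)..L, (z s x * e'' x + F s x * e x) =
          (∫ x in (0 : ℝ)..L, z s x * e'' x) + ∫ x in (0 : ℝ)..L, F s x * e x :=
        intervalIntegral.integral_add ((hz.bs hsI.1).int hL hc) ((hF.bs hsI.1).int hL ce)
      have j1 : |∫ x in (0 : ℝ)..L, z s x * e'' x| ≤ C * ε :=
        space_bound' hL (bz s hsI) (hz.bs hsI.1) hc hε
      have j2 : |∫ x in (0 : ℝ)..L, F s x * e x| ≤ C * (ε * L) * L :=
        space_bound hL (bF s hsI) (fun x hx => (hs x hx).2)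
      have j3 : |gl s * e' 0| ≤ C * ε := by
        rw [abs_mul]
        exact mul_le_mul (bl s hsI) (hs 0 ⟨le_rfl, hL.le⟩).1 (abs_nonneg _) hC
      have j4 : |gr s * e' L| ≤ C * ε := by
        rw [abs_mul]
        exact mul_le_mul (br s hsI) (hs L ⟨hL.le, le_rfl⟩).1 (abs_nonneg _) hC
      rw [j0, Real.norm_eq_abs]
      refine (abs_sub _ _).trans ?_
      refine (add_le_add (abs_add_le _ _) le_rfl).trans ?_
      refine (add_le_add (add_le_add (abs_add_le _ _) le_rfl) le_rfl).trans ?_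
      linarith
    rwa [sub_zero, abs_of_nonneg ht] at this
  unfold defect
  refine (abs_sub _ _).trans ?_
  refine (add_le_add (abs_sub _ _) le_rfl).trans ?_
  have : C * (ε * L) * L + C * (ε * L) * L + (C * ε + C * (ε * L) * L + C * ε + C * ε) * t =
      (2 * C * L * L + (3 * C + C * L * L) * t) * ε := by ring
  linarith

/-- the weak formulation for the sine modes gives the weak formulation for all test functions -/
theorem Sol.defect_eq_zero {c : ℝ} (hL : 0 < L) (ht : 0 ≤ t) (S : Sol L z0 z F gl gr 0 c)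
    {e e' e'' : ℝ → ℝ} (he : ∀ x, HasDerivAt e (e' x) x)
    (he' : ∀ x, HasDerivAt e' (e'' x) x) (hc : Continuous e'') (h0 : e 0 = 0) (h1 : e L = 0) :
    defect L t z0 z F gl gr e (e' 0) (e' L) e'' = 0 := by
  have ce : Continuous e := continuous_iff_continuousAt.2 fun x => (he x).continuousAt
  -- the sine modes
  have hmode : ∀ n, defect L t z0 z F gl gr (sn L n) (wn L n * Real.cos (wn L n * 0))
      (wn L n * Real.cos (wn L n * L)) (fun x => -(wn L n) ^ 2 * sn L n x) = 0 := by
    intro n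
    have h := S.eq n t ht
    unfold coef at h
    unfold defect
    rw [h]
    have e1 : ∫ s in (0 : ℝ)..t, ((∫ x in (0 : ℝ)..L, (z s x * (-(wn L n) ^ 2 * sn L n x) +
        F s x * sn L n x)) + gl s * (wn L n * Real.cos (wn L n * 0)) -
        gr s * (wn L n * Real.cos (wn L n * L))) = ∫ s in (0 : ℝ)..t,
        (-(wn L n) ^ 2 * (∫ x in (0 : ℝ)..L, z s x * sn L n x) +
        (∫ x in (0 : ℝ)..L, F s x * sn L n x) +
        wn L n * (gl s - Real.cos (wn L n * L) * gr s) + 0 * sn L n c) := by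
      apply intervalIntegral.integral_congr
      intro s hs
      rw [uIcc_of_le ht] at hs
      have j0 : ∫ x in (0 : ℝ)..L, (z s x * (-(wn L n) ^ 2 * sn L n x) + F s x * sn L n x) =
          -(wn L n) ^ 2 * (∫ x in (0 : ℝ)..L, z s x * sn L n x) +
            ∫ x in (0 : ℝ)..L, F s x * sn L n x := by
        rw [← intervalIntegral.integral_const_mul, ← intervalIntegral.integral_add
          (((S.hz.bs hs.1).int hL (continuous_sn L n)).const_mul _)
          ((S.hF.bs hs.1).int hL (continuous_sn L n))]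
        apply intervalIntegral.integral_congr
        intro x _
        simp only []
        ring
      simp only []
      rw [j0, mul_zero, Real.cos_zero]
      ring
    rw [e1]
    ring
  -- sine polynomials
  have hpoly : ∀ (c' : ℕ → ℝ) (N : ℕ), defect L t z0 z F gl gr
      (fun x => ∑ n ∈ Finset.range N, (-(c' n) / (wn L n) ^ 2) * sn L n x)
      (∑ n ∈ Finset.range N, (-(c' n) / (wn L n) ^ 2) * (wn L n * Real.cos (wn L n * 0)))
      (∑ n ∈ Finset.range N, (-(c' n) / (wn L n) ^ 2) * (wn L n * Real.cos (wn L n * L)))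
      (fun x => ∑ n ∈ Finset.range N, (-(c' n) / (wn L n) ^ 2) * (-(wn L n) ^ 2 * sn L n x))
      = 0 := by
    intro c' N
    induction N with
    | zero => simp [defect]
    | succ N ih =>
      have c1 : ∀ (d : ℕ → ℝ), Continuous fun x => ∑ n ∈ Finset.range N, d n * sn L n x := by
        intro d
        apply continuous_finsetSum
        intro n _
        exact continuous_const.mul (continuous_sn L n)
      have c2 : Continuous fun x => ∑ n ∈ Finset.range N,
          (-(c' n) / (wn L n) ^ 2) * (-(wn L n) ^ 2 * sn L n x) := by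
        apply continuous_finsetSum
        intro n _
        exact continuous_const.mul (continuous_const.mul (continuous_sn L n))
      have := defect_lin (r := -(c' N) / (wn L N) ^ 2)
        (φ := fun x => ∑ n ∈ Finset.range N, (-(c' n) / (wn L n) ^ 2) * sn L n x)
        (ψ := fun x => ∑ n ∈ Finset.range N,
          (-(c' n) / (wn L n) ^ 2) * (-(wn L n) ^ 2 * sn L n x))
        (φ' := sn L N) (ψ' := fun x => -(wn L N) ^ 2 * sn L N x)
        (p := ∑ n ∈ Finset.range N, (-(c' n) / (wn L n) ^ 2) * (wn L n * Real.cos (wn L n * 0)))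
        (q := ∑ n ∈ Finset.range N, (-(c' n) / (wn L n) ^ 2) * (wn L n * Real.cos (wn L n * L)))
        (p' := wn L N * Real.cos (wn L N * 0)) (q' := wn L N * Real.cos (wn L N * L))
        hL ht S.hz0 S.hz S.hF S.hgl S.hgr (c1 _) c2
        (continuous_sn L N) (continuous_const.mul (continuous_sn L N))
      simp only [Finset.sum_range_succ]
      rw [this, ih, hmode N]
      simp
  -- approximation
  obtain ⟨C0, hC0⟩ := S.hz0.bdd
  obtain ⟨C1, hC1⟩ := S.hz.bdd t
  obtain ⟨C2, hC2⟩ := S.hF.bdd t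
  obtain ⟨C3, hC3⟩ := S.hgl.bdd t
  obtain ⟨C4, hC4⟩ := S.hgr.bdd t
  set C : ℝ := max C0 (max C1 (max C2 (max C3 C4))) with hCdef
  have k0 : C0 ≤ C := le_max_left _ _
  have k1 : C1 ≤ C := (le_max_left _ _).trans (le_max_right _ _)
  have k2 : C2 ≤ C := (le_max_left _ _).trans ((le_max_right _ _).trans (le_max_right _ _))
  have k3 : C3 ≤ C := (le_max_left _ _).trans
    ((le_max_right _ _).trans ((le_max_right _ _).trans (le_max_right _ _)))
  have k4 : C4 ≤ C := (le_max_right _ _).trans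
    ((le_max_right _ _).trans ((le_max_right _ _).trans (le_max_right _ _)))
  set K : ℝ := 2 * C * L * L + (3 * C + C * L * L) * t with hK
  have hCn : 0 ≤ C := (abs_nonneg _).trans ((hC0 0 ⟨le_rfl, hL.le⟩).trans k0)
  have hK0 : 0 ≤ K := by positivity
  have hsmall : ∀ ε > 0, |defect L t z0 z F gl gr e (e' 0) (e' L) e''| ≤ K * ε := by
    intro ε hε
    obtain ⟨N, c', hc'⟩ := dense_sine hL hc hε
    set P : ℝ → ℝ := fun x => ∑ n ∈ Finset.range N, (-(c' n) / (wn L n) ^ 2) * sn L n x with hP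
    set P' : ℝ → ℝ := fun x => ∑ n ∈ Finset.range N,
      (-(c' n) / (wn L n) ^ 2) * (wn L n * Real.cos (wn L n * x)) with hP'
    set P'' : ℝ → ℝ := fun x => ∑ n ∈ Finset.range N,
      (-(c' n) / (wn L n) ^ 2) * (-(wn L n) ^ 2 * sn L n x) with hP''
    have dP : ∀ x, HasDerivAt P (P' x) x := by
      intro x
      apply HasDerivAt.fun_sum
      intro n _
      exact (hasDerivAt_sn L n x).const_mul _
    have dP' : ∀ x, HasDerivAt P' (P'' x) x := by
      intro x
      apply HasDerivAt.fun_sum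
      intro n _
      exact (hasDerivAt_cos_wn L n x).const_mul _
    have cP : Continuous P := continuous_iff_continuousAt.2 fun x => (dP x).continuousAt
    have cP'' : Continuous P'' := by
      apply continuous_finsetSum
      intro n _
      exact continuous_const.mul (continuous_const.mul (continuous_sn L n))
    have hP0 : P 0 = 0 := by simp [hP, sn_zero]
    have hPL : P L = 0 := by simp [hP, sn_L hL]
    have hPc : ∀ x, P'' x = ∑ n ∈ Finset.range N, c' n * sn L n x := by
      intro x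
      apply Finset.sum_congr rfl
      intro n _
      have := (wn_pos hL n).ne'
      field_simp
    have hz := hpoly c' N
    have hlin := defect_lin (r := -1) hL ht S.hz0 S.hz S.hF S.hgl S.hgr ce hc cP cP''
      (p := e' 0) (q := e' L) (p' := P' 0) (q' := P' L)
    have hz' : defect L t z0 z F gl gr P (P' 0) (P' L) P'' = 0 := hz
    rw [hz', mul_zero, add_zero] at hlin
    rw [← hlin]
    apply defect_bound (e := fun x => e x + -1 * P x) (e' := fun x => e' x + -1 * P' x)
      (e'' := fun x => e'' x + -1 * P'' x) hL ht S.hz S.hF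
      (fun x hx => (hC0 x hx).trans k0) (fun s hs x hx => (hC1 s hs x hx).trans k1)
      (fun s hs x hx => (hC2 s hs x hx).trans k2) (fun s hs => (hC3 s hs).trans k3)
      (fun s hs => (hC4 s hs).trans k4)
      (fun x => (he x).fun_add ((dP x).const_mul (-1)))
      (fun x => (he' x).fun_add ((dP' x).const_mul (-1)))
      (hc.add (continuous_const.mul cP''))
    · simp [h0, hP0]
    · simp [h1, hPL]
    · refine le_trans (le_of_eq ?_) hc'
      apply intervalIntegral.integral_congr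
      intro x _
      simp only []
      rw [hPc x]
      congr 1
      ring
  have hz : |defect L t z0 z F gl gr e (e' 0) (e' L) e''| ≤ 0 := by
    refine le_of_forall_pos_le_add fun ε hε => ?_
    have h := hsmall (ε / (K + 1)) (by positivity)
    have e1 : K * (ε / (K + 1)) ≤ ε := by
      rw [← mul_div_assoc, div_le_iff₀ (by linarith)]
      nlinarith
    linarith
  exact abs_eq_zero.1 (le_antisymm hz (abs_nonneg _))

end Test

end Pool.Agent.LV65
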