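import Pool.Agent.Lib.MP_e2b89c_an.Ode

/-!
A nontrivial barrier is not below the coexistence equilibrium.
-/

namespace Pool.Agent.LV65

open MeasureTheory Set Filter Topology

/-- second derivative test at an interior maximum -/
lemma max_test {U U' g : ℝ → ℝ} {L x0 : ℝ} (dU : ∀ x, HasDerivAt U (U' x) x)
    (dU' : ∀ x, HasDerivAt U' (-g x) x) (hl : 0 < x0) (hr : x0 < L)
    (hmax : ∀ x ∈ Icc 0 L, U x ≤ U x0) : U' x0 = 0 ∧ 0 ≤ g x0 := by
  have hloc : IsLocalMax U x0 := by
    filter_upwards [Icc_mem_nhds hl hr] with t ht using hmax t ht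
  refine ⟨hloc.hasDerivAt_eq_zero (dU x0), ?_⟩
  have h1 : IsLocalMin (fun x => -U x) x0 := by
    filter_upwards [hloc] with t ht
    linarith
  have h2 := second_deriv_nonneg (g := fun x => -U x) (g' := fun x => -U' x) h1
    (fun x => (dU x).fun_neg) ((dU' x0).fun_neg)
  linarith

/-- a solution touching a constant equilibrium with its derivatives equals it at `0` -/
lemma OnI.back_unique {a b L x0 c1 c2 : ℝ} {U U' V V' : ℝ → ℝ} (ha : 0 ≤ a) (hb : 0 ≤ b)
    (S : OnI a b U U' V V' 0 L) (hx0 : x0 ∈ Icc 0 L) (hc1 : c1 ∈ Icc (0 : ℝ) 1)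
    (hc2 : c2 ∈ Icc (0 : ℝ) 1) (hG1 : G1 a c1 c2 = 0) (hG2 : G2 b c1 c2 = 0)
    (h1 : U x0 = c1) (h2 : V x0 = c2) (h3 : U' x0 = 0) (h4 : V' x0 = 0) : U 0 = c1 := by
  have hrefl : ∀ {u : ℝ → ℝ} {u' x : ℝ}, HasDerivAt u u' (x0 - x) →
      HasDerivAt (fun x => u (x0 - x)) (-u') x := fun h => HasDerivAt.comp_const_sub x0 _ h
  have hm : ∀ x ∈ Icc 0 x0, x0 - x ∈ Icc 0 L :=
    fun x hx => ⟨by linarith [hx.2], by linarith [hx.1, hx0.2]⟩
  have R : OnI a b (fun x => U (x0 - x)) (fun x => -U' (x0 - x)) (fun x => V (x0 - x))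
      (fun x => -V' (x0 - x)) 0 x0 := by
    refine ⟨?_, ?_, ?_, ?_, ?_⟩
    · intro x hx
      exact hrefl (S.dU _ (hm x hx))
    · intro x hx
      exact hrefl (S.dV _ (hm x hx))
    · intro x hx
      refine (hrefl (S.dU' _ (hm x hx))).fun_neg.congr_deriv ?_
      ring
    · intro x hx
      refine (hrefl (S.dV' _ (hm x hx))).fun_neg.congr_deriv ?_
      ring
    · intro x hx
      exact S.range _ (hm x hx)
  have C : OnI a b (fun _ => c1) (fun _ => 0) (fun _ => c2) (fun _ => 0) 0 x0 := by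
    refine ⟨?_, ?_, ?_, ?_, ?_⟩
    · intro x _
      exact hasDerivAt_const _ _
    · intro x _
      exact hasDerivAt_const _ _
    · intro x _
      rw [hG1, neg_zero]
      exact hasDerivAt_const _ _
    · intro x _
      rw [hG2, neg_zero]
      exact hasDerivAt_const _ _
    · intro x _
      exact ⟨hc1, hc2⟩
  have key := R.gronwall ha hb C x0 ⟨hx0.1, le_rfl⟩
  have e1 : ph (fun x => U (x0 - x)) (fun x => -U' (x0 - x)) (fun x => V (x0 - x))
      (fun x => -V' (x0 - x)) 0 = ph (fun _ => c1) (fun _ => 0) (fun _ => c2) (fun _ => 0) 0 := by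
    simp [ph, h1, h2, h3, h4]
  rw [e1, dist_self, zero_mul] at key
  have e2 := dist_le_zero.1 key
  have e3 := congrArg Prod.fst e2
  simpa [ph] using e3

/-- a barrier below the coexistence equilibrium vanishes -/
theorem not_le_coexistence {L a b : ℝ} {U U' g V V' h : ℝ → ℝ} (hL : 0 < L) (ha : 1 < a)
    (hb : 1 < b) (S : Stat L a b U U' g V V' h) (hU0 : U 0 = 0) (hV0 : V 0 = 0) (hUL : U L = 0)
    (hVL : V L = 0) (hle : ∀ x ∈ Icc 0 L, U x ≤ (a - 1) / (a * b - 1) ∧
      V x ≤ b * ((a - 1) / (a * b - 1))) : ∀ x ∈ Icc 0 L, U x = 0 ∧ V x = 0 := by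
  have ha0 : (0 : ℝ) ≤ a := by linarith
  have hb0 : (0 : ℝ) ≤ b := by linarith
  have hab : 0 < a * b - 1 := by nlinarith
  set p : ℝ := (a - 1) / (a * b - 1) with hp
  have hpe : p * (a * b - 1) = a - 1 := by rw [hp]; field_simp
  have hp0 : 0 < p := div_pos (by linarith) hab
  have hbp1 : b * p < 1 := by
    have : (1 - b * p) * (a * b - 1) = b - 1 := by
      have : (1 - b * p) * (a * b - 1) = (a * b - 1) - b * (p * (a * b - 1)) := by ring
      rw [this, hpe]; ring
    by_contra hcon
    push Not at hcon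
    nlinarith
  have hbp0 : 0 < b * p := by positivity
  have hp1 : p < 1 := by nlinarith
  -- the curve
  obtain ⟨δ, hδ0, hδ1, hδ2, hδ3⟩ : ∃ δ > 0, δ < 1 ∧ a * δ < a - 1 ∧ δ < b * p := by
    refine ⟨min (1 / 2) (min ((a - 1) / (2 * a)) (b * p / 2)), ?_, ?_, ?_, ?_⟩
    · apply lt_min (by norm_num)
      apply lt_min
      · exact div_pos (by linarith) (by linarith)
      · linarith
    · exact lt_of_le_of_lt (min_le_left _ _) (by norm_num)
    · have h1 : min (1 / 2) (min ((a - 1) / (2 * a)) (b * p / 2)) ≤ (a - 1) / (2 * a) :=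
        (min_le_right _ _).trans (min_le_left _ _)
      have h2 := mul_le_mul_of_nonneg_left h1 ha0
      have h3 : a * ((a - 1) / (2 * a)) = (a - 1) / 2 := by field_simp
      rw [h3] at h2
      linarith
    · have h1 : min (1 / 2) (min ((a - 1) / (2 * a)) (b * p / 2)) ≤ b * p / 2 :=
        (min_le_right _ _).trans (min_le_right _ _)
      linarith
  set ω : ℝ → ℝ := fun s => b * p * s + δ * (s * (1 - s)) with hω
  have hω0 : ω 0 = 0 := by simp [hω]
  have hω1 : ω 1 = b * p := by simp [hω]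
  have hωmono : ∀ s t : ℝ, 0 ≤ s → s ≤ t → t ≤ 1 → ω s ≤ ω t := by
    intro s t hs hst ht
    have e1 : ω t - ω s = (t - s) * (b * p + δ * (1 - s - t)) := by simp only [hω]; ring
    have e2 : 0 ≤ b * p + δ * (1 - s - t) := by nlinarith
    have := mul_nonneg (sub_nonneg.2 hst) e2
    linarith
  have hωle : ∀ s : ℝ, 0 < s → s < 1 → ω s < 1 := by
    intro s hs0 hs1
    simp only [hω]
    nlinarith [mul_pos hs0 (sub_pos.2 hs1), mul_pos hs0 (sub_pos.2 hbp1)]
  -- signs of the reaction on the curve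
  have hG1c : ∀ s : ℝ, 0 < s → s < 1 → G1 a (p * s) (ω s) < 0 := by
    intro s hs0 hs1
    have e1 : G1 a (p * s) (ω s) = -(p * s * (1 - s) * ((a - 1) - a * δ * s)) := by
      have e2 : G1 a (p * s) (ω s) = p * s * (1 - a + s * (p * (a * b - 1)) +
          a * δ * (s * (1 - s))) := by
        simp only [G1, hω]; ring
      rw [e2, hpe]; ring
    rw [e1]
    have e3 : 0 < (a - 1) - a * δ * s := by
      have : a * δ * s ≤ a * δ * 1 := mul_le_mul_of_nonneg_left hs1.le (by positivity)
      linarith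
    have : 0 < p * s * (1 - s) * ((a - 1) - a * δ * s) := by
      have := sub_pos.2 hs1
      positivity
    linarith
  have hG2c : ∀ s : ℝ, 0 < s → s < 1 → G2 b (p * s) (ω s) < 0 := by
    intro s hs0 hs1
    have e1 : G2 b (p * s) (ω s) = -((1 - ω s) * (δ * (s * (1 - s)))) := by
      simp only [G2, hω]; ring
    rw [e1]
    have : 0 < (1 - ω s) * (δ * (s * (1 - s))) := by
      have := sub_pos.2 hs1
      have := sub_pos.2 (hωle s hs0 hs1)
      positivity
    linarith
  have hG1eq : G1 a p (b * p) = 0 := by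
    have e2 : G1 a p (b * p) = p * (1 - a + p * (a * b - 1)) := by
      simp only [G1]; ring
    rw [e2, hpe]; ring
  have hG2eq : G2 b p (b * p) = 0 := by simp [G2]
  -- the maxima
  obtain ⟨x1, hx1, hm1⟩ := isCompact_Icc.exists_isMaxOn (nonempty_Icc.2 hL.le) S.cU.continuousOn
  obtain ⟨x2, hx2, hm2⟩ := isCompact_Icc.exists_isMaxOn (nonempty_Icc.2 hL.le) S.cV.continuousOn
  have hUM : ∀ x ∈ Icc 0 L, U x ≤ U x1 := fun x hx => hm1 hx
  have hVM : ∀ x ∈ Icc 0 L, V x ≤ V x2 := fun x hx => hm2 hx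
  have r1 := S.range x1 hx1
  have r2 := S.range x2 hx2
  set s1 : ℝ := U x1 / p with hs1
  have hs1e : p * s1 = U x1 := by rw [hs1]; field_simp
  have hs1m : s1 ∈ Icc (0 : ℝ) 1 := by
    refine ⟨div_nonneg r1.1.1 hp0.le, ?_⟩
    rw [hs1, div_le_one hp0]
    exact (hle x1 hx1).1
  have cω : Continuous ω := by
    simp only [hω]; fun_prop
  obtain ⟨s2, hs2m, hs2e⟩ : ∃ s ∈ Icc (0 : ℝ) 1, ω s = V x2 := by
    have := intermediate_value_Icc (zero_le_one (α := ℝ)) cω.continuousOn
    rw [hω0, hω1] at this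
    obtain ⟨s, hs, he⟩ := this (show V x2 ∈ Icc 0 (b * p) from ⟨r2.2.1, (hle x2 hx2).2⟩)
    exact ⟨s, hs, he⟩
  -- monotonicity of the reaction terms
  have mono1 : ∀ z w w' : ℝ, 0 ≤ z → w ≤ w' → G1 a z w ≤ G1 a z w' := by
    intro z w w' hz hw
    unfold G1
    have := mul_le_mul_of_nonneg_left hw (mul_nonneg hz ha0)
    nlinarith
  have mono2 : ∀ z z' w : ℝ, w ≤ 1 → z ≤ z' → G2 b z w ≤ G2 b z' w := by
    intro z z' w hw hz
    unfold G2
    have := mul_le_mul_of_nonneg_left hz (mul_nonneg (sub_nonneg.2 hw) hb0)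
    nlinarith
  have hint1 : 0 < s1 → 0 < x1 ∧ x1 < L := by
    intro h0
    have hU : 0 < U x1 := by rw [← hs1e]; positivity
    constructor
    · rcases hx1.1.eq_or_lt with h' | h'
      · exfalso; rw [← h', hU0] at hU; exact lt_irrefl _ hU
      · exact h'
    · rcases hx1.2.eq_or_lt with h' | h'
      · exfalso; rw [h', hUL] at hU; exact lt_irrefl _ hU
      · exact h'
  have hint2 : 0 < V x2 → 0 < x2 ∧ x2 < L := by
    intro hU
    constructor
    · rcases hx2.1.eq_or_lt with h' | h'
      · exfalso; rw [← h', hV0] at hU; exact lt_irrefl _ hU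
      · exact h'
    · rcases hx2.2.eq_or_lt with h' | h'
      · exfalso; rw [h', hVL] at hU; exact lt_irrefl _ hU
      · exact h'
  rcases le_total s2 s1 with hcase | hcase
  · -- the first component touches
    rcases hs1m.1.eq_or_lt with hz | hpos
    · -- everything vanishes
      have hU : U x1 = 0 := by rw [← hs1e, ← hz, mul_zero]
      have hs20 : s2 = 0 := le_antisymm (hcase.trans hz.symm.le) hs2m.1
      have hV : V x2 = 0 := by rw [← hs2e, hs20, hω0]
      intro x hx
      have := S.range x hx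
      exact ⟨le_antisymm ((hUM x hx).trans hU.le) this.1.1,
        le_antisymm ((hVM x hx).trans hV.le) this.2.1⟩
    · exfalso
      obtain ⟨i1, i2⟩ := hint1 hpos
      obtain ⟨d1, d2⟩ := max_test S.dU S.dU' i1 i2 hUM
      rw [S.eg x1 hx1] at d2
      have hVω : V x1 ≤ ω s1 := by
        refine (hVM x1 hx1).trans ?_
        rw [← hs2e]
        exact hωmono s2 s1 hs2m.1 hcase hs1m.2
      rcases hs1m.2.eq_or_lt with h1 | h1
      · -- touching at the equilibrium
        rw [h1, mul_one] at hs1e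
        rw [h1, hω1] at hVω
        rw [← hs1e] at d2
        have hV1 : V x1 = b * p := by
          by_contra hne
          have hlt : V x1 < b * p := lt_of_le_of_ne hVω hne
          have e1 : G1 a p (b * p) - G1 a p (V x1) = p * a * (b * p - V x1) := by
            unfold G1; ring
          have e2 : 0 < p * a * (b * p - V x1) := by
            have := sub_pos.2 hlt
            have : 0 < a := by linarith
            positivity
          rw [hG1eq] at e1
          linarith
        have hVM' : ∀ x ∈ Icc 0 L, V x ≤ V x1 := fun x hx => by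
          rw [hV1]; exact (hle x hx).2
        obtain ⟨d3, -⟩ := max_test S.dV S.dV' i1 i2 hVM'
        have := S.onI.back_unique ha0 hb0 hx1 ⟨hp0.le, hp1.le⟩ ⟨hbp0.le, hbp1.le⟩ hG1eq hG2eq
          hs1e.symm hV1 d1 d3
        rw [hU0] at this
        linarith
      · have e1 := mono1 (U x1) (V x1) (ω s1) r1.1.1 hVω
        have e2 := hG1c s1 hpos h1
        rw [hs1e] at e2
        linarith
  · -- the second component touches
    rcases hs2m.1.eq_or_lt with hz | hpos
    · have hs10 : s1 = 0 := le_antisymm (hcase.trans hz.symm.le) hs1m.1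
      have hU : U x1 = 0 := by rw [← hs1e, hs10, mul_zero]
      have hV : V x2 = 0 := by rw [← hs2e, ← hz, hω0]
      intro x hx
      have := S.range x hx
      exact ⟨le_antisymm ((hUM x hx).trans hU.le) this.1.1,
        le_antisymm ((hVM x hx).trans hV.le) this.2.1⟩
    · exfalso
      have hVpos : 0 < V x2 := by
        rw [← hs2e]
        have e1 : ω s2 = s2 * (b * p + δ * (1 - s2)) := by simp only [hω]; ring
        rw [e1]
        have : 0 ≤ 1 - s2 := sub_nonneg.2 hs2m.2
        positivity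
      obtain ⟨i1, i2⟩ := hint2 hVpos
      obtain ⟨d1, d2⟩ := max_test S.dV S.dV' i1 i2 hVM
      rw [S.eh x2 hx2] at d2
      have hUω : U x2 ≤ p * s2 := by
        refine (hUM x2 hx2).trans ?_
        rw [← hs1e]
        exact mul_le_mul_of_nonneg_left hcase hp0.le
      rcases hs2m.2.eq_or_lt with h1 | h1
      · rw [h1, hω1] at hs2e
        rw [h1, mul_one] at hUω
        rw [← hs2e] at d2
        have hU1 : U x2 = p := by
          by_contra hne
          have hlt : U x2 < p := lt_of_le_of_ne hUω hne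
          have e1 : G2 b p (b * p) - G2 b (U x2) (b * p) = (1 - b * p) * b * (p - U x2) := by
            unfold G2; ring
          have e2 : 0 < (1 - b * p) * b * (p - U x2) := by
            have := sub_pos.2 hlt
            have := sub_pos.2 hbp1
            positivity
          rw [hG2eq] at e1
          linarith
        have hUM' : ∀ x ∈ Icc 0 L, U x ≤ U x2 := fun x hx => by
          rw [hU1]; exact (hle x hx).1
        obtain ⟨d3, -⟩ := max_test S.dU S.dU' i1 i2 hUM'
        have := S.onI.back_unique ha0 hb0 hx2 ⟨hp0.le, hp1.le⟩ ⟨hbp0.le, hbp1.le⟩ hG1eq hG2eq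
          hU1 hs2e.symm d3 d1
        rw [hU0] at this
        linarith
      · have e1 := mono2 (U x2) (p * s2) (V x2) r2.2.2 hUω
        have e2 := hG2c s2 hpos h1
        rw [hs2e] at e2
        linarith

end Pool.Agent.LV65
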