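import Pool.Agent.Lib.MP_e2b89c_an.Defs
import Pool.Agent.Lib.MP_e2b89c_an.Weak
import Pool.Agent.Lib.MP_e2b89c_an.Max
import Pool.Agent.Lib.MP_e2b89c_an.Wstar

/-!
From the cooperative variables to the original system, and the two halves of the main theorem.
-/

namespace Pool.Agent.LV65

open MeasureTheory Set Filter Topology

variable {L : ℝ}

lemma integral_congr_Ioo (hL : 0 < L) {f g : ℝ → ℝ} (h : ∀ x ∈ Ioo 0 L, f x = g x) :
    ∫ x in (0 : ℝ)..L, f x = ∫ x in (0 : ℝ)..L, g x := by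
  apply intervalIntegral.integral_congr_ae
  have hne : ∀ᵐ x ∂(volume : Measure ℝ), x ≠ L := by
    simp [ae_iff, measure_singleton]
  filter_upwards [hne] with x hxL hx
  rw [uIoc_of_le hL.le] at hx
  exact h x ⟨hx.1, lt_of_le_of_ne hx.2 hxL⟩

/-- the mode formulation gives the weak formulation -/
lemma Sol.weakHeat {z0 y0 : ℝ → ℝ} {z F F' : ℝ → ℝ → ℝ} {gl gr : ℝ → ℝ} {c : ℝ} (hL : 0 < L)
    (S : Sol L z0 z F gl gr 0 c) (h0 : ∀ x ∈ Ioo 0 L, z0 x = y0 x)
    (hF : ∀ t, 0 ≤ t → ∀ x ∈ Icc 0 L, F t x = F' t x) : WeakHeat L y0 z F' gl gr := by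
  intro φ hφ φ0 φL t ht
  have hd : Differentiable ℝ φ := hφ.differentiable (by norm_num)
  have hφ' : ContDiff ℝ 1 (deriv φ) := by
    have : ContDiff ℝ (1 + 1) φ := by norm_num; exact hφ
    exact (contDiff_succ_iff_deriv.1 this).2.2
  have hd' : Differentiable ℝ (deriv φ) := hφ'.differentiable (by norm_num)
  have hc : Continuous (deriv (deriv φ)) := hφ'.continuous_deriv (by norm_num)
  have key := S.defect_eq_zero hL ht (e := φ) (e' := deriv φ) (e'' := deriv (deriv φ))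
    (fun x => (hd x).hasDerivAt) (fun x => (hd' x).hasDerivAt) hc φ0 φL
  unfold defect at key
  have e0 : ∫ x in (0 : ℝ)..L, z0 x * φ x = ∫ x in (0 : ℝ)..L, y0 x * φ x :=
    integral_congr_Ioo hL fun x hx => by rw [h0 x hx]
  have e1 : ∫ s in (0 : ℝ)..t, ((∫ x in (0 : ℝ)..L, (z s x * deriv (deriv φ) x + F s x * φ x)) +
        gl s * deriv φ 0 - gr s * deriv φ L) = ∫ s in (0 : ℝ)..t, ((∫ x in (0 : ℝ)..L,
        (z s x * deriv (deriv φ) x + F' s x * φ x)) + gl s * deriv φ 0 - gr s * deriv φ L) := by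
    apply intervalIntegral.integral_congr
    intro s hs
    rw [uIcc_of_le ht] at hs
    have : ∫ x in (0 : ℝ)..L, (z s x * deriv (deriv φ) x + F s x * φ x) =
        ∫ x in (0 : ℝ)..L, (z s x * deriv (deriv φ) x + F' s x * φ x) :=
      integral_congr_Ioo hL fun x hx => by rw [hF s hs.1 x ⟨hx.1.le, hx.2.le⟩]
    simp only []
    rw [this]
  rw [e0, e1] at key
  linarith

/-- the weak formulation gives the mode formulation -/
lemma WeakHeat.sol {y0 : ℝ → ℝ} {y F : ℝ → ℝ → ℝ} {ul ur : ℝ → ℝ} (hL : 0 < L)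
    (W : WeakHeat L y0 y F ul ur) (h0 : BS L y0) (hy : BM L y) (hF : BM L F) (hl : BG ul)
    (hr : BG ur) (c : ℝ) : Sol L y0 y F ul ur 0 c where
  hz0 := h0
  hz := hy
  hF := hF
  hgl := hl
  hgr := hr
  eq := by
    intro n t ht
    have hsn : ContDiff ℝ 2 (sn L n) := by
      unfold sn
      exact Real.contDiff_sin.comp (contDiff_const.mul contDiff_id)
    have hW := W (sn L n) hsn (sn_zero L n) (sn_L hL n) t ht
    have d1 : deriv (sn L n) = fun x => wn L n * Real.cos (wn L n * x) :=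
      funext fun x => (hasDerivAt_sn L n x).deriv
    have d2 : deriv (deriv (sn L n)) = fun x => -(wn L n) ^ 2 * sn L n x := by
      rw [d1]
      exact funext fun x => (hasDerivAt_cos_wn L n x).deriv
    rw [d2, d1] at hW
    unfold coef
    rw [hW]
    congr 1
    apply intervalIntegral.integral_congr
    intro s hs
    rw [uIcc_of_le ht] at hs
    have j0 : ∫ x in (0 : ℝ)..L, (y s x * (-(wn L n) ^ 2 * sn L n x) + F s x * sn L n x) =
        -(wn L n) ^ 2 * (∫ x in (0 : ℝ)..L, y s x * sn L n x) +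
          ∫ x in (0 : ℝ)..L, F s x * sn L n x := by
      rw [← intervalIntegral.integral_const_mul, ← intervalIntegral.integral_add
        (((hy.bs hs.1).int hL (continuous_sn L n)).const_mul _)
        ((hF.bs hs.1).int hL (continuous_sn L n))]
      apply intervalIntegral.integral_congr
      intro x _
      simp only []
      ring
    simp only []
    rw [j0, mul_zero, Real.cos_zero]
    ring

lemma IsControl.bg {u : ℝ → ℝ} (h : IsControl u) : BG u :=
  ⟨h.1, fun _ => ⟨1, fun t _ => by rw [abs_of_nonneg (h.2 t).1]; exact (h.2 t).2⟩⟩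

/-- the solution in cooperative variables -/
lemma IsSolution.sols {a b : ℝ} {y10 y20 u1l u1r u2l u2r : ℝ → ℝ} {y1 y2 : ℝ → ℝ → ℝ} (hL : 0 < L)
    (S : IsSolution a b L y10 y20 u1l u1r u2l u2r y1 y2) (h1 : BS L y10) (h2 : BS L y20)
    (k1 : IsControl u1l) (k2 : IsControl u1r) (k3 : IsControl u2l) (k4 : IsControl u2r) (c : ℝ) :
    Sol L y10 y1 (fun s x => G1 a (y1 s x) (1 - y2 s x)) u1l u1r 0 c ∧
    Sol L (fun x => 1 - y20 x) (fun s x => 1 - y2 s x) (fun s x => G2 b (y1 s x) (1 - y2 s x))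
      (fun s => 1 - u2l s) (fun s => 1 - u2r s) 0 c := by
  have B1 : BM L y1 := ⟨S.meas.1, fun T => ⟨1, fun t ht x hx => by
    have := (S.range t ht.1 x hx).1
    rw [abs_of_nonneg this.1]; exact this.2⟩⟩
  have B2 : BM L y2 := ⟨S.meas.2, fun T => ⟨1, fun t ht x hx => by
    have := (S.range t ht.1 x hx).2
    rw [abs_of_nonneg this.1]; exact this.2⟩⟩
  have B3 : BM L fun s x => 1 - y2 s x := (BM.const L 1).sub B2
  have BF1 : BM L (fun s x => react1 a (y1 s x) (y2 s x)) := by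
    have := BM.G1 (a := a) B1 B3
    have e : (fun s x => react1 a (y1 s x) (y2 s x)) =
        fun s x => Pool.Agent.LV65.G1 a (y1 s x) (1 - y2 s x) := by
      funext s x
      unfold react1 Pool.Agent.LV65.G1
      ring
    rw [e]; exact this
  have BF2 : BM L (fun s x => react2 b (y1 s x) (y2 s x)) := by
    have := (BM.const L 0).sub (BM.G2 (b := b) B1 B3)
    have e : (fun s x => react2 b (y1 s x) (y2 s x)) =
        fun s x => 0 - Pool.Agent.LV65.G2 b (y1 s x) (1 - y2 s x) := by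
      funext s x
      unfold react2 Pool.Agent.LV65.G2
      ring
    rw [e]; exact this
  constructor
  · refine (S.weak1.sol hL h1 B1 BF1 k1.bg k2.bg c).congr hL (BM.G1 B1 B3) ?_
    intro t _ x _
    unfold react1 G1
    ring
  · have s1 := Sol.const_space hL (κ := fun _ => (1 : ℝ)) (κ' := fun _ => 0)
      (fun t => hasDerivAt_const t 1) continuous_const c
    have s2 := s1.sub hL (S.weak2.sol hL h2 B2 BF2 k3.bg k4.bg c)
    rw [sub_zero] at s2
    refine s2.congr hL (BM.G2 B1 B3) ?_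
    intro t _ x _
    unfold react2 G2
    ring

/-- solutions of the controlled system are unique -/
theorem IsSolution.unique {a b : ℝ} {y10 y20 u1l u1r u2l u2r : ℝ → ℝ} {y1 y2 v1 v2 : ℝ → ℝ → ℝ}
    (hL : 0 < L) (ha : 0 ≤ a) (hb : 0 ≤ b) (h1 : BS L y10) (h2 : BS L y20)
    (k1 : IsControl u1l) (k2 : IsControl u1r) (k3 : IsControl u2l) (k4 : IsControl u2r)
    (S : IsSolution a b L y10 y20 u1l u1r u2l u2r y1 y2)
    (S' : IsSolution a b L y10 y20 u1l u1r u2l u2r v1 v2) :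
    ∀ t, 0 < t → ∀ x ∈ Icc 0 L, y1 t x = v1 t x ∧ y2 t x = v2 t x := by
  have hc : (0 : ℝ) ∈ Icc 0 L := ⟨le_rfl, hL.le⟩
  -- comparison in one direction
  have key : ∀ {y1 y2 v1 v2 : ℝ → ℝ → ℝ}, IsSolution a b L y10 y20 u1l u1r u2l u2r y1 y2 →
      IsSolution a b L y10 y20 u1l u1r u2l u2r v1 v2 → ∀ t, 0 < t →
      ∀ᵐ x ∂(volume.restrict (Ioc 0 L)), v1 t x ≤ y1 t x ∧ 1 - v2 t x ≤ 1 - y2 t x := by
    intro y1 y2 v1 v2 S S' t ht
    obtain ⟨A1, A2⟩ := S.sols hL h1 h2 k1 k2 k3 k4 0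
    obtain ⟨A1', A2'⟩ := S'.sols hL h1 h2 k1 k2 k3 k4 0
    apply sys_le hL ha hb A1 A2 A1' A2' hc le_rfl le_rfl ht.le
    · exact Eventually.of_forall fun x => le_rfl
    · exact Eventually.of_forall fun x => le_rfl
    · intro s _; exact le_rfl
    · intro s _; exact le_rfl
    · intro s _; exact le_rfl
    · intro s _; exact le_rfl
    · intro s hs
      rw [ae_restrict_iff' measurableSet_Ioc]
      refine Eventually.of_forall fun x hx => ?_
      have r1 := S.range s hs.1 x ⟨hx.1.le, hx.2⟩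
      have r2 := S'.range s hs.1 x ⟨hx.1.le, hx.2⟩
      exact ⟨r1.1, ⟨by linarith [r1.2.2], by linarith [r1.2.1]⟩, r2.1,
        ⟨by linarith [r2.2.2], by linarith [r2.2.1]⟩⟩
    · intro s _
      exact Eventually.of_forall fun x => ⟨le_rfl, le_rfl, le_rfl, le_rfl⟩
  intro t ht x hx
  rcases hx.1.eq_or_lt with h | hx0
  · subst h
    have e1 := S.bdry t ht
    have e2 := S'.bdry t ht
    exact ⟨e1.1.trans e2.1.symm, e1.2.2.1.trans e2.2.2.1.symm⟩
  rcases hx.2.eq_or_lt with h | hxL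
  · subst h
    have e1 := S.bdry t ht
    have e2 := S'.bdry t ht
    exact ⟨e1.2.1.trans e2.2.1.symm, e1.2.2.2.trans e2.2.2.2.symm⟩
  have hae : ∀ᵐ x ∂(volume.restrict (Ioo 0 L)), y1 t x = v1 t x ∧ y2 t x = v2 t x := by
    have q1 := key S S' t ht
    have q2 := key S' S t ht
    have : ∀ᵐ x ∂(volume.restrict (Ioc 0 L)), y1 t x = v1 t x ∧ y2 t x = v2 t x := by
      filter_upwards [q1, q2] with x hx1 hx2
      exact ⟨le_antisymm hx2.1 hx1.1, by linarith [hx1.2, hx2.2]⟩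
    exact ae_restrict_of_ae_restrict_of_subset Ioo_subset_Ioc_self this
  have hsec : ∀ {f : ℝ → ℝ → ℝ}, ContinuousOn (Function.uncurry f) (Ioi 0 ×ˢ Ioo 0 L) →
      ContinuousOn (f t) (Ioo 0 L) := by
    intro f hf
    exact hf.comp (continuous_const.prodMk continuous_id).continuousOn (fun y hy => ⟨ht, hy⟩)
  have m1 : EqOn (y1 t) (v1 t) (Ioo 0 L) := by
    apply Measure.eqOn_open_of_ae_eq (μ := volume) _ isOpen_Ioo (hsec S.cont.1) (hsec S'.cont.1)
    filter_upwards [hae] with x hx using hx.1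
  have m2 : EqOn (y2 t) (v2 t) (Ioo 0 L) := by
    apply Measure.eqOn_open_of_ae_eq (μ := volume) _ isOpen_Ioo (hsec S.cont.2) (hsec S'.cont.2)
    filter_upwards [hae] with x hx using hx.2
  exact ⟨m1 ⟨hx0, hxL⟩, m2 ⟨hx0, hxL⟩⟩

end Pool.Agent.LV65
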