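import Pool.Agent.Lib.MP_e2b89c_an.Mode

/-!
Algebra of weak solutions and the comparison theorem for cooperative systems.
-/

namespace Pool.Agent.LV65

open MeasureTheory Set Filter Topology

variable {L : ℝ} {z0 z0' : ℝ → ℝ} {z F z' F' : ℝ → ℝ → ℝ} {gl gr gl' gr' : ℝ → ℝ} {m m' c : ℝ}

lemma Sol.sub (hL : 0 < L) (S : Sol L z0 z F gl gr m c) (S' : Sol L z0' z' F' gl' gr' m' c) :
    Sol L (fun x => z0 x - z0' x) (fun t x => z t x - z' t x) (fun t x => F t x - F' t x)
      (fun s => gl s - gl' s) (fun s => gr s - gr' s) (m - m') c where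
  hz0 := S.hz0.sub S'.hz0
  hz := S.hz.sub S'.hz
  hF := S.hF.sub S'.hF
  hgl := S.hgl.sub S'.hgl
  hgr := S.hgr.sub S'.hgr
  eq := by
    intro n t ht
    rw [coef_sub hL n (S.hz.bs ht) (S'.hz.bs ht), coef_sub hL n S.hz0 S'.hz0, S.eq n t ht,
      S'.eq n t ht]
    have h1 := (S.rhs_bg hL n).intervalIntegrable ht
    have h2 := (S'.rhs_bg hL n).intervalIntegrable ht
    have h3 := intervalIntegral.integral_sub h1 h2
    have h4 : (∫ s in (0 : ℝ)..t, (-(wn L n) ^ 2 * coef L n (fun x => z s x - z' s x) +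
        coef L n (fun x => F s x - F' s x) +
        wn L n * (gl s - gl' s - Real.cos (wn L n * L) * (gr s - gr' s)) +
          (m - m') * sn L n c)) =
        ∫ s in (0 : ℝ)..t, ((-(wn L n) ^ 2 * coef L n (z s) + coef L n (F s) +
      wn L n * (gl s - Real.cos (wn L n * L) * gr s) + m * sn L n c) -
        (-(wn L n) ^ 2 * coef L n (z' s) + coef L n (F' s) +
      wn L n * (gl' s - Real.cos (wn L n * L) * gr' s) + m' * sn L n c)) := by
      apply intervalIntegral.integral_congr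
      intro s hs
      rw [uIcc_of_le ht] at hs
      simp only []
      rw [coef_sub hL n (S.hz.bs hs.1) (S'.hz.bs hs.1), coef_sub hL n (S.hF.bs hs.1) (S'.hF.bs hs.1)]
      ring
    rw [h4, h3]
    ring

lemma Sol.add (hL : 0 < L) (S : Sol L z0 z F gl gr m c) (S' : Sol L z0' z' F' gl' gr' m' c) :
    Sol L (fun x => z0 x + z0' x) (fun t x => z t x + z' t x) (fun t x => F t x + F' t x)
      (fun s => gl s + gl' s) (fun s => gr s + gr' s) (m + m') c where
  hz0 := S.hz0.add S'.hz0
  hz := S.hz.add S'.hz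
  hF := S.hF.add S'.hF
  hgl := S.hgl.add S'.hgl
  hgr := S.hgr.add S'.hgr
  eq := by
    intro n t ht
    rw [coef_add hL n (S.hz.bs ht) (S'.hz.bs ht), coef_add hL n S.hz0 S'.hz0, S.eq n t ht,
      S'.eq n t ht]
    have h1 := (S.rhs_bg hL n).intervalIntegrable ht
    have h2 := (S'.rhs_bg hL n).intervalIntegrable ht
    have h3 := intervalIntegral.integral_add h1 h2
    have h4 : (∫ s in (0 : ℝ)..t, (-(wn L n) ^ 2 * coef L n (fun x => z s x + z' s x) +
        coef L n (fun x => F s x + F' s x) +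
        wn L n * (gl s + gl' s - Real.cos (wn L n * L) * (gr s + gr' s)) +
          (m + m') * sn L n c)) =
        ∫ s in (0 : ℝ)..t, ((-(wn L n) ^ 2 * coef L n (z s) + coef L n (F s) +
      wn L n * (gl s - Real.cos (wn L n * L) * gr s) + m * sn L n c) +
        (-(wn L n) ^ 2 * coef L n (z' s) + coef L n (F' s) +
      wn L n * (gl' s - Real.cos (wn L n * L) * gr' s) + m' * sn L n c)) := by
      apply intervalIntegral.integral_congr
      intro s hs
      rw [uIcc_of_le ht] at hs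
      simp only []
      rw [coef_add hL n (S.hz.bs hs.1) (S'.hz.bs hs.1), coef_add hL n (S.hF.bs hs.1) (S'.hF.bs hs.1)]
      ring
    rw [h4, h3]
    ring

lemma coef_one (hL : 0 < L) (n : ℕ) (r : ℝ) :
    (wn L n) ^ 2 * coef L n (fun _ => r) = wn L n * (r - Real.cos (wn L n * L) * r) := by
  have h1 : coef L n (fun _ => r) = r * ∫ x in (0 : ℝ)..L, sn L n x := by
    unfold coef
    rw [intervalIntegral.integral_const_mul]
  have h2 : wn L n * ∫ x in (0 : ℝ)..L, sn L n x = 1 - Real.cos (wn L n * L) := by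
    have h3 : ∫ x in (0 : ℝ)..L, (wn L n * sn L n x) =
        (-Real.cos (wn L n * L)) - (-Real.cos (wn L n * 0)) := by
      apply intervalIntegral.integral_eq_sub_of_hasDerivAt (f := fun x => -Real.cos (wn L n * x))
      · intro x _
        have h : HasDerivAt (fun x : ℝ => wn L n * x) (wn L n) x := by
          simpa using (hasDerivAt_id x).const_mul (wn L n)
        have := h.cos.neg
        have e : wn L n * sn L n x = -(-Real.sin (wn L n * x) * wn L n) := by
          unfold sn; ring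
        rw [e]
        exact this
      · exact (continuous_const.mul (continuous_sn L n)).intervalIntegrable _ _
    rw [intervalIntegral.integral_const_mul] at h3
    rw [h3]
    simp
    ring
  rw [h1]
  calc (wn L n) ^ 2 * (r * ∫ x in (0 : ℝ)..L, sn L n x) =
      wn L n * r * (wn L n * ∫ x in (0 : ℝ)..L, sn L n x) := by ring
    _ = _ := by rw [h2]; ring

lemma Sol.const_space (hL : 0 < L) {κ κ' : ℝ → ℝ} (hκ : ∀ t, HasDerivAt κ (κ' t) t)
    (hκ' : Continuous κ') (c : ℝ) :
    Sol L (fun _ => κ 0) (fun t _ => κ t) (fun t _ => κ' t) κ κ 0 c where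
  hz0 := BS.const L _
  hz := BM.of_time (BG.of_continuous (continuous_iff_continuousAt.2 fun t => (hκ t).continuousAt))
  hF := BM.of_time (BG.of_continuous hκ')
  hgl := BG.of_continuous (continuous_iff_continuousAt.2 fun t => (hκ t).continuousAt)
  hgr := BG.of_continuous (continuous_iff_continuousAt.2 fun t => (hκ t).continuousAt)
  eq := by
    intro n t ht
    have h1 : ∀ r : ℝ, coef L n (fun _ => r) = r * coef L n (fun _ => 1) := by
      intro r
      have := coef_const_mul (L := L) n r (fun _ => 1)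
      simpa using this
    have h2 : ∫ s in (0 : ℝ)..t, (-(wn L n) ^ 2 * coef L n (fun _ => κ s) +
        coef L n (fun _ => κ' s) + wn L n * (κ s - Real.cos (wn L n * L) * κ s) +
          0 * sn L n c) = ∫ s in (0 : ℝ)..t, κ' s * coef L n (fun _ => 1) := by
      apply intervalIntegral.integral_congr
      intro s _
      simp only []
      have := coef_one hL n (κ s)
      rw [h1 (κ' s)]
      linear_combination (-1) * this
    rw [h2, intervalIntegral.integral_mul_const,
      intervalIntegral.integral_eq_sub_of_hasDerivAt (fun s _ => hκ s)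
        (hκ'.intervalIntegrable _ _), h1 (κ t), h1 (κ 0)]
    ring

lemma BG.shift {g : ℝ → ℝ} (hg : BG g) {h : ℝ} (hh : 0 ≤ h) : BG (fun t => g (t + h)) := by
  refine ⟨hg.meas.comp (measurable_id.add_const h), fun T => ?_⟩
  obtain ⟨C, hC⟩ := hg.bdd (T + h)
  exact ⟨C, fun t ht => hC _ ⟨by linarith [ht.1], by linarith [ht.2]⟩⟩

lemma BM.shift {z : ℝ → ℝ → ℝ} (hz : BM L z) {h : ℝ} (hh : 0 ≤ h) :
    BM L (fun t => z (t + h)) := by
  refine ⟨?_, fun T => ?_⟩
  · have : Measurable fun p : ℝ × ℝ => (p.1 + h, p.2) :=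
      (measurable_fst.add_const h).prodMk measurable_snd
    exact hz.meas.comp this
  · obtain ⟨C, hC⟩ := hz.bdd (T + h)
    exact ⟨C, fun t ht => hC _ ⟨by linarith [ht.1], by linarith [ht.2]⟩⟩

lemma Sol.shift (hL : 0 < L) (S : Sol L z0 z F gl gr m c) {h : ℝ} (hh : 0 ≤ h) :
    Sol L (z h) (fun t => z (t + h)) (fun t => F (t + h)) (fun t => gl (t + h))
      (fun t => gr (t + h)) m c where
  hz0 := S.hz.bs hh
  hz := S.hz.shift hh
  hF := S.hF.shift hh
  hgl := S.hgl.shift hh
  hgr := S.hgr.shift hh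
  eq := by
    intro n t ht
    have h1 := S.eq n (t + h) (by linarith)
    have h2 := S.eq n h hh
    have hi := S.rhs_bg hL n
    rw [h1, h2]
    have h3 := intervalIntegral.integral_add_adjacent_intervals
      (hi.intervalIntegrable hh) ((hi.intervalIntegrable hh).symm.trans
        (hi.intervalIntegrable (show 0 ≤ t + h by linarith)))
    rw [← h3]
    have h4 := intervalIntegral.integral_comp_add_right (a := 0) (b := t)
      (fun s => (-(wn L n) ^ 2 * coef L n (z s) + coef L n (F s) +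
        wn L n * (gl s - Real.cos (wn L n * L) * gr s) + m * sn L n c)) h
    rw [h4, zero_add]
    ring

/-- comparison for cooperative systems of two equations -/
theorem compare (hL : 0 < L) {w01 w02 : ℝ → ℝ} {w1 w2 F1 F2 : ℝ → ℝ → ℝ}
    {gl1 gr1 gl2 gr2 : ℝ → ℝ} {m1 m2 c : ℝ}
    (S1 : Sol L w01 w1 F1 gl1 gr1 m1 c) (S2 : Sol L w02 w2 F2 gl2 gr2 m2 c)
    {lam K : ℝ} (hlam : 0 ≤ lam) (hK : 0 ≤ K) (hc : c ∈ Icc 0 L) (hm1 : 0 ≤ m1) (hm2 : 0 ≤ m2)
    (p01 : ∀ᵐ x ∂(volume.restrict (Ioc 0 L)), 0 ≤ w01 x)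
    (p02 : ∀ᵐ x ∂(volume.restrict (Ioc 0 L)), 0 ≤ w02 x)
    {T : ℝ} (hT : 0 ≤ T)
    (pl1 : ∀ s ∈ Icc 0 T, 0 ≤ gl1 s) (pr1 : ∀ s ∈ Icc 0 T, 0 ≤ gr1 s)
    (pl2 : ∀ s ∈ Icc 0 T, 0 ≤ gl2 s) (pr2 : ∀ s ∈ Icc 0 T, 0 ≤ gr2 s)
    (hq : ∀ s ∈ Icc 0 T, ∀ᵐ x ∂(volume.restrict (Ioc 0 L)), ∀ κ : ℝ, 0 ≤ κ →
      -κ ≤ w1 s x → -κ ≤ w2 s x →
        -(K * κ) ≤ F1 s x + lam * w1 s x ∧ -(K * κ) ≤ F2 s x + lam * w2 s x) :
    ∀ᵐ x ∂(volume.restrict (Ioc 0 L)), 0 ≤ w1 T x ∧ 0 ≤ w2 T x := by
  obtain ⟨C1, hC1⟩ := S1.hz.bdd T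
  obtain ⟨C2, hC2⟩ := S2.hz.bdd T
  set M : ℝ := max C1 C2 with hM
  have hM0 : 0 ≤ M := le_trans (abs_nonneg _)
    ((hC1 0 ⟨le_rfl, hT⟩ 0 ⟨le_rfl, hL.le⟩).trans (le_max_left _ _))
  set κ : ℕ → ℝ → ℝ := fun k t => M * ((K * t) ^ k / (k.factorial : ℝ)) with hκ
  have hκ0 : ∀ k t, 0 ≤ t → 0 ≤ κ k t := by
    intro k t ht
    simp only [hκ]
    positivity
  have hκd : ∀ k t, HasDerivAt (κ (k + 1)) (K * κ k t) t := by
    intro k t
    have h1 : HasDerivAt (fun t : ℝ => K * t) K t := by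
      simpa using (hasDerivAt_id t).const_mul K
    have h2 := (((h1.fun_pow (k + 1)).div_const ((k + 1).factorial : ℝ)).const_mul M)
    simp only [hκ]
    refine h2.congr_deriv ?_
    rw [Nat.factorial_succ]
    push_cast
    have : (k.factorial : ℝ) ≠ 0 := by positivity
    field_simp
    try simp
  have hκc : ∀ k, Continuous (κ k) := by
    intro k
    simp only [hκ]
    fun_prop
  have key : ∀ k : ℕ, ∀ t ∈ Icc 0 T, ∀ᵐ x ∂(volume.restrict (Ioc 0 L)),
      -κ k t ≤ w1 t x ∧ -κ k t ≤ w2 t x := by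
    intro k
    induction k with
    | zero =>
      intro t ht
      filter_upwards [ae_restrict_mem measurableSet_Ioc] with x hx
      have hx' : x ∈ Icc 0 L := ⟨hx.1.le, hx.2⟩
      have e1 := (abs_le.1 (hC1 t ht x hx')).1
      have e2 := (abs_le.1 (hC2 t ht x hx')).1
      have e3 : C1 ≤ M := le_max_left _ _
      have e4 : C2 ≤ M := le_max_right _ _
      simp only [hκ, pow_zero, Nat.factorial_zero, Nat.cast_one, div_one, mul_one]
      constructor <;> linarith
    | succ k ih =>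
      intro t ht
      have A1 := S1.add hL (Sol.const_space hL (hκd k) (continuous_const.mul (hκc k)) c)
      have A2 := S2.add hL (Sol.const_space hL (hκd k) (continuous_const.mul (hκc k)) c)
      have hk0 : κ (k + 1) 0 = 0 := by simp [hκ]
      have hsub : Icc 0 t ⊆ Icc 0 T := Icc_subset_Icc_right ht.2
      have B1 := A1.nonneg hL lam (by linarith) hc ht.1 (by
        filter_upwards [p01] with x hx
        rw [hk0]; linarith) (by
        intro s hs
        filter_upwards [ih s (hsub hs), hq s (hsub hs)] with x h1 h2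
        have h3 := (h2 _ (hκ0 k s hs.1) h1.1 h1.2).1
        have h4 := mul_nonneg hlam (hκ0 (k + 1) s hs.1)
        linarith) (fun s hs => add_nonneg (pl1 s (hsub hs)) (hκ0 _ s hs.1))
          (fun s hs => add_nonneg (pr1 s (hsub hs)) (hκ0 _ s hs.1))
      have B2 := A2.nonneg hL lam (by linarith) hc ht.1 (by
        filter_upwards [p02] with x hx
        rw [hk0]; linarith) (by
        intro s hs
        filter_upwards [ih s (hsub hs), hq s (hsub hs)] with x h1 h2
        have h3 := (h2 _ (hκ0 k s hs.1) h1.1 h1.2).2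
        have h4 := mul_nonneg hlam (hκ0 (k + 1) s hs.1)
        linarith) (fun s hs => add_nonneg (pl2 s (hsub hs)) (hκ0 _ s hs.1))
          (fun s hs => add_nonneg (pr2 s (hsub hs)) (hκ0 _ s hs.1))
      filter_upwards [B1, B2] with x h1 h2
      constructor <;> linarith
  have hall : ∀ᵐ x ∂(volume.restrict (Ioc 0 L)), ∀ k : ℕ,
      -κ k T ≤ w1 T x ∧ -κ k T ≤ w2 T x := by
    rw [ae_all_iff]
    intro k
    exact key k T ⟨hT, le_rfl⟩
  have hlim : Tendsto (fun k => -κ k T) atTop (𝓝 0) := by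
    have h1 := FloorSemiring.tendsto_pow_div_factorial_atTop (K * T)
    have h2 := (h1.const_mul M).neg
    simpa using h2
  filter_upwards [hall] with x hx
  exact ⟨le_of_tendsto' hlim fun k => (hx k).1, le_of_tendsto' hlim fun k => (hx k).2⟩

end Pool.Agent.LV65
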