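import Pool.Agent.Lib.MP_e2b89c_an.Inf

/-!
Cut-off of the half line solution and existence of barriers on long intervals.
-/

namespace Pool.Agent.LV65

open MeasureTheory Set Filter Topology

lemma hasDerivAt_maxpow (n : ℕ) (x : ℝ) :
    HasDerivAt (fun x : ℝ => (max x 0) ^ (n + 2)) (((n : ℝ) + 2) * (max x 0) ^ (n + 1)) x := by
  rcases lt_trichotomy x 0 with h | h | h
  · have e : (fun x : ℝ => (max x 0) ^ (n + 2)) =ᶠ[𝓝 x] fun _ => 0 := by
      filter_upwards [gt_mem_nhds h] with y hy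
      rw [max_eq_right hy.le]; simp
    rw [max_eq_right h.le]
    have := (hasDerivAt_const x (0 : ℝ)).congr_of_eventuallyEq e
    simpa using this
  · subst h
    have e : ((n : ℝ) + 2) * (max (0 : ℝ) 0) ^ (n + 1) = 0 := by simp
    rw [e, hasDerivAt_iff_isLittleO]
    simp only [max_self, ne_eq, Nat.add_eq_zero_iff, OfNat.ofNat_ne_zero, and_false,
      not_false_eq_true, zero_pow, sub_zero, smul_zero]
    have h1 : (fun x : ℝ => (max x 0) ^ (n + 2)) =O[𝓝 0] fun x : ℝ => x ^ (n + 2) := by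
      apply Asymptotics.IsBigO.of_bound 1
      refine Eventually.of_forall fun y => ?_
      rw [norm_pow, norm_pow, one_mul]
      apply pow_le_pow_left₀ (norm_nonneg _)
      rw [Real.norm_eq_abs, Real.norm_eq_abs, abs_of_nonneg (le_max_right _ _)]
      exact max_le (le_abs_self _) (abs_nonneg _)
    have h2 : (fun x : ℝ => x ^ (n + 2)) =o[𝓝 0] fun x : ℝ => x := by
      have := Asymptotics.isLittleO_pow_id (𝕜 := ℝ) (n := n + 2) (by omega)
      exact this
    exact h1.trans_isLittleO h2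
  · have e : (fun x : ℝ => (max x 0) ^ (n + 2)) =ᶠ[𝓝 x] fun x => x ^ (n + 2) := by
      filter_upwards [lt_mem_nhds h] with y hy
      rw [max_eq_left hy.le]
    rw [max_eq_left h.le]
    have := (hasDerivAt_pow (n + 2) x).congr_of_eventuallyEq e
    refine this.congr_deriv ?_
    push_cast
    simp

/-- a `C²` function vanishing for `x ≤ 0` -/
noncomputable def rho (x : ℝ) : ℝ := (max x 0) ^ 3 / 3
noncomputable def rho1 (x : ℝ) : ℝ := (max x 0) ^ 2
noncomputable def rho2 (x : ℝ) : ℝ := 2 * max x 0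

lemma hasDerivAt_rho (x : ℝ) : HasDerivAt rho (rho1 x) x := by
  have := (hasDerivAt_maxpow 1 x).div_const 3
  unfold rho rho1
  refine this.congr_deriv ?_
  norm_num

lemma hasDerivAt_rho1 (x : ℝ) : HasDerivAt rho1 (rho2 x) x := by
  have := hasDerivAt_maxpow 0 x
  unfold rho1 rho2
  refine this.congr_deriv ?_
  simp

lemma continuous_rho2 : Continuous rho2 := by unfold rho2; fun_prop

/-- the smooth transition and its derivatives -/
noncomputable def sg (x : ℝ) : ℝ := Real.smoothTransition x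
noncomputable def sg1 (x : ℝ) : ℝ := deriv Real.smoothTransition x
noncomputable def sg2 (x : ℝ) : ℝ := deriv (deriv Real.smoothTransition) x

lemma hasDerivAt_sg (x : ℝ) : HasDerivAt sg (sg1 x) x := by
  have h : ContDiff ℝ 2 Real.smoothTransition := Real.smoothTransition.contDiff
  exact ((h.differentiable (by norm_num)) x).hasDerivAt

lemma contDiff_sg1 : ContDiff ℝ 1 (deriv Real.smoothTransition) := by
  have h : ContDiff ℝ 2 Real.smoothTransition := Real.smoothTransition.contDiff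
  have h2 : ContDiff ℝ (1 + 1) Real.smoothTransition := by
    convert h using 1
    norm_num
  exact (contDiff_succ_iff_deriv.1 h2).2.2

lemma hasDerivAt_sg1 (x : ℝ) : HasDerivAt sg1 (sg2 x) x :=
  ((contDiff_sg1.differentiable (by norm_num)) x).hasDerivAt

lemma continuous_sg2 : Continuous sg2 := contDiff_sg1.continuous_deriv (by norm_num)

lemma sg_neg {x : ℝ} (hx : x ≤ 0) : sg x = 0 := Real.smoothTransition.zero_of_nonpos hx

lemma sg_one {x : ℝ} (hx : 1 ≤ x) : sg x = 1 := Real.smoothTransition.one_of_one_le hx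

lemma sg_mem (x : ℝ) : sg x ∈ Icc (0 : ℝ) 1 :=
  ⟨Real.smoothTransition.nonneg x, Real.smoothTransition.le_one x⟩

lemma sg1_gt {x : ℝ} (hx : 1 < x) : sg1 x = 0 := by
  have e : Real.smoothTransition =ᶠ[𝓝 x] fun _ => 1 := by
    filter_upwards [lt_mem_nhds hx] with y hy
    exact Real.smoothTransition.one_of_one_le hy.le
  unfold sg1
  rw [e.deriv_eq]; simp

lemma sg2_gt {x : ℝ} (hx : 1 < x) : sg2 x = 0 := by
  have e : deriv Real.smoothTransition =ᶠ[𝓝 x] fun _ => 0 := by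
    filter_upwards [lt_mem_nhds hx] with y hy
    exact sg1_gt hy
  unfold sg2
  rw [e.deriv_eq]; simp

lemma sg1_lt {x : ℝ} (hx : x < 0) : sg1 x = 0 := by
  have e : Real.smoothTransition =ᶠ[𝓝 x] fun _ => 0 := by
    filter_upwards [gt_mem_nhds hx] with y hy
    exact Real.smoothTransition.zero_of_nonpos hy.le
  unfold sg1
  rw [e.deriv_eq]; simp

lemma sg2_lt {x : ℝ} (hx : x < 0) : sg2 x = 0 := by
  have e : deriv Real.smoothTransition =ᶠ[𝓝 x] fun _ => 0 := by
    filter_upwards [gt_mem_nhds hx] with y hy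
    exact sg1_lt hy
  unfold sg2
  rw [e.deriv_eq]; simp

lemma exists_sg2_bound : ∃ B, 0 < B ∧ ∀ x, |sg2 x| ≤ B := by
  obtain ⟨B, hB⟩ := (isCompact_Icc (a := (0 : ℝ)) (b := 1)).exists_bound_of_continuousOn
    continuous_sg2.continuousOn
  refine ⟨max B 1, by positivity, fun x => ?_⟩
  rcases lt_or_ge x 0 with h | h
  · rw [sg2_lt h]; simp
  · rcases le_or_gt x 1 with h1 | h1
    · exact (hB x ⟨h, h1⟩).trans (le_max_left _ _)
    · rw [sg2_gt h1]; simp

/-- `V < 1` on the half line -/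
lemma HalfSol.V_lt_one {a b : ℝ} {U U' g V V' h : ℝ → ℝ} (hb : 0 ≤ b)
    (S : HalfSol a b U U' g V V' h) : ∀ x, 0 ≤ x → V x < 1 := by
  intro x0 hx0
  refine lt_of_le_of_ne (S.range x0 hx0).2.2 fun hV => ?_
  have hV'0 : V' x0 = 0 := by
    apply le_antisymm _ (S.dU_nonneg x0 hx0).2
    have h1 : 0 ≤ -V' x0 := deriv_ge_zero_of_left (u := fun x => -V x) (c := x0) (d := x0 + 1)
      (by linarith) (S.dV x0).neg (fun x hx => by
        rw [hV]; linarith [(S.range x (hx0.trans hx.1)).2.2])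
    linarith
  set K : ℝ := 2 + b with hK
  set E : ℝ → ℝ := fun x => ((1 - V x) ^ 2 + V' x ^ 2) * Real.exp (K * x) with hE
  have hEd : ∀ x, HasDerivAt E ((2 * (1 - V x) ^ 1 * (-V' x) + 2 * V' x ^ 1 * (-h x)) *
      Real.exp (K * x) + ((1 - V x) ^ 2 + V' x ^ 2) * (Real.exp (K * x) * K)) x := by
    intro x
    have h1 : HasDerivAt (fun x : ℝ => K * x) K x := by
      simpa using (hasDerivAt_id x).const_mul K
    exact ((((S.dV x).const_sub 1).fun_pow 2).fun_add ((S.dV' x).fun_pow 2)).fun_mul h1.exp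
  have hmono : MonotoneOn E (Icc 0 x0) := by
    apply monotoneOn_of_deriv_nonneg (convex_Icc _ _)
    · intro t _
      exact (hEd t).continuousAt.continuousWithinAt
    · intro t _
      exact (hEd t).differentiableAt.differentiableWithinAt
    · intro t ht
      rw [interior_Icc] at ht
      rw [(hEd t).deriv, S.eh t ht.1.le]
      have hr := S.range t ht.1.le
      have hfac : (2 * (1 - V t) ^ 1 * (-V' t) + 2 * V' t ^ 1 * (-G2 b (U t) (V t))) *
          Real.exp (K * t) + ((1 - V t) ^ 2 + V' t ^ 2) * (Real.exp (K * t) * K) =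
          Real.exp (K * t) * (K * ((1 - V t) ^ 2 + V' t ^ 2) -
            2 * (1 - V t) * V' t * (1 + (b * U t - V t))) := by
        unfold G2; ring
      rw [hfac]
      apply mul_nonneg (Real.exp_pos _).le
      have hc : |1 + (b * U t - V t)| ≤ K := by
        have h1 := mul_nonneg hb hr.1.1
        have h2 := mul_le_mul_of_nonneg_left hr.1.2 hb
        rw [abs_le]
        constructor <;> linarith [hr.2.1, hr.2.2]
      have h3 : 2 * (1 - V t) * V' t * (1 + (b * U t - V t)) ≤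
          |2 * (1 - V t) * V' t| * K := by
        calc _ ≤ |2 * (1 - V t) * V' t * (1 + (b * U t - V t))| := le_abs_self _
          _ = |2 * (1 - V t) * V' t| * |1 + (b * U t - V t)| := abs_mul _ _
          _ ≤ _ := mul_le_mul_of_nonneg_left hc (abs_nonneg _)
      have h4 : |2 * (1 - V t) * V' t| ≤ (1 - V t) ^ 2 + V' t ^ 2 := by
        rw [abs_le]
        constructor <;> nlinarith [sq_nonneg (1 - V t - V' t), sq_nonneg (1 - V t + V' t)]
      have hK0 : 0 ≤ K := by linarith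
      nlinarith
  have hle := hmono (show (0 : ℝ) ∈ Icc 0 x0 from ⟨le_rfl, hx0⟩)
    (show x0 ∈ Icc 0 x0 from ⟨hx0, le_rfl⟩) hx0
  simp only [hE, hV, hV'0, S.V0, mul_zero, Real.exp_zero] at hle
  norm_num at hle
  nlinarith [sq_nonneg (V' 0)]

lemma rho_neg {x : ℝ} (hx : x ≤ 0) : rho x = 0 := by
  unfold rho
  rw [max_eq_right hx]; norm_num

lemma rho2_neg {x : ℝ} (hx : x ≤ 0) : rho2 x = 0 := by
  unfold rho2
  rw [max_eq_right hx]; norm_num

lemma rho_mem {x : ℝ} (hx : x ≤ 1) : rho x ∈ Icc (0 : ℝ) 1 := by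
  have hm1 : max x 0 ≤ 1 := max_le hx zero_le_one
  have hm0 : 0 ≤ max x 0 := le_max_right _ _
  unfold rho
  have h1 := pow_le_one₀ hm0 hm1 (n := 3)
  have h2 := pow_nonneg hm0 3
  constructor <;> linarith

lemma rho2_mem {x : ℝ} (hx : x ≤ 1) : rho2 x ∈ Icc (0 : ℝ) 2 := by
  have hm1 : max x 0 ≤ 1 := max_le hx zero_le_one
  have hm0 : 0 ≤ max x 0 := le_max_right _ _
  unfold rho2
  constructor <;> linarith

lemma cut_left {a b c d k0 η u v : ℝ} (hac : a ≤ c) (hdb : d ≤ b) (hu : u ∈ Icc (0 : ℝ) 1)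
    (hv : v ∈ Icc (0 : ℝ) 1) (hv1 : v < 1) :
    u - (4 * a * k0 * 0 + η * 0) ∈ Icc (0 : ℝ) 1 ∧ v - (k0 * 0 + η * 0) ∈ Icc (0 : ℝ) 1 ∧
    G1 c u v + (4 * a * k0 * 0 + η * 0) ≤ G1 a (u - (4 * a * k0 * 0 + η * 0))
      (v - (k0 * 0 + η * 0)) ∧
    G2 d u v + (k0 * 0 + η * 0) ≤ G2 b (u - (4 * a * k0 * 0 + η * 0)) (v - (k0 * 0 + η * 0)) := by
  have huv : 0 ≤ u * (1 - v) := mul_nonneg hu.1 (sub_nonneg.2 hv1.le)
  simp only [mul_zero, add_zero, sub_zero]
  refine ⟨hu, hv, ?_, ?_⟩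
  · have h1 := mul_nonneg (sub_nonneg.2 hac) huv
    have e1 : G1 a u v - G1 c u v = (c - a) * (u * (1 - v)) := by unfold G1; ring
    linarith
  · have h1 := mul_nonneg (sub_nonneg.2 hdb) huv
    have e1 : G2 b u v - G2 d u v = (b - d) * (u * (1 - v)) := by unfold G2; ring
    linarith

/-- lower bounds for the differences of the two sides -/
lemma cut_lb {a b c d hbar u v hh kk s t : ℝ} (ha : 0 < a) (hb : 1 < b)
    (hd : d < b) (hbar1 : hbar ≤ 1 / 8) (hbar2 : b * hbar ≤ (b - 1) / 8)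
    (hbar3 : b * hbar ≤ (b - d) * 7 / 16) (hU : 7 / 8 < u) (hu1 : u ≤ 1)
    (hv1 : v < 1) (hUb : (b - 1) / 2 < b * u - 1) (hh0 : 0 ≤ hh) (kk0 : 0 ≤ kk)
    (hhle : hh ≤ hbar) (_kkle : kk ≤ 1 / 8) :
    ((c - a) * (u * (1 - v)) + 5 / 8 * hh - a * kk - s ≤
      G1 a (u - hh) (v - kk) - (G1 c u v + s)) ∧
    ((b - d) / 2 * (u * (1 - v)) + (b - 1) / 4 * kk - t ≤
      G2 b (u - hh) (v - kk) - (G2 d u v + t)) := by
  have hu0 : 0 ≤ u := by linarith
  have haV : 0 ≤ a * (1 - v) := mul_nonneg ha.le (by linarith)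
  have hakk : 0 ≤ a * kk := mul_nonneg ha.le kk0
  have hbh : b * hh ≤ b * hbar := mul_le_mul_of_nonneg_left hhle (by linarith)
  constructor
  · have id1 : G1 a (u - hh) (v - kk) - (G1 c u v + s) = (c - a) * (u * (1 - v)) +
        hh * (2 * u - 1 - hh + a * (1 - v) + a * kk) - u * (a * kk) - s := by
      unfold G1; ring
    rw [id1]
    have h1 : hh * (5 / 8) ≤ hh * (2 * u - 1 - hh + a * (1 - v) + a * kk) := by
      apply mul_le_mul_of_nonneg_left _ hh0
      linarith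
    have h2 : u * (a * kk) ≤ 1 * (a * kk) := mul_le_mul_of_nonneg_right hu1 hakk
    linarith
  · have id2 : G2 b (u - hh) (v - kk) - (G2 d u v + t) = (b - d) * (u * (1 - v)) -
        b * hh * (1 - v) - b * hh * kk + kk * (b * u + 2 * (1 - v) - 1 + kk) - t := by
      unfold G2; ring
    rw [id2]
    have h1 : b * hh * (1 - v) ≤ (b - d) / 2 * u * (1 - v) := by
      apply mul_le_mul_of_nonneg_right _ (by linarith)
      have : (b - d) / 2 * (7 / 8) ≤ (b - d) / 2 * u :=
        mul_le_mul_of_nonneg_left hU.le (by linarith)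
      linarith
    have h2 : b * hh * kk ≤ (b - 1) / 8 * kk := by
      apply mul_le_mul_of_nonneg_right _ kk0
      linarith
    have h3 : kk * ((b - 1) / 2) ≤ kk * (b * u + 2 * (1 - v) - 1 + kk) := by
      apply mul_le_mul_of_nonneg_left _ kk0
      linarith
    have h4 : 0 ≤ (b - 1) * kk := mul_nonneg (by linarith) kk0
    linarith

lemma cut_mid {a b c d k0 η hbar B μ u v θ s2 : ℝ} (ha : 0 < a) (hb : 1 < b) (hc : a < c)
    (hd : d < b) (hk00 : 0 < k0) (hk1 : 4 * a * k0 ≤ hbar / 2) (hk2 : k0 ≤ 1 / 16)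
    (hk3 : 4 * a * k0 * B ≤ (c - a) * μ) (hk4 : k0 * B ≤ (b - d) / 2 * μ)
    (hbar1 : hbar ≤ 1 / 8) (hbar2 : b * hbar ≤ (b - 1) / 8)
    (hbar3 : b * hbar ≤ (b - d) * 7 / 16) (hU : 7 / 8 < u) (hu1 : u ≤ 1) (hV : 7 / 8 < v)
    (hv1 : v < 1) (hUb : (b - 1) / 2 < b * u - 1) (hθ : θ ∈ Icc (0 : ℝ) 1) (hs2 : s2 ≤ B)
    (hμ : μ ≤ u * (1 - v)) :
    u - (4 * a * k0 * θ + η * 0) ∈ Icc (0 : ℝ) 1 ∧ v - (k0 * θ + η * 0) ∈ Icc (0 : ℝ) 1 ∧
    G1 c u v + (4 * a * k0 * s2 + η * 0) ≤ G1 a (u - (4 * a * k0 * θ + η * 0))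
      (v - (k0 * θ + η * 0)) ∧
    G2 d u v + (k0 * s2 + η * 0) ≤ G2 b (u - (4 * a * k0 * θ + η * 0))
      (v - (k0 * θ + η * 0)) := by
  simp only [mul_zero, add_zero]
  have hak : 0 ≤ 4 * a * k0 := by positivity
  have h1 : 4 * a * k0 * θ ≤ 4 * a * k0 * 1 := mul_le_mul_of_nonneg_left hθ.2 hak
  have h2 : k0 * θ ≤ k0 * 1 := mul_le_mul_of_nonneg_left hθ.2 hk00.le
  have h3 : 0 ≤ 4 * a * k0 * θ := mul_nonneg hak hθ.1
  have h4 : 0 ≤ k0 * θ := mul_nonneg hk00.le hθ.1
  obtain ⟨l1, l2⟩ := cut_lb (s := 4 * a * k0 * s2) (t := k0 * s2) (c := c) ha hb hd hbar1 hbar2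
    hbar3 hU hu1 hv1 hUb h3 h4 (by linarith) (by linarith)
  have m1 := mul_le_mul_of_nonneg_left hμ (show 0 ≤ c - a by linarith)
  have m2 : 4 * a * k0 * s2 ≤ 4 * a * k0 * B := mul_le_mul_of_nonneg_left hs2 hak
  have m3 := mul_le_mul_of_nonneg_left hμ (show 0 ≤ (b - d) / 2 by linarith)
  have m4 : k0 * s2 ≤ k0 * B := mul_le_mul_of_nonneg_left hs2 hk00.le
  have m5 : 0 ≤ (b - 1) / 4 * (k0 * θ) := mul_nonneg (by linarith) h4
  have m6 : a * (k0 * θ) = 4 * a * k0 * θ / 4 := by ring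
  refine ⟨⟨by linarith, by linarith⟩, ⟨by linarith, by linarith⟩, ?_, ?_⟩
  · linarith
  · linarith

lemma cut_right {a b c d k0 η hbar u v r r2 : ℝ} (ha : 0 < a) (hb : 1 < b) (hc : a < c)
    (hd : d < b) (hk00 : 0 < k0) (hk1 : 4 * a * k0 ≤ hbar / 2) (hk2 : k0 ≤ 1 / 16)
    (hη0 : 0 < η) (hη1 : η ≤ hbar / 2) (hη2 : η ≤ 1 / 16)
    (hη3 : a * η + 2 * η ≤ 3 / 2 * a * k0) (hη4 : 2 * η ≤ k0 * (b - 1) / 4)
    (hbar1 : hbar ≤ 1 / 8) (hbar2 : b * hbar ≤ (b - 1) / 8)
    (hbar3 : b * hbar ≤ (b - d) * 7 / 16) (hU : 7 / 8 < u) (hu1 : u ≤ 1) (hV : 7 / 8 < v)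
    (hv1 : v < 1) (hUb : (b - 1) / 2 < b * u - 1) (hr : r ∈ Icc (0 : ℝ) 1)
    (hr2 : r2 ∈ Icc (0 : ℝ) 2) :
    u - (4 * a * k0 * 1 + η * r) ∈ Icc (0 : ℝ) 1 ∧ v - (k0 * 1 + η * r) ∈ Icc (0 : ℝ) 1 ∧
    G1 c u v + (4 * a * k0 * 0 + η * r2) ≤ G1 a (u - (4 * a * k0 * 1 + η * r))
      (v - (k0 * 1 + η * r)) ∧
    G2 d u v + (k0 * 0 + η * r2) ≤ G2 b (u - (4 * a * k0 * 1 + η * r))
      (v - (k0 * 1 + η * r)) := by
  simp only [mul_zero, zero_add, mul_one]
  have hak : 0 ≤ 4 * a * k0 := by positivity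
  have h1 : η * r ≤ η * 1 := mul_le_mul_of_nonneg_left hr.2 hη0.le
  have h2 : 0 ≤ η * r := mul_nonneg hη0.le hr.1
  have h3 : η * r2 ≤ η * 2 := mul_le_mul_of_nonneg_left hr2.2 hη0.le
  obtain ⟨l1, l2⟩ := cut_lb (s := η * r2) (t := η * r2) (hh := 4 * a * k0 + η * r)
    (kk := k0 + η * r) (c := c) ha hb hd hbar1 hbar2
    hbar3 hU hu1 hv1 hUb (by linarith) (by linarith) (by linarith) (by linarith)
  have huv : 0 ≤ u * (1 - v) := mul_nonneg (by linarith) (by linarith)
  have m1 := mul_nonneg (show 0 ≤ c - a by linarith) huv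
  have m2 := mul_nonneg (show 0 ≤ (b - d) / 2 by linarith) huv
  have m3 : a * (η * r) ≤ a * (η * 1) := mul_le_mul_of_nonneg_left h1 ha.le
  have m4 : a * (k0 + η * r) = a * k0 + a * (η * r) := by ring
  have m5 : 0 ≤ (b - 1) / 4 * (η * r) := mul_nonneg (by linarith) h2
  have m6 : (b - 1) / 4 * (k0 + η * r) = k0 * (b - 1) / 4 + (b - 1) / 4 * (η * r) := by ring
  refine ⟨⟨by linarith, by linarith⟩, ⟨by linarith, by linarith⟩, ?_, ?_⟩
  · linarith
  · linarith

/-- the cut-off construction -/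
theorem zbar_of_half {a b c d : ℝ} (ha : 0 < a) (hb : 1 < b) (hc : a < c) (hc1 : 1 < c)
    (hd : d < b) (hd1 : 1 < d) {U U' g V V' h : ℝ → ℝ} (S : HalfSol c d U U' g V V' h) :
    ∃ L > 0, ZBar L a b := by
  obtain ⟨tU, tV, tU', tV'⟩ := S.limit hc1 hd1
  obtain ⟨B, hB0, hB⟩ := exists_sg2_bound
  -- the threshold
  have ev1 : ∀ᶠ x in atTop, 7 / 8 < U x := tU.eventually_const_lt (by norm_num)
  have ev2 : ∀ᶠ x in atTop, (b + 1) / (2 * b) < U x := tU.eventually_const_lt (by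
    rw [div_lt_one (by linarith)]; linarith)
  have ev3 : ∀ᶠ x in atTop, 7 / 8 < V x := tV.eventually_const_lt (by norm_num)
  obtain ⟨s0, hs0⟩ := (((ev1.and ev2).and ev3).and (eventually_gt_atTop (0 : ℝ))).exists_forall_of_atTop
  have hs00 : 0 < s0 := (hs0 s0 le_rfl).2
  have hU78 : ∀ x, s0 ≤ x → 7 / 8 < U x := fun x hx => (hs0 x hx).1.1.1
  have hUb : ∀ x, s0 ≤ x → (b - 1) / 2 < b * U x - 1 := by
    intro x hx
    have h1 := (hs0 x hx).1.1.2
    rw [div_lt_iff₀ (by linarith)] at h1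
    linarith
  have hV78 : ∀ x, s0 ≤ x → 7 / 8 < V x := fun x hx => (hs0 x hx).1.2
  have cU : Continuous U := continuous_iff_continuousAt.2 fun x => (S.dU x).continuousAt
  have cV : Continuous V := continuous_iff_continuousAt.2 fun x => (S.dV x).continuousAt
  -- the minimum of U (1 - V)
  obtain ⟨xm, hxm, hmin⟩ := (isCompact_Icc (a := s0) (b := s0 + 1)).exists_isMinOn
    (nonempty_Icc.2 (by linarith)) (cU.mul (continuous_const.sub cV)).continuousOn
    (f := fun x => U x * (1 - V x))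
  set μ : ℝ := U xm * (1 - V xm) with hμ
  have hμ0 : 0 < μ := mul_pos (by linarith [hU78 xm hxm.1])
    (by linarith [S.V_lt_one (by linarith) xm (by linarith [hxm.1])])
  have hμle : ∀ x ∈ Icc s0 (s0 + 1), μ ≤ U x * (1 - V x) := fun x hx => hmin hx
  -- the constants
  set hbar : ℝ := min (1 / 8) (min ((b - 1) / (8 * b)) ((b - d) * 7 / (16 * b))) with hhbar
  have hbar0 : 0 < hbar := by
    rw [hhbar]
    refine lt_min (by norm_num) (lt_min ?_ ?_)
    · apply div_pos <;> linarith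
    · apply div_pos <;> linarith
  have hbar1 : hbar ≤ 1 / 8 := min_le_left _ _
  have hbar2 : b * hbar ≤ (b - 1) / 8 := by
    have : hbar ≤ (b - 1) / (8 * b) := (min_le_right _ _).trans (min_le_left _ _)
    have h2 := mul_le_mul_of_nonneg_left this (show 0 ≤ b by linarith)
    have h3 : b * ((b - 1) / (8 * b)) = (b - 1) / 8 := by field_simp
    linarith
  have hbar3 : b * hbar ≤ (b - d) * 7 / 16 := by
    have : hbar ≤ (b - d) * 7 / (16 * b) := (min_le_right _ _).trans (min_le_right _ _)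
    have h2 := mul_le_mul_of_nonneg_left this (show 0 ≤ b by linarith)
    have h3 : b * ((b - d) * 7 / (16 * b)) = (b - d) * 7 / 16 := by field_simp
    linarith
  obtain ⟨k0, hk00, hk1, hk2, hk3, hk4⟩ : ∃ k0 : ℝ, 0 < k0 ∧ 4 * a * k0 ≤ hbar / 2 ∧ k0 ≤ 1 / 16 ∧
      4 * a * k0 * B ≤ (c - a) * μ ∧ k0 * B ≤ (b - d) / 2 * μ := by
    set k0 : ℝ := min (hbar / (8 * a)) (min (1 / 16) (min ((c - a) * μ / (4 * a * B))
      ((b - d) / 2 * μ / B))) with hk0
    have p1 : 0 < hbar / (8 * a) := by positivity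
    have p2 : 0 < (c - a) * μ / (4 * a * B) := by
      apply div_pos (mul_pos (by linarith) hμ0) (by positivity)
    have p3 : 0 < (b - d) / 2 * μ / B := by
      apply div_pos (mul_pos (by linarith) hμ0) hB0
    refine ⟨k0, lt_min p1 (lt_min (by norm_num) (lt_min p2 p3)), ?_, ?_, ?_, ?_⟩
    · have : k0 ≤ hbar / (8 * a) := min_le_left _ _
      rw [le_div_iff₀ (by positivity)] at this
      linarith
    · exact (min_le_right _ _).trans (min_le_left _ _)
    · have : k0 ≤ (c - a) * μ / (4 * a * B) :=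
        (min_le_right _ _).trans ((min_le_right _ _).trans (min_le_left _ _))
      rw [le_div_iff₀ (by positivity)] at this
      linarith
    · have : k0 ≤ (b - d) / 2 * μ / B :=
        (min_le_right _ _).trans ((min_le_right _ _).trans (min_le_right _ _))
      rwa [le_div_iff₀ hB0] at this
  obtain ⟨η, hη0, hη1, hη2, hη3, hη4⟩ : ∃ η : ℝ, 0 < η ∧ η ≤ hbar / 2 ∧ η ≤ 1 / 16 ∧
      a * η + 2 * η ≤ 3 / 2 * a * k0 ∧ 2 * η ≤ k0 * (b - 1) / 4 := by
    set η : ℝ := min (hbar / 2) (min (1 / 16) (min (3 / 2 * a * k0 / (a + 2))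
      (k0 * (b - 1) / 8))) with hη
    have p1 : 0 < 3 / 2 * a * k0 / (a + 2) := by positivity
    have p2 : 0 < k0 * (b - 1) / 8 := by
      apply div_pos (mul_pos hk00 (by linarith)) (by norm_num)
    refine ⟨η, lt_min (by positivity) (lt_min (by norm_num) (lt_min p1 p2)), min_le_left _ _,
      (min_le_right _ _).trans (min_le_left _ _), ?_, ?_⟩
    · have : η ≤ 3 / 2 * a * k0 / (a + 2) :=
        (min_le_right _ _).trans ((min_le_right _ _).trans (min_le_left _ _))
      rw [le_div_iff₀ (by linarith)] at this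
      linarith
    · have : η ≤ k0 * (b - 1) / 8 :=
        (min_le_right _ _).trans ((min_le_right _ _).trans (min_le_right _ _))
      linarith
  -- the turning point
  have ev4 : ∀ᶠ x in atTop, U' x < η := tU'.eventually_lt_const hη0
  have ev5 : ∀ᶠ x in atTop, V' x < η := tV'.eventually_lt_const hη0
  obtain ⟨N, ⟨hN1, hN2⟩, hN3⟩ := ((ev4.and ev5).and (eventually_ge_atTop (s0 + 2))).exists
  have hN0 : 0 < N := by linarith
  -- the functions h, k
  set A : ℝ → ℝ := fun x => U x - (4 * a * k0 * sg (x - s0) + η * rho (x - (N - 1))) with hA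
  set A' : ℝ → ℝ := fun x => U' x - (4 * a * k0 * sg1 (x - s0) + η * rho1 (x - (N - 1))) with hA'
  set gA : ℝ → ℝ := fun x => g x + (4 * a * k0 * sg2 (x - s0) + η * rho2 (x - (N - 1))) with hgA
  set C : ℝ → ℝ := fun x => V x - (k0 * sg (x - s0) + η * rho (x - (N - 1))) with hC
  set C' : ℝ → ℝ := fun x => V' x - (k0 * sg1 (x - s0) + η * rho1 (x - (N - 1))) with hC'
  set gC : ℝ → ℝ := fun x => h x + (k0 * sg2 (x - s0) + η * rho2 (x - (N - 1))) with hgC
  have dsg : ∀ x, HasDerivAt (fun x => sg (x - s0)) (sg1 (x - s0)) x := fun x =>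
    (hasDerivAt_sg (x - s0)).comp_sub_const x s0
  have dsg1 : ∀ x, HasDerivAt (fun x => sg1 (x - s0)) (sg2 (x - s0)) x := fun x =>
    (hasDerivAt_sg1 (x - s0)).comp_sub_const x s0
  have drho : ∀ x, HasDerivAt (fun x => rho (x - (N - 1))) (rho1 (x - (N - 1))) x := fun x =>
    (hasDerivAt_rho (x - (N - 1))).comp_sub_const x (N - 1)
  have drho1 : ∀ x, HasDerivAt (fun x => rho1 (x - (N - 1))) (rho2 (x - (N - 1))) x := fun x =>
    (hasDerivAt_rho1 (x - (N - 1))).comp_sub_const x (N - 1)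
  have dA : ∀ x, HasDerivAt A (A' x) x := fun x =>
    (S.dU x).fun_sub (((dsg x).const_mul _).fun_add ((drho x).const_mul _))
  have dA' : ∀ x, HasDerivAt A' (-gA x) x := fun x => by
    refine ((S.dU' x).fun_sub (((dsg1 x).const_mul _).fun_add ((drho1 x).const_mul _))).congr_deriv ?_
    simp only [hgA]; ring
  have dC : ∀ x, HasDerivAt C (C' x) x := fun x =>
    (S.dV x).fun_sub (((dsg x).const_mul _).fun_add ((drho x).const_mul _))
  have dC' : ∀ x, HasDerivAt C' (-gC x) x := fun x => by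
    refine ((S.dV' x).fun_sub (((dsg1 x).const_mul _).fun_add ((drho1 x).const_mul _))).congr_deriv ?_
    simp only [hgC]; ring
  have csg2 : Continuous fun x => sg2 (x - s0) := continuous_sg2.comp (continuous_id.sub continuous_const)
  have crho2 : Continuous fun x => rho2 (x - (N - 1)) :=
    continuous_rho2.comp (continuous_id.sub continuous_const)
  have cgA : Continuous gA := S.cg.add ((continuous_const.mul csg2).add (continuous_const.mul crho2))
  have cgC : Continuous gC := S.ch.add ((continuous_const.mul csg2).add (continuous_const.mul crho2))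
  have hsN : s0 ≤ N - 1 := by linarith only [hN3]
  have hsN1 : s0 + 1 ≤ N - 1 := by linarith only [hN3]
  -- the differential inequalities on [0,N]
  have main : ∀ x ∈ Icc 0 N, A x ∈ Icc (0 : ℝ) 1 ∧ C x ∈ Icc (0 : ℝ) 1 ∧
      gA x ≤ G1 a (A x) (C x) ∧ gC x ≤ G2 b (A x) (C x) := by
    intro x hx
    have hr := S.range x hx.1
    have hV1 := S.V_lt_one (zero_le_one.trans hd1.le) x hx.1
    have eg := S.eg x hx.1
    have eh := S.eh x hx.1
    simp only [hA, hC, hgA, hgC]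
    rw [eg, eh]
    rcases lt_or_ge x s0 with hxs | hxs
    · -- left part: nothing is changed
      have h0 : x - s0 < 0 := sub_neg.2 hxs
      rw [sg_neg h0.le, sg2_lt h0, rho_neg (sub_nonpos.2 (hxs.le.trans hsN)),
        rho2_neg (sub_nonpos.2 (hxs.le.trans hsN))]
      exact cut_left hc.le hd.le hr.1 hr.2 hV1
    · have hU := hU78 x hxs
      have hV := hV78 x hxs
      have hUb' := hUb x hxs
      rcases le_or_gt x (s0 + 1) with h1 | h1
      · have h2 : x - (N - 1) ≤ 0 := sub_nonpos.2 (h1.trans hsN1)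
        rw [rho_neg h2, rho2_neg h2]
        exact cut_mid ha hb hc hd hk00 hk1 hk2 hk3 hk4 hbar1 hbar2 hbar3 hU hr.1.2 hV hV1 hUb'
          (sg_mem _) ((le_abs_self _).trans (hB _)) (hμle x ⟨hxs, h1⟩)
      · have h2 : 1 < x - s0 := lt_sub_iff_add_lt'.2 h1
        rw [sg_one h2.le, sg2_gt h2]
        have hm : x - (N - 1) ≤ 1 := by
          have := hx.2
          linarith only [this]
        exact cut_right ha hb hc hd hk00 hk1 hk2 hη0 hη1 hη2 hη3 hη4 hbar1 hbar2 hbar3 hU hr.1.2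
          hV hV1 hUb' (rho_mem hm) (rho2_mem hm)
  -- the barrier
  have hL : 0 < 2 * N := by linarith
  obtain ⟨P, P', e, Q, Q', f, T, hP0, hQ0, hPL, hQL, hmax⟩ :=
    exists_max (a := a) (b := b) (β := 0) hL ha.le (by linarith) ⟨le_rfl, zero_le_one⟩
  have hrefl : ∀ {w w' : ℝ → ℝ}, (∀ x, HasDerivAt w (w' x) x) →
      ∀ x, HasDerivAt (fun x => w (2 * N - x)) (-w' (2 * N - x)) x :=
    fun hw x => hasDerivAt_reflect (hw _)
  have hrefl2 : ∀ {w' q : ℝ → ℝ}, (∀ x, HasDerivAt w' (-q x) x) →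
      ∀ x, HasDerivAt (fun x => -w' (2 * N - x)) (-(fun x => q (2 * N - x)) x) x := by
    intro w' q hw x
    have := (hasDerivAt_reflect (c := 2 * N) (x := x) (hw _)).fun_neg
    simpa using this
  have slA : A' N ≤ 0 := by
    have e1 : sg1 (N - s0) = 0 := sg1_gt (by linarith)
    have e2 : rho1 (N - (N - 1)) = 1 := by
      unfold rho1
      rw [show N - (N - 1) = 1 by ring, max_eq_left zero_le_one]; norm_num
    simp only [hA', e1, e2]
    linarith
  have slC : C' N ≤ 0 := by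
    have e1 : sg1 (N - s0) = 0 := sg1_gt (by linarith)
    have e2 : rho1 (N - (N - 1)) = 1 := by
      unfold rho1
      rw [show N - (N - 1) = 1 by ring, max_eq_left zero_le_one]; norm_num
    simp only [hC', e1, e2]
    linarith
  have A0 : A 0 = 0 := by
    have e1 : sg (0 - s0) = 0 := sg_neg (by linarith)
    have e3 : max (0 - (N - 1)) 0 = 0 := max_eq_right (by linarith)
    have e4 : rho (0 - (N - 1)) = 0 := by unfold rho; rw [e3]; norm_num
    simp only [hA, e1, e4, S.U0]; ring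
  have C0 : C 0 = 0 := by
    have e1 : sg (0 - s0) = 0 := sg_neg (by linarith)
    have e3 : max (0 - (N - 1)) 0 = 0 := max_eq_right (by linarith)
    have e4 : rho (0 - (N - 1)) = 0 := by unfold rho; rw [e3]; norm_num
    simp only [hC, e1, e4, S.V0]; ring
  have h2N : 2 * N - N = N := by ring
  have key := hmax A A' gA (fun x => A (2 * N - x)) (fun x => -A' (2 * N - x))
    (fun x => gA (2 * N - x)) C C' gC (fun x => C (2 * N - x)) (fun x => -C' (2 * N - x))
    (fun x => gC (2 * N - x)) N ⟨hN0.le, by linarith⟩ dA dA' cgA (hrefl dA) (hrefl2 dA')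
    (cgA.comp (continuous_const.sub continuous_id)) (by simp only [h2N]) dC dC' cgC (hrefl dC)
    (hrefl2 dC') (cgC.comp (continuous_const.sub continuous_id)) (by simp only [h2N])
    (by simp only [h2N]; linarith) (by simp only [h2N]; linarith) A0.le C0.le
    (by simp [A0]) (by simp [C0]) main (fun x hx => main (2 * N - x)
      ⟨by linarith [hx.2], by linarith [hx.1]⟩)
  refine ⟨2 * N, hL, P, P', e, Q, Q', f, T, hP0, hQ0, hPL, hQL, N, ⟨hN0.le, by linarith⟩, ?_⟩
  intro hcon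
  have h1 := (key.1 N ⟨hN0.le, le_rfl⟩).1
  rw [hcon.1] at h1
  have e1 : sg (N - s0) = 1 := sg_one (by linarith)
  have e2 : rho (N - (N - 1)) = 1 / 3 := by
    unfold rho
    rw [show N - (N - 1) = 1 by ring, max_eq_left zero_le_one]; norm_num
  have hU := hU78 N (by linarith)
  simp only [hA, e1, e2] at h1
  linarith

/-- barriers exist on long intervals -/
theorem exists_zbar {a b : ℝ} (ha : 0 < a) (hb : 1 < b) (hab : a < b) : ∃ L > 0, ZBar L a b := by
  set m : ℝ := max a 1 with hm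
  have hmb : m < b := max_lt hab hb
  have ham : a ≤ m := le_max_left _ _
  have h1m : 1 ≤ m := le_max_right _ _
  set c : ℝ := m + (b - m) / 3 with hc
  set d : ℝ := m + 2 * (b - m) / 3 with hd
  have hcd : c ≠ d := by
    intro h
    rw [hc, hd] at h
    linarith
  rcases exists_half (a := c) (b := d) (by linarith) (by linarith) hcd with
    ⟨U, U', g, V, V', h, S⟩ | ⟨U, U', g, V, V', h, S⟩
  · exact zbar_of_half ha hb (by linarith) (by linarith) (by linarith) (by linarith) S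
  · exact zbar_of_half ha hb (by linarith) (by linarith) (by linarith) (by linarith) S

end Pool.Agent.LV65
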