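import Mathlib

/-!
The controlled competitive Lotka–Volterra system on an interval `(0,L)`: data, controls, weak
solutions, asymptotic controllability, barriers.
-/

namespace Pool.Agent.LV65

open MeasureTheory Set Filter Topology

/-- the reaction term of the first species -/
def react1 (a y1 y2 : ℝ) : ℝ := y1 * (1 - y1 - a * y2)

/-- the reaction term of the second species -/
def react2 (b y1 y2 : ℝ) : ℝ := y2 * (1 - b * y1 - y2)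

/-- admissible initial data: continuous on `(0,L)` with values in `[0,1]` -/
def IsDatum (L : ℝ) (y0 : ℝ → ℝ) : Prop :=
  ContinuousOn y0 (Ioo 0 L) ∧ ∀ x ∈ Ioo 0 L, y0 x ∈ Icc (0 : ℝ) 1

/-- admissible controls at one end point: measurable functions of time with values in `[0,1]` -/
def IsControl (u : ℝ → ℝ) : Prop := Measurable u ∧ ∀ t, u t ∈ Icc (0 : ℝ) 1

/-- the weak (transposition) formulation of `∂ₜ y - ∂ₓₓ y = F` on `(0,L)`, `y(·,0) = y0`,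
`y = ul` at `x = 0`, `y = ur` at `x = L` -/
def WeakHeat (L : ℝ) (y0 : ℝ → ℝ) (y F : ℝ → ℝ → ℝ) (ul ur : ℝ → ℝ) : Prop :=
  ∀ φ : ℝ → ℝ, ContDiff ℝ 2 φ → φ 0 = 0 → φ L = 0 → ∀ t, 0 ≤ t →
    ∫ x in (0 : ℝ)..L, y t x * φ x = (∫ x in (0 : ℝ)..L, y0 x * φ x) +
      ∫ s in (0 : ℝ)..t, ((∫ x in (0 : ℝ)..L, (y s x * deriv (deriv φ) x + F s x * φ x)) +
        ul s * deriv φ 0 - ur s * deriv φ L)

/-- `(y1,y2)` (functions of time and space) is the solution of the controlled system with initial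
data `y10, y20` and boundary values `u1l, u2l` at `x = 0` and `u1r, u2r` at `x = L` -/
structure IsSolution (a b L : ℝ) (y10 y20 u1l u1r u2l u2r : ℝ → ℝ) (y1 y2 : ℝ → ℝ → ℝ) : Prop where
  meas : Measurable (Function.uncurry y1) ∧ Measurable (Function.uncurry y2)
  range : ∀ t, 0 ≤ t → ∀ x ∈ Icc 0 L, y1 t x ∈ Icc (0 : ℝ) 1 ∧ y2 t x ∈ Icc (0 : ℝ) 1
  cont : ContinuousOn (Function.uncurry y1) (Ioi 0 ×ˢ Ioo 0 L) ∧
    ContinuousOn (Function.uncurry y2) (Ioi 0 ×ˢ Ioo 0 L)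
  init : ∀ x ∈ Ioo 0 L, y1 0 x = y10 x ∧ y2 0 x = y20 x
  bdry : ∀ t, 0 < t → y1 t 0 = u1l t ∧ y1 t L = u1r t ∧ y2 t 0 = u2l t ∧ y2 t L = u2r t
  weak1 : WeakHeat L y10 y1 (fun s x => react1 a (y1 s x) (y2 s x)) u1l u1r
  weak2 : WeakHeat L y20 y2 (fun s x => react2 b (y1 s x) (y2 s x)) u2l u2r

/-- asymptotic controllability from the initial data `y10, y20` to the constant steady state
`(c1,c2)` -/
def AsympControllable (a b L : ℝ) (y10 y20 : ℝ → ℝ) (c1 c2 : ℝ) : Prop :=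
  ∃ u1l u1r u2l u2r : ℝ → ℝ, IsControl u1l ∧ IsControl u1r ∧ IsControl u2l ∧ IsControl u2r ∧
    ∃ y1 y2 : ℝ → ℝ → ℝ, IsSolution a b L y10 y20 u1l u1r u2l u2r y1 y2 ∧
      TendstoUniformlyOn y1 (fun _ => c1) atTop (Icc 0 L) ∧
      TendstoUniformlyOn y2 (fun _ => c2) atTop (Icc 0 L)

/-- barriers on `(0,L)` -/
structure IsBarrier (a b L : ℝ) (θ1 θ2 : ℝ → ℝ) : Prop where
  cont : ContinuousOn θ1 (Icc 0 L) ∧ ContinuousOn θ2 (Icc 0 L)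
  smooth : ContDiffOn ℝ 2 θ1 (Ioo 0 L) ∧ ContDiffOn ℝ 2 θ2 (Ioo 0 L)
  eq : ∀ x ∈ Ioo 0 L, -deriv (deriv θ1) x = react1 a (θ1 x) (θ2 x) ∧
    -deriv (deriv θ2) x = react2 b (θ1 x) (θ2 x)
  range : ∀ x ∈ Icc 0 L, θ1 x ∈ Icc (0 : ℝ) 1 ∧ θ2 x ∈ Icc (0 : ℝ) 1
  bdry : θ1 0 = 0 ∧ θ2 0 = 1 ∧ θ1 L = 0 ∧ θ2 L = 1
  nontrivial : ∃ x ∈ Icc 0 L, ¬ (θ1 x = 0 ∧ θ2 x = 1)

end Pool.Agent.LV65
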