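import Pool.Agent.Lib.MP_e2b89c_an.Flow

/-!
Existence of the nonlinear flow.
-/

namespace Pool.Agent.LV65

open MeasureTheory Set Filter Topology

lemma BM.G1 {L a : ℝ} {z w : ℝ → ℝ → ℝ} (hz : BM L z) (hw : BM L w) :
    BM L (fun s x => G1 a (z s x) (w s x)) := by
  unfold Pool.Agent.LV65.G1
  exact hz.mul (((BM.const L 1).sub hz).sub ((BM.const L a).mul ((BM.const L 1).sub hw)))

lemma BM.G2 {L b : ℝ} {z w : ℝ → ℝ → ℝ} (hz : BM L z) (hw : BM L w) :
    BM L (fun s x => G2 b (z s x) (w s x)) := by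
  unfold Pool.Agent.LV65.G2
  exact ((BM.const L 1).sub hw).mul (((BM.const L b).mul hz).sub hw)

/-- the monotone iteration -/
noncomputable def iterPair (L a b lam β : ℝ) (z0 w0 : ℝ → ℝ) : ℕ → (ℝ → ℝ → ℝ) × (ℝ → ℝ → ℝ)
  | 0 => (fun _ _ => 1, fun _ _ => 1)
  | k + 1 =>
    (step L lam β z0 (fun s x => G1 a ((iterPair L a b lam β z0 w0 k).1 s x)
        ((iterPair L a b lam β z0 w0 k).2 s x) + lam * (iterPair L a b lam β z0 w0 k).1 s x),
     step L lam β w0 (fun s x => G2 b ((iterPair L a b lam β z0 w0 k).1 s x)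
        ((iterPair L a b lam β z0 w0 k).2 s x) + lam * (iterPair L a b lam β z0 w0 k).2 s x))

lemma G1_range {a lam z w : ℝ} (ha : 0 ≤ a) (hlam : 1 + a ≤ lam) (hz : z ∈ Icc (0 : ℝ) 1)
    (hw : w ∈ Icc (0 : ℝ) 1) : 0 ≤ G1 a z w + lam * z ∧ G1 a z w + lam * z ≤ lam := by
  constructor
  · have := G1_mono (z' := 0) (w' := 0) ha hlam hz hw ⟨le_rfl, zero_le_one⟩ hz.1 hw.1
    simpa [G1] using this
  · have := G1_mono (z := 1) (w := 1) ha hlam ⟨zero_le_one, le_rfl⟩ ⟨zero_le_one, le_rfl⟩ hz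
      hz.2 hw.2
    simpa [G1] using this

lemma G2_range {b lam z w : ℝ} (hb : 0 ≤ b) (hlam : 1 + b ≤ lam) (hz : z ∈ Icc (0 : ℝ) 1)
    (hw : w ∈ Icc (0 : ℝ) 1) : 0 ≤ G2 b z w + lam * w ∧ G2 b z w + lam * w ≤ lam := by
  constructor
  · have := G2_mono (z' := 0) (w' := 0) hb hlam hw ⟨le_rfl, zero_le_one⟩ ⟨le_rfl, zero_le_one⟩
      hz.1 hw.1
    simpa [G2] using this
  · have := G2_mono (z := 1) (w := 1) hb hlam ⟨zero_le_one, le_rfl⟩ hz hw hz.2 hw.2
    simpa [G2] using this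

section Iter

variable {L a b lam β : ℝ} {z0 w0 : ℝ → ℝ}

lemma iterPair_BM (hL : 0 < L) (hlam : 0 ≤ lam) (hz0 : BS L z0) (hw0 : BS L w0) (k : ℕ) :
    BM L (iterPair L a b lam β z0 w0 k).1 ∧ BM L (iterPair L a b lam β z0 w0 k).2 := by
  have hc : (0 : ℝ) ∈ Icc 0 L := ⟨le_rfl, hL.le⟩
  induction k with
  | zero => exact ⟨BM.const L 1, BM.const L 1⟩
  | succ k ih =>
    exact ⟨(step_sol hL hlam hz0 ((BM.G1 ih.1 ih.2).add ((BM.const L lam).mul ih.1)) hc).hz,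
      (step_sol hL hlam hw0 ((BM.G2 ih.1 ih.2).add ((BM.const L lam).mul ih.2)) hc).hz⟩

lemma iterPair_range (hL : 0 < L) (ha : 0 ≤ a) (hb : 0 ≤ b) (hlam : 1 + a + b ≤ lam)
    (hβ : β ∈ Icc (0 : ℝ) 1) (hz0 : BS L z0) (hw0 : BS L w0)
    (r : ∀ x ∈ Icc 0 L, z0 x ∈ Icc (0 : ℝ) 1 ∧ w0 x ∈ Icc (0 : ℝ) 1) (k : ℕ) :
    ∀ t, 0 ≤ t → ∀ x ∈ Icc 0 L, (iterPair L a b lam β z0 w0 k).1 t x ∈ Icc (0 : ℝ) 1 ∧
      (iterPair L a b lam β z0 w0 k).2 t x ∈ Icc (0 : ℝ) 1 := by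
  have hlam0 : 0 ≤ lam := by linarith
  induction k with
  | zero =>
    intro t _ x _
    simp [iterPair]
  | succ k ih =>
    intro t ht x hx
    have hBM := iterPair_BM (a := a) (b := b) (β := β) hL hlam0 hz0 hw0 k
    have h1 := fun (s : ℝ) (hs : s ∈ Icc 0 t) (y : ℝ) (hy : y ∈ Icc 0 L) =>
      G1_range (a := a) (lam := lam) ha (by linarith) (ih s hs.1 y hy).1 (ih s hs.1 y hy).2
    have h2 := fun (s : ℝ) (hs : s ∈ Icc 0 t) (y : ℝ) (hy : y ∈ Icc 0 L) =>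
      G2_range (b := b) (lam := lam) hb (by linarith) (ih s hs.1 y hy).1 (ih s hs.1 y hy).2
    have hB1 := (BM.G1 (a := a) hBM.1 hBM.2).add ((BM.const L lam).mul hBM.1)
    have hB2 := (BM.G2 (b := b) hBM.1 hBM.2).add ((BM.const L lam).mul hBM.2)
    exact ⟨⟨step_nonneg hL hlam0 hz0 hB1 hβ.1 (fun y hy => (r y hy).1.1) ht
        (fun s hs y hy => (h1 s hs y hy).1) x hx,
      step_le_one hL hlam0 hz0 hB1 hβ.2 (fun y hy => (r y hy).1.2) ht
        (fun s hs y hy => (h1 s hs y hy).2) x hx⟩,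
      ⟨step_nonneg hL hlam0 hw0 hB2 hβ.1 (fun y hy => (r y hy).2.1) ht
        (fun s hs y hy => (h2 s hs y hy).1) x hx,
      step_le_one hL hlam0 hw0 hB2 hβ.2 (fun y hy => (r y hy).2.2) ht
        (fun s hs y hy => (h2 s hs y hy).2) x hx⟩⟩

lemma iterPair_anti (hL : 0 < L) (ha : 0 ≤ a) (hb : 0 ≤ b) (hlam : 1 + a + b ≤ lam)
    (hβ : β ∈ Icc (0 : ℝ) 1) (hz0 : BS L z0) (hw0 : BS L w0)
    (r : ∀ x ∈ Icc 0 L, z0 x ∈ Icc (0 : ℝ) 1 ∧ w0 x ∈ Icc (0 : ℝ) 1) (k : ℕ) :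
    ∀ t, 0 ≤ t → ∀ x ∈ Icc 0 L,
      (iterPair L a b lam β z0 w0 (k + 1)).1 t x ≤ (iterPair L a b lam β z0 w0 k).1 t x ∧
      (iterPair L a b lam β z0 w0 (k + 1)).2 t x ≤ (iterPair L a b lam β z0 w0 k).2 t x := by
  have hlam0 : 0 ≤ lam := by linarith
  have hR := iterPair_range (L := L) (a := a) (b := b) (lam := lam) (β := β) hL ha hb hlam hβ
    hz0 hw0 r
  induction k with
  | zero =>
    intro t ht x hx
    have := hR 1 t ht x hx
    exact ⟨this.1.2, this.2.2⟩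
  | succ k ih =>
    intro t ht x hx
    have hBM := iterPair_BM (a := a) (b := b) (β := β) hL hlam0 hz0 hw0 k
    have hBM' := iterPair_BM (a := a) (b := b) (β := β) hL hlam0 hz0 hw0 (k + 1)
    have hB1 := (BM.G1 (a := a) hBM.1 hBM.2).add ((BM.const L lam).mul hBM.1)
    have hB2 := (BM.G2 (b := b) hBM.1 hBM.2).add ((BM.const L lam).mul hBM.2)
    have hB1' := (BM.G1 (a := a) hBM'.1 hBM'.2).add ((BM.const L lam).mul hBM'.1)
    have hB2' := (BM.G2 (b := b) hBM'.1 hBM'.2).add ((BM.const L lam).mul hBM'.2)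
    constructor
    · refine step_mono hL hlam0 hz0 hB1' hB1 ht (fun s hs y hy => ?_) x hx
      exact G1_mono ha (by linarith) (hR k s hs.1 y hy).1 (hR k s hs.1 y hy).2
        (hR (k + 1) s hs.1 y hy).1 (ih s hs.1 y hy).1 (ih s hs.1 y hy).2
    · refine step_mono hL hlam0 hw0 hB2' hB2 ht (fun s hs y hy => ?_) x hx
      exact G2_mono hb (by linarith) (hR k s hs.1 y hy).2 (hR (k + 1) s hs.1 y hy).1
        (hR (k + 1) s hs.1 y hy).2 (ih s hs.1 y hy).1 (ih s hs.1 y hy).2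

end Iter

/-- limits of antitone sequences on the space-time strip -/
lemma exists_limit {L : ℝ} {f : ℕ → ℝ → ℝ → ℝ} (hf : ∀ k, Measurable (Function.uncurry (f k)))
    (hr : ∀ k t, 0 ≤ t → ∀ x ∈ Icc 0 L, f k t x ∈ Icc (0 : ℝ) 1)
    (ha : ∀ k t, 0 ≤ t → ∀ x ∈ Icc 0 L, f (k + 1) t x ≤ f k t x) :
    ∃ g : ℝ → ℝ → ℝ, Measurable (Function.uncurry g) ∧
      (∀ t x, g t x ∈ Icc (0 : ℝ) 1) ∧
      (∀ t, 0 ≤ t → ∀ x ∈ Icc 0 L, Tendsto (fun k => f k t x) atTop (𝓝 (g t x))) := by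
  classical
  set S : Set (ℝ × ℝ) := {p | 0 ≤ p.1 ∧ p.2 ∈ Icc 0 L} with hS
  have hSm : MeasurableSet S :=
    (measurableSet_le measurable_const measurable_fst).inter (measurable_snd measurableSet_Icc)
  set F : ℕ → ℝ × ℝ → ℝ := fun k => S.indicator (Function.uncurry (f k)) with hF
  have hFm : ∀ k, Measurable (F k) := fun k => (hf k).indicator hSm
  have hFr : ∀ k p, F k p ∈ Icc (0 : ℝ) 1 := by
    intro k p
    by_cases hp : p ∈ S
    · simp only [hF, indicator_of_mem hp]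
      exact hr k p.1 hp.1 p.2 hp.2
    · simp [hF, indicator_of_notMem hp]
  have hFa : ∀ p, Antitone fun k => F k p := by
    intro p
    apply antitone_nat_of_succ_le
    intro k
    by_cases hp : p ∈ S
    · simp only [hF, indicator_of_mem hp]
      exact ha k p.1 hp.1 p.2 hp.2
    · simp [hF, indicator_of_notMem hp]
  have hbdd : ∀ p, BddBelow (range fun k => F k p) := by
    intro p
    exact ⟨0, by rintro _ ⟨k, rfl⟩; exact (hFr k p).1⟩
  have hlim : ∀ p, Tendsto (fun k => F k p) atTop (𝓝 (⨅ k, F k p)) :=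
    fun p => tendsto_atTop_ciInf (hFa p) (hbdd p)
  refine ⟨fun t x => ⨅ k, F k (t, x), ?_, ?_, ?_⟩
  · have : Function.uncurry (fun t x => ⨅ k, F k (t, x)) = fun p => ⨅ k, F k p := by
      funext p; rfl
    rw [this]
    apply measurable_of_tendsto_metrizable hFm
    rw [tendsto_pi_nhds]
    exact hlim
  · intro t x
    exact isClosed_Icc.mem_of_tendsto (hlim (t, x)) (Eventually.of_forall fun k => hFr k (t, x))
  · intro t ht x hx
    have h1 : Tendsto (fun k => F k (t, x)) atTop (𝓝 (⨅ k, F k (t, x))) := hlim (t, x)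
    have h2 : (t, x) ∈ S := ⟨ht, hx⟩
    refine h1.congr fun k => ?_
    simp only [hF, indicator_of_mem h2]
    rfl

theorem exists_flow {L a b β : ℝ} {z0 w0 : ℝ → ℝ} (hL : 0 < L) (ha : 0 ≤ a) (hb : 0 ≤ b)
    (hβ : β ∈ Icc (0 : ℝ) 1) (hz0 : BS L z0) (hw0 : BS L w0)
    (r : ∀ x ∈ Icc 0 L, z0 x ∈ Icc (0 : ℝ) 1 ∧ w0 x ∈ Icc (0 : ℝ) 1) :
    ∃ Z W : ℝ → ℝ → ℝ, IsFlow L a b β z0 w0 Z W := by
  set lam : ℝ := 1 + a + b with hlam
  have hlam0 : 0 ≤ lam := by linarith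
  have hBM := iterPair_BM (L := L) (a := a) (b := b) (lam := lam) (β := β) hL hlam0 hz0 hw0
  have hR := iterPair_range (L := L) (a := a) (b := b) (lam := lam) (β := β) hL ha hb le_rfl hβ
    hz0 hw0 r
  have hA := iterPair_anti (L := L) (a := a) (b := b) (lam := lam) (β := β) hL ha hb le_rfl hβ
    hz0 hw0 r
  obtain ⟨z, hzm, hzr, hzl⟩ := exists_limit (L := L)
    (f := fun k => (iterPair L a b lam β z0 w0 k).1) (fun k => (hBM k).1.meas)
    (fun k t ht x hx => (hR k t ht x hx).1) (fun k t ht x hx => (hA k t ht x hx).1)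
  obtain ⟨w, hwm, hwr, hwl⟩ := exists_limit (L := L)
    (f := fun k => (iterPair L a b lam β z0 w0 k).2) (fun k => (hBM k).2.meas)
    (fun k t ht x hx => (hR k t ht x hx).2) (fun k t ht x hx => (hA k t ht x hx).2)
  have hzB : BM L z := ⟨hzm, fun T => ⟨1, fun t _ x _ => by
    rw [abs_of_nonneg (hzr t x).1]; exact (hzr t x).2⟩⟩
  have hwB : BM L w := ⟨hwm, fun T => ⟨1, fun t _ x _ => by
    rw [abs_of_nonneg (hwr t x).1]; exact (hwr t x).2⟩⟩
  set H1 : ℝ → ℝ → ℝ := fun s x => G1 a (z s x) (w s x) + lam * z s x with hH1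
  set H2 : ℝ → ℝ → ℝ := fun s x => G2 b (z s x) (w s x) + lam * w s x with hH2
  have hB1 : BM L H1 := (BM.G1 hzB hwB).add ((BM.const L lam).mul hzB)
  have hB2 : BM L H2 := (BM.G2 hzB hwB).add ((BM.const L lam).mul hwB)
  have hH1r : ∀ s x, 0 ≤ H1 s x ∧ H1 s x ≤ lam := fun s x =>
    G1_range ha (by linarith) (hzr s x) (hwr s x)
  have hH2r : ∀ s x, 0 ≤ H2 s x ∧ H2 s x ≤ lam := fun s x =>
    G2_range hb (by linarith) (hzr s x) (hwr s x)
  -- the sources of the iteration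
  have hk1B : ∀ k, BM L (fun s x => G1 a ((iterPair L a b lam β z0 w0 k).1 s x)
        ((iterPair L a b lam β z0 w0 k).2 s x) + lam * (iterPair L a b lam β z0 w0 k).1 s x) :=
    fun k => (BM.G1 (hBM k).1 (hBM k).2).add ((BM.const L lam).mul (hBM k).1)
  have hk2B : ∀ k, BM L (fun s x => G2 b ((iterPair L a b lam β z0 w0 k).1 s x)
        ((iterPair L a b lam β z0 w0 k).2 s x) + lam * (iterPair L a b lam β z0 w0 k).2 s x) :=
    fun k => (BM.G2 (hBM k).1 (hBM k).2).add ((BM.const L lam).mul (hBM k).2)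
  have hG1c : Continuous fun p : ℝ × ℝ => G1 a p.1 p.2 + lam * p.1 := by unfold G1; fun_prop
  have hG2c : Continuous fun p : ℝ × ℝ => G2 b p.1 p.2 + lam * p.2 := by unfold G2; fun_prop
  have hk1 : ∀ t, 0 ≤ t → ∀ x, Tendsto (fun k => (iterPair L a b lam β z0 w0 (k + 1)).1 t x)
      atTop (𝓝 (step L lam β z0 H1 t x)) := by
    intro t ht x
    refine step_tendsto hL hlam0 hz0 hB1 hk1B ht (C := lam) ?_ ?_ x
    · intro k s hs y hy
      have := G1_range (a := a) (lam := lam) ha (by linarith) (hR k s hs.1 y hy).1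
        (hR k s hs.1 y hy).2
      rw [abs_of_nonneg this.1]; exact this.2
    · intro s hs y hy
      exact (hG1c.tendsto (z s y, w s y)).comp
        ((hzl s hs.1 y hy).prodMk_nhds (hwl s hs.1 y hy))
  have hk2 : ∀ t, 0 ≤ t → ∀ x, Tendsto (fun k => (iterPair L a b lam β z0 w0 (k + 1)).2 t x)
      atTop (𝓝 (step L lam β w0 H2 t x)) := by
    intro t ht x
    refine step_tendsto hL hlam0 hw0 hB2 hk2B ht (C := lam) ?_ ?_ x
    · intro k s hs y hy
      have := G2_range (b := b) (lam := lam) hb (by linarith) (hR k s hs.1 y hy).1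
        (hR k s hs.1 y hy).2
      rw [abs_of_nonneg this.1]; exact this.2
    · intro s hs y hy
      exact (hG2c.tendsto (z s y, w s y)).comp
        ((hzl s hs.1 y hy).prodMk_nhds (hwl s hs.1 y hy))
  have hez : ∀ t, 0 ≤ t → ∀ x ∈ Icc 0 L, step L lam β z0 H1 t x = z t x := by
    intro t ht x hx
    exact tendsto_nhds_unique (hk1 t ht x) ((tendsto_add_atTop_iff_nat 1).2 (hzl t ht x hx))
  have hew : ∀ t, 0 ≤ t → ∀ x ∈ Icc 0 L, step L lam β w0 H2 t x = w t x := by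
    intro t ht x hx
    exact tendsto_nhds_unique (hk2 t ht x) ((tendsto_add_atTop_iff_nat 1).2 (hwl t ht x hx))
  have hc0 : (0 : ℝ) ∈ Icc 0 L := ⟨le_rfl, hL.le⟩
  have hZB := (step_sol (β := β) hL hlam0 hz0 hB1 hc0).hz
  have hWB := (step_sol (β := β) hL hlam0 hw0 hB2 hc0).hz
  refine ⟨step L lam β z0 H1, step L lam β w0 H2, ?_⟩
  refine ⟨step_zero _ _ _ _ _, step_zero _ _ _ _ _, ?_, ?_, ?_, ?_, ?_, ?_, ?_, ?_⟩
  · intro c hc
    refine (step_sol hL hlam0 hz0 hB1 hc).congr hL (BM.G1 hZB hWB) ?_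
    intro t ht x hx
    rw [hez t ht x hx, hew t ht x hx, hH1]
    ring
  · intro c hc
    refine (step_sol hL hlam0 hw0 hB2 hc).congr hL (BM.G2 hZB hWB) ?_
    intro t ht x hx
    rw [hez t ht x hx, hew t ht x hx, hH2]
    ring
  · intro t ht x hx
    rw [hez t ht x hx, hew t ht x hx]
    exact ⟨hzr t x, hwr t x⟩
  · intro t ht
    exact ⟨step_continuous_x hL hlam0 hz0 hB1 ht, step_continuous_x hL hlam0 hw0 hB2 ht⟩
  · intro t ht
    exact ⟨step_bdry0 ht, step_bdry0 ht⟩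
  · intro t ht
    exact ⟨step_bdryL hL ht, step_bdryL hL ht⟩
  · refine ⟨2 * L + (2 * lam) * L, ?_⟩
    intro t ht
    have hl : ∀ x ∈ Icc 0 L, lift L β x ∈ Icc (0 : ℝ) 1 := fun x hx => lift_mem hL hβ hx
    have hz : ∀ x ∈ Icc 0 L, |z0 x - lift L β x| ≤ 2 := by
      intro x hx
      rw [abs_le]
      constructor <;> linarith [(hl x hx).1, (hl x hx).2, (r x hx).1.1, (r x hx).1.2]
    have hw : ∀ x ∈ Icc 0 L, |w0 x - lift L β x| ≤ 2 := by
      intro x hx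
      rw [abs_le]
      constructor <;> linarith [(hl x hx).1, (hl x hx).2, (r x hx).2.1, (r x hx).2.2]
    have hh1 : ∀ s ∈ Icc 0 t, ∀ x ∈ Icc 0 L, |H1 s x - lam * lift L β x| ≤ 2 * lam := by
      intro s _ x hx
      have e1 := hH1r s x
      have e2 := mul_nonneg hlam0 (hl x hx).1
      have e3 := mul_le_mul_of_nonneg_left (hl x hx).2 hlam0
      rw [abs_le]
      constructor <;> linarith
    have hh2 : ∀ s ∈ Icc 0 t, ∀ x ∈ Icc 0 L, |H2 s x - lam * lift L β x| ≤ 2 * lam := by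
      intro s _ x hx
      have e1 := hH2r s x
      have e2 := mul_nonneg hlam0 (hl x hx).1
      have e3 := mul_le_mul_of_nonneg_left (hl x hx).2 hlam0
      rw [abs_le]
      constructor <;> linarith
    have R1 := step_reg hL hlam0 hz0 hB1 ht hz hh1
    have R2 := step_reg hL hlam0 hw0 hB2 ht hw hh2
    exact ⟨R1.1, R2.1, R1.2, R2.2⟩
  · intro t x ht
    exact ⟨step_continuousAt hL hlam0 hz0 hB1 ht, step_continuousAt hL hlam0 hw0 hB2 ht⟩

end Pool.Agent.LV65
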