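import Pool.Agent.Lib.MP_e2b89c_an.System

/-!
Existence of the nonlinear flow with constant boundary data by monotone iteration.
-/

namespace Pool.Agent.LV65

open MeasureTheory Set Filter Topology

lemma Sol.congr {L : ℝ} (hL : 0 < L) {z0 : ℝ → ℝ} {z F F' : ℝ → ℝ → ℝ} {gl gr : ℝ → ℝ} {m c : ℝ}
    (S : Sol L z0 z F gl gr m c) (hF' : BM L F')
    (h : ∀ t, 0 ≤ t → ∀ x ∈ Icc 0 L, F t x = F' t x) : Sol L z0 z F' gl gr m c where
  hz0 := S.hz0
  hz := S.hz
  hF := hF'
  hgl := S.hgl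
  hgr := S.hgr
  eq := by
    intro n t ht
    rw [S.eq n t ht]
    congr 1
    apply intervalIntegral.integral_congr
    intro s hs
    rw [uIcc_of_le ht] at hs
    have : coef L n (F s) = coef L n (F' s) := by
      unfold coef
      apply intervalIntegral.integral_congr
      intro x hx
      rw [uIcc_of_le hL.le] at hx
      simp only [h s hs.1 x hx]
    simp only [this]

/-- the lift of the boundary data -/
noncomputable def lift (L β x : ℝ) : ℝ := β * x / L

lemma lift_zero (L β : ℝ) : lift L β 0 = 0 := by simp [lift]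

lemma lift_L {L : ℝ} (hL : 0 < L) (β : ℝ) : lift L β L = β := by
  unfold lift; field_simp

lemma continuous_lift (L β : ℝ) : Continuous (lift L β) := by
  unfold lift; fun_prop

lemma lift_mem {L β x : ℝ} (hL : 0 < L) (hβ : β ∈ Icc (0 : ℝ) 1) (hx : x ∈ Icc 0 L) :
    lift L β x ∈ Icc (0 : ℝ) 1 := by
  unfold lift
  refine ⟨div_nonneg (mul_nonneg hβ.1 hx.1) hL.le, ?_⟩
  rw [div_le_one hL]
  have := mul_le_mul hβ.2 hx.2 hx.1 zero_le_one
  linarith

lemma lift_sol {L : ℝ} (hL : 0 < L) (β : ℝ) {c : ℝ} (hc : c ∈ Icc 0 L) :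
    Sol L (lift L β) (fun _ => lift L β) (fun _ _ => 0) (fun _ => 0) (fun _ => β) 0 c := by
  have h := statSol hL hc (u := lift L β) (u' := fun _ => β / L) (g := fun _ => 0) (by
    intro x
    unfold lift
    have := ((hasDerivAt_id x).const_mul β).div_const L
    simpa using this) (by
    intro x
    simpa using hasDerivAt_const x (β / L)) continuous_const
  rw [lift_zero, lift_L hL] at h
  exact h

/-- one step of the iteration -/
noncomputable def step (L lam β : ℝ) (z0 : ℝ → ℝ) (H : ℝ → ℝ → ℝ) (t x : ℝ) : ℝ :=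
  lift L β x + heatOp L lam (fun x => z0 x - lift L β x) (fun s x => H s x - lam * lift L β x) t x

lemma step_zero (L lam β : ℝ) (z0 : ℝ → ℝ) (H : ℝ → ℝ → ℝ) : step L lam β z0 H 0 = z0 := by
  funext x
  simp [step, heatOp]

section Step

variable {L lam β : ℝ} {z0 : ℝ → ℝ} {H H' : ℝ → ℝ → ℝ}

lemma stepF_BM (hH : BM L H) : BM L (fun s x => H s x - lam * lift L β x) :=
  hH.sub (BM.of_space ((BS.of_continuous (continuous_const.mul (continuous_lift L β)))))

lemma stepz_BS (hz0 : BS L z0) : BS L (fun x => z0 x - lift L β x) :=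
  hz0.sub (BS.of_continuous (continuous_lift L β))

lemma step_sol (hL : 0 < L) (hlam : 0 ≤ lam) (hz0 : BS L z0) (hH : BM L H) {c : ℝ}
    (hc : c ∈ Icc 0 L) :
    Sol L z0 (step L lam β z0 H) (fun s x => H s x - lam * step L lam β z0 H s x)
      (fun _ => 0) (fun _ => β) 0 c := by
  have S1 := (lift_sol hL β hc).add hL (heatOp_sol hL hlam (stepz_BS (β := β) hz0)
    (stepF_BM (lam := lam) (β := β) hH) c)
  have e1 : (fun x => lift L β x + (z0 x - lift L β x)) = z0 := by funext x; ring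
  have e2 : (fun s x => (0 : ℝ) + (H s x - lam * lift L β x - lam * heatOp L lam
      (fun x => z0 x - lift L β x) (fun s x => H s x - lam * lift L β x) s x)) =
      (fun s x => H s x - lam * step L lam β z0 H s x) := by
    funext s x
    unfold step
    ring
  rw [e1, e2] at S1
  have e3 : (fun _ : ℝ => (0 : ℝ) + 0) = fun _ => 0 := by funext; ring
  have e4 : (fun _ : ℝ => β + 0) = fun _ => β := by funext; ring
  rw [e3, e4, add_zero] at S1
  exact S1

lemma step_continuous_x (hL : 0 < L) (hlam : 0 ≤ lam) (hz0 : BS L z0) (hH : BM L H) {t : ℝ}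
    (ht : 0 < t) : Continuous (step L lam β z0 H t) := by
  have h : step L lam β z0 H t = fun x => lift L β x + heatSum L lam (fun x => z0 x - lift L β x)
      (fun s x => H s x - lam * lift L β x) t x := by
    funext x
    simp [step, heatOp, ht]
  rw [h]
  exact (continuous_lift L β).add (heatSum_continuous_x hL hlam (stepz_BS hz0) (stepF_BM hH) ht)

lemma step_continuousAt (hL : 0 < L) (hlam : 0 ≤ lam) (hz0 : BS L z0) (hH : BM L H) {t x : ℝ}
    (ht : 0 < t) : ContinuousAt (Function.uncurry (step L lam β z0 H)) (t, x) := by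
  have h1 : ContinuousAt (fun p : ℝ × ℝ => lift L β p.2 +
      Function.uncurry (heatSum L lam (fun x => z0 x - lift L β x)
        (fun s x => H s x - lam * lift L β x)) p) (t, x) :=
    ((continuous_lift L β).comp continuous_snd).continuousAt.add
      (heatSum_continuousAt hL hlam (stepz_BS hz0) (stepF_BM hH) ht)
  apply h1.congr
  have : ∀ᶠ p : ℝ × ℝ in 𝓝 (t, x), 0 < p.1 :=
    (continuous_fst.tendsto (t, x)).eventually (lt_mem_nhds ht)
  filter_upwards [this] with p hp
  simp [Function.uncurry, step, heatOp, hp]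

lemma step_mono (hL : 0 < L) (hlam : 0 ≤ lam) (hz0 : BS L z0) (hH : BM L H) (hH' : BM L H')
    {t : ℝ} (ht : 0 ≤ t) (h : ∀ s ∈ Icc 0 t, ∀ x ∈ Icc 0 L, H s x ≤ H' s x) :
    ∀ x ∈ Icc 0 L, step L lam β z0 H t x ≤ step L lam β z0 H' t x := by
  rcases ht.eq_or_lt with h0 | h0
  · subst h0
    intro x _
    rw [step_zero, step_zero]
  · have hc : (0 : ℝ) ∈ Icc 0 L := ⟨le_rfl, hL.le⟩
    have S := (step_sol (β := β) hL hlam hz0 hH' hc).sub hL
      (step_sol (β := β) hL hlam hz0 hH hc)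
    have key := S.nonneg hL lam (by norm_num) hc ht (by
      refine Eventually.of_forall fun x => ?_
      simp) (by
      intro s hs
      rw [ae_restrict_iff' measurableSet_Ioc]
      refine Eventually.of_forall fun x hx => ?_
      have := h s hs x ⟨hx.1.le, hx.2⟩
      linarith) (fun s _ => by simp) (fun s _ => by simp)
    have h1 := forall_of_ae hL (f := fun x => step L lam β z0 H' t x - step L lam β z0 H t x)
      ((step_continuous_x hL hlam hz0 hH' h0).sub (step_continuous_x hL hlam hz0 hH h0)) key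
    intro x hx
    linarith [h1 x hx]

lemma step_nonneg (hL : 0 < L) (hlam : 0 ≤ lam) (hz0 : BS L z0) (hH : BM L H)
    (hβ : 0 ≤ β) (h0 : ∀ x ∈ Icc 0 L, 0 ≤ z0 x)
    {t : ℝ} (ht : 0 ≤ t) (h : ∀ s ∈ Icc 0 t, ∀ x ∈ Icc 0 L, 0 ≤ H s x) :
    ∀ x ∈ Icc 0 L, 0 ≤ step L lam β z0 H t x := by
  rcases ht.eq_or_lt with h1 | h1
  · subst h1
    intro x hx
    rw [step_zero]
    exact h0 x hx
  · have hc : (0 : ℝ) ∈ Icc 0 L := ⟨le_rfl, hL.le⟩
    have S := step_sol (β := β) hL hlam hz0 hH hc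
    have key := S.nonneg hL lam le_rfl hc ht (by
      rw [ae_restrict_iff' measurableSet_Ioc]
      exact Eventually.of_forall fun x hx => h0 x ⟨hx.1.le, hx.2⟩) (by
      intro s hs
      rw [ae_restrict_iff' measurableSet_Ioc]
      refine Eventually.of_forall fun x hx => ?_
      have := h s hs x ⟨hx.1.le, hx.2⟩
      linarith) (fun s _ => le_rfl) (fun s _ => hβ)
    exact forall_of_ae hL (step_continuous_x hL hlam hz0 hH h1) key

lemma step_le_one (hL : 0 < L) (hlam : 0 ≤ lam) (hz0 : BS L z0) (hH : BM L H)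
    (hβ : β ≤ 1) (h0 : ∀ x ∈ Icc 0 L, z0 x ≤ 1)
    {t : ℝ} (ht : 0 ≤ t) (h : ∀ s ∈ Icc 0 t, ∀ x ∈ Icc 0 L, H s x ≤ lam) :
    ∀ x ∈ Icc 0 L, step L lam β z0 H t x ≤ 1 := by
  rcases ht.eq_or_lt with h1 | h1
  · subst h1
    intro x hx
    rw [step_zero]
    exact h0 x hx
  · have hc : (0 : ℝ) ∈ Icc 0 L := ⟨le_rfl, hL.le⟩
    have S0 := Sol.const_space (L := L) hL (κ := fun _ => 1) (κ' := fun _ => 0)
      (fun t => hasDerivAt_const t (1 : ℝ)) continuous_const 0
    have S := S0.sub hL (step_sol (β := β) hL hlam hz0 hH hc)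
    have key := S.nonneg hL lam (by norm_num) hc ht (by
      rw [ae_restrict_iff' measurableSet_Ioc]
      refine Eventually.of_forall fun x hx => ?_
      have := h0 x ⟨hx.1.le, hx.2⟩
      linarith) (by
      intro s hs
      rw [ae_restrict_iff' measurableSet_Ioc]
      refine Eventually.of_forall fun x hx => ?_
      have := h s hs x ⟨hx.1.le, hx.2⟩
      linarith) (fun s _ => by norm_num) (fun s _ => by linarith)
    have h2 := forall_of_ae hL (f := fun x => 1 - step L lam β z0 H t x)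
      (continuous_const.sub (step_continuous_x hL hlam hz0 hH h1)) key
    intro x hx
    linarith [h2 x hx]

lemma step_tendsto (hL : 0 < L) (hlam : 0 ≤ lam) (hz0 : BS L z0) {Hk : ℕ → ℝ → ℝ → ℝ}
    (hH : BM L H) (hHk : ∀ k, BM L (Hk k)) {t C : ℝ} (ht : 0 ≤ t)
    (hb : ∀ k, ∀ s ∈ Icc 0 t, ∀ x ∈ Icc 0 L, |Hk k s x| ≤ C)
    (hlim : ∀ s ∈ Icc 0 t, ∀ x ∈ Icc 0 L, Tendsto (fun k => Hk k s x) atTop (𝓝 (H s x)))
    (x : ℝ) :
    Tendsto (fun k => step L lam β z0 (Hk k) t x) atTop (𝓝 (step L lam β z0 H t x)) := by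
  rcases ht.eq_or_lt with h0 | h0
  · subst h0
    simp only [step_zero]
    exact tendsto_const_nhds
  · obtain ⟨M, hM⟩ := (BS.of_continuous (L := L)
      (continuous_const.mul (continuous_lift L β) : Continuous fun x => lam * lift L β x)).bdd
    have h := heatSum_tendsto (lam := lam) hL hlam (stepz_BS (β := β) hz0)
      (stepF_BM (lam := lam) (β := β) hH) (fun k => stepF_BM (lam := lam) (β := β) (hHk k)) h0
      (CF := C + M) (fun k s hs y hy => (abs_sub _ _).trans (add_le_add (hb k s hs y hy) (hM y hy)))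
      (fun s hs y hy => (hlim s hs y hy).sub_const _) x
    have h2 := h.const_add (lift L β x)
    simpa [step, heatOp, h0] using h2

lemma step_bdry0 {t : ℝ} (ht : 0 < t) : step L lam β z0 H t 0 = 0 := by
  simp [step, heatOp, ht, lift_zero, heatSum, sn_zero]

lemma step_bdryL (hL : 0 < L) {t : ℝ} (ht : 0 < t) : step L lam β z0 H t L = β := by
  simp [step, heatOp, ht, lift_L hL, heatSum, sn_L hL]

end Step

/-- the properties of the nonlinear flow -/
structure IsFlow (L a b β : ℝ) (z0 w0 : ℝ → ℝ) (Z W : ℝ → ℝ → ℝ) : Prop where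
  Z0 : Z 0 = z0
  W0 : W 0 = w0
  solZ : ∀ c ∈ Icc 0 L, Sol L z0 Z (fun s x => G1 a (Z s x) (W s x)) (fun _ => 0) (fun _ => β) 0 c
  solW : ∀ c ∈ Icc 0 L, Sol L w0 W (fun s x => G2 b (Z s x) (W s x)) (fun _ => 0) (fun _ => β) 0 c
  range : ∀ t, 0 ≤ t → ∀ x ∈ Icc 0 L, Z t x ∈ Icc (0 : ℝ) 1 ∧ W t x ∈ Icc (0 : ℝ) 1
  cont : ∀ t, 0 < t → Continuous (Z t) ∧ Continuous (W t)
  bdry0 : ∀ t, 0 < t → Z t 0 = 0 ∧ W t 0 = 0
  bdryL : ∀ t, 0 < t → Z t L = β ∧ W t L = β
  reg : ∃ B, ∀ t, 1 ≤ t → (∀ x, Z t x = lift L β x + (2 / L) *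
      ∑' n, (coef L n (Z t) - coef L n (lift L β)) * sn L n x) ∧
    (∀ x, W t x = lift L β x + (2 / L) *
      ∑' n, (coef L n (W t) - coef L n (lift L β)) * sn L n x) ∧
    (∀ n, |coef L n (Z t) - coef L n (lift L β)| ≤ B * (1 / (wn L n) ^ 2)) ∧
    (∀ n, |coef L n (W t) - coef L n (lift L β)| ≤ B * (1 / (wn L n) ^ 2))
  jcont : ∀ t x : ℝ, 0 < t → ContinuousAt (Function.uncurry Z) (t, x) ∧
    ContinuousAt (Function.uncurry W) (t, x)

lemma step_reg {L lam β : ℝ} {z0 : ℝ → ℝ} {H : ℝ → ℝ → ℝ} (hL : 0 < L) (hlam : 0 ≤ lam)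
    (hz0 : BS L z0) (hH : BM L H) {C0 C t : ℝ} (ht : 1 ≤ t)
    (h0 : ∀ x ∈ Icc 0 L, |z0 x - lift L β x| ≤ C0)
    (hb : ∀ s ∈ Icc 0 t, ∀ x ∈ Icc 0 L, |H s x - lam * lift L β x| ≤ C) :
    (∀ x, step L lam β z0 H t x = lift L β x + (2 / L) *
      ∑' n, (coef L n (step L lam β z0 H t) - coef L n (lift L β)) * sn L n x) ∧
    (∀ n, |coef L n (step L lam β z0 H t) - coef L n (lift L β)| ≤
      (C0 * L + C * L) * (1 / (wn L n) ^ 2)) := by
  have ht0 : 0 < t := by linarith
  have hw := stepz_BS (β := β) hz0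
  have hF := stepF_BM (lam := lam) (β := β) hH
  have hfun : step L lam β z0 H t = fun x => lift L β x + heatSum L lam
      (fun x => z0 x - lift L β x) (fun s x => H s x - lam * lift L β x) t x := by
    funext x
    simp [step, heatOp, ht0]
  have hcoef : ∀ n, coef L n (step L lam β z0 H t) - coef L n (lift L β) =
      amp L lam (fun x => z0 x - lift L β x) (fun s x => H s x - lam * lift L β x) n t := by
    intro n
    rw [hfun, coef_add hL n (BS.of_continuous (continuous_lift L β))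
      (BS.of_continuous (heatSum_continuous_x hL hlam hw hF ht0)), coef_heatSum hL hlam hw hF ht0]
    ring
  constructor
  · intro x
    simp_rw [hcoef]
    rw [hfun]
    rfl
  · intro n
    rw [hcoef]
    refine (amp_bound hL hlam ht0 h0 hb n).trans ?_
    have hC0 : 0 ≤ C0 := le_trans (abs_nonneg _) (h0 0 ⟨le_rfl, hL.le⟩)
    apply mul_le_mul_of_nonneg_right _ (by positivity)
    have : C0 * L / t ≤ C0 * L := div_le_self (by positivity) ht
    linarith

end Pool.Agent.LV65
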