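import Pool.Agent.Lib.MP_e2b89c_an.Ode

/-!
Solutions on the half line as limits of monotone connections on long intervals.
-/

namespace Pool.Agent.LV65

open MeasureTheory Set Filter Topology

/-- monotone solutions on the half line starting at `(0,0)` with nonzero slope -/
structure HalfSol (a b : ℝ) (U U' g V V' h : ℝ → ℝ) : Prop where
  dU : ∀ x, HasDerivAt U (U' x) x
  dU' : ∀ x, HasDerivAt U' (-g x) x
  dV : ∀ x, HasDerivAt V (V' x) x
  dV' : ∀ x, HasDerivAt V' (-h x) x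
  cg : Continuous g
  ch : Continuous h
  eg : ∀ x, 0 ≤ x → g x = G1 a (U x) (V x)
  eh : ∀ x, 0 ≤ x → h x = G2 b (U x) (V x)
  range : ∀ x, 0 ≤ x → U x ∈ Icc (0 : ℝ) 1 ∧ V x ∈ Icc (0 : ℝ) 1
  mono : ∀ x y, 0 ≤ x → x ≤ y → U x ≤ U y ∧ V x ≤ V y
  U0 : U 0 = 0
  V0 : V 0 = 0
  slope : U' 0 ≠ 0 ∨ V' 0 ≠ 0

/-- the approximating solutions -/
structure Appr (a b s L : ℝ) (U U' V V' : ℝ → ℝ) : Prop where
  on : OnI a b U U' V V' 0 L
  mono : ∀ x ∈ Icc 0 L, ∀ y ∈ Icc 0 L, x ≤ y → U x ≤ U y ∧ V x ≤ V y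
  U0 : U 0 = 0
  V0 : V 0 = 0
  slope : s ≤ |U' 0| + |V' 0|

lemma G1_abs {a z w : ℝ} (ha : 0 ≤ a) (hz : z ∈ Icc (0 : ℝ) 1) (hw : w ∈ Icc (0 : ℝ) 1) :
    |G1 a z w| ≤ 3 + 3 * a := by
  have := G1_lip (a := a) (D := 1) (z := z) (w := w) (z' := 0) (w' := 0) ha hz hw
    ⟨le_rfl, zero_le_one⟩ (by rw [sub_zero, abs_of_nonneg hz.1]; exact hz.2)
    (by rw [sub_zero, abs_of_nonneg hw.1]; exact hw.2)
  rw [G1_zero, sub_zero, mul_one] at this
  exact this

lemma G2_abs {b z w : ℝ} (hb : 0 ≤ b) (hz : z ∈ Icc (0 : ℝ) 1) (hw : w ∈ Icc (0 : ℝ) 1) :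
    |G2 b z w| ≤ 3 + 3 * b := by
  have := G2_lip (b := b) (D := 1) (z := z) (w := w) (z' := 0) (w' := 0) hb hw
    ⟨le_rfl, zero_le_one⟩ ⟨le_rfl, zero_le_one⟩ (by rw [sub_zero, abs_of_nonneg hz.1]; exact hz.2)
    (by rw [sub_zero, abs_of_nonneg hw.1]; exact hw.2)
  rw [G2_zero, sub_zero, mul_one] at this
  exact this

/-- a bound for the slope of a function with values in `[0,1]` and bounded second derivative -/
lemma slope_bound {u u' u'' : ℝ → ℝ} {c d M : ℝ} (hcd : c + 1 ≤ d)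
    (hu : ∀ x ∈ Icc c d, HasDerivAt u (u' x) x) (hu' : ∀ x ∈ Icc c d, HasDerivAt u' (u'' x) x)
    (hr : ∀ x ∈ Icc c d, u x ∈ Icc (0 : ℝ) 1) (hM : ∀ x ∈ Icc c d, |u'' x| ≤ M) :
    ∀ x ∈ Icc c d, |u' x| ≤ 1 + M := by
  intro x hx
  have hM0 : 0 ≤ M := (abs_nonneg _).trans (hM x hx)
  -- choose a unit interval inside [c,d] containing x
  obtain ⟨y, hy1, hy2, hy3, hy4⟩ : ∃ y, c ≤ y ∧ y + 1 ≤ d ∧ y ≤ x ∧ x ≤ y + 1 := by
    rcases le_total (x + 1) d with h | h
    · exact ⟨x, hx.1, h, le_rfl, by linarith⟩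
    · exact ⟨d - 1, by linarith, by linarith, by linarith, by linarith [hx.2]⟩
  have hsub : Icc y (y + 1) ⊆ Icc c d := Icc_subset_Icc hy1 hy2
  obtain ⟨ξ, hξ, hξe⟩ := exists_hasDerivAt_eq_slope u u' (show y < y + 1 by linarith)
    (fun t ht => (hu t (hsub ht)).continuousAt.continuousWithinAt)
    (fun t ht => hu t (hsub ⟨ht.1.le, ht.2.le⟩))
  have e1 : |u' ξ| ≤ 1 := by
    rw [hξe, show y + 1 - y = 1 by ring, div_one]
    have h1 := hr (y + 1) (hsub ⟨by linarith, le_rfl⟩)
    have h2 := hr y (hsub ⟨le_rfl, by linarith⟩)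
    rw [abs_le]
    constructor <;> linarith [h1.1, h1.2, h2.1, h2.2]
  have e2 : |u' x - u' ξ| ≤ M * |x - ξ| := by
    have := Convex.norm_image_sub_le_of_norm_hasDerivWithin_le (f := u') (f' := u'')
      (s := Icc c d) (C := M) (x := ξ) (y := x)
      (fun t ht => (hu' t ht).hasDerivWithinAt) (fun t ht => hM t ht) (convex_Icc _ _)
      (hsub ⟨hξ.1.le, hξ.2.le⟩) hx
    simpa using this
  have e3 : |x - ξ| ≤ 1 := by
    rw [abs_le]; constructor <;> linarith [hξ.1, hξ.2]
  have e4 : M * |x - ξ| ≤ M := by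
    have := mul_le_mul_of_nonneg_left e3 hM0
    linarith
  calc |u' x| = |u' ξ + (u' x - u' ξ)| := by ring_nf
    _ ≤ |u' ξ| + |u' x - u' ξ| := abs_add_le _ _
    _ ≤ 1 + M := by linarith

lemma Appr.slopes {a b s L : ℝ} (ha : 0 ≤ a) (hb : 0 ≤ b) (hL : 1 ≤ L) {U U' V V' : ℝ → ℝ}
    (A : Appr a b s L U U' V V') :
    ∀ x ∈ Icc 0 L, |U' x| ≤ 4 + 3 * a + 3 * b ∧ |V' x| ≤ 4 + 3 * a + 3 * b := by
  intro x hx
  constructor
  · have := slope_bound (u := U) (u' := U') (u'' := fun x => -G1 a (U x) (V x)) (M := 3 + 3 * a)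
      (c := 0) (d := L) (by linarith) A.on.dU A.on.dU' (fun y hy => (A.on.range y hy).1)
      (fun y hy => by rw [abs_neg]; exact G1_abs ha (A.on.range y hy).1 (A.on.range y hy).2) x hx
    linarith
  · have := slope_bound (u := V) (u' := V') (u'' := fun x => -G2 b (U x) (V x)) (M := 3 + 3 * b)
      (c := 0) (d := L) (by linarith) A.on.dV A.on.dV' (fun y hy => (A.on.range y hy).2)
      (fun y hy => by rw [abs_neg]; exact G2_abs hb (A.on.range y hy).1 (A.on.range y hy).2) x hx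
    linarith

/-- integral form of a solution -/
lemma primitive_eq {u u' : ℝ → ℝ} {L : ℝ} (hu : ∀ x ∈ Icc 0 L, HasDerivAt u (u' x) x)
    (hc : ContinuousOn u' (Icc 0 L)) {x : ℝ} (hx : x ∈ Icc 0 L) :
    u x = u 0 + ∫ s in (0 : ℝ)..x, u' s := by
  have hsub : uIcc 0 x ⊆ Icc 0 L := by
    rw [uIcc_of_le hx.1]; exact Icc_subset_Icc_right hx.2
  rw [intervalIntegral.integral_eq_sub_of_hasDerivAt (fun t ht => hu t (hsub ht))
    ((hc.mono hsub).intervalIntegrable)]
  ring

/-- the limit of approximating solutions -/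
theorem exists_half_of_appr {a b s : ℝ} (ha : 0 ≤ a) (hb : 0 ≤ b) (hs : 0 < s)
    (H : ∀ k : ℕ, ∃ (L : ℝ) (U U' V V' : ℝ → ℝ), (k : ℝ) + 1 ≤ L ∧ Appr a b s L U U' V V') :
    ∃ U U' g V V' h : ℝ → ℝ, HalfSol a b U U' g V V' h := by
  choose L u u' v v' hL A using H
  set M : ℝ := 4 + 3 * a + 3 * b with hM
  have hM0 : 0 < M := by positivity
  have hL1 : ∀ k, 1 ≤ L k := fun k => by
    have := hL k
    have h0 : (0 : ℝ) ≤ k := Nat.cast_nonneg k
    linarith
  have h0mem : ∀ k, (0 : ℝ) ∈ Icc 0 (L k) := fun k => ⟨le_rfl, by linarith [hL1 k]⟩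
  -- a convergent subsequence of initial slopes
  have hK : IsCompact (Icc (-M) M ×ˢ Icc (-M) M) := isCompact_Icc.prod isCompact_Icc
  have hmem : ∀ k, (u' k 0, v' k 0) ∈ Icc (-M) M ×ˢ Icc (-M) M := fun k =>
    ⟨abs_le.1 ((A k).slopes ha hb (hL1 k) 0 (h0mem k)).1,
      abs_le.1 ((A k).slopes ha hb (hL1 k) 0 (h0mem k)).2⟩
  obtain ⟨p, -, φ, hφ, hlim⟩ := hK.tendsto_subseq hmem
  have hp1 : Tendsto (fun k => u' (φ k) 0) atTop (𝓝 p.1) :=
    (continuous_fst.tendsto p).comp hlim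
  have hp2 : Tendsto (fun k => v' (φ k) 0) atTop (𝓝 p.2) :=
    (continuous_snd.tendsto p).comp hlim
  set Y : ℕ → ℝ → ℝ × ℝ × ℝ × ℝ := fun k => ph (u (φ k)) (u' (φ k)) (v (φ k)) (v' (φ k)) with hY
  have hY0 : Tendsto (fun k => Y k 0) atTop (𝓝 (0, 0, p.1, p.2)) := by
    have e : (fun k => Y k 0) = fun k => (0, 0, u' (φ k) 0, v' (φ k) 0) := by
      funext k
      simp only [hY, ph, (A (φ k)).U0, (A (φ k)).V0]
    rw [e]
    exact tendsto_const_nhds.prodMk_nhds (tendsto_const_nhds.prodMk_nhds (hp1.prodMk_nhds hp2))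
  have hφL : ∀ k : ℕ, (k : ℝ) + 1 ≤ L (φ k) := fun k => by
    have h1 := hL (φ k)
    have h2 : (k : ℝ) ≤ φ k := by exact_mod_cast hφ.id_le k
    linarith
  -- Cauchy
  have hcau : ∀ x, 0 ≤ x → CauchySeq fun k => Y k x := by
    intro x hx
    rw [Metric.cauchySeq_iff]
    intro ε hε
    have hexp : 0 < Real.exp (KL a b * x) := Real.exp_pos _
    obtain ⟨N, hN⟩ := Metric.cauchySeq_iff.1 hY0.cauchySeq (ε / Real.exp (KL a b * x))
      (by positivity)
    obtain ⟨N2, hN2⟩ := exists_nat_ge x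
    refine ⟨max N N2, fun m hm n hn => ?_⟩
    have hxm : x ≤ L (φ m) := by
      have h1 := hφL m
      have h2 : (N2 : ℝ) ≤ m := by exact_mod_cast (le_max_right _ _).trans hm
      linarith
    have hxn : x ≤ L (φ n) := by
      have h1 := hφL n
      have h2 : (N2 : ℝ) ≤ n := by exact_mod_cast (le_max_right _ _).trans hn
      linarith
    have Sm : OnI a b (u (φ m)) (u' (φ m)) (v (φ m)) (v' (φ m)) 0 x :=
      ⟨fun t ht => (A (φ m)).on.dU t ⟨ht.1, ht.2.trans hxm⟩,
        fun t ht => (A (φ m)).on.dV t ⟨ht.1, ht.2.trans hxm⟩,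
        fun t ht => (A (φ m)).on.dU' t ⟨ht.1, ht.2.trans hxm⟩,
        fun t ht => (A (φ m)).on.dV' t ⟨ht.1, ht.2.trans hxm⟩,
        fun t ht => (A (φ m)).on.range t ⟨ht.1, ht.2.trans hxm⟩⟩
    have Sn : OnI a b (u (φ n)) (u' (φ n)) (v (φ n)) (v' (φ n)) 0 x :=
      ⟨fun t ht => (A (φ n)).on.dU t ⟨ht.1, ht.2.trans hxn⟩,
        fun t ht => (A (φ n)).on.dV t ⟨ht.1, ht.2.trans hxn⟩,
        fun t ht => (A (φ n)).on.dU' t ⟨ht.1, ht.2.trans hxn⟩,
        fun t ht => (A (φ n)).on.dV' t ⟨ht.1, ht.2.trans hxn⟩,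
        fun t ht => (A (φ n)).on.range t ⟨ht.1, ht.2.trans hxn⟩⟩
    have h1 := Sm.gronwall ha hb Sn x ⟨hx, le_rfl⟩
    have h2 := hN m ((le_max_left _ _).trans hm) n ((le_max_left _ _).trans hn)
    rw [sub_zero] at h1
    calc dist (Y m x) (Y n x) ≤ dist (Y m 0) (Y n 0) * Real.exp (KL a b * x) := h1
      _ < ε / Real.exp (KL a b * x) * Real.exp (KL a b * x) := by
          exact mul_lt_mul_of_pos_right h2 hexp
      _ = ε := by field_simp
  have hex : ∀ x, ∃ l, 0 ≤ x → Tendsto (fun k => Y k x) atTop (𝓝 l) := by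
    intro x
    by_cases hx : 0 ≤ x
    · obtain ⟨l, hl⟩ := cauchySeq_tendsto_of_complete (hcau x hx)
      exact ⟨l, fun _ => hl⟩
    · exact ⟨0, fun h => absurd h hx⟩
  choose l hl using hex
  have t1 : ∀ x, 0 ≤ x → Tendsto (fun k => u (φ k) x) atTop (𝓝 (l x).1) := fun x hx =>
    (continuous_fst.tendsto (l x)).comp (hl x hx)
  have t2 : ∀ x, 0 ≤ x → Tendsto (fun k => v (φ k) x) atTop (𝓝 (l x).2.1) := fun x hx =>
    ((continuous_fst.comp continuous_snd).tendsto (l x)).comp (hl x hx)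
  have t3 : ∀ x, 0 ≤ x → Tendsto (fun k => u' (φ k) x) atTop (𝓝 (l x).2.2.1) := fun x hx =>
    ((continuous_fst.comp (continuous_snd.comp continuous_snd)).tendsto (l x)).comp (hl x hx)
  have t4 : ∀ x, 0 ≤ x → Tendsto (fun k => v' (φ k) x) atTop (𝓝 (l x).2.2.2) := fun x hx =>
    ((continuous_snd.comp (continuous_snd.comp continuous_snd)).tendsto (l x)).comp (hl x hx)
  have hev : ∀ x : ℝ, ∀ᶠ k : ℕ in atTop, x ≤ L (φ k) := by
    intro x
    obtain ⟨N, hN⟩ := exists_nat_ge x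
    filter_upwards [eventually_ge_atTop N] with k hk
    have h1 := hφL k
    have h2 : (N : ℝ) ≤ k := by exact_mod_cast hk
    linarith
  have hrange : ∀ x, 0 ≤ x → (l x).1 ∈ Icc (0 : ℝ) 1 ∧ (l x).2.1 ∈ Icc (0 : ℝ) 1 := by
    intro x hx
    constructor
    · exact isClosed_Icc.mem_of_tendsto (t1 x hx) (by
        filter_upwards [hev x] with k hk using ((A (φ k)).on.range x ⟨hx, hk⟩).1)
    · exact isClosed_Icc.mem_of_tendsto (t2 x hx) (by
        filter_upwards [hev x] with k hk using ((A (φ k)).on.range x ⟨hx, hk⟩).2)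
  have hmono : ∀ x y, 0 ≤ x → x ≤ y → (l x).1 ≤ (l y).1 ∧ (l x).2.1 ≤ (l y).2.1 := by
    intro x y hx hxy
    have hy := hx.trans hxy
    constructor
    · exact le_of_tendsto_of_tendsto (t1 x hx) (t1 y hy) (by
        filter_upwards [hev y] with k hk using
          ((A (φ k)).mono x ⟨hx, hxy.trans hk⟩ y ⟨hy, hk⟩ hxy).1)
    · exact le_of_tendsto_of_tendsto (t2 x hx) (t2 y hy) (by
        filter_upwards [hev y] with k hk using
          ((A (φ k)).mono x ⟨hx, hxy.trans hk⟩ y ⟨hy, hk⟩ hxy).2)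
  -- Lipschitz bounds
  have hlip : ∀ {f f' : ℕ → ℝ → ℝ} {F : ℝ → ℝ},
      (∀ k, ∀ x ∈ Icc 0 (L (φ k)), HasDerivAt (f k) (f' k x) x) →
      (∀ k, ∀ x ∈ Icc 0 (L (φ k)), |f' k x| ≤ M) →
      (∀ x, 0 ≤ x → Tendsto (fun k => f k x) atTop (𝓝 (F x))) →
      ∀ x y, 0 ≤ x → 0 ≤ y → |F x - F y| ≤ M * |x - y| := by
    intro f f' F hd hb hF x y hx hy
    have h1 := ((hF x hx).sub (hF y hy)).abs
    refine le_of_tendsto h1 ?_
    filter_upwards [hev (max x y)] with k hk
    have := Convex.norm_image_sub_le_of_norm_hasDerivWithin_le (f := f k) (f' := f' k)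
      (s := Icc 0 (L (φ k))) (C := M) (x := y) (y := x)
      (fun t ht => (hd k t ht).hasDerivWithinAt) (fun t ht => hb k t ht) (convex_Icc _ _)
      ⟨hy, (le_max_right _ _).trans hk⟩ ⟨hx, (le_max_left _ _).trans hk⟩
    simpa using this
  have L1 := hlip (f := fun k => u (φ k)) (f' := fun k => u' (φ k)) (F := fun x => (l x).1)
    (fun k x hx => (A (φ k)).on.dU x hx)
    (fun k x hx => ((A (φ k)).slopes ha hb (hL1 _) x hx).1) t1
  have L2 := hlip (f := fun k => v (φ k)) (f' := fun k => v' (φ k)) (F := fun x => (l x).2.1)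
    (fun k x hx => (A (φ k)).on.dV x hx)
    (fun k x hx => ((A (φ k)).slopes ha hb (hL1 _) x hx).2) t2
  have hcont : ∀ {F : ℝ → ℝ}, (∀ x y, 0 ≤ x → 0 ≤ y → |F x - F y| ≤ M * |x - y|) →
      Continuous fun x => F (max x 0) := by
    intro F hF
    have : LipschitzWith (Real.toNNReal M) fun x => F (max x 0) := by
      apply LipschitzWith.of_dist_le_mul
      intro x y
      rw [Real.coe_toNNReal _ hM0.le, Real.dist_eq, Real.dist_eq]
      refine (hF _ _ (le_max_right _ _) (le_max_right _ _)).trans ?_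
      apply mul_le_mul_of_nonneg_left _ hM0.le
      exact abs_max_sub_max_le_abs x y 0
    exact this.continuous
  have C1 := hcont L1
  have C2 := hcont L2
  set g : ℝ → ℝ := fun x => G1 a (l (max x 0)).1 (l (max x 0)).2.1 with hg
  set h : ℝ → ℝ := fun x => G2 b (l (max x 0)).1 (l (max x 0)).2.1 with hh
  have hG1c : Continuous fun p : ℝ × ℝ => G1 a p.1 p.2 := by unfold G1; fun_prop
  have hG2c : Continuous fun p : ℝ × ℝ => G2 b p.1 p.2 := by unfold G2; fun_prop
  have cg : Continuous g := hG1c.comp (C1.prodMk C2)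
  have ch : Continuous h := hG2c.comp (C1.prodMk C2)
  -- the integral equations in the limit
  have I1 : ∀ x, 0 ≤ x → (l x).2.2.1 = p.1 + ∫ s in (0 : ℝ)..x, -g s := by
    intro x hx
    have hR : Tendsto (fun k => u' (φ k) 0 + ∫ s in (0 : ℝ)..x, -G1 a (u (φ k) s) (v (φ k) s)) atTop
        (𝓝 (p.1 + ∫ s in (0 : ℝ)..x, -g s)) := by
      apply hp1.add
      apply intervalIntegral.tendsto_integral_filter_of_dominated_convergence (fun _ => M)
      · filter_upwards [hev x] with k hk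
        have hc : ContinuousOn (fun s => -G1 a (u (φ k) s) (v (φ k) s)) (uIoc 0 x) := by
          intro t ht
          rw [uIoc_of_le hx] at ht
          have h1 := ((A (φ k)).on.dU t ⟨ht.1.le, ht.2.trans hk⟩).continuousAt
          have h2 := ((A (φ k)).on.dV t ⟨ht.1.le, ht.2.trans hk⟩).continuousAt
          exact ((hG1c.continuousAt.comp (h1.prodMk h2)).neg).continuousWithinAt
        exact hc.aestronglyMeasurable measurableSet_uIoc
      · filter_upwards [hev x] with k hk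
        refine Eventually.of_forall fun t ht => ?_
        rw [uIoc_of_le hx] at ht
        have := (A (φ k)).on.range t ⟨ht.1.le, ht.2.trans hk⟩
        rw [Real.norm_eq_abs, abs_neg]
        have := G1_abs ha this.1 this.2
        linarith
      · exact intervalIntegrable_const
      · refine Eventually.of_forall fun t ht => ?_
        rw [uIoc_of_le hx] at ht
        have e : g t = G1 a (l t).1 (l t).2.1 := by simp only [hg, max_eq_left ht.1.le]
        rw [e]
        exact ((hG1c.tendsto _).comp ((t1 t ht.1.le).prodMk_nhds (t2 t ht.1.le))).neg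
    refine tendsto_nhds_unique (t3 x hx) (hR.congr' ?_)
    filter_upwards [hev x] with k hk
    refine (primitive_eq (L := L (φ k)) (A (φ k)).on.dU' ?_ ⟨hx, hk⟩).symm
    intro t ht
    have h1 := ((A (φ k)).on.dU t ht).continuousAt
    have h2 := ((A (φ k)).on.dV t ht).continuousAt
    exact ((hG1c.continuousAt.comp (h1.prodMk h2)).neg).continuousWithinAt
  have I2 : ∀ x, 0 ≤ x → (l x).2.2.2 = p.2 + ∫ s in (0 : ℝ)..x, -h s := by
    intro x hx
    have hR : Tendsto (fun k => v' (φ k) 0 + ∫ s in (0 : ℝ)..x, -G2 b (u (φ k) s) (v (φ k) s)) atTop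
        (𝓝 (p.2 + ∫ s in (0 : ℝ)..x, -h s)) := by
      apply hp2.add
      apply intervalIntegral.tendsto_integral_filter_of_dominated_convergence (fun _ => M)
      · filter_upwards [hev x] with k hk
        have hc : ContinuousOn (fun s => -G2 b (u (φ k) s) (v (φ k) s)) (uIoc 0 x) := by
          intro t ht
          rw [uIoc_of_le hx] at ht
          have h1 := ((A (φ k)).on.dU t ⟨ht.1.le, ht.2.trans hk⟩).continuousAt
          have h2 := ((A (φ k)).on.dV t ⟨ht.1.le, ht.2.trans hk⟩).continuousAt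
          exact ((hG2c.continuousAt.comp (h1.prodMk h2)).neg).continuousWithinAt
        exact hc.aestronglyMeasurable measurableSet_uIoc
      · filter_upwards [hev x] with k hk
        refine Eventually.of_forall fun t ht => ?_
        rw [uIoc_of_le hx] at ht
        have := (A (φ k)).on.range t ⟨ht.1.le, ht.2.trans hk⟩
        rw [Real.norm_eq_abs, abs_neg]
        have := G2_abs hb this.1 this.2
        linarith
      · exact intervalIntegrable_const
      · refine Eventually.of_forall fun t ht => ?_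
        rw [uIoc_of_le hx] at ht
        have e : h t = G2 b (l t).1 (l t).2.1 := by simp only [hh, max_eq_left ht.1.le]
        rw [e]
        exact ((hG2c.tendsto _).comp ((t1 t ht.1.le).prodMk_nhds (t2 t ht.1.le))).neg
    refine tendsto_nhds_unique (t4 x hx) (hR.congr' ?_)
    filter_upwards [hev x] with k hk
    refine (primitive_eq (L := L (φ k)) (A (φ k)).on.dV' ?_ ⟨hx, hk⟩).symm
    intro t ht
    have h1 := ((A (φ k)).on.dU t ht).continuousAt
    have h2 := ((A (φ k)).on.dV t ht).continuousAt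
    exact ((hG2c.continuousAt.comp (h1.prodMk h2)).neg).continuousWithinAt
  have I3 : ∀ x, 0 ≤ x → (l x).1 = ∫ s in (0 : ℝ)..x, (l s).2.2.1 := by
    intro x hx
    have hR : Tendsto (fun k => ∫ s in (0 : ℝ)..x, u' (φ k) s) atTop
        (𝓝 (∫ s in (0 : ℝ)..x, (l s).2.2.1)) := by
      apply intervalIntegral.tendsto_integral_filter_of_dominated_convergence (fun _ => M)
      · filter_upwards [hev x] with k hk
        have hc : ContinuousOn (u' (φ k)) (uIoc 0 x) := by
          intro t ht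
          rw [uIoc_of_le hx] at ht
          exact ((A (φ k)).on.dU' t ⟨ht.1.le, ht.2.trans hk⟩).continuousAt.continuousWithinAt
        exact hc.aestronglyMeasurable measurableSet_uIoc
      · filter_upwards [hev x] with k hk
        refine Eventually.of_forall fun t ht => ?_
        rw [uIoc_of_le hx] at ht
        exact ((A (φ k)).slopes ha hb (hL1 _) t ⟨ht.1.le, ht.2.trans hk⟩).1
      · exact intervalIntegrable_const
      · refine Eventually.of_forall fun t ht => ?_
        rw [uIoc_of_le hx] at ht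
        exact t3 t ht.1.le
    refine tendsto_nhds_unique (t1 x hx) (hR.congr' ?_)
    filter_upwards [hev x] with k hk
    have := primitive_eq (L := L (φ k)) (A (φ k)).on.dU (fun t ht =>
      ((A (φ k)).on.dU' t ht).continuousAt.continuousWithinAt) ⟨hx, hk⟩
    rw [this, (A (φ k)).U0, zero_add]
  have I4 : ∀ x, 0 ≤ x → (l x).2.1 = ∫ s in (0 : ℝ)..x, (l s).2.2.2 := by
    intro x hx
    have hR : Tendsto (fun k => ∫ s in (0 : ℝ)..x, v' (φ k) s) atTop
        (𝓝 (∫ s in (0 : ℝ)..x, (l s).2.2.2)) := by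
      apply intervalIntegral.tendsto_integral_filter_of_dominated_convergence (fun _ => M)
      · filter_upwards [hev x] with k hk
        have hc : ContinuousOn (v' (φ k)) (uIoc 0 x) := by
          intro t ht
          rw [uIoc_of_le hx] at ht
          exact ((A (φ k)).on.dV' t ⟨ht.1.le, ht.2.trans hk⟩).continuousAt.continuousWithinAt
        exact hc.aestronglyMeasurable measurableSet_uIoc
      · filter_upwards [hev x] with k hk
        refine Eventually.of_forall fun t ht => ?_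
        rw [uIoc_of_le hx] at ht
        exact ((A (φ k)).slopes ha hb (hL1 _) t ⟨ht.1.le, ht.2.trans hk⟩).2
      · exact intervalIntegrable_const
      · refine Eventually.of_forall fun t ht => ?_
        rw [uIoc_of_le hx] at ht
        exact t4 t ht.1.le
    refine tendsto_nhds_unique (t2 x hx) (hR.congr' ?_)
    filter_upwards [hev x] with k hk
    have := primitive_eq (L := L (φ k)) (A (φ k)).on.dV (fun t ht =>
      ((A (φ k)).on.dV' t ht).continuousAt.continuousWithinAt) ⟨hx, hk⟩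
    rw [this, (A (φ k)).V0, zero_add]
  -- global functions
  have hprim : ∀ (p0 : ℝ) (g : ℝ → ℝ), Continuous g → ∃ w w' : ℝ → ℝ, (∀ x, HasDerivAt w (w' x) x) ∧
      (∀ x, HasDerivAt w' (-g x) x) ∧ (∀ x, w' x = p0 + ∫ s in (0 : ℝ)..x, -g s) ∧
      (∀ x, w x = ∫ s in (0 : ℝ)..x, w' s) := by
    intro p0 g hg
    set w' : ℝ → ℝ := fun x => p0 + ∫ s in (0 : ℝ)..x, -g s with hw'
    have hd' : ∀ x, HasDerivAt w' (-g x) x := by
      intro x
      have := intervalIntegral.integral_hasDerivAt_right (a := 0) (b := x)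
        (hg.neg.intervalIntegrable _ _) (hg.neg.stronglyMeasurableAtFilter _ _) hg.neg.continuousAt
      exact this.const_add p0
    have hc' : Continuous w' := continuous_iff_continuousAt.2 fun x => (hd' x).continuousAt
    refine ⟨fun x => ∫ s in (0 : ℝ)..x, w' s, w', ?_, hd', fun x => rfl, fun x => rfl⟩
    intro x
    exact intervalIntegral.integral_hasDerivAt_right
      (hc'.intervalIntegrable _ _) (hc'.stronglyMeasurableAtFilter _ _) hc'.continuousAt
  obtain ⟨W, W', dW, dW', eW', eW⟩ := hprim p.1 g cg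
  obtain ⟨X, X', dX, dX', eX', eX⟩ := hprim p.2 h ch
  have qW : ∀ x, 0 ≤ x → W x = (l x).1 := by
    intro x hx
    rw [eW x, I3 x hx]
    apply intervalIntegral.integral_congr
    intro t ht
    rw [uIcc_of_le hx] at ht
    simp only [eW' t, I1 t ht.1]
  have qX : ∀ x, 0 ≤ x → X x = (l x).2.1 := by
    intro x hx
    rw [eX x, I4 x hx]
    apply intervalIntegral.integral_congr
    intro t ht
    rw [uIcc_of_le hx] at ht
    simp only [eX' t, I2 t ht.1]
  refine ⟨W, W', g, X, X', h, dW, dW', dX, dX', cg, ch, ?_, ?_, ?_, ?_, ?_, ?_, ?_⟩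
  · intro x hx
    rw [qW x hx, qX x hx]
    simp only [hg, max_eq_left hx]
  · intro x hx
    rw [qW x hx, qX x hx]
    simp only [hh, max_eq_left hx]
  · intro x hx
    rw [qW x hx, qX x hx]
    exact hrange x hx
  · intro x y hx hxy
    rw [qW x hx, qX x hx, qW y (hx.trans hxy), qX y (hx.trans hxy)]
    exact hmono x y hx hxy
  · rw [eW 0]; simp
  · rw [eX 0]; simp
  · have e1 : W' 0 = p.1 := by rw [eW' 0]; simp
    have e2 : X' 0 = p.2 := by rw [eX' 0]; simp
    rw [e1, e2]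
    have h1 : Tendsto (fun k => |u' (φ k) 0| + |v' (φ k) 0|) atTop (𝓝 (|p.1| + |p.2|)) :=
      hp1.abs.add hp2.abs
    have h2 : s ≤ |p.1| + |p.2| := ge_of_tendsto' h1 fun k => (A (φ k)).slope
    by_contra hcon
    push Not at hcon
    rw [hcon.1, hcon.2] at h2
    simp at h2
    linarith

end Pool.Agent.LV65
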