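import Pool.Agent.Lib.MP_e2b89c_an.Total

/-!
Positivity of the heat evolution of sine polynomials.
-/

namespace Pool.Agent.LV65

open MeasureTheory Set Filter Topology

lemma second_deriv_nonneg {g g' : ℝ → ℝ} {g'' x0 : ℝ} (h : IsLocalMin g x0)
    (h1 : ∀ x, HasDerivAt g (g' x) x) (h2 : HasDerivAt g' g'' x0) : 0 ≤ g'' := by
  by_contra hneg
  push Not at hneg
  have hz : g' x0 = 0 := h.hasDerivAt_eq_zero (h1 x0)
  have hslope : Tendsto (slope g' x0) (𝓝[≠] x0) (𝓝 g'') := hasDerivAt_iff_tendsto_slope.1 h2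
  have hev : ∀ᶠ x in 𝓝[≠] x0, slope g' x0 x < 0 := hslope.eventually_lt_const hneg
  have hev2 : ∀ᶠ x in 𝓝[>] x0, slope g' x0 x < 0 :=
    hev.filter_mono (nhdsWithin_mono _ (fun x hx => ne_of_gt hx))
  have hmin : ∀ᶠ x in 𝓝[>] x0, g x0 ≤ g x := h.filter_mono nhdsWithin_le_nhds
  obtain ⟨u, hu, hsub⟩ := (mem_nhdsGT_iff_exists_Ioo_subset).1 (hev2.and hmin)
  have hu' : x0 < u := hu
  set y := (x0 + u) / 2 with hy
  have hy1 : x0 < y := by rw [hy]; linarith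
  have hy2 : y < u := by rw [hy]; linarith
  obtain ⟨c, hc, hceq⟩ := exists_hasDerivAt_eq_slope g g' hy1
    (fun x _ => (h1 x).continuousAt.continuousWithinAt) (fun x _ => h1 x)
  have hcs : slope g' x0 c < 0 := (hsub (show c ∈ Ioo x0 u from ⟨hc.1, hc.2.trans hy2⟩)).1
  have hyg : g x0 ≤ g y := (hsub (show y ∈ Ioo x0 u from ⟨hy1, hy2⟩)).2
  rw [slope_def_field, hz, sub_zero] at hcs
  have hcpos : 0 < c - x0 := by linarith [hc.1]
  have hgc : g' c < 0 := by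
    by_contra hh
    push Not at hh
    exact absurd hcs (not_lt.2 (div_nonneg hh hcpos.le))
  rw [hceq] at hgc
  have : 0 ≤ (g y - g x0) / (y - x0) := div_nonneg (by linarith) (by linarith)
  linarith

/-- heat evolution of a sine polynomial -/
noncomputable def hpoly (L : ℝ) (N : ℕ) (c : ℕ → ℝ) (τ x : ℝ) : ℝ :=
  ∑ n ∈ Finset.range N, c n * (Real.exp (-(wn L n) ^ 2 * τ) * sn L n x)

lemma continuous_hpoly (L : ℝ) (N : ℕ) (c : ℕ → ℝ) :
    Continuous fun p : ℝ × ℝ => hpoly L N c p.1 p.2 := by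
  unfold hpoly
  apply continuous_finsetSum
  intro n _
  have := (continuous_sn L n).comp continuous_snd (X := ℝ × ℝ)
  fun_prop

lemma hasDerivAt_hpoly_x (L : ℝ) (N : ℕ) (c : ℕ → ℝ) (τ x : ℝ) :
    HasDerivAt (hpoly L N c τ) (∑ n ∈ Finset.range N, c n * (Real.exp (-(wn L n) ^ 2 * τ) *
      (wn L n * Real.cos (wn L n * x)))) x := by
  unfold hpoly
  apply HasDerivAt.fun_sum
  intro n _
  exact ((hasDerivAt_sn L n x).const_mul _).const_mul _

lemma hasDerivAt_hpoly_xx (L : ℝ) (N : ℕ) (c : ℕ → ℝ) (τ x : ℝ) :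
    HasDerivAt (fun x => ∑ n ∈ Finset.range N, c n * (Real.exp (-(wn L n) ^ 2 * τ) *
      (wn L n * Real.cos (wn L n * x)))) (∑ n ∈ Finset.range N, c n *
        (Real.exp (-(wn L n) ^ 2 * τ) * (-(wn L n) ^ 2 * sn L n x))) x := by
  apply HasDerivAt.fun_sum
  intro n _
  exact ((hasDerivAt_cos_wn L n x).const_mul _).const_mul _

lemma hasDerivAt_hpoly_t (L : ℝ) (N : ℕ) (c : ℕ → ℝ) (τ x : ℝ) :
    HasDerivAt (fun τ => hpoly L N c τ x) (∑ n ∈ Finset.range N, c n *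
        (Real.exp (-(wn L n) ^ 2 * τ) * (-(wn L n) ^ 2 * sn L n x))) τ := by
  unfold hpoly
  apply HasDerivAt.fun_sum
  intro n _
  have h : HasDerivAt (fun τ : ℝ => -(wn L n) ^ 2 * τ) (-(wn L n) ^ 2) τ := by
    simpa using (hasDerivAt_id τ).const_mul (-(wn L n) ^ 2)
  have h2 := ((h.exp).mul_const (sn L n x)).const_mul (c n)
  have e : c n * (Real.exp (-(wn L n) ^ 2 * τ) * (-(wn L n) ^ 2 * sn L n x)) =
      c n * (Real.exp (-(wn L n) ^ 2 * τ) * -(wn L n) ^ 2 * sn L n x) := by ring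
  rw [e]
  exact h2

lemma hpoly_bdry0 (L : ℝ) (N : ℕ) (c : ℕ → ℝ) (τ : ℝ) : hpoly L N c τ 0 = 0 := by
  unfold hpoly
  exact Finset.sum_eq_zero fun n _ => by rw [sn_zero]; ring

lemma hpoly_bdryL {L : ℝ} (hL : 0 < L) (N : ℕ) (c : ℕ → ℝ) (τ : ℝ) : hpoly L N c τ L = 0 := by
  unfold hpoly
  exact Finset.sum_eq_zero fun n _ => by rw [sn_L hL]; ring

theorem hpoly_nonneg {L : ℝ} (hL : 0 < L) (N : ℕ) (c : ℕ → ℝ)
    (h0 : ∀ x ∈ Icc 0 L, 0 ≤ ∑ n ∈ Finset.range N, c n * sn L n x) {τ x : ℝ} (hτ : 0 ≤ τ)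
    (hx : x ∈ Icc 0 L) : 0 ≤ hpoly L N c τ x := by
  by_contra hneg
  push Not at hneg
  set ε : ℝ := -hpoly L N c τ x / (2 * (τ + 1)) with hε
  have hε0 : 0 < ε := by
    rw [hε]; apply div_pos <;> linarith
  set v : ℝ × ℝ → ℝ := fun p => hpoly L N c p.1 p.2 + ε * p.1 with hv
  have hvc : Continuous v := by
    have := continuous_hpoly L N c
    simp only [hv]
    exact this.add (continuous_const.mul continuous_fst)
  have hK : IsCompact (Icc (0 : ℝ) τ ×ˢ Icc (0 : ℝ) L) := isCompact_Icc.prod isCompact_Icc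
  obtain ⟨p, hp, hmin⟩ := hK.exists_isMinOn ⟨(τ, x), ⟨⟨hτ, le_rfl⟩, hx⟩⟩ hvc.continuousOn
  have hvneg : v p < 0 := by
    have h1 : v p ≤ v (τ, x) := hmin (show (τ, x) ∈ _ from ⟨⟨hτ, le_rfl⟩, hx⟩)
    have h2 : v (τ, x) < 0 := by
      simp only [hv]
      have : ε * τ < -hpoly L N c τ x := by
        rw [hε, div_mul_eq_mul_div, div_lt_iff₀ (by linarith)]
        nlinarith
      linarith
    linarith
  obtain ⟨τ0, x0⟩ := p
  have hp1 : τ0 ∈ Icc (0 : ℝ) τ := hp.1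
  have hp2 : x0 ∈ Icc (0 : ℝ) L := hp.2
  simp only [hv] at hvneg
  have hτ0 : 0 < τ0 := by
    rcases hp1.1.eq_or_lt with h | h
    · exfalso
      subst h
      have := h0 x0 hp2
      unfold hpoly at hvneg
      simp only [mul_zero, Real.exp_zero, one_mul, add_zero] at hvneg
      linarith
    · exact h
  have hx0l : 0 < x0 := by
    rcases hp2.1.eq_or_lt with h | h
    · exfalso
      subst h
      rw [hpoly_bdry0] at hvneg
      nlinarith [hp1.1]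
    · exact h
  have hx0r : x0 < L := by
    rcases hp2.2.eq_or_lt with h | h
    · exfalso
      subst h
      rw [hpoly_bdryL hL] at hvneg
      nlinarith [hp1.1]
    · exact h
  -- second derivative in x
  have hxx : 0 ≤ ∑ n ∈ Finset.range N, c n *
        (Real.exp (-(wn L n) ^ 2 * τ0) * (-(wn L n) ^ 2 * sn L n x0)) := by
    refine second_deriv_nonneg (g := hpoly L N c τ0) (x0 := x0) ?_
      (fun x => hasDerivAt_hpoly_x L N c τ0 x) (hasDerivAt_hpoly_xx L N c τ0 x0)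
    have : Icc 0 L ∈ 𝓝 x0 := Icc_mem_nhds hx0l hx0r
    filter_upwards [this] with y hy
    have : v (τ0, x0) ≤ v (τ0, y) :=
      hmin (show (τ0, y) ∈ Icc (0 : ℝ) τ ×ˢ Icc (0 : ℝ) L from ⟨hp1, hy⟩)
    simp only [hv] at this
    linarith
  -- derivative in time
  have hder : HasDerivAt (fun s => hpoly L N c s x0 + ε * s) ((∑ n ∈ Finset.range N, c n *
        (Real.exp (-(wn L n) ^ 2 * τ0) * (-(wn L n) ^ 2 * sn L n x0))) + ε) τ0 := by
    have h2 : HasDerivAt (fun s : ℝ => ε * s) ε τ0 := by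
      simpa using (hasDerivAt_id τ0).const_mul ε
    exact (hasDerivAt_hpoly_t L N c τ0 x0).fun_add h2
  have hslope : Tendsto (slope (fun s => hpoly L N c s x0 + ε * s) τ0) (𝓝[<] τ0) (𝓝 _) :=
    (hasDerivAt_iff_tendsto_slope.1 hder).mono_left
      (nhdsWithin_mono _ (fun x hx => ne_of_lt hx))
  have hle : (∑ n ∈ Finset.range N, c n *
        (Real.exp (-(wn L n) ^ 2 * τ0) * (-(wn L n) ^ 2 * sn L n x0))) + ε ≤ 0 := by
    refine le_of_tendsto hslope ?_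
    have : Ioo 0 τ0 ∈ 𝓝[<] τ0 := Ioo_mem_nhdsLT hτ0
    filter_upwards [this] with s hs
    rw [slope_def_field]
    have : v (τ0, x0) ≤ v (s, x0) := hmin (show (s, x0) ∈ Icc (0 : ℝ) τ ×ˢ Icc (0 : ℝ) L from
      ⟨⟨hs.1.le, hs.2.le.trans hp1.2⟩, hp2⟩)
    simp only [hv] at this
    apply div_nonpos_of_nonneg_of_nonpos
    · linarith
    · linarith [hs.2]
  linarith

lemma hpoly_deriv0 {L : ℝ} (hL : 0 < L) (N : ℕ) (c : ℕ → ℝ)
    (h0 : ∀ x ∈ Icc 0 L, 0 ≤ ∑ n ∈ Finset.range N, c n * sn L n x) {τ : ℝ} (hτ : 0 ≤ τ) :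
    0 ≤ ∑ n ∈ Finset.range N, c n * (Real.exp (-(wn L n) ^ 2 * τ) * wn L n) := by
  have hd := hasDerivAt_hpoly_x L N c τ 0
  simp only [mul_zero, Real.cos_zero, mul_one] at hd
  have hs : Tendsto (slope (hpoly L N c τ) 0) (𝓝[>] 0) (𝓝 _) :=
    (hasDerivAt_iff_tendsto_slope.1 hd).mono_left (nhdsWithin_mono _ (fun x hx => ne_of_gt hx))
  refine ge_of_tendsto hs ?_
  filter_upwards [Ioo_mem_nhdsGT hL] with x hx
  rw [slope_def_field, hpoly_bdry0, sub_zero, sub_zero]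
  exact div_nonneg (hpoly_nonneg hL N c h0 hτ ⟨hx.1.le, hx.2.le⟩) hx.1.le

lemma hpoly_derivL {L : ℝ} (hL : 0 < L) (N : ℕ) (c : ℕ → ℝ)
    (h0 : ∀ x ∈ Icc 0 L, 0 ≤ ∑ n ∈ Finset.range N, c n * sn L n x) {τ : ℝ} (hτ : 0 ≤ τ) :
    ∑ n ∈ Finset.range N, c n * (Real.exp (-(wn L n) ^ 2 * τ) *
      (wn L n * Real.cos (wn L n * L))) ≤ 0 := by
  have hd := hasDerivAt_hpoly_x L N c τ L
  have hs : Tendsto (slope (hpoly L N c τ) L) (𝓝[<] L) (𝓝 _) :=
    (hasDerivAt_iff_tendsto_slope.1 hd).mono_left (nhdsWithin_mono _ (fun x hx => ne_of_lt hx))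
  refine le_of_tendsto hs ?_
  filter_upwards [Ioo_mem_nhdsLT hL] with x hx
  rw [slope_def_field, hpoly_bdryL hL, sub_zero]
  exact div_nonpos_of_nonneg_of_nonpos (hpoly_nonneg hL N c h0 hτ ⟨hx.1.le, hx.2.le⟩)
    (by linarith [hx.2])

end Pool.Agent.LV65
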