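import Pool.Agent.Lib.MP_e2b89c_an.Half

/-!
Existence of a half line solution and its behaviour at infinity.
-/

namespace Pool.Agent.LV65

open MeasureTheory Set Filter Topology

lemma hasDerivAt_reflect {u : ℝ → ℝ} {u' c x : ℝ} (h : HasDerivAt u u' (c - x)) :
    HasDerivAt (fun x => u (c - x)) (-u') x := by
  have := HasDerivAt.comp_const_sub c x h
  exact this

lemma OnI.reflect_swap {a b L : ℝ} {U U' V V' : ℝ → ℝ} (S : OnI a b U U' V V' 0 L) :
    OnI b a (fun x => 1 - V (L - x)) (fun x => V' (L - x)) (fun x => 1 - U (L - x))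
      (fun x => U' (L - x)) 0 L := by
  have hm : ∀ x ∈ Icc 0 L, L - x ∈ Icc 0 L := fun x hx => ⟨by linarith [hx.2], by linarith [hx.1]⟩
  refine ⟨?_, ?_, ?_, ?_, ?_⟩
  · intro x hx
    have := (hasDerivAt_reflect (S.dV _ (hm x hx))).const_sub 1
    simpa using this
  · intro x hx
    have := (hasDerivAt_reflect (S.dU _ (hm x hx))).const_sub 1
    simpa using this
  · intro x hx
    have := hasDerivAt_reflect (S.dV' _ (hm x hx))
    refine this.congr_deriv ?_
    unfold G1 G2; ring
  · intro x hx
    have := hasDerivAt_reflect (S.dU' _ (hm x hx))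
    refine this.congr_deriv ?_
    unfold G1 G2; ring
  · intro x hx
    have := S.range _ (hm x hx)
    exact ⟨⟨by linarith [this.2.2], by linarith [this.2.1]⟩,
      ⟨by linarith [this.1.2], by linarith [this.1.1]⟩⟩

lemma exists_appr {a b : ℝ} (ha : 1 < a) (hb : 1 < b) (hab : a ≠ b) :
    ∃ s > 0, ∀ L : ℝ, 0 < L → (∃ U U' V V' : ℝ → ℝ, Appr a b s L U U' V V') ∨
      (∃ U U' V V' : ℝ → ℝ, Appr b a s L U U' V V') := by
  obtain ⟨s, hs, H⟩ := slope_lower ha hb hab
  refine ⟨s, hs, fun L hL => ?_⟩
  obtain ⟨U, U', g, V, V', h, S, hU0, hV0, hUL, hVL, hmono⟩ :=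
    exists_monotone (a := a) (b := b) hL (by linarith) (by linarith)
  rcases H U U' V V' L hL.le S.onI hU0 hV0 hUL hVL with h1 | h1
  · exact Or.inl ⟨U, U', V, V', S.onI, hmono, hU0, hV0, h1⟩
  · refine Or.inr ⟨_, _, _, _, S.onI.reflect_swap, ?_, ?_, ?_, ?_⟩
    · intro x hx y hy hxy
      have := hmono (L - y) ⟨by linarith [hy.2], by linarith [hy.1]⟩ (L - x)
        ⟨by linarith [hx.2], by linarith [hx.1]⟩ (by linarith)
      exact ⟨by linarith [this.2], by linarith [this.1]⟩
    · simp [hVL]
    · simp [hUL]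
    · simp only [sub_zero]
      linarith

/-- existence of a half line solution, possibly with the parameters swapped -/
theorem exists_half {a b : ℝ} (ha : 1 < a) (hb : 1 < b) (hab : a ≠ b) :
    (∃ U U' g V V' h : ℝ → ℝ, HalfSol a b U U' g V V' h) ∨
      (∃ U U' g V V' h : ℝ → ℝ, HalfSol b a U U' g V V' h) := by
  obtain ⟨s, hs, H⟩ := exists_appr ha hb hab
  by_cases hA : ∀ k : ℕ, ∃ L : ℝ, (k : ℝ) + 1 ≤ L ∧ ∃ U U' V V' : ℝ → ℝ, Appr a b s L U U' V V'
  · left
    apply exists_half_of_appr (by linarith) (by linarith) hs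
    intro k
    obtain ⟨L, hL, U, U', V, V', A⟩ := hA k
    exact ⟨L, U, U', V, V', hL, A⟩
  · right
    push Not at hA
    obtain ⟨k0, hk0⟩ := hA
    apply exists_half_of_appr (by linarith) (by linarith) hs
    intro k
    set L : ℝ := (max k k0 : ℕ) + 1 with hLdef
    have h1 : (k : ℝ) + 1 ≤ L := by
      rw [hLdef]
      have : (k : ℝ) ≤ (max k k0 : ℕ) := by exact_mod_cast le_max_left _ _
      linarith
    have h2 : (k0 : ℝ) + 1 ≤ L := by
      rw [hLdef]
      have : (k0 : ℝ) ≤ (max k k0 : ℕ) := by exact_mod_cast le_max_right _ _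
      linarith
    have hL0 : 0 < L := by
      have : (0 : ℝ) ≤ k := Nat.cast_nonneg k
      linarith
    rcases H L hL0 with ⟨U, U', V, V', A⟩ | ⟨U, U', V, V', A⟩
    · exact absurd A (hk0 L h2 U U' V V')
    · exact ⟨L, U, U', V, V', h1, A⟩

/-- a convergent function with convergent second derivative: the limits of the first two
derivatives vanish -/
lemma limit_derivs {u u' g : ℝ → ℝ} {P γ : ℝ} (hu : ∀ x, HasDerivAt u (u' x) x)
    (hu' : ∀ x, HasDerivAt u' (-g x) x) (h1 : Tendsto u atTop (𝓝 P))
    (h2 : Tendsto g atTop (𝓝 γ)) : γ = 0 ∧ Tendsto u' atTop (𝓝 0) := by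
  have hsh : Tendsto (fun x : ℝ => x + 1) atTop atTop := tendsto_atTop_add_const_right _ _ tendsto_id
  have hD : ∀ x, HasDerivAt (fun x => u (x + 1) - u x) (u' (x + 1) - u' x) x := by
    intro x
    have := (hu (x + 1)).comp_add_const x 1
    exact this.fun_sub (hu x)
  have hE : ∀ x, ∃ y, x ≤ y ∧ (u (x + 2) - u (x + 1)) - (u (x + 1) - u x) = -g y := by
    intro x
    obtain ⟨ξ, hξ, e1⟩ := exists_hasDerivAt_eq_slope (fun x => u (x + 1) - u x) _
      (show x < x + 1 by linarith)
      (fun t _ => (hD t).continuousAt.continuousWithinAt) (fun t _ => hD t)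
    obtain ⟨η, hη, e2⟩ := exists_hasDerivAt_eq_slope u' (fun x => -g x)
      (show ξ < ξ + 1 by linarith)
      (fun t _ => (hu' t).continuousAt.continuousWithinAt) (fun t _ => hu' t)
    refine ⟨η, by linarith [hξ.1, hη.1], ?_⟩
    rw [show ξ + 1 - ξ = 1 by ring, div_one] at e2
    rw [show x + 1 - x = 1 by ring, div_one, show x + 1 + 1 = x + 2 by ring] at e1
    rw [e2, ← e1]
  choose y hy1 hy2 using hE
  have hyt : Tendsto y atTop atTop := tendsto_atTop_mono hy1 tendsto_id
  have hγ : γ = 0 := by
    have t1 : Tendsto (fun x => (u (x + 2) - u (x + 1)) - (u (x + 1) - u x)) atTop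
        (𝓝 ((P - P) - (P - P))) := by
      have a1 : Tendsto (fun x => u (x + 2)) atTop (𝓝 P) :=
        h1.comp (tendsto_atTop_add_const_right _ _ tendsto_id)
      have a2 : Tendsto (fun x => u (x + 1)) atTop (𝓝 P) := h1.comp hsh
      exact (a1.sub a2).sub (a2.sub h1)
    have t2 : Tendsto (fun x => -g (y x)) atTop (𝓝 (-γ)) := (h2.comp hyt).neg
    simp_rw [hy2] at t1
    have := tendsto_nhds_unique t1 t2
    linarith
  refine ⟨hγ, ?_⟩
  subst hγ
  have hF : ∀ x, ∃ z, x ≤ z ∧ |u' x - (u (x + 1) - u x)| ≤ |g z| := by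
    intro x
    obtain ⟨ξ, hξ, e1⟩ := exists_hasDerivAt_eq_slope u u' (show x < x + 1 by linarith)
      (fun t _ => (hu t).continuousAt.continuousWithinAt) (fun t _ => hu t)
    obtain ⟨η, hη, e2⟩ := exists_hasDerivAt_eq_slope u' (fun x => -g x) hξ.1
      (fun t _ => (hu' t).continuousAt.continuousWithinAt) (fun t _ => hu' t)
    refine ⟨η, hη.1.le, ?_⟩
    rw [show x + 1 - x = 1 by ring, div_one] at e1
    rw [← e1]
    have hpos : 0 < ξ - x := by linarith [hξ.1]
    rw [eq_div_iff hpos.ne'] at e2
    have : u' x - u' ξ = g η * (ξ - x) := by linarith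
    rw [this, abs_mul, abs_of_pos hpos]
    have h3 : ξ - x ≤ 1 := by linarith [hξ.2]
    have := mul_le_mul_of_nonneg_left h3 (abs_nonneg (g η))
    linarith
  choose z hz1 hz2 using hF
  have hzt : Tendsto z atTop atTop := tendsto_atTop_mono hz1 tendsto_id
  have t1 : Tendsto (fun x => |g (z x)|) atTop (𝓝 0) := by
    have := (h2.comp hzt).abs
    simpa using this
  have t2 : Tendsto (fun x => u' x - (u (x + 1) - u x)) atTop (𝓝 0) :=
    squeeze_zero_norm hz2 t1
  have t3 : Tendsto (fun x => u (x + 1) - u x) atTop (𝓝 (P - P)) := (h1.comp hsh).sub h1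
  have := t2.add t3
  simpa using this

lemma HalfSol.dU_nonneg {a b : ℝ} {U U' g V V' h : ℝ → ℝ} (S : HalfSol a b U U' g V V' h) :
    ∀ x, 0 ≤ x → 0 ≤ U' x ∧ 0 ≤ V' x := by
  intro x hx
  constructor
  · exact deriv_ge_zero_of_left (show x < x + 1 by linarith) (S.dU x)
      (fun y hy => (S.mono x y hx hy.1).1)
  · exact deriv_ge_zero_of_left (show x < x + 1 by linarith) (S.dV x)
      (fun y hy => (S.mono x y hx hy.1).2)

/-- the half line solution tends to `(1,1)` -/
theorem HalfSol.limit {a b : ℝ} {U U' g V V' h : ℝ → ℝ} (ha : 1 < a) (hb : 1 < b)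
    (S : HalfSol a b U U' g V V' h) :
    Tendsto U atTop (𝓝 1) ∧ Tendsto V atTop (𝓝 1) ∧ Tendsto U' atTop (𝓝 0) ∧
      Tendsto V' atTop (𝓝 0) := by
  -- limits of U and V
  have hlimit : ∀ (w : ℝ → ℝ), (∀ x, 0 ≤ x → w x ∈ Icc (0 : ℝ) 1) →
      (∀ x y, 0 ≤ x → x ≤ y → w x ≤ w y) → ∃ P, Tendsto w atTop (𝓝 P) ∧ (∀ x, 0 ≤ x → w x ≤ P) ∧
        P ∈ Icc (0 : ℝ) 1 := by
    intro w hr hm
    have hmon : Monotone fun x => w (max x 0) := fun x y hxy =>
      hm _ _ (le_max_right _ _) (max_le_max_right 0 hxy)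
    have hbd : BddAbove (Set.range fun x => w (max x 0)) :=
      ⟨1, by rintro _ ⟨x, rfl⟩; exact (hr _ (le_max_right _ _)).2⟩
    have ht := tendsto_atTop_ciSup hmon hbd
    have ht2 : Tendsto w atTop (𝓝 (⨆ x, w (max x 0))) := by
      refine ht.congr' ?_
      filter_upwards [eventually_ge_atTop 0] with x hx
      rw [max_eq_left hx]
    refine ⟨_, ht2, ?_, ?_⟩
    · intro x hx
      have := le_ciSup hbd x
      simpa [max_eq_left hx] using this
    · exact isClosed_Icc.mem_of_tendsto ht2 (by
        filter_upwards [eventually_ge_atTop 0] with x hx using hr x hx)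
  obtain ⟨P, hP, hUP, hPr⟩ := hlimit U (fun x hx => (S.range x hx).1)
    (fun x y hx hxy => (S.mono x y hx hxy).1)
  obtain ⟨Q, hQ, hVQ, hQr⟩ := hlimit V (fun x hx => (S.range x hx).2)
    (fun x y hx hxy => (S.mono x y hx hxy).2)
  have hG1c : Continuous fun p : ℝ × ℝ => G1 a p.1 p.2 := by unfold G1; fun_prop
  have hG2c : Continuous fun p : ℝ × ℝ => G2 b p.1 p.2 := by unfold G2; fun_prop
  have hg : Tendsto g atTop (𝓝 (G1 a P Q)) := by
    have := (hG1c.tendsto (P, Q)).comp (hP.prodMk_nhds hQ)
    refine this.congr' ?_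
    filter_upwards [eventually_ge_atTop 0] with x hx
    exact (S.eg x hx).symm
  have hh : Tendsto h atTop (𝓝 (G2 b P Q)) := by
    have := (hG2c.tendsto (P, Q)).comp (hP.prodMk_nhds hQ)
    refine this.congr' ?_
    filter_upwards [eventually_ge_atTop 0] with x hx
    exact (S.eh x hx).symm
  obtain ⟨z1, tU'⟩ := limit_derivs S.dU S.dU' hP hg
  obtain ⟨z2, tV'⟩ := limit_derivs S.dV S.dV' hQ hh
  have hsign := S.dU_nonneg
  -- P is positive
  have hPpos : 0 < P := by
    rcases hPr.1.eq_or_lt with h0 | h0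
    · exfalso
      have hU0 : ∀ x, 0 ≤ x → U x = 0 := fun x hx =>
        le_antisymm (by rw [h0]; exact hUP x hx) (S.range x hx).1.1
      have hU'0 : U' 0 = 0 := by
        apply le_antisymm _ (hsign 0 le_rfl).1
        have h1 : 0 ≤ -U' 0 := deriv_ge_zero_of_left (u := fun x => -U x) (c := 0) (d := 1)
          zero_lt_one (S.dU 0).neg (fun x hx => by rw [hU0 x hx.1, hU0 0 le_rfl])
        linarith
      have hV'0 : 0 < V' 0 := by
        rcases S.slope with h1 | h1
        · exact absurd hU'0 h1
        · exact lt_of_le_of_ne (hsign 0 le_rfl).2 (Ne.symm h1)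
      -- V' is nondecreasing
      have hV'm : ∀ x, 0 ≤ x → V' 0 ≤ V' x := by
        intro x hx
        have hmono : MonotoneOn V' (Icc 0 x) := by
          apply monotoneOn_of_deriv_nonneg (convex_Icc _ _)
          · intro t _
            exact (S.dV' t).continuousAt.continuousWithinAt
          · intro t _
            exact (S.dV' t).differentiableAt.differentiableWithinAt
          · intro t ht
            rw [interior_Icc] at ht
            rw [(S.dV' t).deriv, S.eh t ht.1.le, hU0 t ht.1.le]
            have := (S.range t ht.1.le).2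
            unfold G2
            nlinarith [this.1, this.2]
        exact hmono ⟨le_rfl, hx⟩ ⟨hx, le_rfl⟩ hx
      have := ge_of_tendsto tV' (by
        filter_upwards [eventually_ge_atTop 0] with x hx using hV'm x hx)
      linarith
    · exact h0
  have e1 : 1 - P - a * (1 - Q) = 0 := by
    unfold G1 at z1
    exact (mul_eq_zero.1 z1).resolve_left hPpos.ne'
  have e2 : (1 - Q) * (b * P - Q) = 0 := z2
  rcases mul_eq_zero.1 e2 with hq | hq
  · have hQ1 : Q = 1 := by linarith
    have hP1 : P = 1 := by rw [hQ1] at e1; linarith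
    rw [hP1] at hP
    rw [hQ1] at hQ
    exact ⟨hP, hQ, tU', tV'⟩
  · exfalso
    by_cases hQ1 : Q = 1
    · have hP1 : P = 1 := by rw [hQ1] at e1; linarith
      rw [hQ1, hP1] at hq
      linarith
    have hQlt : Q < 1 := lt_of_le_of_ne hQr.2 hQ1
    -- m = (1-Q)(P-U) + P(Q-V)
    have hc1 : ∀ᶠ x in atTop, (1 - Q) * U x - b * P * (1 - V x) < 0 := by
      have t : Tendsto (fun x => (1 - Q) * U x - b * P * (1 - V x)) atTop
          (𝓝 ((1 - Q) * P - b * P * (1 - Q))) :=
        (hP.const_mul _).sub ((hQ.const_sub 1).const_mul _)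
      apply t.eventually_lt_const
      have : 0 < (b - 1) * (P * (1 - Q)) :=
        mul_pos (by linarith) (mul_pos hPpos (by linarith))
      nlinarith
    have hc2 : ∀ᶠ x in atTop, P * (1 - V x) - a * (1 - Q) * U x < 0 := by
      have t : Tendsto (fun x => P * (1 - V x) - a * (1 - Q) * U x) atTop
          (𝓝 (P * (1 - Q) - a * (1 - Q) * P)) :=
        ((hQ.const_sub 1).const_mul _).sub (hP.const_mul _)
      apply t.eventually_lt_const
      have : 0 < (a - 1) * (P * (1 - Q)) :=
        mul_pos (by linarith) (mul_pos hPpos (by linarith))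
      nlinarith
    obtain ⟨X, hX⟩ := ((hc1.and hc2).and (eventually_ge_atTop (0 : ℝ))).exists_forall_of_atTop
    set X0 := max X 0 with hX0
    have hX00 : 0 ≤ X0 := le_max_right _ _
    have hXX : ∀ x, X0 ≤ x → (1 - Q) * U x - b * P * (1 - V x) < 0 ∧
        P * (1 - V x) - a * (1 - Q) * U x < 0 := fun x hx =>
      (hX x ((le_max_left _ _).trans hx)).1
    -- the derivative of m
    set m' : ℝ → ℝ := fun x => -((1 - Q) * U' x + P * V' x) with hm'
    have hm'd : ∀ x, HasDerivAt m' ((1 - Q) * g x + P * h x) x := by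
      intro x
      have := (((S.dU' x).const_mul (1 - Q)).fun_add ((S.dV' x).const_mul P)).fun_neg
      refine this.congr_deriv ?_
      ring
    have hm'z : ∀ x, X0 ≤ x → m' x = 0 := by
      intro x hx
      have hx0 : 0 ≤ x := hX00.trans hx
      have hle : m' x ≤ 0 := by
        have h1 := hsign x hx0
        have h2 : 0 ≤ (1 - Q) * U' x := mul_nonneg (by linarith) h1.1
        have h3 : 0 ≤ P * V' x := mul_nonneg hPpos.le h1.2
        simp only [hm']
        linarith
      have hge : 0 ≤ m' x := by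
        have hanti : ∀ y, x ≤ y → m' y ≤ m' x := by
          intro y hy
          have hA : AntitoneOn m' (Icc x y) := by
            apply antitoneOn_of_deriv_nonpos (convex_Icc _ _)
            · intro t _
              exact (hm'd t).continuousAt.continuousWithinAt
            · intro t _
              exact (hm'd t).differentiableAt.differentiableWithinAt
            · intro t ht
              rw [interior_Icc] at ht
              have ht0 : 0 ≤ t := hx0.trans ht.1.le
              rw [(hm'd t).deriv, S.eg t ht0, S.eh t ht0]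
              have hu : 0 ≤ P - U t := by linarith [hUP t ht0]
              have hv : 0 ≤ Q - V t := by linarith [hVQ t ht0]
              have hcc := hXX t (hx.trans ht.1.le)
              have i1 : (1 - Q) * G1 a (U t) (V t) + P * G2 b (U t) (V t) =
                  (P - U t) * ((1 - Q) * U t - b * P * (1 - V t)) +
                  (Q - V t) * (P * (1 - V t) - a * (1 - Q) * U t) := by
                unfold G1 G2
                linear_combination (1 - Q) * U t * e1 + P * (1 - V t) * hq
              rw [i1]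
              have j1 := mul_nonneg_of_nonpos_of_nonpos (neg_nonpos.2 hu) hcc.1.le
              have j2 := mul_nonneg_of_nonpos_of_nonpos (neg_nonpos.2 hv) hcc.2.le
              linarith
          exact hA ⟨le_rfl, hy⟩ ⟨hy, le_rfl⟩ hy
        have t : Tendsto m' atTop (𝓝 (-((1 - Q) * 0 + P * 0))) :=
          ((tU'.const_mul _).add (tV'.const_mul _)).neg
        rw [mul_zero, mul_zero, add_zero, neg_zero] at t
        exact le_of_tendsto t (by
          filter_upwards [eventually_ge_atTop x] with y hy using hanti y hy)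
      exact le_antisymm hle hge
    have hU'z : ∀ x, X0 ≤ x → U' x = 0 ∧ V' x = 0 := by
      intro x hx
      have hx0 : 0 ≤ x := hX00.trans hx
      have h1 := hsign x hx0
      have h2 : 0 ≤ (1 - Q) * U' x := mul_nonneg (by linarith) h1.1
      have h3 : 0 ≤ P * V' x := mul_nonneg hPpos.le h1.2
      have h4 := hm'z x hx
      simp only [hm'] at h4
      have h5 : (1 - Q) * U' x = 0 := by linarith
      have h6 : P * V' x = 0 := by linarith
      exact ⟨(mul_eq_zero.1 h5).resolve_left (by linarith), (mul_eq_zero.1 h6).resolve_left hPpos.ne'⟩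
    have hUc : ∀ x, X0 ≤ x → U x = U X0 ∧ V x = V X0 := by
      intro x hx
      have hc1 : ∀ y ∈ Icc X0 x, U y = U X0 := constant_of_has_deriv_right_zero
        (fun t _ => (S.dU t).continuousAt.continuousWithinAt)
        (fun t ht => by
          have := (S.dU t).hasDerivWithinAt (s := Ici t)
          rwa [(hU'z t ht.1).1] at this)
      have hc2 : ∀ y ∈ Icc X0 x, V y = V X0 := constant_of_has_deriv_right_zero
        (fun t _ => (S.dV t).continuousAt.continuousWithinAt)
        (fun t ht => by
          have := (S.dV t).hasDerivWithinAt (s := Ici t)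
          rwa [(hU'z t ht.1).2] at this)
      exact ⟨hc1 x ⟨hx, le_rfl⟩, hc2 x ⟨hx, le_rfl⟩⟩
    have hUX : U X0 = P := by
      refine tendsto_nhds_unique ?_ hP
      refine tendsto_const_nhds.congr' ?_
      filter_upwards [eventually_ge_atTop X0] with x hx
      exact (hUc x hx).1.symm
    have hVX : V X0 = Q := by
      refine tendsto_nhds_unique ?_ hQ
      refine tendsto_const_nhds.congr' ?_
      filter_upwards [eventually_ge_atTop X0] with x hx
      exact (hUc x hx).2.symm
    -- backward uniqueness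
    have O1 : OnI a b (fun x => U (X0 - x)) (fun x => -U' (X0 - x)) (fun x => V (X0 - x))
        (fun x => -V' (X0 - x)) 0 X0 := by
      have hm : ∀ x ∈ Icc 0 X0, 0 ≤ X0 - x := fun x hx => by linarith [hx.2]
      refine ⟨fun x _ => hasDerivAt_reflect (S.dU _), fun x _ => hasDerivAt_reflect (S.dV _),
        fun x hx => ?_, fun x hx => ?_, fun x hx => S.range _ (hm x hx)⟩
      · have := (hasDerivAt_reflect (c := X0) (x := x) (S.dU' _)).fun_neg
        rw [S.eg _ (hm x hx)] at this
        simpa using this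
      · have := (hasDerivAt_reflect (c := X0) (x := x) (S.dV' _)).fun_neg
        rw [S.eh _ (hm x hx)] at this
        simpa using this
    have O2 : OnI a b (fun _ => P) (fun _ => 0) (fun _ => Q) (fun _ => 0) 0 X0 := by
      refine ⟨fun x _ => hasDerivAt_const _ _, fun x _ => hasDerivAt_const _ _,
        fun x _ => ?_, fun x _ => ?_, fun x _ => ⟨hPr, hQr⟩⟩
      · rw [z1, neg_zero]; exact hasDerivAt_const _ _
      · rw [z2, neg_zero]; exact hasDerivAt_const _ _
    have hgr := O1.gronwall (by linarith) (by linarith) O2 X0 ⟨hX00, le_rfl⟩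
    have hzero : dist (ph (fun x => U (X0 - x)) (fun x => -U' (X0 - x)) (fun x => V (X0 - x))
        (fun x => -V' (X0 - x)) 0) (ph (fun _ => P) (fun _ => 0) (fun _ => Q) (fun _ => 0) 0) = 0 := by
      rw [dist_eq_zero]
      simp [ph, hUX, hVX, (hU'z X0 le_rfl).1, (hU'z X0 le_rfl).2]
    rw [hzero, zero_mul] at hgr
    have heq := dist_le_zero.1 hgr
    simp only [ph, sub_self, Prod.mk.injEq] at heq
    have := S.U0
    rw [heq.1] at this
    linarith

end Pool.Agent.LV65
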