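import Pool.Agent.Lib.MP_e2b89c_an.Max

/-!
No barriers on intervals of length close to `π`.
-/

namespace Pool.Agent.LV65

open MeasureTheory Set Filter Topology

/-- a function with nondecreasing derivative vanishing at `x0` has its minimum there -/
lemma min_of_mono_deriv {φ φ' : ℝ → ℝ} {L x0 : ℝ} (hφ : ∀ x ∈ Icc 0 L, HasDerivAt φ (φ' x) x)
    (hm : MonotoneOn φ' (Icc 0 L)) (hx0 : x0 ∈ Icc 0 L) (hz : φ' x0 = 0) :
    ∀ x ∈ Icc 0 L, φ x0 ≤ φ x := by
  intro x hx
  rcases le_total x0 x with h | h
  · have hmono : MonotoneOn φ (Icc x0 x) := by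
      apply monotoneOn_of_deriv_nonneg (convex_Icc _ _)
      · intro t ht
        exact (hφ t ⟨hx0.1.trans ht.1, ht.2.trans hx.2⟩).continuousAt.continuousWithinAt
      · intro t ht
        rw [interior_Icc] at ht
        exact (hφ t ⟨hx0.1.trans ht.1.le, ht.2.le.trans hx.2⟩).differentiableAt.differentiableWithinAt
      · intro t ht
        rw [interior_Icc] at ht
        have htI : t ∈ Icc 0 L := ⟨hx0.1.trans ht.1.le, ht.2.le.trans hx.2⟩
        rw [(hφ t htI).deriv, ← hz]
        exact hm hx0 htI ht.1.le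
    exact hmono ⟨le_rfl, h⟩ ⟨h, le_rfl⟩ h
  · have hanti : AntitoneOn φ (Icc x x0) := by
      apply antitoneOn_of_deriv_nonpos (convex_Icc _ _)
      · intro t ht
        exact (hφ t ⟨hx.1.trans ht.1, ht.2.trans hx0.2⟩).continuousAt.continuousWithinAt
      · intro t ht
        rw [interior_Icc] at ht
        exact (hφ t ⟨hx.1.trans ht.1.le, ht.2.le.trans hx0.2⟩).differentiableAt.differentiableWithinAt
      · intro t ht
        rw [interior_Icc] at ht
        have htI : t ∈ Icc 0 L := ⟨hx.1.trans ht.1.le, ht.2.le.trans hx0.2⟩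
        rw [(hφ t htI).deriv, ← hz]
        exact hm htI hx0 ht.2.le
    exact hanti ⟨le_rfl, h⟩ ⟨h, le_rfl⟩ h

lemma monoOn_of_deriv {φ' φ'' : ℝ → ℝ} {L : ℝ} (h : ∀ x ∈ Icc 0 L, HasDerivAt φ' (φ'' x) x)
    (hn : ∀ x ∈ Icc 0 L, 0 ≤ φ'' x) : MonotoneOn φ' (Icc 0 L) := by
  apply monotoneOn_of_deriv_nonneg (convex_Icc _ _)
  · intro t ht
    exact (h t ht).continuousAt.continuousWithinAt
  · intro t ht
    rw [interior_Icc] at ht
    exact (h t ⟨ht.1.le, ht.2.le⟩).differentiableAt.differentiableWithinAt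
  · intro t ht
    rw [interior_Icc] at ht
    rw [(h t ⟨ht.1.le, ht.2.le⟩).deriv]
    exact hn t ⟨ht.1.le, ht.2.le⟩

/-- convex functions with nonpositive boundary values are nonpositive -/
lemma nonpos_of_convex {φ φ' φ'' : ℝ → ℝ} {L : ℝ} (hL : 0 < L)
    (hφ : ∀ x ∈ Icc 0 L, HasDerivAt φ (φ' x) x) (hφ' : ∀ x ∈ Icc 0 L, HasDerivAt φ' (φ'' x) x)
    (hn : ∀ x ∈ Icc 0 L, 0 ≤ φ'' x) (h0 : φ 0 ≤ 0) (h1 : φ L ≤ 0) : ∀ x ∈ Icc 0 L, φ x ≤ 0 := by
  have hm := monoOn_of_deriv hφ' hn
  have hc : ContinuousOn φ (Icc 0 L) := fun x hx => (hφ x hx).continuousAt.continuousWithinAt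
  obtain ⟨y, hy, hymax⟩ := isCompact_Icc.exists_isMaxOn (nonempty_Icc.2 hL.le) hc
  intro x hx
  refine le_trans (hymax hx) ?_
  rcases hy.1.eq_or_lt with h | h
  · rw [← h]; exact h0
  rcases hy.2.eq_or_lt with h' | h'
  · rw [h']; exact h1
  have hz : φ' y = 0 := by
    have : IsLocalMax φ y := by
      filter_upwards [Icc_mem_nhds h h'] with t ht using hymax ht
    exact this.hasDerivAt_eq_zero (hφ y hy)
  exact (min_of_mono_deriv hφ hm hy hz 0 ⟨le_rfl, hL.le⟩).trans h0

/-- the key identity: test with the first mode -/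
lemma Stat.test {L a b : ℝ} (hL : 0 < L) {U U' g V V' h : ℝ → ℝ} (S : Stat L a b U U' g V V' h)
    (hU0 : U 0 = 0) (hUL : U L = 0) :
    ∫ x in (0 : ℝ)..L, U x * sn L 0 x * (U x + a * (1 - V x) - (1 - (wn L 0) ^ 2)) = 0 := by
  have hc : (0 : ℝ) ∈ Icc 0 L := ⟨le_rfl, hL.le⟩
  have hS := (statSol hL hc S.dU S.dU' S.cg).eq 0 1 zero_le_one
  simp only [hU0, hUL, intervalIntegral.integral_const, smul_eq_mul] at hS
  have h1 : (wn L 0) ^ 2 * coef L 0 U - coef L 0 g = 0 := by linarith
  have hi1 : IntervalIntegrable (fun x => (wn L 0) ^ 2 * (U x * sn L 0 x)) volume 0 L :=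
    (continuous_const.mul (S.cU.mul (continuous_sn L 0))).intervalIntegrable _ _
  have hi2 : IntervalIntegrable (fun x => g x * sn L 0 x) volume 0 L :=
    (S.cg.mul (continuous_sn L 0)).intervalIntegrable _ _
  unfold coef at h1
  rw [← intervalIntegral.integral_const_mul, ← intervalIntegral.integral_sub hi1 hi2] at h1
  refine Eq.trans ?_ h1
  apply intervalIntegral.integral_congr
  intro x hx
  rw [uIcc_of_le hL.le] at hx
  simp only []
  rw [S.eg x hx]
  unfold G1
  ring

lemma sin_lower {L x : ℝ} (hL : 0 < L) (hx : x ∈ Icc 0 L) :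
    2 / L * min x (L - x) ≤ sn L 0 x := by
  have hwn : wn L 0 = Real.pi / L := by simp [wn]
  have hpi := Real.pi_pos
  rcases le_total x (L / 2) with h | h
  · have hmin : min x (L - x) = x := min_eq_left (by linarith)
    rw [hmin]
    unfold sn
    rw [hwn]
    have h1 : Real.pi / L * x ≤ Real.pi / 2 := by
      rw [div_mul_eq_mul_div, div_le_div_iff₀ hL (by norm_num)]
      nlinarith
    have := Real.mul_le_sin (mul_nonneg (by positivity) hx.1 : 0 ≤ Real.pi / L * x) h1
    refine le_trans (le_of_eq ?_) this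
    field_simp
  · have hmin : min x (L - x) = L - x := min_eq_right (by linarith)
    rw [hmin]
    unfold sn
    rw [hwn]
    have h0 : Real.sin (Real.pi / L * x) = Real.sin (Real.pi / L * (L - x)) := by
      rw [← Real.sin_pi_sub]
      congr 1
      field_simp
    rw [h0]
    have h1 : Real.pi / L * (L - x) ≤ Real.pi / 2 := by
      rw [div_mul_eq_mul_div, div_le_div_iff₀ hL (by norm_num)]
      nlinarith
    have := Real.mul_le_sin (mul_nonneg (by positivity) (by linarith [hx.2]) :
      0 ≤ Real.pi / L * (L - x)) h1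
    refine le_trans (le_of_eq ?_) this
    field_simp

/-- no barrier when `1 - π²/L²` is small -/
lemma no_zbar {L a b : ℝ} (hL : 0 < L) (hL4 : L ≤ 4) (ha : 0 < a) (hb : 0 < b)
    (hη : (1 - (wn L 0) ^ 2) * (1 + 80 * a * b * (1 + a)) < a) : ¬ ZBar L a b := by
  rintro ⟨U, U', g, V, V', h, S, hU0, hV0, hUL, hVL, x1, hx1, hne⟩
  set η : ℝ := 1 - (wn L 0) ^ 2 with hηdef
  obtain ⟨x0, hx0, hmax⟩ := isCompact_Icc.exists_isMaxOn (nonempty_Icc.2 hL.le) S.cU.continuousOn
  set M : ℝ := U x0 with hM
  have hUM : ∀ x ∈ Icc 0 L, U x ≤ M := fun x hx => hmax hx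
  have hM0 : 0 ≤ M := (S.range x0 hx0).1.1
  have hM1 : M ≤ 1 := (S.range x0 hx0).1.2
  -- the bound for V
  have hV : ∀ x ∈ Icc 0 L, V x ≤ 2 * b * M := by
    have h1 : ∀ x ∈ Icc 0 L, V x - b * M * (x * (L - x)) / 2 ≤ 0 := by
      apply nonpos_of_convex (φ' := fun x => V' x - b * M * (L - 2 * x) / 2)
        (φ'' := fun x => -h x + b * M) hL
      · intro x _
        have e1 : HasDerivAt (fun x : ℝ => x * (L - x)) (1 * (L - x) + x * (-1)) x :=
          (hasDerivAt_id x).fun_mul ((hasDerivAt_id x).const_sub L)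
        refine ((S.dV x).fun_sub ((e1.const_mul (b * M)).div_const 2)).congr_deriv ?_
        ring
      · intro x _
        have e1 : HasDerivAt (fun x : ℝ => L - 2 * x) (-(2 * 1)) x :=
          ((hasDerivAt_id x).const_mul 2).const_sub L
        refine ((S.dV' x).fun_sub ((e1.const_mul (b * M)).div_const 2)).congr_deriv ?_
        ring
      · intro x hx
        have hr := S.range x hx
        rw [S.eh x hx]
        unfold G2
        have e1 : (1 - V x) * (b * U x - V x) ≤ b * M := by
          have e2 : (1 - V x) * (b * U x) ≤ 1 * (b * M) := by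
            apply mul_le_mul (by linarith [hr.2.1]) _ (mul_nonneg hb.le hr.1.1) zero_le_one
            exact mul_le_mul_of_nonneg_left (hUM x hx) hb.le
          have e3 : 0 ≤ (1 - V x) * V x := mul_nonneg (by linarith [hr.2.2]) hr.2.1
          nlinarith
        linarith
      · simp [hV0]
      · simp [hVL]
    intro x hx
    have e1 := h1 x hx
    have e2 : x * (L - x) ≤ 4 := by nlinarith [sq_nonneg (L - 2 * x), hx.1, hx.2]
    have e3 : b * M * (x * (L - x)) ≤ b * M * 4 :=
      mul_le_mul_of_nonneg_left e2 (mul_nonneg hb.le hM0)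
    linarith
  rcases hM0.eq_or_lt with hMz | hMpos
  · -- M = 0
    apply hne
    have e1 := hUM x1 hx1
    have e2 := hV x1 hx1
    have hr := S.range x1 hx1
    rw [← hMz] at e1 e2
    exact ⟨le_antisymm e1 hr.1.1, le_antisymm (by simpa using e2) hr.2.1⟩
  · have hx0l : 0 < x0 := by
      rcases hx0.1.eq_or_lt with h' | h'
      · exfalso; rw [hM, ← h', hU0] at hMpos; exact lt_irrefl _ hMpos
      · exact h'
    have hx0r : x0 < L := by
      rcases hx0.2.eq_or_lt with h' | h'
      · exfalso; rw [hM, h', hUL] at hMpos; exact lt_irrefl _ hMpos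
      · exact h'
    have hU'0 : U' x0 = 0 := by
      have : IsLocalMax U x0 := by
        filter_upwards [Icc_mem_nhds hx0l hx0r] with t ht using hmax ht
      exact this.hasDerivAt_eq_zero (S.dU x0)
    -- Taylor lower bound
    have hlow : ∀ x ∈ Icc 0 L, M * (1 - (1 + a) * (x - x0) ^ 2 / 2) ≤ U x := by
      have hmin := min_of_mono_deriv (φ := fun x => U x + (1 + a) * M * (x - x0) ^ 2 / 2)
        (φ' := fun x => U' x + (1 + a) * M * (x - x0)) (L := L) (x0 := x0) (by
          intro x _
          have e1 : HasDerivAt (fun x : ℝ => (x - x0) ^ 2) (2 * (x - x0) ^ 1 * 1) x :=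
            ((hasDerivAt_id x).sub_const x0).fun_pow 2
          refine ((S.dU x).fun_add ((e1.const_mul ((1 + a) * M)).div_const 2)).congr_deriv ?_
          ring) (by
          apply monoOn_of_deriv (φ'' := fun x => -g x + (1 + a) * M)
          · intro x _
            refine ((S.dU' x).fun_add (((hasDerivAt_id x).sub_const x0).const_mul
              ((1 + a) * M))).congr_deriv ?_
            ring
          · intro x hx
            have hr := S.range x hx
            rw [S.eg x hx]
            unfold G1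
            have e1 : U x * (1 - U x - a * (1 - V x)) ≤ M * (1 + a) := by
              have e2 : 1 - U x - a * (1 - V x) ≤ 1 + a := by
                have := mul_nonneg ha.le (show 0 ≤ 1 - V x by linarith [hr.2.2])
                linarith [hr.1.1]
              calc _ ≤ U x * (1 + a) := mul_le_mul_of_nonneg_left e2 hr.1.1
                _ ≤ M * (1 + a) := mul_le_mul_of_nonneg_right (hUM x hx) (by linarith)
            linarith) hx0 (by simp [hU'0])
      intro x hx
      have := hmin x hx
      simp only [sub_self] at this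
      nlinarith
    set r : ℝ := 1 / Real.sqrt (1 + a) with hr
    have hs : 0 < Real.sqrt (1 + a) := Real.sqrt_pos.2 (by linarith)
    have hr0 : 0 < r := by positivity
    have hr2 : (1 + a) * r ^ 2 = 1 := by
      rw [hr, div_pow, Real.sq_sqrt (by linarith)]
      field_simp
    have hxl : 7 / 5 * r ≤ x0 := by
      by_contra hcon
      push Not at hcon
      have h1 := hlow 0 ⟨le_rfl, hL.le⟩
      rw [hU0] at h1
      have h2 : (0 - x0) ^ 2 ≤ 49 / 25 * r ^ 2 := by nlinarith
      have h3 : (1 + a) * (0 - x0) ^ 2 ≤ 49 / 25 := by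
        have := mul_le_mul_of_nonneg_left h2 (show 0 ≤ 1 + a by linarith)
        nlinarith
      nlinarith
    have hxr : x0 ≤ L - 7 / 5 * r := by
      by_contra hcon
      push Not at hcon
      have h1 := hlow L ⟨hL.le, le_rfl⟩
      rw [hUL] at h1
      have h2 : (L - x0) ^ 2 ≤ 49 / 25 * r ^ 2 := by nlinarith
      have h3 : (1 + a) * (L - x0) ^ 2 ≤ 49 / 25 := by
        have := mul_le_mul_of_nonneg_left h2 (show 0 ≤ 1 + a by linarith)
        nlinarith
      nlinarith
    -- lower bound of the integral of U^2 sn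
    have hJ : Icc (x0 - r) (x0 + r) ⊆ Icc 0 L := Icc_subset_Icc (by linarith) (by linarith)
    have hlowJ : ∀ x ∈ Icc (x0 - r) (x0 + r), M ^ 2 / 4 * (r / 5) ≤ U x * sn L 0 x * U x := by
      intro x hx
      have hxI := hJ hx
      have e1 : M / 2 ≤ U x := by
        have h1 := hlow x hxI
        have h2 : (x - x0) ^ 2 ≤ r ^ 2 := by
          have h3 : |x - x0| ≤ r := by rw [abs_le]; constructor <;> linarith [hx.1, hx.2]
          calc (x - x0) ^ 2 = |x - x0| ^ 2 := (sq_abs _).symm
            _ ≤ r ^ 2 := pow_le_pow_left₀ (abs_nonneg _) h3 2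
        have h3 : (1 + a) * (x - x0) ^ 2 ≤ 1 := by
          have := mul_le_mul_of_nonneg_left h2 (show 0 ≤ 1 + a by linarith)
          linarith
        nlinarith
      have e2 : r / 5 ≤ sn L 0 x := by
        have h1 := sin_lower hL hxI
        have h2 : 2 / 5 * r ≤ min x (L - x) := le_min (by linarith [hx.1]) (by linarith [hx.2])
        have h3 : 1 / 2 ≤ 2 / L := by
          rw [div_le_div_iff₀ (by norm_num) hL]; linarith
        have h4 : 1 / 2 * (2 / 5 * r) ≤ 2 / L * min x (L - x) :=
          mul_le_mul h3 h2 (by positivity) (by positivity)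
        linarith
      have e3 : (M / 2) * (r / 5) ≤ U x * sn L 0 x :=
        mul_le_mul e1 e2 (by positivity) (S.range x hxI).1.1
      have e4 : (M / 2) * (r / 5) * (M / 2) ≤ U x * sn L 0 x * U x :=
        mul_le_mul e3 e1 (by positivity) (mul_nonneg (S.range x hxI).1.1 (sn0_nonneg hL hxI))
      linarith
    have cU := S.cU
    have cV := S.cV
    have csn := continuous_sn L 0
    have hint : ∀ {f : ℝ → ℝ}, Continuous f → ∀ u v : ℝ, IntervalIntegrable f volume u v :=
      fun hf u v => hf.intervalIntegrable u v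
    have cf : Continuous fun x => U x * sn L 0 x * U x := (cU.mul csn).mul cU
    have hI1 : M ^ 2 / 4 * (r / 5) * (2 * r) ≤ ∫ x in (0 : ℝ)..L, U x * sn L 0 x * U x := by
      have e1 : ∫ x in (x0 - r)..(x0 + r), M ^ 2 / 4 * (r / 5) ≤
          ∫ x in (x0 - r)..(x0 + r), U x * sn L 0 x * U x :=
        intervalIntegral.integral_mono_on (by linarith) (hint continuous_const _ _) (hint cf _ _)
          hlowJ
      have e2 : ∫ x in (x0 - r)..(x0 + r), U x * sn L 0 x * U x ≤
          ∫ x in (0 : ℝ)..L, U x * sn L 0 x * U x := by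
        apply intervalIntegral.integral_mono_interval (by linarith) (by linarith) (by linarith)
        · rw [EventuallyLE, ae_restrict_iff' measurableSet_Ioc]
          refine Eventually.of_forall fun x hx => ?_
          have hxI : x ∈ Icc 0 L := ⟨hx.1.le, hx.2⟩
          exact mul_nonneg (mul_nonneg (S.range x hxI).1.1 (sn0_nonneg hL hxI)) (S.range x hxI).1.1
        · exact hint cf _ _
      rw [intervalIntegral.integral_const, smul_eq_mul] at e1
      have e3 : (x0 + r - (x0 - r)) * (M ^ 2 / 4 * (r / 5)) = M ^ 2 / 4 * (r / 5) * (2 * r) := by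
        ring
      linarith
    have htest := S.test hL hU0 hUL
    rw [← hηdef] at htest
    -- split the identity
    have hsplit : ∫ x in (0 : ℝ)..L, U x * sn L 0 x * U x =
        η * (∫ x in (0 : ℝ)..L, U x * sn L 0 x) -
          a * ∫ x in (0 : ℝ)..L, U x * sn L 0 x * (1 - V x) := by
      have e1 : ∀ x, U x * sn L 0 x * (U x + a * (1 - V x) - η) = U x * sn L 0 x * U x +
          a * (U x * sn L 0 x * (1 - V x)) - η * (U x * sn L 0 x) := fun x => by ring
      simp_rw [e1] at htest
      rw [intervalIntegral.integral_sub, intervalIntegral.integral_add,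
        intervalIntegral.integral_const_mul, intervalIntegral.integral_const_mul] at htest
      · linarith
      · exact hint cf _ _
      · exact hint (continuous_const.mul ((cU.mul csn).mul (continuous_const.sub cV))) _ _
      · exact hint (cf.add (continuous_const.mul ((cU.mul csn).mul (continuous_const.sub cV)))) _ _
      · exact hint (continuous_const.mul (cU.mul csn)) _ _
    have hI2 : ∫ x in (0 : ℝ)..L, U x * sn L 0 x ≤ M * 4 := by
      have e1 : ∫ x in (0 : ℝ)..L, U x * sn L 0 x ≤ ∫ x in (0 : ℝ)..L, M := by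
        apply intervalIntegral.integral_mono_on hL.le (hint (cU.mul csn) _ _)
          (hint continuous_const _ _)
        intro x hx
        have h1 := hUM x hx
        have h2 : sn L 0 x ≤ 1 := (le_abs_self _).trans (abs_sn_le_one L 0 x)
        have h3 := mul_le_mul h1 h2 (sn0_nonneg hL hx) hM0
        rw [mul_one] at h3
        exact h3
      rw [intervalIntegral.integral_const, smul_eq_mul, sub_zero] at e1
      nlinarith
    have hI3 : 0 ≤ ∫ x in (0 : ℝ)..L, U x * sn L 0 x := by
      apply intervalIntegral.integral_nonneg hL.le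
      intro x hx
      exact mul_nonneg (S.range x hx).1.1 (sn0_nonneg hL hx)
    have hI4 : 0 ≤ ∫ x in (0 : ℝ)..L, U x * sn L 0 x * (1 - V x) := by
      apply intervalIntegral.integral_nonneg hL.le
      intro x hx
      exact mul_nonneg (mul_nonneg (S.range x hx).1.1 (sn0_nonneg hL hx))
        (by linarith [(S.range x hx).2.2])
    have hI0 : 0 < M ^ 2 / 4 * (r / 5) * (2 * r) := by positivity
    have hη0 : 0 < η := by
      by_contra hcon
      push Not at hcon
      have := mul_nonneg_of_nonpos_of_nonpos hcon (neg_nonpos.2 hI3)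
      have := mul_nonneg ha.le hI4
      nlinarith
    have hMη : M ≤ 40 * (1 + a) * η := by
      have e1 : M ^ 2 / 4 * (r / 5) * (2 * r) ≤ η * (M * 4) := by
        have h1 := mul_le_mul_of_nonneg_left hI2 hη0.le
        have h2 := mul_nonneg ha.le hI4
        linarith
      have e2 : M ^ 2 / 4 * (r / 5) * (2 * r) * (1 + a) = M ^ 2 / 10 := by
        have : M ^ 2 / 4 * (r / 5) * (2 * r) * (1 + a) = M ^ 2 / 10 * ((1 + a) * r ^ 2) := by ring
        rw [this, hr2, mul_one]
      have e3 := mul_le_mul_of_nonneg_right e1 (show 0 ≤ 1 + a by linarith)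
      rw [e2] at e3
      have e4 : M * M ≤ M * (40 * (1 + a) * η) := by nlinarith
      exact le_of_mul_le_mul_left e4 hMpos
    -- the integrand is nonnegative
    have hpos : ∀ x ∈ Icc 0 L, 0 < a * (1 - V x) - η := by
      intro x hx
      have e1 := hV x hx
      have e2 : 2 * b * M ≤ 2 * b * (40 * (1 + a) * η) :=
        mul_le_mul_of_nonneg_left hMη (by positivity)
      have e3 : a * (1 - 80 * b * (1 + a) * η) ≤ a * (1 - V x) := by
        apply mul_le_mul_of_nonneg_left _ ha.le
        linarith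
      nlinarith
    have hlt : 0 < ∫ x in (0 : ℝ)..L, U x * sn L 0 x * (U x + a * (1 - V x) - η) := by
      have e1 : ∫ x in (0 : ℝ)..L, U x * sn L 0 x * U x ≤
          ∫ x in (0 : ℝ)..L, U x * sn L 0 x * (U x + a * (1 - V x) - η) := by
        apply intervalIntegral.integral_mono_on hL.le (hint cf _ _)
        · exact hint ((cU.mul csn).mul ((cU.add (continuous_const.mul
            (continuous_const.sub cV))).sub continuous_const)) _ _
        · intro x hx
          apply mul_le_mul_of_nonneg_left _ (mul_nonneg (S.range x hx).1.1 (sn0_nonneg hL hx))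
          linarith [hpos x hx]
      linarith
    rw [htest] at hlt
    exact lt_irrefl _ hlt

/-- there is `L₁ > π` such that no barrier exists on intervals of length at most `L₁` -/
theorem no_zbar_near_pi {a b : ℝ} (ha : 0 < a) (hb : 0 < b) :
    ∃ L1 > Real.pi, ∀ L, 0 < L → L ≤ L1 → ¬ ZBar L a b := by
  have hpi := Real.pi_pos
  have hpi4 : Real.pi < 4 := Real.pi_lt_four
  set K : ℝ := 1 + 80 * a * b * (1 + a) with hK
  have hK0 : 0 < K := by positivity
  set ε : ℝ := a / (4 * K) with hε
  have hε0 : 0 < ε := by positivity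
  refine ⟨min 4 (Real.pi * (1 + ε)), lt_min hpi4 (by nlinarith), fun L hL hle => ?_⟩
  have h4 : L ≤ 4 := hle.trans (min_le_left _ _)
  have hLε : L ≤ Real.pi * (1 + ε) := hle.trans (min_le_right _ _)
  apply no_zbar hL h4 ha hb
  rw [← hK]
  have hwn : wn L 0 = Real.pi / L := by simp [wn]
  rw [hwn]
  have h1 : 1 / (1 + ε) ≤ Real.pi / L := by
    rw [div_le_div_iff₀ (by positivity) hL]
    linarith
  have h2 : 1 - ε ≤ 1 / (1 + ε) := by
    rw [le_div_iff₀ (by positivity)]
    nlinarith [sq_nonneg ε]
  have h3 : 1 - ε ≤ Real.pi / L := h2.trans h1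
  have h4 : 1 - 2 * ε ≤ (Real.pi / L) ^ 2 := by
    rcases le_or_gt ε 1 with h | h
    · have := mul_self_le_mul_self (show 0 ≤ 1 - ε by linarith) h3
      nlinarith [sq_nonneg ε]
    · have := sq_nonneg (Real.pi / L)
      linarith
  have h5 : 1 - (Real.pi / L) ^ 2 ≤ 2 * ε := by linarith
  have h6 : (1 - (Real.pi / L) ^ 2) * K ≤ 2 * ε * K := mul_le_mul_of_nonneg_right h5 hK0.le
  have h7 : 2 * ε * K = a / 2 := by rw [hε]; field_simp; norm_num
  linarith

end Pool.Agent.LV65
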