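import Pool.Agent.Lib.MP_e2b89c_an.Bridge
import Pool.Agent.Lib.MP_e2b89c_an.Pi
import Pool.Agent.Lib.MP_e2b89c_an.Cut

/-!
The two halves of the main theorem.
-/

namespace Pool.Agent.LV65

open MeasureTheory Set Filter Topology

variable {L : ℝ}

lemma dini {Z : ℝ → ℝ → ℝ} (hcont : ∀ t, 0 < t → Continuous (Z t))
    (hanti : ∀ s t : ℝ, 0 ≤ s → s ≤ t → ∀ x ∈ Icc 0 L, Z t x ≤ Z s x)
    (hlim : ∀ x ∈ Icc 0 L, Tendsto (fun t => Z t x) atTop (𝓝 0)) {ε : ℝ} (hε : 0 < ε) :
    ∃ T > 0, ∀ t, T ≤ t → ∀ x ∈ Icc 0 L, Z t x < ε := by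
  have hD : TendstoUniformlyOn (fun n : ℕ => Z ((n : ℝ) + 1)) (fun _ => 0) atTop (Icc 0 L) := by
    apply Antitone.tendstoUniformlyOn_of_forall_tendsto isCompact_Icc
    · intro n
      exact (hcont _ (by positivity)).continuousOn
    · intro x hx m n hmn
      have : (m : ℝ) ≤ n := by exact_mod_cast hmn
      exact hanti _ _ (by positivity) (by linarith) x hx
    · exact continuousOn_const
    · intro x hx
      exact (hlim x hx).comp (tendsto_atTop_add_const_right _ _ tendsto_natCast_atTop_atTop)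
  rw [Metric.tendstoUniformlyOn_iff] at hD
  obtain ⟨n, hn⟩ := (hD ε hε).exists
  refine ⟨(n : ℝ) + 1, by positivity, fun t ht x hx => ?_⟩
  have h1 := hn x hx
  rw [dist_comm, Real.dist_eq, sub_zero] at h1
  have h2 := hanti _ _ (by positivity) ht x hx
  exact lt_of_le_of_lt (h2.trans (le_abs_self _)) h1

/-- without barriers the state `(0,1)` is reached from all initial data -/
theorem controllable_of_not_zbar {a b : ℝ} (hL : 0 < L) (ha : 0 ≤ a) (hb : 0 ≤ b)
    (hZ : ¬ ZBar L a b) {y10 y20 : ℝ → ℝ} (h1 : IsDatum L y10) (h2 : IsDatum L y20) :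
    AsympControllable a b L y10 y20 0 1 := by
  classical
  have hc : (0 : ℝ) ∈ Icc 0 L := ⟨le_rfl, hL.le⟩
  have hβ : (0 : ℝ) ∈ Icc (0 : ℝ) 1 := ⟨le_rfl, zero_le_one⟩
  -- the flow from the top
  obtain ⟨Z, W, F⟩ := exists_flow (z0 := fun _ => 1) (w0 := fun _ => 1) hL ha hb hβ
    (BS.const L 1) (BS.const L 1) (fun x _ => ⟨⟨zero_le_one, le_rfl⟩, ⟨zero_le_one, le_rfl⟩⟩)
  obtain ⟨U, U', g, V, V', h, S, hU0, hV0, hUL, hVL, hlU, hlV⟩ := top_limit hL ha hb F
  have hzero : ∀ x ∈ Icc 0 L, U x = 0 ∧ V x = 0 := by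
    intro x hx
    by_contra hne
    exact hZ ⟨U, U', g, V, V', h, S, hU0, hV0, hUL, hVL, x, hx, hne⟩
  have dZ := fun {ε : ℝ} (hε : 0 < ε) => dini (L := L) (Z := Z) (fun t ht => (F.cont t ht).1)
    (fun s t hs hst x hx => (top_anti hL ha hb F hs hst x hx).1)
    (fun x hx => by rw [← (hzero x hx).1]; exact hlU x hx) hε
  have dW := fun {ε : ℝ} (hε : 0 < ε) => dini (L := L) (Z := W) (fun t ht => (F.cont t ht).2)
    (fun s t hs hst x hx => (top_anti hL ha hb F hs hst x hx).2)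
    (fun x hx => by rw [← (hzero x hx).2]; exact hlV x hx) hε
  -- the data
  set z0 : ℝ → ℝ := fun x => if x ∈ Ioo 0 L then y10 x else 0 with hz0
  set w0 : ℝ → ℝ := fun x => if x ∈ Ioo 0 L then 1 - y20 x else 0 with hw0
  have mz0 : Measurable z0 := by
    have : z0 = (Ioo 0 L).piecewise y10 (fun _ => 0) := by
      funext x; simp [hz0, Set.piecewise]
    rw [this]
    exact h1.1.measurable_piecewise continuousOn_const measurableSet_Ioo
  have mw0 : Measurable w0 := by
    have : w0 = (Ioo 0 L).piecewise (fun x => 1 - y20 x) (fun _ => 0) := by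
      funext x; simp [hw0, Set.piecewise]
    rw [this]
    exact (continuousOn_const.sub h2.1).measurable_piecewise continuousOn_const measurableSet_Ioo
  have rz0 : ∀ x, z0 x ∈ Icc (0 : ℝ) 1 := by
    intro x
    simp only [hz0]
    split_ifs with hx
    · exact h1.2 x hx
    · exact ⟨le_rfl, zero_le_one⟩
  have rw0 : ∀ x, w0 x ∈ Icc (0 : ℝ) 1 := by
    intro x
    simp only [hw0]
    split_ifs with hx
    · have := h2.2 x hx
      exact ⟨by linarith [this.2], by linarith [this.1]⟩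
    · exact ⟨le_rfl, zero_le_one⟩
  have bz0 : BS L z0 := ⟨mz0, 1, fun x _ => by rw [abs_of_nonneg (rz0 x).1]; exact (rz0 x).2⟩
  have bw0 : BS L w0 := ⟨mw0, 1, fun x _ => by rw [abs_of_nonneg (rw0 x).1]; exact (rw0 x).2⟩
  obtain ⟨Y, X, G⟩ := exists_flow (z0 := z0) (w0 := w0) hL ha hb hβ bz0 bw0
    (fun x _ => ⟨rz0 x, rw0 x⟩)
  have hle : ∀ t, 0 < t → ∀ x ∈ Icc 0 L, Y t x ≤ Z t x ∧ X t x ≤ W t x := fun t ht =>
    flow_le hL ha hb F G (fun x _ => ⟨(rz0 x).2, (rw0 x).2⟩) ht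
  refine ⟨fun _ => 0, fun _ => 0, fun _ => 1, fun _ => 1,
    ⟨measurable_const, fun _ => ⟨le_rfl, zero_le_one⟩⟩,
    ⟨measurable_const, fun _ => ⟨le_rfl, zero_le_one⟩⟩,
    ⟨measurable_const, fun _ => ⟨zero_le_one, le_rfl⟩⟩,
    ⟨measurable_const, fun _ => ⟨zero_le_one, le_rfl⟩⟩, Y, fun t x => 1 - X t x, ?_, ?_, ?_⟩
  · -- the solution
    have sY := G.solZ 0 hc
    have sX := G.solW 0 hc
    refine ⟨⟨sY.hz.meas, measurable_const.sub sX.hz.meas⟩, ?_, ⟨?_, ?_⟩, ?_, ?_, ?_, ?_⟩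
    · intro t ht x hx
      have := G.range t ht x hx
      exact ⟨this.1, ⟨by linarith [this.2.2], by linarith [this.2.1]⟩⟩
    · intro p hp
      exact (G.jcont p.1 p.2 hp.1).1.continuousWithinAt
    · intro p hp
      exact (continuousAt_const.sub (G.jcont p.1 p.2 hp.1).2).continuousWithinAt
    · intro x hx
      rw [G.Z0, G.W0]
      simp only [hz0, hw0, if_pos hx]
      exact ⟨trivial, by ring⟩
    · intro t ht
      have e0 := G.bdry0 t ht
      have e1 := G.bdryL t ht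
      exact ⟨e0.1, e1.1, by rw [e0.2]; ring, by rw [e1.2]; ring⟩
    · apply sY.weakHeat hL (y0 := y10)
      · intro x hx
        simp only [hz0, if_pos hx]
      · intro t _ x _
        unfold react1 G1
        ring
    · have s1 := Sol.const_space hL (κ := fun _ => (1 : ℝ)) (κ' := fun _ => 0)
        (fun t => hasDerivAt_const t 1) continuous_const 0
      have s2 := s1.sub hL sX
      rw [show (0 : ℝ) - 0 = 0 from sub_zero 0] at s2
      have s3 : WeakHeat L y20 (fun s x => 1 - X s x)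
          (fun s x => react2 b (Y s x) (1 - X s x)) (fun s => 1 - 0) (fun s => 1 - 0) := by
        refine s2.weakHeat hL ?_ ?_
        · intro x hx
          simp only [hw0, if_pos hx]
          ring
        · intro t _ x _
          unfold react2 G2
          ring
      simpa only [sub_zero] using s3
  · rw [Metric.tendstoUniformlyOn_iff]
    intro ε hε
    obtain ⟨T, hT, H⟩ := dZ hε
    filter_upwards [eventually_ge_atTop T] with t ht x hx
    have ht0 : 0 < t := lt_of_lt_of_le hT ht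
    have r := (G.range t ht0.le x hx).1
    rw [dist_comm, Real.dist_eq, sub_zero, abs_of_nonneg r.1]
    exact lt_of_le_of_lt (hle t ht0 x hx).1 (H t ht x hx)
  · rw [Metric.tendstoUniformlyOn_iff]
    intro ε hε
    obtain ⟨T, hT, H⟩ := dW hε
    filter_upwards [eventually_ge_atTop T] with t ht x hx
    have ht0 : 0 < t := lt_of_lt_of_le hT ht
    have r := (G.range t ht0.le x hx).2
    rw [Real.dist_eq, sub_sub_cancel, abs_of_nonneg r.1]
    exact lt_of_le_of_lt (hle t ht0 x hx).2 (H t ht x hx)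

/-- a limit of solutions starting from `(1,0)` is above every barrier -/
theorem limit_above {a b c1 c2 : ℝ} (hL : 0 < L) (ha : 0 ≤ a) (hb : 0 ≤ b)
    {U U' g V V' h : ℝ → ℝ} (S : Stat L a b U U' g V V' h) (hU0 : U 0 = 0) (hV0 : V 0 = 0)
    (hUL : U L = 0) (hVL : V L = 0)
    (hAC : AsympControllable a b L (fun _ => 1) (fun _ => 0) c1 c2) :
    ∀ x ∈ Icc 0 L, U x ≤ c1 ∧ V x ≤ 1 - c2 := by
  have hc : (0 : ℝ) ∈ Icc 0 L := ⟨le_rfl, hL.le⟩
  obtain ⟨u1l, u1r, u2l, u2r, k1, k2, k3, k4, y1, y2, Y, t1, t2⟩ := hAC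
  obtain ⟨A1, A2⟩ := Y.sols hL (BS.const L 1) (BS.const L 0) k1 k2 k3 k4 0
  have B1 := statSol hL hc S.dU S.dU' S.cg
  have B2 := statSol hL hc S.dV S.dV' S.ch
  rw [hU0, hUL] at B1
  rw [hV0, hVL] at B2
  have key : ∀ T, 0 ≤ T → ∀ᵐ x ∂(volume.restrict (Ioc 0 L)), U x ≤ y1 T x ∧
      V x ≤ 1 - y2 T x := by
    intro T hT
    apply sys_le hL ha hb A1 A2 B1 B2 hc le_rfl le_rfl hT
    · rw [ae_restrict_iff' measurableSet_Ioc]
      exact Eventually.of_forall fun x hx => (S.range x ⟨hx.1.le, hx.2⟩).1.2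
    · rw [ae_restrict_iff' measurableSet_Ioc]
      exact Eventually.of_forall fun x hx => by
        have := (S.range x ⟨hx.1.le, hx.2⟩).2.2
        linarith
    · intro s _; exact (k1.2 s).1
    · intro s _; exact (k2.2 s).1
    · intro s _; linarith [(k3.2 s).2]
    · intro s _; linarith [(k4.2 s).2]
    · intro s hs
      rw [ae_restrict_iff' measurableSet_Ioc]
      refine Eventually.of_forall fun x hx => ?_
      have r1 := Y.range s hs.1 x ⟨hx.1.le, hx.2⟩
      have r2 := S.range x ⟨hx.1.le, hx.2⟩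
      exact ⟨r1.1, ⟨by linarith [r1.2.2], by linarith [r1.2.1]⟩, r2.1, r2.2⟩
    · intro s _
      rw [ae_restrict_iff' measurableSet_Ioc]
      refine Eventually.of_forall fun x hx => ?_
      have hx' : x ∈ Icc 0 L := ⟨hx.1.le, hx.2⟩
      exact ⟨le_rfl, le_rfl, (S.eg x hx').le, (S.eh x hx').le⟩
  rw [Metric.tendstoUniformlyOn_iff] at t1 t2
  have fin : ∀ ε > 0, ∀ x ∈ Icc 0 L, U x ≤ c1 + ε ∧ V x ≤ 1 - c2 + ε := by
    intro ε hε
    obtain ⟨T, hT1, hT2, hT0⟩ := ((t1 ε hε).and ((t2 ε hε).and (eventually_ge_atTop 0))).exists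
    have hk := key T hT0
    have hm : ∀ᵐ x ∂(volume.restrict (Ioc 0 L)), x ∈ Ioc 0 L := ae_restrict_mem measurableSet_Ioc
    have q1 := forall_of_ae hL (f := fun x => c1 + ε - U x) (continuous_const.sub S.cU) (by
      filter_upwards [hk, hm] with x hx hxm
      have := hT1 x ⟨hxm.1.le, hxm.2⟩
      rw [Real.dist_eq] at this
      have := (abs_lt.1 this).1
      linarith [hx.1])
    have q2 := forall_of_ae hL (f := fun x => 1 - c2 + ε - V x) (continuous_const.sub S.cV) (by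
      filter_upwards [hk, hm] with x hx hxm
      have := hT2 x ⟨hxm.1.le, hxm.2⟩
      rw [Real.dist_eq] at this
      have := (abs_lt.1 this).2
      linarith [hx.2])
    intro x hx
    exact ⟨by linarith [q1 x hx], by linarith [q2 x hx]⟩
  intro x hx
  exact ⟨le_of_forall_pos_le_add fun ε hε => (fin ε hε x hx).1,
    le_of_forall_pos_le_add fun ε hε => (fin ε hε x hx).2⟩

lemma contDiff_two {u u' g : ℝ → ℝ} (hu : ∀ x, HasDerivAt u (u' x) x)
    (hu' : ∀ x, HasDerivAt u' (-g x) x) (hg : Continuous g) : ContDiff ℝ 2 u := by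
  have d1 : deriv u = u' := funext fun x => (hu x).deriv
  have d2 : deriv u' = fun x => -g x := funext fun x => (hu' x).deriv
  have h1 : ContDiff ℝ 1 u' := by
    rw [contDiff_one_iff_deriv]
    refine ⟨fun x => (hu' x).differentiableAt, ?_⟩
    rw [d2]; exact hg.neg
  have : ContDiff ℝ (1 + 1) u := by
    rw [contDiff_succ_iff_deriv]
    refine ⟨fun x => (hu x).differentiableAt, fun h => ?_, ?_⟩
    · exact absurd h (by norm_num)
    · rw [d1]; exact h1
  norm_num at this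
  exact this

/-- barriers in the original variables -/
theorem ZBar.barrier {a b : ℝ} (hZ : ZBar L a b) : ∃ θ1 θ2 : ℝ → ℝ, IsBarrier a b L θ1 θ2 := by
  obtain ⟨U, U', g, V, V', h, S, hU0, hV0, hUL, hVL, x0, hx0, hne⟩ := hZ
  have dW : ∀ x, HasDerivAt (fun x => 1 - V x) (-V' x) x := fun x => by
    simpa using (S.dV x).const_sub 1
  have dW' : ∀ x, HasDerivAt (fun x => -V' x) (- -h x) x := fun x => by
    have := (S.dV' x).fun_neg
    exact this
  have c1 := contDiff_two S.dU S.dU' S.cg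
  have c2 : ContDiff ℝ 2 fun x => 1 - V x :=
    contDiff_two (g := fun x => -h x) dW dW' S.ch.neg
  have d1 : deriv U = U' := funext fun x => (S.dU x).deriv
  have d1' : deriv U' = fun x => -g x := funext fun x => (S.dU' x).deriv
  have d2 : deriv (fun x => 1 - V x) = fun x => -V' x := funext fun x => (dW x).deriv
  have d2' : deriv (fun x => -V' x) = fun x => - -h x := funext fun x => (dW' x).deriv
  refine ⟨U, fun x => 1 - V x, ⟨S.cU.continuousOn, (continuous_const.sub S.cV).continuousOn⟩,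
    ⟨c1.contDiffOn, c2.contDiffOn⟩, ?_, ?_, ⟨hU0, by rw [hV0]; ring, hUL, by rw [hVL]; ring⟩,
    x0, hx0, ?_⟩
  · intro x hx
    have hx' : x ∈ Icc 0 L := ⟨hx.1.le, hx.2.le⟩
    rw [d1, d1', d2, d2']
    simp only []
    rw [S.eg x hx', S.eh x hx']
    unfold react1 react2 G1 G2
    constructor <;> ring
  · intro x hx
    have := S.range x hx
    exact ⟨this.1, ⟨by linarith [this.2.2], by linarith [this.2.1]⟩⟩
  · rintro ⟨q1, q2⟩
    exact hne ⟨q1, by linarith⟩

/-- the main theorem -/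
theorem main {a b : ℝ} (ha : 0 < a) (hb : 1 < b) (hab : a < b) :
    ∃ Lstar : ℝ, Real.pi < Lstar ∧
      (∀ L, 0 < L → L < Lstar → ∀ y10 y20 : ℝ → ℝ, IsDatum L y10 → IsDatum L y20 →
        AsympControllable a b L y10 y20 0 1) ∧
      (∀ L, Lstar < L → (∃ θ1 θ2 : ℝ → ℝ, IsBarrier a b L θ1 θ2) ∧
        ∃ y10 y20 : ℝ → ℝ, IsDatum L y10 ∧ IsDatum L y20 ∧
          ¬ AsympControllable a b L y10 y20 0 1 ∧
          (1 < a → ¬ AsympControllable a b L y10 y20
            ((a - 1) / (a * b - 1)) ((b - 1) / (a * b - 1)))) := by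
  have hb0 : 0 < b := by linarith
  obtain ⟨L1, hL1, H1⟩ := no_zbar_near_pi ha hb0
  obtain ⟨L2, hL2, H2⟩ := exists_zbar ha hb hab
  set A : Set ℝ := {L | 0 < L ∧ ZBar L a b} with hA
  have hne : A.Nonempty := ⟨L2, hL2, H2⟩
  have hlow : ∀ L ∈ A, L1 ≤ L := by
    intro L hLA
    by_contra hcon
    push Not at hcon
    exact H1 L hLA.1 hcon.le hLA.2
  have hbdd : BddBelow A := ⟨L1, hlow⟩
  refine ⟨sInf A, lt_of_lt_of_le hL1 (le_csInf hne hlow), ?_, ?_⟩
  · intro L hL hlt y10 y20 h1 h2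
    apply controllable_of_not_zbar hL ha.le hb0.le _ h1 h2
    intro hZ
    exact absurd (csInf_le hbdd ⟨hL, hZ⟩) (not_le.2 hlt)
  · intro L hlt
    obtain ⟨L', hL'A, hL'⟩ := exists_lt_of_csInf_lt hne hlt
    have hL : 0 < L := hL'A.1.trans hL'
    have hZ : ZBar L a b := ZBar.mono hL'A.1 hL'.le ha.le hb0.le hL'A.2
    refine ⟨hZ.barrier, fun _ => 1, fun _ => 0,
      ⟨continuousOn_const, fun _ _ => ⟨zero_le_one, le_rfl⟩⟩,
      ⟨continuousOn_const, fun _ _ => ⟨le_rfl, zero_le_one⟩⟩, ?_, ?_⟩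
    · intro hAC
      obtain ⟨U, U', g, V, V', h, S, hU0, hV0, hUL, hVL, x0, hx0, hne⟩ := hZ
      have := limit_above hL ha.le hb0.le S hU0 hV0 hUL hVL hAC x0 hx0
      have r := S.range x0 hx0
      exact hne ⟨le_antisymm this.1 r.1.1, le_antisymm (by linarith [this.2]) r.2.1⟩
    · intro ha1 hAC
      obtain ⟨U, U', g, V, V', h, S, hU0, hV0, hUL, hVL, x0, hx0, hne⟩ := hZ
      have hab1 : 0 < a * b - 1 := by nlinarith
      have key := limit_above hL ha.le hb0.le S hU0 hV0 hUL hVL hAC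
      apply hne
      apply not_le_coexistence hL ha1 hb S hU0 hV0 hUL hVL _ x0 hx0
      intro x hx
      refine ⟨(key x hx).1, (key x hx).2.trans (le_of_eq ?_)⟩
      have e1 : b * ((a - 1) / (a * b - 1)) = (a * b - 1 - (b - 1)) / (a * b - 1) := by
        rw [← mul_div_assoc]
        congr 1
        ring
      rw [e1, sub_div (a * b - 1) (b - 1), div_self hab1.ne']

end Pool.Agent.LV65
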