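import Pool.Agent.Lib.MP_e2b89c_an.Heat

/-!
Weak solutions of the heat equation in terms of sine modes, and the weak maximum principle.
-/

namespace Pool.Agent.LV65

open MeasureTheory Set Filter Topology

/-- bounded jointly measurable functions -/
structure BM (L : ℝ) (z : ℝ → ℝ → ℝ) : Prop where
  meas : Measurable (Function.uncurry z)
  bdd : ∀ T : ℝ, ∃ C, ∀ t ∈ Icc 0 T, ∀ x ∈ Icc 0 L, |z t x| ≤ C

/-- bounded measurable functions of space -/
structure BS (L : ℝ) (w : ℝ → ℝ) : Prop where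
  meas : Measurable w
  bdd : ∃ C, ∀ x ∈ Icc 0 L, |w x| ≤ C

/-- bounded measurable functions of time -/
structure BG (g : ℝ → ℝ) : Prop where
  meas : Measurable g
  bdd : ∀ T : ℝ, ∃ C, ∀ t ∈ Icc 0 T, |g t| ≤ C

lemma BM.bs {L : ℝ} {z : ℝ → ℝ → ℝ} (h : BM L z) {t : ℝ} (ht : 0 ≤ t) : BS L (z t) := by
  obtain ⟨C, hC⟩ := h.bdd t
  exact ⟨h.meas.comp (measurable_const.prodMk measurable_id), C,
    fun x hx => hC t ⟨ht, le_rfl⟩ x hx⟩

lemma BS.int {L : ℝ} (hL : 0 < L) {w : ℝ → ℝ} (h : BS L w) {f : ℝ → ℝ} (hf : Continuous f) :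
    IntervalIntegrable (fun x => w x * f x) volume 0 L := by
  obtain ⟨C, hC⟩ := h.bdd
  obtain ⟨M, hM⟩ := (isCompact_Icc (a := (0 : ℝ)) (b := L)).exists_bound_of_continuousOn
    hf.continuousOn
  have hC0 : 0 ≤ C := le_trans (abs_nonneg _) (hC 0 ⟨le_rfl, hL.le⟩)
  apply intervalIntegrable_of_bdd (h.meas.mul hf.measurable) (C := C * M)
  intro x hx
  rw [uIcc_of_le hL.le] at hx
  rw [Pi.mul_apply, abs_mul]
  exact mul_le_mul (hC x hx) (hM x hx) (abs_nonneg _) hC0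

lemma BG.intervalIntegrable {g : ℝ → ℝ} (h : BG g) {t : ℝ} (ht : 0 ≤ t) :
    IntervalIntegrable g volume 0 t := by
  obtain ⟨C, hC⟩ := h.bdd t
  apply intervalIntegrable_of_bdd h.meas (C := C)
  intro x hx
  rw [uIcc_of_le ht] at hx
  exact hC x hx

lemma BG.add {f g : ℝ → ℝ} (hf : BG f) (hg : BG g) : BG (fun s => f s + g s) := by
  refine ⟨hf.meas.add hg.meas, fun T => ?_⟩
  obtain ⟨C, hC⟩ := hf.bdd T
  obtain ⟨D, hD⟩ := hg.bdd T
  exact ⟨C + D, fun t ht => (abs_add_le _ _).trans (add_le_add (hC t ht) (hD t ht))⟩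

lemma BG.sub {f g : ℝ → ℝ} (hf : BG f) (hg : BG g) : BG (fun s => f s - g s) := by
  refine ⟨hf.meas.sub hg.meas, fun T => ?_⟩
  obtain ⟨C, hC⟩ := hf.bdd T
  obtain ⟨D, hD⟩ := hg.bdd T
  exact ⟨C + D, fun t ht => (abs_sub _ _).trans (add_le_add (hC t ht) (hD t ht))⟩

lemma BG.mul {f g : ℝ → ℝ} (hf : BG f) (hg : BG g) : BG (fun s => f s * g s) := by
  refine ⟨hf.meas.mul hg.meas, fun T => ?_⟩
  obtain ⟨C, hC⟩ := hf.bdd T
  obtain ⟨D, hD⟩ := hg.bdd T
  refine ⟨C * D, fun t ht => ?_⟩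
  rw [abs_mul]
  exact mul_le_mul (hC t ht) (hD t ht) (abs_nonneg _) ((abs_nonneg _).trans (hC t ht))

lemma BG.const (c : ℝ) : BG (fun _ => c) := ⟨measurable_const, fun _ => ⟨|c|, fun _ _ => le_rfl⟩⟩

lemma BG.of_continuous {f : ℝ → ℝ} (hf : Continuous f) : BG f := by
  refine ⟨hf.measurable, fun T => ?_⟩
  obtain ⟨M, hM⟩ := (isCompact_Icc (a := (0 : ℝ)) (b := T)).exists_bound_of_continuousOn
    hf.continuousOn
  exact ⟨M, hM⟩

lemma BM.add {L : ℝ} {f g : ℝ → ℝ → ℝ} (hf : BM L f) (hg : BM L g) :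
    BM L (fun s x => f s x + g s x) := by
  refine ⟨hf.meas.add hg.meas, fun T => ?_⟩
  obtain ⟨C, hC⟩ := hf.bdd T
  obtain ⟨D, hD⟩ := hg.bdd T
  exact ⟨C + D, fun t ht x hx =>
    (abs_add_le _ _).trans (add_le_add (hC t ht x hx) (hD t ht x hx))⟩

lemma BM.sub {L : ℝ} {f g : ℝ → ℝ → ℝ} (hf : BM L f) (hg : BM L g) :
    BM L (fun s x => f s x - g s x) := by
  refine ⟨hf.meas.sub hg.meas, fun T => ?_⟩
  obtain ⟨C, hC⟩ := hf.bdd T
  obtain ⟨D, hD⟩ := hg.bdd T
  exact ⟨C + D, fun t ht x hx =>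
    (abs_sub _ _).trans (add_le_add (hC t ht x hx) (hD t ht x hx))⟩

lemma BM.mul {L : ℝ} {f g : ℝ → ℝ → ℝ} (hf : BM L f) (hg : BM L g) :
    BM L (fun s x => f s x * g s x) := by
  refine ⟨hf.meas.mul hg.meas, fun T => ?_⟩
  obtain ⟨C, hC⟩ := hf.bdd T
  obtain ⟨D, hD⟩ := hg.bdd T
  refine ⟨C * D, fun t ht x hx => ?_⟩
  rw [abs_mul]
  exact mul_le_mul (hC t ht x hx) (hD t ht x hx) (abs_nonneg _)
    ((abs_nonneg _).trans (hC t ht x hx))

lemma BM.const (L c : ℝ) : BM L (fun _ _ => c) :=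
  ⟨measurable_const, fun _ => ⟨|c|, fun _ _ _ _ => le_rfl⟩⟩

lemma BM.of_time {L : ℝ} {g : ℝ → ℝ} (hg : BG g) : BM L (fun s _ => g s) := by
  refine ⟨hg.meas.comp measurable_fst, fun T => ?_⟩
  obtain ⟨C, hC⟩ := hg.bdd T
  exact ⟨C, fun t ht x _ => hC t ht⟩

lemma BM.of_space {L : ℝ} {w : ℝ → ℝ} (hw : BS L w) : BM L (fun _ x => w x) := by
  obtain ⟨C, hC⟩ := hw.bdd
  exact ⟨hw.meas.comp measurable_snd, fun _ => ⟨C, fun t _ x hx => hC x hx⟩⟩

lemma BS.add {L : ℝ} {f g : ℝ → ℝ} (hf : BS L f) (hg : BS L g) :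
    BS L (fun x => f x + g x) := by
  obtain ⟨C, hC⟩ := hf.bdd
  obtain ⟨D, hD⟩ := hg.bdd
  exact ⟨hf.meas.add hg.meas, C + D, fun x hx =>
    (abs_add_le _ _).trans (add_le_add (hC x hx) (hD x hx))⟩

lemma BS.sub {L : ℝ} {f g : ℝ → ℝ} (hf : BS L f) (hg : BS L g) :
    BS L (fun x => f x - g x) := by
  obtain ⟨C, hC⟩ := hf.bdd
  obtain ⟨D, hD⟩ := hg.bdd
  exact ⟨hf.meas.sub hg.meas, C + D, fun x hx =>
    (abs_sub _ _).trans (add_le_add (hC x hx) (hD x hx))⟩

lemma BS.const (L c : ℝ) : BS L (fun _ => c) := ⟨measurable_const, |c|, fun _ _ => le_rfl⟩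

lemma BS.of_continuous {L : ℝ} {f : ℝ → ℝ} (hf : Continuous f) : BS L f := by
  obtain ⟨M, hM⟩ := (isCompact_Icc (a := (0 : ℝ)) (b := L)).exists_bound_of_continuousOn
    hf.continuousOn
  exact ⟨hf.measurable, M, hM⟩

lemma coef_measurable {L : ℝ} (hL : 0 < L) (n : ℕ) {z : ℝ → ℝ → ℝ}
    (hz : Measurable (Function.uncurry z)) : Measurable fun s => coef L n (z s) := by
  have h1 : (fun s => coef L n (z s)) = fun s => ∫ x, z s x * sn L n x ∂(volume.restrict (Ioc 0 L)) := by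
    funext s
    rw [coef, intervalIntegral.integral_of_le hL.le]
  rw [h1]
  apply StronglyMeasurable.measurable
  apply StronglyMeasurable.integral_prod_right (f := fun s x => z s x * sn L n x)
  apply Measurable.stronglyMeasurable
  exact hz.mul ((continuous_sn L n).measurable.comp measurable_snd)

lemma coef_abs_le {L : ℝ} (hL : 0 < L) (n : ℕ) {w : ℝ → ℝ} {C : ℝ}
    (hC : ∀ x ∈ Icc 0 L, |w x| ≤ C) : |coef L n w| ≤ C * L := by
  unfold coef
  have hC0 : 0 ≤ C := le_trans (abs_nonneg _) (hC 0 ⟨le_rfl, hL.le⟩)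
  have : ‖∫ x in (0 : ℝ)..L, w x * sn L n x‖ ≤ C * |L - 0| := by
    apply intervalIntegral.norm_integral_le_of_norm_le_const
    intro x hx
    rw [uIoc_of_le hL.le] at hx
    rw [norm_mul]
    have := mul_le_mul (hC x ⟨hx.1.le, hx.2⟩) (abs_sn_le_one L n x) (abs_nonneg _) hC0
    simpa using this
  rw [sub_zero, abs_of_pos hL] at this
  exact this

lemma BM.coef {L : ℝ} (hL : 0 < L) (n : ℕ) {z : ℝ → ℝ → ℝ} (hz : BM L z) :
    BG (fun s => coef L n (z s)) := by
  refine ⟨coef_measurable hL n hz.meas, fun T => ?_⟩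
  obtain ⟨C, hC⟩ := hz.bdd T
  exact ⟨C * L, fun t ht => coef_abs_le hL n (hC t ht)⟩

lemma coef_add {L : ℝ} (hL : 0 < L) (n : ℕ) {f g : ℝ → ℝ} (hf : BS L f) (hg : BS L g) :
    coef L n (fun x => f x + g x) = coef L n f + coef L n g := by
  unfold coef
  rw [← intervalIntegral.integral_add (hf.int hL (continuous_sn L n))
    (hg.int hL (continuous_sn L n))]
  congr 1
  funext x; ring

lemma coef_sub {L : ℝ} (hL : 0 < L) (n : ℕ) {f g : ℝ → ℝ} (hf : BS L f) (hg : BS L g) :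
    coef L n (fun x => f x - g x) = coef L n f - coef L n g := by
  unfold coef
  rw [← intervalIntegral.integral_sub (hf.int hL (continuous_sn L n))
    (hg.int hL (continuous_sn L n))]
  congr 1
  funext x; ring

lemma coef_const_mul {L : ℝ} (n : ℕ) (r : ℝ) (f : ℝ → ℝ) :
    coef L n (fun x => r * f x) = r * coef L n f := by
  unfold coef
  rw [← intervalIntegral.integral_const_mul]
  congr 1
  funext x; ring

/-- the product rule for `exp (μ t)` times a primitive -/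
lemma exp_mul_primitive {w : ℝ → ℝ} {t : ℝ} (μ h0 : ℝ) (hw : IntervalIntegrable w volume 0 t) :
    Real.exp (μ * t) * (h0 + ∫ s in (0 : ℝ)..t, w s) =
      h0 + ∫ s in (0 : ℝ)..t, Real.exp (μ * s) * (w s + μ * (h0 + ∫ r in (0 : ℝ)..s, w r)) := by
  have hf : AbsolutelyContinuousOnInterval (fun s => Real.exp (μ * s)) 0 t := by
    apply ContDiffOn.absolutelyContinuousOnInterval
    apply ContDiff.contDiffOn
    fun_prop
  have hg0 : AbsolutelyContinuousOnInterval (fun s => ∫ r in (0 : ℝ)..s, w r) 0 t :=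
    hw.absolutelyContinuousOnInterval_intervalIntegral (c := 0) left_mem_uIcc
  have hconst : AbsolutelyContinuousOnInterval (fun _ : ℝ => h0) 0 t := by
    apply ContDiffOn.absolutelyContinuousOnInterval
    exact contDiffOn_const
  have hg : AbsolutelyContinuousOnInterval (fun s => h0 + ∫ r in (0 : ℝ)..s, w r) 0 t :=
    hconst.fun_add hg0
  have hmain := AbsolutelyContinuousOnInterval.integral_deriv_mul_eq_sub hf hg
  have hcongr : ∫ x in (0 : ℝ)..t, deriv (fun s => Real.exp (μ * s)) x *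
      (h0 + ∫ r in (0 : ℝ)..x, w r) + Real.exp (μ * x) *
        deriv (fun s => h0 + ∫ r in (0 : ℝ)..s, w r) x =
      ∫ s in (0 : ℝ)..t, Real.exp (μ * s) * (w s + μ * (h0 + ∫ r in (0 : ℝ)..s, w r)) := by
    apply intervalIntegral.integral_congr_ae
    filter_upwards [hw.ae_hasDerivAt_integral] with x hx hx2
    have hx3 := hx (uIoc_subset_uIcc hx2) 0 left_mem_uIcc
    have hx4 : deriv (fun s => h0 + ∫ r in (0 : ℝ)..s, w r) x = w x :=
      (hx3.const_add h0).deriv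
    have hx5 : deriv (fun s => Real.exp (μ * s)) x = μ * Real.exp (μ * x) := by
      have h : HasDerivAt (fun s : ℝ => μ * s) μ x := by
        simpa using (hasDerivAt_id x).const_mul μ
      rw [h.exp.deriv]; ring
    rw [hx4, hx5]
    ring
  rw [hcongr] at hmain
  rw [hmain]
  simp

/-- weak solutions of `z_t = z_xx + F` with boundary data `gl, gr`, initial data `z0` and a point
source of mass `m` at `c`, in sine modes -/
structure Sol (L : ℝ) (z0 : ℝ → ℝ) (z F : ℝ → ℝ → ℝ) (gl gr : ℝ → ℝ) (m c : ℝ) : Prop where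
  hz0 : BS L z0
  hz : BM L z
  hF : BM L F
  hgl : BG gl
  hgr : BG gr
  eq : ∀ n : ℕ, ∀ t, 0 ≤ t → coef L n (z t) = coef L n z0 + ∫ s in (0 : ℝ)..t,
    (-(wn L n) ^ 2 * coef L n (z s) + coef L n (F s) +
      wn L n * (gl s - Real.cos (wn L n * L) * gr s) + m * sn L n c)

lemma Sol.rhs_bg {L : ℝ} (hL : 0 < L) {z0 : ℝ → ℝ} {z F : ℝ → ℝ → ℝ} {gl gr : ℝ → ℝ} {m c : ℝ}
    (S : Sol L z0 z F gl gr m c) (n : ℕ) :
    BG (fun s => -(wn L n) ^ 2 * coef L n (z s) + coef L n (F s) +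
      wn L n * (gl s - Real.cos (wn L n * L) * gr s) + m * sn L n c) :=
  ((((BG.const _).mul (S.hz.coef hL n)).add (S.hF.coef hL n)).add
    ((BG.const _).mul (S.hgl.sub ((BG.const _).mul S.hgr)))).add (BG.const _)

/-- Duhamel's formula for the modes -/
lemma Sol.duhamel {L : ℝ} (hL : 0 < L) {z0 : ℝ → ℝ} {z F : ℝ → ℝ → ℝ} {gl gr : ℝ → ℝ} {m c : ℝ}
    (S : Sol L z0 z F gl gr m c) (lam : ℝ) (n : ℕ) {t : ℝ} (ht : 0 ≤ t) :
    Real.exp (((wn L n) ^ 2 + lam) * t) * coef L n (z t) = coef L n z0 +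
      ∫ s in (0 : ℝ)..t, Real.exp (((wn L n) ^ 2 + lam) * s) *
        (coef L n (F s) + lam * coef L n (z s) +
          wn L n * (gl s - Real.cos (wn L n * L) * gr s) + m * sn L n c) := by
  rw [S.eq n t ht, exp_mul_primitive _ _ ((S.rhs_bg hL n).intervalIntegrable ht)]
  congr 1
  apply intervalIntegral.integral_congr
  intro s hs
  rw [uIcc_of_le ht] at hs
  simp only []
  rw [← S.eq n s hs.1]
  ring

lemma integral_mul_sum {L : ℝ} (hL : 0 < L) {w : ℝ → ℝ} (hw : BS L w) (N : ℕ) (c : ℕ → ℝ) :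
    ∫ x in (0 : ℝ)..L, w x * ∑ n ∈ Finset.range N, c n * sn L n x =
      ∑ n ∈ Finset.range N, c n * coef L n w := by
  have : ∀ x, w x * ∑ n ∈ Finset.range N, c n * sn L n x =
      ∑ n ∈ Finset.range N, c n * (w x * sn L n x) := by
    intro x
    rw [Finset.mul_sum]
    exact Finset.sum_congr rfl fun n _ => by ring
  simp_rw [this]
  rw [intervalIntegral.integral_finsetSum]
  · exact Finset.sum_congr rfl fun n _ => by rw [intervalIntegral.integral_const_mul, coef]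
  · intro n _
    exact (hw.int hL (continuous_sn L n)).const_mul _

/-- The weak maximum principle, mode version at a fixed time. -/
theorem core_nonneg {L : ℝ} (hL : 0 < L) {w0 w : ℝ → ℝ} {F : ℝ → ℝ → ℝ} {gl gr : ℝ → ℝ} {m c : ℝ}
    (lam : ℝ) (hm : 0 ≤ m) (hc : c ∈ Icc 0 L) {t : ℝ} (ht : 0 ≤ t) (hw : BS L w) (hw0 : BS L w0)
    (hF : BM L F) (hgl : BG gl) (hgr : BG gr)
    (hmode : ∀ n : ℕ, Real.exp (((wn L n) ^ 2 + lam) * t) * coef L n w = coef L n w0 +
      ∫ s in (0 : ℝ)..t, Real.exp (((wn L n) ^ 2 + lam) * s) *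
        (coef L n (F s) + wn L n * (gl s - Real.cos (wn L n * L) * gr s) + m * sn L n c))
    (p0 : ∀ᵐ x ∂(volume.restrict (Ioc 0 L)), 0 ≤ w0 x)
    (pF : ∀ s ∈ Icc 0 t, ∀ᵐ x ∂(volume.restrict (Ioc 0 L)), 0 ≤ F s x)
    (pl : ∀ s ∈ Icc 0 t, 0 ≤ gl s) (pr : ∀ s ∈ Icc 0 t, 0 ≤ gr s) :
    ∀ᵐ x ∂(volume.restrict (Ioc 0 L)), 0 ≤ w x := by
  obtain ⟨C, hC⟩ := hw.bdd
  refine PolyPos.ae_nonneg hL hw.meas hC ?_
  intro N a ha
  rw [integral_mul_sum hL hw]
  -- the modes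
  have hmode' : ∀ n, coef L n w = Real.exp (-(((wn L n) ^ 2 + lam) * t)) * (coef L n w0 +
      ∫ s in (0 : ℝ)..t, Real.exp (((wn L n) ^ 2 + lam) * s) *
        (coef L n (F s) + wn L n * (gl s - Real.cos (wn L n * L) * gr s) + m * sn L n c)) := by
    intro n
    rw [← hmode n, ← mul_assoc, ← Real.exp_add]
    simp
  have hexp : ∀ (τ : ℝ), ∀ n, Real.exp (-(((wn L n) ^ 2 + lam) * τ)) =
      Real.exp (-(lam * τ)) * Real.exp (-(wn L n) ^ 2 * τ) := by
    intro τ n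
    rw [← Real.exp_add]; congr 1; ring
  have hsum : ∑ n ∈ Finset.range N, a n * coef L n w =
      Real.exp (-(lam * t)) * (∑ n ∈ Finset.range N, (a n * Real.exp (-(wn L n) ^ 2 * t)) *
        coef L n w0) +
      ∫ s in (0 : ℝ)..t, Real.exp (-(lam * (t - s))) * ∑ n ∈ Finset.range N,
        (a n * Real.exp (-(wn L n) ^ 2 * (t - s))) *
        (coef L n (F s) + wn L n * (gl s - Real.cos (wn L n * L) * gr s) + m * sn L n c) := by
    have e1 : ∀ s, Real.exp (-(lam * (t - s))) * ∑ n ∈ Finset.range N,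
        (a n * Real.exp (-(wn L n) ^ 2 * (t - s))) *
        (coef L n (F s) + wn L n * (gl s - Real.cos (wn L n * L) * gr s) + m * sn L n c) =
        ∑ n ∈ Finset.range N, (a n * Real.exp (-(((wn L n) ^ 2 + lam) * t))) *
          (Real.exp (((wn L n) ^ 2 + lam) * s) * (coef L n (F s) +
          wn L n * (gl s - Real.cos (wn L n * L) * gr s) + m * sn L n c)) := by
      intro s
      rw [Finset.mul_sum]
      refine Finset.sum_congr rfl fun n _ => ?_
      have e2 : Real.exp (-(((wn L n) ^ 2 + lam) * t)) * Real.exp (((wn L n) ^ 2 + lam) * s) =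
          Real.exp (-(lam * (t - s))) * Real.exp (-(wn L n) ^ 2 * (t - s)) := by
        rw [← Real.exp_add, ← Real.exp_add]; congr 1; ring
      calc _ = a n * (Real.exp (-(lam * (t - s))) * Real.exp (-(wn L n) ^ 2 * (t - s))) *
          (coef L n (F s) +
          wn L n * (gl s - Real.cos (wn L n * L) * gr s) + m * sn L n c) := by ring
        _ = _ := by rw [← e2]; ring
    simp_rw [e1]
    rw [intervalIntegral.integral_finsetSum, Finset.mul_sum, ← Finset.sum_add_distrib]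
    · refine Finset.sum_congr rfl fun n _ => ?_
      rw [intervalIntegral.integral_const_mul, hmode' n, hexp t n]
      ring
    · intro n _
      apply IntervalIntegrable.const_mul
      apply IntervalIntegrable.continuousOn_mul
      · exact (((hF.coef hL n).add
          ((BG.const _).mul (hgl.sub ((BG.const _).mul hgr)))).add
            (BG.const _)).intervalIntegrable ht
      · fun_prop
  rw [hsum]
  have hpoly_eq : ∀ τ x, hpoly L N a τ x =
      ∑ n ∈ Finset.range N, (a n * Real.exp (-(wn L n) ^ 2 * τ)) * sn L n x := by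
    intro τ x
    unfold hpoly
    exact Finset.sum_congr rfl fun n _ => by ring
  apply add_nonneg
  · apply mul_nonneg (Real.exp_pos _).le
    rw [← integral_mul_sum hL hw0 N (fun n => a n * Real.exp (-(wn L n) ^ 2 * t)),
      intervalIntegral.integral_of_le hL.le]
    apply integral_nonneg_of_ae
    filter_upwards [p0, ae_restrict_mem measurableSet_Ioc] with x hx hx2
    rw [← hpoly_eq]
    exact mul_nonneg hx (hpoly_nonneg hL N a ha ht ⟨hx2.1.le, hx2.2⟩)
  · apply intervalIntegral.integral_nonneg ht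
    intro s hs
    apply mul_nonneg (Real.exp_pos _).le
    have hts : 0 ≤ t - s := by linarith [hs.2]
    have hsplit : ∑ n ∈ Finset.range N, (a n * Real.exp (-(wn L n) ^ 2 * (t - s))) *
        (coef L n (F s) + wn L n * (gl s - Real.cos (wn L n * L) * gr s) + m * sn L n c) =
        (∫ x in (0 : ℝ)..L, F s x * hpoly L N a (t - s) x) +
        gl s * (∑ n ∈ Finset.range N, a n * (Real.exp (-(wn L n) ^ 2 * (t - s)) * wn L n)) +
        gr s * (-(∑ n ∈ Finset.range N, a n * (Real.exp (-(wn L n) ^ 2 * (t - s)) *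
          (wn L n * Real.cos (wn L n * L))))) + m * hpoly L N a (t - s) c := by
      have e3 : (∫ x in (0 : ℝ)..L, F s x * hpoly L N a (t - s) x) =
          ∑ n ∈ Finset.range N, (a n * Real.exp (-(wn L n) ^ 2 * (t - s))) *
            coef L n (F s) := by
        simp_rw [hpoly_eq]
        rw [integral_mul_sum hL (hF.bs hs.1)]
      rw [e3, hpoly_eq, Finset.mul_sum, ← Finset.sum_neg_distrib, Finset.mul_sum, Finset.mul_sum,
        ← Finset.sum_add_distrib, ← Finset.sum_add_distrib, ← Finset.sum_add_distrib]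
      exact Finset.sum_congr rfl fun n _ => by ring
    rw [hsplit]
    have t1 : 0 ≤ ∫ x in (0 : ℝ)..L, F s x * hpoly L N a (t - s) x := by
      rw [intervalIntegral.integral_of_le hL.le]
      apply integral_nonneg_of_ae
      filter_upwards [pF s hs, ae_restrict_mem measurableSet_Ioc] with x hx hx2
      exact mul_nonneg hx (hpoly_nonneg hL N a ha hts ⟨hx2.1.le, hx2.2⟩)
    have t2 := mul_nonneg (pl s hs) (hpoly_deriv0 hL N a ha hts)
    have t3 := mul_nonneg (pr s hs) (neg_nonneg.2 (hpoly_derivL hL N a ha hts))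
    have t4 := mul_nonneg hm (hpoly_nonneg hL N a ha hts hc)
    linarith

/-- The weak maximum principle. -/
theorem Sol.nonneg {L : ℝ} (hL : 0 < L) {z0 : ℝ → ℝ} {z F : ℝ → ℝ → ℝ} {gl gr : ℝ → ℝ} {m c : ℝ}
    (S : Sol L z0 z F gl gr m c) (lam : ℝ) (hm : 0 ≤ m) (hc : c ∈ Icc 0 L) {t : ℝ} (ht : 0 ≤ t)
    (p0 : ∀ᵐ x ∂(volume.restrict (Ioc 0 L)), 0 ≤ z0 x)
    (pF : ∀ s ∈ Icc 0 t, ∀ᵐ x ∂(volume.restrict (Ioc 0 L)), 0 ≤ F s x + lam * z s x)
    (pl : ∀ s ∈ Icc 0 t, 0 ≤ gl s) (pr : ∀ s ∈ Icc 0 t, 0 ≤ gr s) :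
    ∀ᵐ x ∂(volume.restrict (Ioc 0 L)), 0 ≤ z t x := by
  refine core_nonneg hL lam hm hc ht (S.hz.bs ht) S.hz0 (S.hF.add ((BM.const L lam).mul S.hz))
    S.hgl S.hgr ?_ p0 pF pl pr
  intro n
  rw [S.duhamel hL lam n ht]
  congr 1
  apply intervalIntegral.integral_congr
  intro s hs
  rw [uIcc_of_le ht] at hs
  simp only []
  rw [coef_add hL n (S.hF.bs hs.1) (((BM.const L lam).mul S.hz).bs hs.1), coef_const_mul]

end Pool.Agent.LV65
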