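import Pool.Agent.Lib.MP_e2b89c_an.Max

/-!
Phase space estimates for the stationary system: Gronwall, first integral, slopes.
-/

namespace Pool.Agent.LV65

open MeasureTheory Set Filter Topology

/-- solutions of the stationary system on `[c,d]` with values in the unit square -/
structure OnI (a b : ℝ) (U U' V V' : ℝ → ℝ) (c d : ℝ) : Prop where
  dU : ∀ x ∈ Icc c d, HasDerivAt U (U' x) x
  dV : ∀ x ∈ Icc c d, HasDerivAt V (V' x) x
  dU' : ∀ x ∈ Icc c d, HasDerivAt U' (-G1 a (U x) (V x)) x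
  dV' : ∀ x ∈ Icc c d, HasDerivAt V' (-G2 b (U x) (V x)) x
  range : ∀ x ∈ Icc c d, U x ∈ Icc (0 : ℝ) 1 ∧ V x ∈ Icc (0 : ℝ) 1

lemma Stat.onI {L a b : ℝ} {U U' g V V' h : ℝ → ℝ} (S : Stat L a b U U' g V V' h) :
    OnI a b U U' V V' 0 L where
  dU := fun x _ => S.dU x
  dV := fun x _ => S.dV x
  dU' := fun x hx => by rw [← S.eg x hx]; exact S.dU' x
  dV' := fun x hx => by rw [← S.eh x hx]; exact S.dV' x
  range := S.range

/-- the phase space vector field -/
def vf (a b : ℝ) (y : ℝ × ℝ × ℝ × ℝ) : ℝ × ℝ × ℝ × ℝ :=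
  (y.2.2.1, y.2.2.2, -G1 a y.1 y.2.1, -G2 b y.1 y.2.1)

/-- Lipschitz constant -/
def KL (a b : ℝ) : ℝ := 5 + 3 * a + 3 * b

lemma G1_lip {a z w z' w' D : ℝ} (ha : 0 ≤ a) (hz : z ∈ Icc (0 : ℝ) 1) (hw : w ∈ Icc (0 : ℝ) 1)
    (hz' : z' ∈ Icc (0 : ℝ) 1) (h1 : |z - z'| ≤ D) (h2 : |w - w'| ≤ D) :
    |G1 a z w - G1 a z' w'| ≤ (3 + 3 * a) * D := by
  rw [G1_diff]
  have hD : 0 ≤ D := (abs_nonneg _).trans h1
  have e1 : |1 - a - z - z' + a * w| ≤ 3 + 2 * a := by
    have := mul_nonneg ha hw.1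
    have := mul_le_mul_of_nonneg_left hw.2 ha
    rw [abs_le]; constructor <;> linarith [hz.1, hz.2, hz'.1, hz'.2]
  have e2 : |a * z'| ≤ a := by
    rw [abs_of_nonneg (mul_nonneg ha hz'.1)]
    have := mul_le_mul_of_nonneg_left hz'.2 ha
    linarith
  calc _ ≤ |(z - z') * (1 - a - z - z' + a * w)| + |a * z' * (w - w')| := abs_add_le _ _
    _ = |z - z'| * |1 - a - z - z' + a * w| + |a * z'| * |w - w'| := by rw [abs_mul, abs_mul]
    _ ≤ D * (3 + 2 * a) + a * D := by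
        apply add_le_add
        · exact mul_le_mul h1 e1 (abs_nonneg _) hD
        · exact mul_le_mul e2 h2 (abs_nonneg _) ha
    _ = _ := by ring

lemma G2_lip {b z w z' w' D : ℝ} (hb : 0 ≤ b) (hw : w ∈ Icc (0 : ℝ) 1)
    (hz' : z' ∈ Icc (0 : ℝ) 1) (hw' : w' ∈ Icc (0 : ℝ) 1) (h1 : |z - z'| ≤ D)
    (h2 : |w - w'| ≤ D) :
    |G2 b z w - G2 b z' w'| ≤ (3 + 3 * b) * D := by
  rw [G2_diff]
  have hD : 0 ≤ D := (abs_nonneg _).trans h1
  have e1 : |(-(1 - w) - b * z' + w')| ≤ 2 + b := by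
    have := mul_nonneg hb hz'.1
    have := mul_le_mul_of_nonneg_left hz'.2 hb
    rw [abs_le]; constructor <;> linarith [hw.1, hw.2, hw'.1, hw'.2]
  have e2 : |b * (1 - w)| ≤ b := by
    rw [abs_of_nonneg (mul_nonneg hb (by linarith [hw.2]))]
    have := mul_le_mul_of_nonneg_left (show 1 - w ≤ 1 by linarith [hw.1]) hb
    linarith
  have hbD := mul_nonneg hb hD
  calc _ ≤ |b * (1 - w) * (z - z')| + |(w - w') * (-(1 - w) - b * z' + w')| := abs_add_le _ _
    _ = |b * (1 - w)| * |z - z'| + |w - w'| * |(-(1 - w) - b * z' + w')| := by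
        rw [abs_mul, abs_mul (w - w')]
    _ ≤ b * D + D * (2 + b) := by
        apply add_le_add
        · exact mul_le_mul e2 h1 (abs_nonneg _) hb
        · exact mul_le_mul h2 e1 (abs_nonneg _) hD
    _ ≤ _ := by nlinarith

lemma vf_lip {a b : ℝ} (ha : 0 ≤ a) (hb : 0 ≤ b) :
    LipschitzOnWith (Real.toNNReal (KL a b)) (vf a b)
      {y | y.1 ∈ Icc (0 : ℝ) 1 ∧ y.2.1 ∈ Icc (0 : ℝ) 1} := by
  have hK : 0 ≤ KL a b := by unfold KL; linarith
  apply LipschitzOnWith.of_dist_le_mul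
  intro y hy y' hy'
  rw [Real.coe_toNNReal _ hK]
  have d0 : 0 ≤ dist y y' := dist_nonneg
  have h1 : |y.1 - y'.1| ≤ dist y y' := by
    rw [← Real.dist_eq]; exact le_max_left _ _
  have h2 : |y.2.1 - y'.2.1| ≤ dist y y' := by
    rw [← Real.dist_eq]; exact (le_max_left _ _).trans (le_max_right _ _)
  have h3 : |y.2.2.1 - y'.2.2.1| ≤ dist y y' := by
    rw [← Real.dist_eq]
    exact (le_max_left _ _).trans ((le_max_right _ _).trans (le_max_right _ _))
  have h4 : |y.2.2.2 - y'.2.2.2| ≤ dist y y' := by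
    rw [← Real.dist_eq]
    exact (le_max_right _ _).trans ((le_max_right _ _).trans (le_max_right _ _))
  have g1 := G1_lip ha hy.1 hy.2 hy'.1 h1 h2
  have g2 := G2_lip hb hy.2 hy'.1 hy'.2 h1 h2
  have hK1 : 1 ≤ KL a b := by unfold KL; linarith
  have hKD : dist y y' ≤ KL a b * dist y y' := by nlinarith
  have e1 : (3 + 3 * a) * dist y y' ≤ KL a b * dist y y' := by
    apply mul_le_mul_of_nonneg_right _ d0
    unfold KL; linarith
  have e2 : (3 + 3 * b) * dist y y' ≤ KL a b * dist y y' := by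
    apply mul_le_mul_of_nonneg_right _ d0
    unfold KL; linarith
  refine max_le ?_ (max_le ?_ (max_le ?_ ?_))
  · simp only [vf, Real.dist_eq]; linarith
  · simp only [vf, Real.dist_eq]; linarith
  · simp only [vf, Real.dist_eq]
    rw [show -G1 a y.1 y.2.1 - -G1 a y'.1 y'.2.1 = -(G1 a y.1 y.2.1 - G1 a y'.1 y'.2.1) by ring,
      abs_neg]
    linarith
  · simp only [vf, Real.dist_eq]
    rw [show -G2 b y.1 y.2.1 - -G2 b y'.1 y'.2.1 = -(G2 b y.1 y.2.1 - G2 b y'.1 y'.2.1) by ring,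
      abs_neg]
    linarith

/-- the phase point -/
def ph (U U' V V' : ℝ → ℝ) (x : ℝ) : ℝ × ℝ × ℝ × ℝ := (U x, V x, U' x, V' x)

lemma OnI.hasDeriv {a b : ℝ} {U U' V V' : ℝ → ℝ} {c d : ℝ} (S : OnI a b U U' V V' c d) :
    ∀ x ∈ Icc c d, HasDerivAt (ph U U' V V') (vf a b (ph U U' V V' x)) x := by
  intro x hx
  exact (S.dU x hx).prodMk ((S.dV x hx).prodMk ((S.dU' x hx).prodMk (S.dV' x hx)))

lemma OnI.gronwall {a b : ℝ} (ha : 0 ≤ a) (hb : 0 ≤ b) {U U' V V' P P' Q Q' : ℝ → ℝ} {c d : ℝ}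
    (S : OnI a b U U' V V' c d) (S' : OnI a b P P' Q Q' c d) :
    ∀ x ∈ Icc c d, dist (ph U U' V V' x) (ph P P' Q Q' x) ≤
      dist (ph U U' V V' c) (ph P P' Q Q' c) * Real.exp (KL a b * (x - c)) := by
  intro x hx
  have h := dist_le_of_trajectories_ODE_of_mem (v := fun _ => vf a b)
    (s := fun _ => {y | y.1 ∈ Icc (0 : ℝ) 1 ∧ y.2.1 ∈ Icc (0 : ℝ) 1})
    (K := Real.toNNReal (KL a b)) (f := ph U U' V V') (g := ph P P' Q Q') (a := c) (b := d)
    (δ := dist (ph U U' V V' c) (ph P P' Q Q' c))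
    (fun t _ => vf_lip ha hb)
    (fun t ht => (S.hasDeriv t ht).continuousAt.continuousWithinAt)
    (fun t ht => (S.hasDeriv t ⟨ht.1, ht.2.le⟩).hasDerivWithinAt)
    (fun t ht => S.range t ⟨ht.1, ht.2.le⟩)
    (fun t ht => (S'.hasDeriv t ht).continuousAt.continuousWithinAt)
    (fun t ht => (S'.hasDeriv t ⟨ht.1, ht.2.le⟩).hasDerivWithinAt)
    (fun t ht => S'.range t ⟨ht.1, ht.2.le⟩) le_rfl x hx
  rwa [Real.coe_toNNReal _ (by unfold KL; linarith)] at h

/-- the quadratic part of the first integral -/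
noncomputable def QE (a b u v : ℝ) : ℝ := b * (2 - b) * u ^ 2 / 2 - a * b * u * v + a * (2 - a) * v ^ 2 / 2

/-- the first integral -/
noncomputable def EE (a b U V u v : ℝ) : ℝ :=
  QE a b u v + b * (2 - b) * (U ^ 2 / 2 - U ^ 3 / 3) +
    a * (2 - a) * ((1 - V) ^ 2 / 2 - (1 - V) ^ 3 / 3) + a * b * (U * (1 - V) * (V - U))

lemma OnI.first_integral {a b : ℝ} {U U' V V' : ℝ → ℝ} {c d : ℝ} (hcd : c ≤ d)
    (S : OnI a b U U' V V' c d) :
    EE a b (U c) (V c) (U' c) (V' c) = EE a b (U d) (V d) (U' d) (V' d) := by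
  have hd : ∀ x ∈ Icc c d, HasDerivAt (fun x => EE a b (U x) (V x) (U' x) (V' x)) 0 x := by
    intro x hx
    have h1 := S.dU x hx
    have h2 := S.dV x hx
    have h3 := S.dU' x hx
    have h4 := S.dV' x hx
    have hq : HasDerivAt (fun x => QE a b (U' x) (V' x))
        (b * (2 - b) * (2 * U' x ^ 1 * (-G1 a (U x) (V x))) / 2 -
          ((a * b) * (-G1 a (U x) (V x)) * V' x + (a * b) * U' x * (-G2 b (U x) (V x))) +
          a * (2 - a) * (2 * V' x ^ 1 * (-G2 b (U x) (V x))) / 2) x := by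
      unfold QE
      exact ((((h3.fun_pow 2).const_mul (b * (2 - b))).div_const 2).fun_sub
        ((h3.const_mul (a * b)).fun_mul h4)).fun_add
          (((h4.fun_pow 2).const_mul (a * (2 - a))).div_const 2)
    have e1 : HasDerivAt (fun x => b * (2 - b) * (U x ^ 2 / 2 - U x ^ 3 / 3))
        (b * (2 - b) * (2 * U x ^ 1 * U' x / 2 - 3 * U x ^ 2 * U' x / 3)) x :=
      (((h1.fun_pow 2).div_const 2).fun_sub ((h1.fun_pow 3).div_const 3)).const_mul _
    have h5 : HasDerivAt (fun x => 1 - V x) (-V' x) x := h2.const_sub 1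
    have e2 : HasDerivAt (fun x => a * (2 - a) * ((1 - V x) ^ 2 / 2 - (1 - V x) ^ 3 / 3))
        (a * (2 - a) * (2 * (1 - V x) ^ 1 * (-V' x) / 2 - 3 * (1 - V x) ^ 2 * (-V' x) / 3)) x :=
      (((h5.fun_pow 2).div_const 2).fun_sub ((h5.fun_pow 3).div_const 3)).const_mul _
    have e3 : HasDerivAt (fun x => a * b * (U x * (1 - V x) * (V x - U x)))
        (a * b * ((U' x * (1 - V x) + U x * (-V' x)) * (V x - U x) +
          (U x * (1 - V x)) * (V' x - U' x))) x :=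
      ((h1.fun_mul h5).fun_mul (h2.fun_sub h1)).const_mul _
    have := ((hq.fun_add e1).fun_add e2).fun_add e3
    unfold EE
    refine this.congr_deriv ?_
    unfold G1 G2
    ring
  have hconst : ∀ x ∈ Icc c d, EE a b (U x) (V x) (U' x) (V' x) =
      EE a b (U c) (V c) (U' c) (V' c) := by
    apply constant_of_has_deriv_right_zero
    · intro x hx
      exact (hd x hx).continuousAt.continuousWithinAt
    · intro x hx
      exact (hd x ⟨hx.1, hx.2.le⟩).hasDerivWithinAt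
  exact (hconst d ⟨hcd, le_rfl⟩).symm

lemma QE_bound {a b u v : ℝ} (ha : 0 ≤ a) (hb : 0 ≤ b) :
    |QE a b u v| ≤ (b * (2 + b) + a * b + a * (2 + a)) * (|u| + |v|) ^ 2 := by
  have hu := abs_nonneg u
  have hv := abs_nonneg v
  have e1 : |b * (2 - b) * u ^ 2 / 2| ≤ b * (2 + b) * (|u| + |v|) ^ 2 := by
    have : |b * (2 - b) * u ^ 2 / 2| = b * |2 - b| * |u| ^ 2 / 2 := by
      rw [abs_div, abs_mul, abs_mul, abs_of_nonneg hb, abs_pow]; norm_num
    rw [this]
    have h1 : |2 - b| ≤ 2 + b := by rw [abs_le]; constructor <;> linarith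
    have h2 : b * |2 - b| ≤ b * (2 + b) := mul_le_mul_of_nonneg_left h1 hb
    have h3 : |u| ^ 2 ≤ (|u| + |v|) ^ 2 := by nlinarith
    have h4 : b * |2 - b| * |u| ^ 2 ≤ b * (2 + b) * (|u| + |v|) ^ 2 :=
      mul_le_mul h2 h3 (by positivity) (by positivity)
    have : 0 ≤ b * |2 - b| * |u| ^ 2 := by positivity
    linarith
  have e2 : |a * b * u * v| ≤ a * b * (|u| + |v|) ^ 2 := by
    have : |a * b * u * v| = a * b * (|u| * |v|) := by
      rw [abs_mul, abs_mul, abs_mul, abs_of_nonneg ha, abs_of_nonneg hb]; ring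
    rw [this]
    apply mul_le_mul_of_nonneg_left _ (mul_nonneg ha hb)
    nlinarith
  have e3 : |a * (2 - a) * v ^ 2 / 2| ≤ a * (2 + a) * (|u| + |v|) ^ 2 := by
    have : |a * (2 - a) * v ^ 2 / 2| = a * |2 - a| * |v| ^ 2 / 2 := by
      rw [abs_div, abs_mul, abs_mul, abs_of_nonneg ha, abs_pow]; norm_num
    rw [this]
    have h1 : |2 - a| ≤ 2 + a := by rw [abs_le]; constructor <;> linarith
    have h2 : a * |2 - a| ≤ a * (2 + a) := mul_le_mul_of_nonneg_left h1 ha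
    have h3 : |v| ^ 2 ≤ (|u| + |v|) ^ 2 := by nlinarith
    have h4 : a * |2 - a| * |v| ^ 2 ≤ a * (2 + a) * (|u| + |v|) ^ 2 :=
      mul_le_mul h2 h3 (by positivity) (by positivity)
    have : 0 ≤ a * |2 - a| * |v| ^ 2 := by positivity
    linarith
  unfold QE
  calc |b * (2 - b) * u ^ 2 / 2 - a * b * u * v + a * (2 - a) * v ^ 2 / 2| ≤
      |b * (2 - b) * u ^ 2 / 2 - a * b * u * v| + |a * (2 - a) * v ^ 2 / 2| := abs_add_le _ _
    _ ≤ |b * (2 - b) * u ^ 2 / 2| + |a * b * u * v| + |a * (2 - a) * v ^ 2 / 2| := by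
        gcongr; exact abs_sub _ _
    _ ≤ _ := by linarith

/-- for different parameters one of the two end slopes is not small -/
lemma slope_lower {a b : ℝ} (ha : 1 < a) (hb : 1 < b) (hab : a ≠ b) :
    ∃ c > 0, ∀ (U U' V V' : ℝ → ℝ) (L : ℝ), 0 ≤ L → OnI a b U U' V V' 0 L → U 0 = 0 → V 0 = 0 →
      U L = 1 → V L = 1 → c ≤ |U' 0| + |V' 0| ∨ c ≤ |U' L| + |V' L| := by
  set C : ℝ := b * (2 + b) + a * b + a * (2 + a) with hC
  have hC0 : 0 < C := by positivity
  set κ : ℝ := |a * (2 - a) - b * (2 - b)| / 6 with hκ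
  have hκ0 : 0 < κ := by
    have : a * (2 - a) - b * (2 - b) ≠ 0 := by
      intro h
      have : (b - a) * (a + b - 2) = 0 := by linarith
      rcases mul_eq_zero.1 this with h1 | h1
      · exact hab (by linarith)
      · linarith
    positivity
  refine ⟨Real.sqrt (κ / (4 * C)), Real.sqrt_pos.2 (by positivity), ?_⟩
  intro U U' V V' L hL S hU0 hV0 hUL hVL
  by_contra hcon
  push Not at hcon
  obtain ⟨h1, h2⟩ := hcon
  have e := S.first_integral hL
  unfold EE at e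
  rw [hU0, hV0, hUL, hVL] at e
  have e2 : QE a b (U' L) (V' L) - QE a b (U' 0) (V' 0) = (a * (2 - a) - b * (2 - b)) / 6 := by
    linarith
  have s1 : (|U' 0| + |V' 0|) ^ 2 ≤ κ / (4 * C) := by
    have := pow_le_pow_left₀ (by positivity) h1.le 2
    rwa [Real.sq_sqrt (by positivity)] at this
  have s2 : (|U' L| + |V' L|) ^ 2 ≤ κ / (4 * C) := by
    have := pow_le_pow_left₀ (by positivity) h2.le 2
    rwa [Real.sq_sqrt (by positivity)] at this
  have b1 := QE_bound (a := a) (b := b) (u := U' 0) (v := V' 0) (by linarith) (by linarith)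
  have b2 := QE_bound (a := a) (b := b) (u := U' L) (v := V' L) (by linarith) (by linarith)
  rw [← hC] at b1 b2
  have c1 : C * (|U' 0| + |V' 0|) ^ 2 ≤ κ / 4 := by
    have := mul_le_mul_of_nonneg_left s1 hC0.le
    have h3 : C * (κ / (4 * C)) = κ / 4 := by field_simp
    linarith
  have c2 : C * (|U' L| + |V' L|) ^ 2 ≤ κ / 4 := by
    have := mul_le_mul_of_nonneg_left s2 hC0.le
    have h3 : C * (κ / (4 * C)) = κ / 4 := by field_simp
    linarith
  have : κ ≤ κ / 4 + κ / 4 := by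
    calc κ = |QE a b (U' L) (V' L) - QE a b (U' 0) (V' 0)| := by
          rw [e2, abs_div]; norm_num [hκ]
      _ ≤ |QE a b (U' L) (V' L)| + |QE a b (U' 0) (V' 0)| := abs_sub _ _
      _ ≤ _ := by linarith
  linarith

end Pool.Agent.LV65
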