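import Pool.Agent.Lib.MP_e2b89c_an.Compare

/-!
The Duhamel series for the heat equation with zero Dirichlet data.
-/

namespace Pool.Agent.LV65

open MeasureTheory Set Filter Topology

lemma integral_cos_int {L : ℝ} (hL : 0 < L) (j : ℤ) :
    ∫ x in (0 : ℝ)..L, Real.cos ((j : ℝ) * Real.pi / L * x) = if j = 0 then L else 0 := by
  split_ifs with h
  · subst h; simp
  · set k : ℝ := (j : ℝ) * Real.pi / L with hk
    have hk0 : k ≠ 0 := by
      rw [hk]
      have : (j : ℝ) ≠ 0 := by exact_mod_cast h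
      have := Real.pi_ne_zero
      positivity
    have hd : ∀ x ∈ uIcc 0 L, HasDerivAt (fun x => Real.sin (k * x) / k) (Real.cos (k * x)) x := by
      intro x _
      have h1 : HasDerivAt (fun x : ℝ => k * x) k x := by
        simpa using (hasDerivAt_id x).const_mul k
      have h2 := h1.sin.div_const k
      refine h2.congr_deriv ?_
      field_simp
    rw [intervalIntegral.integral_eq_sub_of_hasDerivAt hd
      ((Real.continuous_cos.comp (continuous_const.mul continuous_id)).intervalIntegrable _ _)]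
    have : k * L = (j : ℝ) * Real.pi := by rw [hk]; field_simp
    rw [this, Real.sin_int_mul_pi]
    simp

lemma sn_orth {L : ℝ} (hL : 0 < L) (n m : ℕ) :
    ∫ x in (0 : ℝ)..L, sn L n x * sn L m x = if n = m then L / 2 else 0 := by
  have h1 : ∀ x, sn L n x * sn L m x = (1 / 2) *
      (Real.cos (((((n : ℤ) - (m : ℤ) : ℤ)) : ℝ) * Real.pi / L * x) -
        Real.cos (((((n : ℤ) + (m : ℤ) + 2 : ℤ)) : ℝ) * Real.pi / L * x)) := by
    intro x
    have e1 : ((((n : ℤ) - (m : ℤ) : ℤ)) : ℝ) * Real.pi / L * x = wn L n * x - wn L m * x := by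
      unfold wn; push_cast; ring
    have e2 : ((((n : ℤ) + (m : ℤ) + 2 : ℤ)) : ℝ) * Real.pi / L * x = wn L n * x + wn L m * x := by
      unfold wn; push_cast; ring
    rw [e1, e2, Real.cos_sub, Real.cos_add]
    unfold sn
    ring
  simp_rw [h1]
  have hc : ∀ j : ℤ, IntervalIntegrable (fun x => Real.cos ((j : ℝ) * Real.pi / L * x))
      volume 0 L := fun j =>
    (Real.continuous_cos.comp (continuous_const.mul continuous_id)).intervalIntegrable _ _
  rw [intervalIntegral.integral_const_mul, intervalIntegral.integral_sub (hc _) (hc _),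
    integral_cos_int hL, integral_cos_int hL]
  have h2 : ¬ ((n : ℤ) + (m : ℤ) + 2 = 0) := by omega
  rw [if_neg h2]
  by_cases h : n = m
  · subst h; simp; ring
  · have h3 : ¬ ((n : ℤ) - (m : ℤ) = 0) := by omega
    rw [if_neg h3, if_neg h]; simp

/-- amplitude of the n-th mode -/
noncomputable def amp (L lam : ℝ) (w0 : ℝ → ℝ) (F : ℝ → ℝ → ℝ) (n : ℕ) (t : ℝ) : ℝ :=
  Real.exp (-((wn L n) ^ 2 + lam) * t) *
    (coef L n w0 + ∫ s in (0 : ℝ)..t, Real.exp (((wn L n) ^ 2 + lam) * s) * coef L n (F s))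

noncomputable def heatSum (L lam : ℝ) (w0 : ℝ → ℝ) (F : ℝ → ℝ → ℝ) (t x : ℝ) : ℝ :=
  (2 / L) * ∑' n, amp L lam w0 F n t * sn L n x

noncomputable def heatOp (L lam : ℝ) (w0 : ℝ → ℝ) (F : ℝ → ℝ → ℝ) (t x : ℝ) : ℝ :=
  if 0 < t then heatSum L lam w0 F t x else w0 x

lemma amp_zero (L lam : ℝ) (w0 : ℝ → ℝ) (F : ℝ → ℝ → ℝ) (n : ℕ) :
    amp L lam w0 F n 0 = coef L n w0 := by simp [amp]

lemma expcoef_int {L : ℝ} (hL : 0 < L) {F : ℝ → ℝ → ℝ} (hF : BM L F) (n : ℕ) (r : ℝ) {t : ℝ}
    (ht : 0 ≤ t) :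
    IntervalIntegrable (fun s => Real.exp (r * s) * coef L n (F s)) volume 0 t := by
  apply IntervalIntegrable.continuousOn_mul
  · exact (hF.coef hL n).intervalIntegrable ht
  · fun_prop

lemma amp_bound {L lam : ℝ} (hL : 0 < L) (hlam : 0 ≤ lam) {w0 : ℝ → ℝ} {F : ℝ → ℝ → ℝ}
    {C0 CF t : ℝ} (ht : 0 < t) (h0 : ∀ x ∈ Icc 0 L, |w0 x| ≤ C0)
    (hCF : ∀ s ∈ Icc 0 t, ∀ x ∈ Icc 0 L, |F s x| ≤ CF) (n : ℕ) :
    |amp L lam w0 F n t| ≤ (C0 * L / t + CF * L) * (1 / (wn L n) ^ 2) := by
  set μ : ℝ := (wn L n) ^ 2 + lam with hμ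
  have hw := wn_pos hL n
  have hμ0 : 0 < μ := by positivity
  have hC0 : 0 ≤ C0 := le_trans (abs_nonneg _) (h0 0 ⟨le_rfl, hL.le⟩)
  have hCF0 : 0 ≤ CF := le_trans (abs_nonneg _) (hCF 0 ⟨le_rfl, ht.le⟩ 0 ⟨le_rfl, hL.le⟩)
  have e1 : |coef L n w0| ≤ C0 * L := coef_abs_le hL n h0
  have e2 : |∫ s in (0 : ℝ)..t, Real.exp (μ * s) * coef L n (F s)| ≤
      CF * L * (Real.exp (μ * t) / μ) := by
    have h1 : |∫ s in (0 : ℝ)..t, Real.exp (μ * s) * coef L n (F s)| ≤
        ∫ s in (0 : ℝ)..t, Real.exp (μ * s) * (CF * L) := by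
      rw [← Real.norm_eq_abs]
      apply intervalIntegral.norm_integral_le_of_norm_le ht.le
      · refine Eventually.of_forall fun s hs => ?_
        rw [norm_mul, Real.norm_eq_abs, Real.norm_eq_abs, abs_of_pos (Real.exp_pos _)]
        exact mul_le_mul_of_nonneg_left (coef_abs_le hL n (hCF s ⟨hs.1.le, hs.2⟩))
          (Real.exp_pos _).le
      · apply Continuous.intervalIntegrable
        fun_prop
    refine h1.trans ?_
    have hd : ∀ s ∈ uIcc 0 t, HasDerivAt (fun s => Real.exp (μ * s) * (CF * L) / μ)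
        (Real.exp (μ * s) * (CF * L)) s := by
      intro s _
      have h1 : HasDerivAt (fun x : ℝ => μ * x) μ s := by
        simpa using (hasDerivAt_id s).const_mul μ
      have h2 := (h1.exp.mul_const (CF * L)).div_const μ
      refine h2.congr_deriv ?_
      field_simp
    rw [intervalIntegral.integral_eq_sub_of_hasDerivAt hd (by
      apply Continuous.intervalIntegrable; fun_prop)]
    have : 0 ≤ Real.exp (μ * 0) * (CF * L) / μ := by positivity
    calc _ ≤ Real.exp (μ * t) * (CF * L) / μ := by linarith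
      _ = _ := by ring
  have e3 : Real.exp (-μ * t) ≤ 1 / (μ * t) := by
    rw [neg_mul, Real.exp_neg, ← one_div]
    apply one_div_le_one_div_of_le (by positivity)
    have := Real.add_one_le_exp (μ * t)
    linarith
  have e4 : 1 / μ ≤ 1 / (wn L n) ^ 2 := by
    apply one_div_le_one_div_of_le (by positivity)
    rw [hμ]; linarith
  have e5 : Real.exp (-μ * t) * Real.exp (μ * t) = 1 := by
    rw [← Real.exp_add]; simp
  unfold amp
  rw [← hμ, abs_mul, abs_of_pos (Real.exp_pos _)]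
  calc Real.exp (-μ * t) * |coef L n w0 + ∫ s in (0 : ℝ)..t, Real.exp (μ * s) * coef L n (F s)|
      ≤ Real.exp (-μ * t) * (C0 * L + CF * L * (Real.exp (μ * t) / μ)) := by
        apply mul_le_mul_of_nonneg_left _ (Real.exp_pos _).le
        exact (abs_add_le _ _).trans (add_le_add e1 e2)
    _ = Real.exp (-μ * t) * (C0 * L) + CF * L * (1 / μ) *
        (Real.exp (-μ * t) * Real.exp (μ * t)) := by ring
    _ = Real.exp (-μ * t) * (C0 * L) + CF * L * (1 / μ) := by rw [e5, mul_one]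
    _ ≤ 1 / (μ * t) * (C0 * L) + CF * L * (1 / μ) := by
        have := mul_le_mul_of_nonneg_right e3 (show 0 ≤ C0 * L by positivity)
        linarith
    _ = (C0 * L / t + CF * L) * (1 / μ) := by field_simp
    _ ≤ _ := mul_le_mul_of_nonneg_left e4 (by positivity)

lemma summable_wn {L : ℝ} (hL : 0 < L) : Summable fun n : ℕ => 1 / (wn L n) ^ 2 := by
  have h1 : Summable fun n : ℕ => 1 / ((n : ℝ) + 1) ^ 2 := by
    have := (summable_nat_add_iff 1).2 (Real.summable_one_div_nat_pow.2 (one_lt_two))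
    simpa using this
  have h2 : (fun n : ℕ => 1 / (wn L n) ^ 2) = fun n : ℕ => (L / Real.pi) ^ 2 *
      (1 / ((n : ℝ) + 1) ^ 2) := by
    funext n
    unfold wn
    have := Real.pi_ne_zero
    have : ((n : ℝ) + 1) ≠ 0 := by positivity
    field_simp
  rw [h2]
  exact h1.mul_left _

lemma amp_continuousOn {L lam : ℝ} (hL : 0 < L) {w0 : ℝ → ℝ} {F : ℝ → ℝ → ℝ} (hF : BM L F)
    (n : ℕ) (T : ℝ) (hT : 0 ≤ T) : ContinuousOn (amp L lam w0 F n) (Icc 0 T) := by
  unfold amp
  apply ContinuousOn.mul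
  · fun_prop
  · apply ContinuousOn.add continuousOn_const
    have h := intervalIntegral.continuousOn_primitive_interval'
      (expcoef_int hL hF n ((wn L n) ^ 2 + lam) hT) (left_mem_uIcc)
    rwa [uIcc_of_le hT] at h

lemma heatSum_continuousAt {L lam : ℝ} (hL : 0 < L) (hlam : 0 ≤ lam) {w0 : ℝ → ℝ}
    {F : ℝ → ℝ → ℝ} (hw : BS L w0) (hF : BM L F) {t x : ℝ} (ht : 0 < t) :
    ContinuousAt (Function.uncurry (heatSum L lam w0 F)) (t, x) := by
  obtain ⟨C0, hC0⟩ := hw.bdd
  obtain ⟨CF, hCF⟩ := hF.bdd (t + 1)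
  have hC00 : 0 ≤ C0 := le_trans (abs_nonneg _) (hC0 0 ⟨le_rfl, hL.le⟩)
  have hc : ContinuousOn (Function.uncurry (heatSum L lam w0 F)) (Icc (t / 2) (t + 1) ×ˢ univ) := by
    unfold heatSum
    apply ContinuousOn.mul continuousOn_const
    refine continuousOn_tsum (u := fun n => (C0 * L / (t / 2) + CF * L) * (1 / (wn L n) ^ 2))
      ?_ ((summable_wn hL).mul_left _) ?_
    · intro n
      apply ContinuousOn.mul
      · apply (amp_continuousOn (lam := lam) (w0 := w0) hL hF n (t + 1) (by linarith)).comp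
          continuousOn_fst
        intro p hp
        exact ⟨by linarith [hp.1.1], hp.1.2⟩
      · exact ((continuous_sn L n).comp continuous_snd).continuousOn
    · intro n p hp
      have hp1 : 0 < p.1 := by linarith [hp.1.1]
      rw [norm_mul]
      have h1 := amp_bound hL hlam hp1 hC0 (fun s hs => hCF s ⟨hs.1, hs.2.trans hp.1.2⟩) n
      have h2 : ‖sn L n p.2‖ ≤ 1 := abs_sn_le_one _ _ _
      have h3 : (C0 * L / p.1 + CF * L) * (1 / (wn L n) ^ 2) ≤
          (C0 * L / (t / 2) + CF * L) * (1 / (wn L n) ^ 2) := by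
        apply mul_le_mul_of_nonneg_right _ (by positivity)
        have := div_le_div_of_nonneg_left (show 0 ≤ C0 * L by positivity) (by linarith) hp.1.1
        linarith
      calc ‖amp L lam w0 F n p.1‖ * ‖sn L n p.2‖ ≤ ‖amp L lam w0 F n p.1‖ * 1 :=
            mul_le_mul_of_nonneg_left h2 (norm_nonneg _)
        _ ≤ _ := by rw [mul_one]; exact h1.trans h3
  apply hc.continuousAt
  exact prod_mem_nhds (Icc_mem_nhds (by linarith) (by linarith)) univ_mem

lemma heatOp_measurable {L lam : ℝ} (hL : 0 < L) (hlam : 0 ≤ lam) {w0 : ℝ → ℝ}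
    {F : ℝ → ℝ → ℝ} (hw : BS L w0) (hF : BM L F) :
    Measurable (Function.uncurry (heatOp L lam w0 F)) := by
  classical
  have hset : MeasurableSet {p : ℝ × ℝ | 0 < p.1} := measurableSet_lt measurable_const measurable_fst
  have h0 : Measurable (Set.piecewise {p : ℝ × ℝ | 0 < p.1}
      (Function.uncurry (heatSum L lam w0 F)) (fun _ => 0)) := by
    apply ContinuousOn.measurable_piecewise
    · intro p hp
      exact (heatSum_continuousAt hL hlam hw hF (t := p.1) (x := p.2) hp).continuousWithinAt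
    · exact continuousOn_const
    · exact hset
  have h1 : Function.uncurry (heatOp L lam w0 F) = fun p => if 0 < p.1 then
      (Set.piecewise {p : ℝ × ℝ | 0 < p.1}
        (Function.uncurry (heatSum L lam w0 F)) (fun _ => 0)) p else w0 p.2 := by
    funext p
    by_cases hp : 0 < p.1
    · rw [Set.piecewise_eq_of_mem _ _ _ (by exact hp)]
      simp [Function.uncurry, heatOp, hp]
    · simp [Function.uncurry, heatOp, hp]
  rw [h1]
  exact Measurable.ite hset h0 (hw.meas.comp measurable_snd)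

lemma heatSum_continuous_x {L lam : ℝ} (hL : 0 < L) (hlam : 0 ≤ lam) {w0 : ℝ → ℝ}
    {F : ℝ → ℝ → ℝ} (hw : BS L w0) (hF : BM L F) {t : ℝ} (ht : 0 < t) :
    Continuous (heatSum L lam w0 F t) := by
  rw [continuous_iff_continuousAt]
  intro x
  have h1 := heatSum_continuousAt hL hlam hw hF (t := t) (x := x) ht
  have h2 : ContinuousAt (fun x : ℝ => (t, x)) x := by fun_prop
  exact ContinuousAt.comp (f := fun x : ℝ => (t, x)) h1 h2

lemma coef_heatSum {L lam : ℝ} (hL : 0 < L) (hlam : 0 ≤ lam) {w0 : ℝ → ℝ}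
    {F : ℝ → ℝ → ℝ} (hw : BS L w0) (hF : BM L F) {t : ℝ} (ht : 0 < t) (m : ℕ) :
    coef L m (heatSum L lam w0 F t) = amp L lam w0 F m t := by
  obtain ⟨C0, hC0⟩ := hw.bdd
  obtain ⟨CF, hCF⟩ := hF.bdd t
  have hb := fun n => amp_bound (lam := lam) hL hlam ht hC0 hCF n
  have hsum : ∀ x, Summable fun n => amp L lam w0 F n t * sn L n x := by
    intro x
    refine Summable.of_norm_bounded ((summable_wn hL).mul_left (C0 * L / t + CF * L)) ?_
    intro n
    rw [norm_mul]
    calc ‖amp L lam w0 F n t‖ * ‖sn L n x‖ ≤ ‖amp L lam w0 F n t‖ * 1 :=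
          mul_le_mul_of_nonneg_left (abs_sn_le_one _ _ _) (norm_nonneg _)
      _ ≤ _ := by rw [mul_one]; exact hb n
  have hS : HasSum (fun n => ∫ x in (0 : ℝ)..L, amp L lam w0 F n t * sn L n x * sn L m x)
      (∫ x in (0 : ℝ)..L, (∑' n, amp L lam w0 F n t * sn L n x) * sn L m x) := by
    apply intervalIntegral.hasSum_integral_of_dominated_convergence
      (bound := fun n _ => (C0 * L / t + CF * L) * (1 / (wn L n) ^ 2))
    · intro n
      apply Continuous.aestronglyMeasurable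
      exact (continuous_const.mul (continuous_sn L n)).mul (continuous_sn L m)
    · intro n
      refine Eventually.of_forall fun x _ => ?_
      rw [norm_mul, norm_mul]
      have h1 : ‖sn L n x‖ ≤ 1 := abs_sn_le_one _ _ _
      have h2 : ‖sn L m x‖ ≤ 1 := abs_sn_le_one _ _ _
      calc ‖amp L lam w0 F n t‖ * ‖sn L n x‖ * ‖sn L m x‖ ≤ ‖amp L lam w0 F n t‖ * 1 * 1 := by
            gcongr
        _ ≤ _ := by rw [mul_one, mul_one]; exact hb n
    · exact Eventually.of_forall fun x _ => (summable_wn hL).mul_left _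
    · exact intervalIntegrable_const
    · refine Eventually.of_forall fun x _ => ?_
      exact (hsum x).hasSum.mul_right _
  have h3 : ∀ n, ∫ x in (0 : ℝ)..L, amp L lam w0 F n t * sn L n x * sn L m x =
      if n = m then amp L lam w0 F m t * (L / 2) else 0 := by
    intro n
    have : ∀ x, amp L lam w0 F n t * sn L n x * sn L m x =
        amp L lam w0 F n t * (sn L n x * sn L m x) := fun x => by ring
    simp_rw [this]
    rw [intervalIntegral.integral_const_mul, sn_orth hL]
    split_ifs with h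
    · subst h; rfl
    · simp
  simp_rw [h3] at hS
  have h4 := hS.unique (hasSum_ite_eq m _)
  unfold coef heatSum
  have h5 : ∀ x, 2 / L * (∑' n, amp L lam w0 F n t * sn L n x) * sn L m x =
      2 / L * ((∑' n, amp L lam w0 F n t * sn L n x) * sn L m x) := fun x => by ring
  simp_rw [h5]
  rw [intervalIntegral.integral_const_mul, h4]
  field_simp

lemma coef_heatOp {L lam : ℝ} (hL : 0 < L) (hlam : 0 ≤ lam) {w0 : ℝ → ℝ}
    {F : ℝ → ℝ → ℝ} (hw : BS L w0) (hF : BM L F) {t : ℝ} (ht : 0 ≤ t) (m : ℕ) :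
    coef L m (heatOp L lam w0 F t) = amp L lam w0 F m t := by
  rcases ht.eq_or_lt with h | h
  · subst h
    rw [amp_zero]
    have : heatOp L lam w0 F 0 = w0 := by funext x; simp [heatOp]
    rw [this]
  · have : heatOp L lam w0 F t = heatSum L lam w0 F t := by funext x; simp [heatOp, h]
    rw [this, coef_heatSum hL hlam hw hF h]

/-- a.e. inequalities between continuous functions hold everywhere -/
lemma forall_of_ae {L : ℝ} (hL : 0 < L) {f : ℝ → ℝ} (hf : Continuous f)
    (h : ∀ᵐ x ∂(volume.restrict (Ioc 0 L)), 0 ≤ f x) : ∀ x ∈ Icc 0 L, 0 ≤ f x := by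
  have h1 : ∀ x ∈ Ioo 0 L, 0 ≤ f x := by
    intro x hx
    by_contra hneg
    push Not at hneg
    have hopen : IsOpen ({y | f y < 0} ∩ Ioo 0 L) :=
      (isOpen_lt hf continuous_const).inter isOpen_Ioo
    have hpos : 0 < volume ({y | f y < 0} ∩ Ioo 0 L) := hopen.measure_pos _ ⟨x, hneg, hx⟩
    have hz : volume ({y | f y < 0} ∩ Ioo 0 L) = 0 := by
      have h2 : (volume.restrict (Ioc 0 L)) {y | ¬ 0 ≤ f y} = 0 := h
      rw [Measure.restrict_apply' measurableSet_Ioc] at h2
      refine measure_mono_null ?_ h2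
      intro y hy
      exact ⟨not_le.2 hy.1, hy.2.1, hy.2.2.le⟩
    rw [hz] at hpos
    exact lt_irrefl _ hpos
  intro x hx
  have hcl : x ∈ closure (Ioo 0 L) := by
    rw [closure_Ioo hL.ne]; exact hx
  have := (isClosed_le continuous_const hf).closure_subset_iff.2 (fun y hy => h1 y hy) hcl
  exact this

lemma heatSum_upper {L lam : ℝ} (hL : 0 < L) (hlam : 0 ≤ lam) {w0 : ℝ → ℝ}
    {F : ℝ → ℝ → ℝ} (hw : BS L w0) (hF : BM L F) {C0 CF t : ℝ} (ht : 0 < t)
    (hC0 : ∀ x ∈ Icc 0 L, w0 x ≤ C0) (hCF : ∀ s ∈ Icc 0 t, ∀ x ∈ Icc 0 L, F s x ≤ CF)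
    (hC00 : 0 ≤ C0) (hCF0 : 0 ≤ CF) :
    ∀ x ∈ Icc 0 L, heatSum L lam w0 F t x ≤ C0 + CF * t := by
  have hκ : ∀ s : ℝ, HasDerivAt (fun s => C0 + CF * s) ((fun _ => CF) s) s := by
    intro s
    have : HasDerivAt (fun s : ℝ => CF * s) CF s := by
      simpa using (hasDerivAt_id s).const_mul CF
    exact this.const_add C0
  have S := Sol.const_space hL hκ continuous_const 0
  have hcont := heatSum_continuous_x (lam := lam) hL hlam hw hF ht
  have key := core_nonneg (L := L) (w0 := fun x => (C0 + CF * 0) - w0 x)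
    (w := fun x => (C0 + CF * t) - heatSum L lam w0 F t x)
    (F := fun s x => (CF + lam * (C0 + CF * s)) - F s x) (gl := fun s => C0 + CF * s)
    (gr := fun s => C0 + CF * s) (m := 0) (c := 0) (t := t) hL lam le_rfl ⟨le_rfl, hL.le⟩ ht.le
    ((BS.const L _).sub (BS.of_continuous hcont)) ((BS.const L _).sub hw)
    (((BM.const L CF).add ((BM.const L lam).mul (BM.of_time S.hgl))).sub hF) S.hgl S.hgr ?_ ?_ ?_
    ?_ ?_
  · intro x hx
    have h1 := forall_of_ae hL (f := fun x => (C0 + CF * t) - heatSum L lam w0 F t x)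
      (continuous_const.sub hcont) key x hx
    linarith
  · intro n
    rw [coef_sub hL n (BS.const L _) (BS.of_continuous hcont), coef_sub hL n (BS.const L _) hw,
      coef_heatSum hL hlam hw hF ht, mul_sub, S.duhamel hL lam n ht.le]
    have e1 : Real.exp (((wn L n) ^ 2 + lam) * t) * amp L lam w0 F n t = coef L n w0 +
        ∫ s in (0 : ℝ)..t, Real.exp (((wn L n) ^ 2 + lam) * s) * coef L n (F s) := by
      unfold amp
      rw [← mul_assoc, ← Real.exp_add,
        show ((wn L n) ^ 2 + lam) * t + -((wn L n) ^ 2 + lam) * t = 0 by ring, Real.exp_zero,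
        one_mul]
    rw [e1]
    have hi1 : IntervalIntegrable (fun s => Real.exp (((wn L n) ^ 2 + lam) * s) *
        (coef L n (fun _ => CF) + lam * coef L n (fun _ => C0 + CF * s) +
        wn L n * (C0 + CF * s - Real.cos (wn L n * L) * (C0 + CF * s)) + 0 * sn L n 0))
        volume 0 t := by
      apply IntervalIntegrable.continuousOn_mul
      · exact ((((BG.const _).add ((BG.const _).mul (S.hz.coef hL n))).add
          ((BG.const _).mul (S.hgl.sub ((BG.const _).mul S.hgr)))).add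
            (BG.const _)).intervalIntegrable ht.le
      · fun_prop
    have hi2 := expcoef_int hL hF n ((wn L n) ^ 2 + lam) ht.le
    have e2 := intervalIntegral.integral_sub hi1 hi2
    have e3 : (∫ s in (0 : ℝ)..t, Real.exp (((wn L n) ^ 2 + lam) * s) *
        (coef L n (fun x => CF + lam * (C0 + CF * s) - F s x) +
          wn L n * (C0 + CF * s - Real.cos (wn L n * L) * (C0 + CF * s)) + 0 * sn L n 0)) =
        ∫ s in (0 : ℝ)..t, (Real.exp (((wn L n) ^ 2 + lam) * s) *
        (coef L n (fun _ => CF) + lam * coef L n (fun _ => C0 + CF * s) +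
        wn L n * (C0 + CF * s - Real.cos (wn L n * L) * (C0 + CF * s)) + 0 * sn L n 0) -
        Real.exp (((wn L n) ^ 2 + lam) * s) * coef L n (F s)) := by
      apply intervalIntegral.integral_congr
      intro s hs
      rw [uIcc_of_le ht.le] at hs
      simp only []
      rw [coef_sub hL n (BS.const L _) (hF.bs hs.1), coef_add hL n (BS.const L _) (BS.const L _),
        coef_const_mul (L := L) n lam (fun _ => C0 + CF * s)]
      ring
    rw [e3, e2]
    ring
  · rw [ae_restrict_iff' measurableSet_Ioc]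
    refine Eventually.of_forall fun x hx => ?_
    have := hC0 x ⟨hx.1.le, hx.2⟩
    simp only [mul_zero, add_zero]; linarith
  · intro s hs
    rw [ae_restrict_iff' measurableSet_Ioc]
    refine Eventually.of_forall fun x hx => ?_
    have h1 := hCF s hs x ⟨hx.1.le, hx.2⟩
    have h2 : 0 ≤ lam * (C0 + CF * s) :=
      mul_nonneg hlam (add_nonneg hC00 (mul_nonneg hCF0 hs.1))
    linarith
  · intro s hs
    exact add_nonneg hC00 (mul_nonneg hCF0 hs.1)
  · intro s hs
    exact add_nonneg hC00 (mul_nonneg hCF0 hs.1)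

lemma coef_neg {L : ℝ} (n : ℕ) (f : ℝ → ℝ) : coef L n (fun x => -f x) = -coef L n f := by
  have := coef_const_mul (L := L) n (-1) f
  simpa using this

lemma heatSum_neg (L lam : ℝ) (w0 : ℝ → ℝ) (F : ℝ → ℝ → ℝ) (t x : ℝ) :
    heatSum L lam (fun x => -w0 x) (fun s x => -F s x) t x = -heatSum L lam w0 F t x := by
  have h1 : ∀ n, amp L lam (fun x => -w0 x) (fun s x => -F s x) n t = -amp L lam w0 F n t := by
    intro n
    unfold amp
    rw [coef_neg]
    have : ∀ s, Real.exp (((wn L n) ^ 2 + lam) * s) * coef L n (fun x => -F s x) =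
        -(Real.exp (((wn L n) ^ 2 + lam) * s) * coef L n (F s)) := by
      intro s
      rw [coef_neg]; ring
    simp_rw [this]
    rw [intervalIntegral.integral_neg]
    ring
  unfold heatSum
  simp_rw [h1, neg_mul]
  rw [tsum_neg]
  ring

lemma BS.neg {L : ℝ} {f : ℝ → ℝ} (hf : BS L f) : BS L (fun x => -f x) := by
  obtain ⟨C, hC⟩ := hf.bdd
  exact ⟨hf.meas.neg, C, fun x hx => by rw [abs_neg]; exact hC x hx⟩

lemma BM.neg {L : ℝ} {f : ℝ → ℝ → ℝ} (hf : BM L f) : BM L (fun s x => -f s x) := by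
  refine ⟨hf.meas.neg, fun T => ?_⟩
  obtain ⟨C, hC⟩ := hf.bdd T
  exact ⟨C, fun t ht x hx => by rw [abs_neg]; exact hC t ht x hx⟩

lemma heatSum_abs_le {L lam : ℝ} (hL : 0 < L) (hlam : 0 ≤ lam) {w0 : ℝ → ℝ}
    {F : ℝ → ℝ → ℝ} (hw : BS L w0) (hF : BM L F) {C0 CF t : ℝ} (ht : 0 < t)
    (hC0 : ∀ x ∈ Icc 0 L, |w0 x| ≤ C0) (hCF : ∀ s ∈ Icc 0 t, ∀ x ∈ Icc 0 L, |F s x| ≤ CF) :
    ∀ x ∈ Icc 0 L, |heatSum L lam w0 F t x| ≤ C0 + CF * t := by
  have hC00 : 0 ≤ C0 := le_trans (abs_nonneg _) (hC0 0 ⟨le_rfl, hL.le⟩)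
  have hCF0 : 0 ≤ CF := le_trans (abs_nonneg _) (hCF 0 ⟨le_rfl, ht.le⟩ 0 ⟨le_rfl, hL.le⟩)
  intro x hx
  rw [abs_le]
  constructor
  · have := heatSum_upper (lam := lam) hL hlam hw.neg hF.neg ht
      (fun y hy => (neg_le_abs _).trans (hC0 y hy))
      (fun s hs y hy => (neg_le_abs _).trans (hCF s hs y hy)) hC00 hCF0 x hx
    rw [heatSum_neg] at this
    linarith
  · exact heatSum_upper hL hlam hw hF ht (fun y hy => (le_abs_self _).trans (hC0 y hy))
      (fun s hs y hy => (le_abs_self _).trans (hCF s hs y hy)) hC00 hCF0 x hx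

lemma heatOp_BM {L lam : ℝ} (hL : 0 < L) (hlam : 0 ≤ lam) {w0 : ℝ → ℝ}
    {F : ℝ → ℝ → ℝ} (hw : BS L w0) (hF : BM L F) : BM L (heatOp L lam w0 F) := by
  refine ⟨heatOp_measurable hL hlam hw hF, fun T => ?_⟩
  obtain ⟨C0, hC0⟩ := hw.bdd
  obtain ⟨CF, hCF⟩ := hF.bdd (max T 0)
  have hC00 : 0 ≤ C0 := le_trans (abs_nonneg _) (hC0 0 ⟨le_rfl, hL.le⟩)
  have hCF0 : 0 ≤ CF := le_trans (abs_nonneg _)
    (hCF 0 ⟨le_rfl, le_max_right _ _⟩ 0 ⟨le_rfl, hL.le⟩)
  refine ⟨C0 + CF * max T 0, fun t ht x hx => ?_⟩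
  have htT : t ≤ max T 0 := ht.2.trans (le_max_left _ _)
  by_cases h : 0 < t
  · simp only [heatOp, h, if_true]
    have := heatSum_abs_le (lam := lam) hL hlam hw hF h hC0
      (fun s hs => hCF s ⟨hs.1, hs.2.trans htT⟩) x hx
    have h2 := mul_le_mul_of_nonneg_left htT hCF0
    linarith
  · simp only [heatOp, h, if_false]
    have h2 : 0 ≤ CF * max T 0 := mul_nonneg hCF0 (le_max_right _ _)
    linarith [hC0 x hx]

/-- the Duhamel series is a weak solution -/
lemma heatOp_sol {L lam : ℝ} (hL : 0 < L) (hlam : 0 ≤ lam) {w0 : ℝ → ℝ}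
    {F : ℝ → ℝ → ℝ} (hw : BS L w0) (hF : BM L F) (c : ℝ) :
    Sol L w0 (heatOp L lam w0 F) (fun s x => F s x - lam * heatOp L lam w0 F s x)
      (fun _ => 0) (fun _ => 0) 0 c where
  hz0 := hw
  hz := heatOp_BM hL hlam hw hF
  hF := hF.sub ((BM.const L lam).mul (heatOp_BM hL hlam hw hF))
  hgl := BG.const 0
  hgr := BG.const 0
  eq := by
    intro n t ht
    have hB := heatOp_BM hL hlam hw hF
    rw [coef_heatOp hL hlam hw hF ht]
    unfold amp
    rw [exp_mul_primitive _ _ (expcoef_int hL hF n _ ht)]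
    congr 1
    apply intervalIntegral.integral_congr
    intro s hs
    rw [uIcc_of_le ht] at hs
    simp only []
    rw [coef_sub hL n (hF.bs hs.1) (((BM.const L lam).mul hB).bs hs.1), coef_const_mul,
      coef_heatOp hL hlam hw hF hs.1]
    unfold amp
    have e : Real.exp (-((wn L n) ^ 2 + lam) * s) * Real.exp (((wn L n) ^ 2 + lam) * s) = 1 := by
      rw [← Real.exp_add,
        show -((wn L n) ^ 2 + lam) * s + ((wn L n) ^ 2 + lam) * s = 0 by ring, Real.exp_zero]
    linear_combination (coef L n (F s)) * e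

/-- dominated convergence for the Duhamel series -/
lemma heatSum_tendsto {L lam : ℝ} (hL : 0 < L) (hlam : 0 ≤ lam) {w0 : ℝ → ℝ}
    {F : ℝ → ℝ → ℝ} {Fk : ℕ → ℝ → ℝ → ℝ} (hw : BS L w0) (hF : BM L F) (hFk : ∀ k, BM L (Fk k))
    {t CF : ℝ} (ht : 0 < t) (hb : ∀ k, ∀ s ∈ Icc 0 t, ∀ x ∈ Icc 0 L, |Fk k s x| ≤ CF)
    (hlim : ∀ s ∈ Icc 0 t, ∀ x ∈ Icc 0 L, Tendsto (fun k => Fk k s x) atTop (𝓝 (F s x)))
    (x : ℝ) :
    Tendsto (fun k => heatSum L lam w0 (Fk k) t x) atTop (𝓝 (heatSum L lam w0 F t x)) := by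
  obtain ⟨C0, hC0⟩ := hw.bdd
  have hcoef : ∀ n, ∀ s ∈ Icc 0 t, Tendsto (fun k => coef L n (Fk k s)) atTop
      (𝓝 (coef L n (F s))) := by
    intro n s hs
    unfold coef
    apply intervalIntegral.tendsto_integral_filter_of_dominated_convergence (fun _ => CF)
    · refine Eventually.of_forall fun k => ?_
      exact (((hFk k).bs hs.1).meas.mul (continuous_sn L n).measurable).aestronglyMeasurable
    · refine Eventually.of_forall fun k => Eventually.of_forall fun y hy => ?_
      rw [uIoc_of_le hL.le] at hy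
      rw [norm_mul]
      have h1 := hb k s hs y ⟨hy.1.le, hy.2⟩
      have hCF0 : 0 ≤ CF := (abs_nonneg _).trans h1
      have := mul_le_mul h1 (abs_sn_le_one L n y) (abs_nonneg _) hCF0
      simpa using this
    · exact intervalIntegrable_const
    · refine Eventually.of_forall fun y hy => ?_
      rw [uIoc_of_le hL.le] at hy
      exact (hlim s hs y ⟨hy.1.le, hy.2⟩).mul_const _
  have hamp : ∀ n, Tendsto (fun k => amp L lam w0 (Fk k) n t) atTop (𝓝 (amp L lam w0 F n t)) := by
    intro n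
    unfold amp
    apply Tendsto.const_mul
    apply Tendsto.const_add
    apply intervalIntegral.tendsto_integral_filter_of_dominated_convergence
      (fun s => Real.exp (((wn L n) ^ 2 + lam) * s) * (CF * L))
    · refine Eventually.of_forall fun k => ?_
      apply Measurable.aestronglyMeasurable
      apply Measurable.mul (by fun_prop) ((hFk k).coef hL n).meas
    · refine Eventually.of_forall fun k => Eventually.of_forall fun s hs => ?_
      rw [uIoc_of_le ht.le] at hs
      rw [norm_mul, Real.norm_eq_abs, Real.norm_eq_abs, abs_of_pos (Real.exp_pos _)]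
      exact mul_le_mul_of_nonneg_left (coef_abs_le hL n (hb k s ⟨hs.1.le, hs.2⟩))
        (Real.exp_pos _).le
    · apply Continuous.intervalIntegrable
      fun_prop
    · refine Eventually.of_forall fun s hs => ?_
      rw [uIoc_of_le ht.le] at hs
      exact (hcoef n s ⟨hs.1.le, hs.2⟩).const_mul _
  unfold heatSum
  apply Tendsto.const_mul
  refine tendsto_tsum_of_dominated_convergence
    (bound := fun n => (C0 * L / t + CF * L) * (1 / (wn L n) ^ 2))
    ((summable_wn hL).mul_left _) (fun n => (hamp n).mul_const _) ?_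
  refine Eventually.of_forall fun k n => ?_
  rw [norm_mul]
  calc ‖amp L lam w0 (Fk k) n t‖ * ‖sn L n x‖ ≤ ‖amp L lam w0 (Fk k) n t‖ * 1 :=
        mul_le_mul_of_nonneg_left (abs_sn_le_one _ _ _) (norm_nonneg _)
    _ ≤ _ := by rw [mul_one]; exact amp_bound hL hlam ht hC0 (hb k) n

end Pool.Agent.LV65
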