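import Mathlib

/-!
Sine modes on an interval `[0,L]`, and the totality of the nonnegative sine polynomials.
-/

namespace Pool.Agent.LV65

open MeasureTheory Set Filter Topology

/-- wave numbers -/
noncomputable def wn (L : ℝ) (n : ℕ) : ℝ := ((n : ℝ) + 1) * Real.pi / L

/-- the sine modes -/
noncomputable def sn (L : ℝ) (n : ℕ) (x : ℝ) : ℝ := Real.sin (wn L n * x)

/-- sine coefficients (not normalised) -/
noncomputable def coef (L : ℝ) (n : ℕ) (g : ℝ → ℝ) : ℝ := ∫ x in (0 : ℝ)..L, g x * sn L n x

lemma wn_pos {L : ℝ} (hL : 0 < L) (n : ℕ) : 0 < wn L n := by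
  unfold wn; positivity

lemma wn_mul_L {L : ℝ} (hL : 0 < L) (n : ℕ) : wn L n * L = ((n : ℝ) + 1) * Real.pi := by
  unfold wn; field_simp

lemma sn_zero (L : ℝ) (n : ℕ) : sn L n 0 = 0 := by simp [sn]

lemma sn_L {L : ℝ} (hL : 0 < L) (n : ℕ) : sn L n L = 0 := by
  rw [sn, wn_mul_L hL]
  have := Real.sin_nat_mul_pi (n + 1)
  push_cast at this
  exact this

lemma abs_sn_le_one (L : ℝ) (n : ℕ) (x : ℝ) : |sn L n x| ≤ 1 := Real.abs_sin_le_one _

lemma continuous_sn (L : ℝ) (n : ℕ) : Continuous (sn L n) := by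
  unfold sn; fun_prop

lemma hasDerivAt_sn (L : ℝ) (n : ℕ) (x : ℝ) :
    HasDerivAt (sn L n) (wn L n * Real.cos (wn L n * x)) x := by
  have h : HasDerivAt (fun x : ℝ => wn L n * x) (wn L n) x := by
    simpa using (hasDerivAt_id x).const_mul (wn L n)
  have := h.sin
  unfold sn
  convert this using 1
  ring

lemma hasDerivAt_cos_wn (L : ℝ) (n : ℕ) (x : ℝ) :
    HasDerivAt (fun x => wn L n * Real.cos (wn L n * x)) (-(wn L n) ^ 2 * sn L n x) x := by
  have h : HasDerivAt (fun x : ℝ => wn L n * x) (wn L n) x := by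
    simpa using (hasDerivAt_id x).const_mul (wn L n)
  have := (h.cos).const_mul (wn L n)
  have e : -(wn L n) ^ 2 * sn L n x = wn L n * (-Real.sin (wn L n * x) * wn L n) := by
    unfold sn; ring
  rw [e]
  exact this

lemma cos_wn_L {L : ℝ} (hL : 0 < L) (n : ℕ) : Real.cos (wn L n * L) = (-1) ^ (n + 1) := by
  rw [wn_mul_L hL]
  have := Real.cos_nat_mul_pi (n + 1)
  push_cast at this
  exact this

lemma sn0_pos {L : ℝ} (hL : 0 < L) {x : ℝ} (hx : x ∈ Ioo 0 L) : 0 < sn L 0 x := by
  unfold sn
  apply Real.sin_pos_of_pos_of_lt_pi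
  · exact mul_pos (wn_pos hL 0) hx.1
  · have : wn L 0 * L = Real.pi := by rw [wn_mul_L hL]; simp
    rw [← this]
    exact mul_lt_mul_of_pos_left hx.2 (wn_pos hL 0)

lemma sn0_nonneg {L : ℝ} (hL : 0 < L) {x : ℝ} (hx : x ∈ Icc 0 L) : 0 ≤ sn L 0 x := by
  unfold sn
  apply Real.sin_nonneg_of_nonneg_of_le_pi
  · exact mul_nonneg (wn_pos hL 0).le hx.1
  · have : wn L 0 * L = Real.pi := by rw [wn_mul_L hL]; simp
    rw [← this]
    exact mul_le_mul_of_nonneg_left hx.2 (wn_pos hL 0).le

/-- the space of sine polynomials -/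
noncomputable def sineSpan (L : ℝ) : Submodule ℝ (ℝ → ℝ) := Submodule.span ℝ (range (sn L))

lemma sineSpan_mul_cos (L : ℝ) {g : ℝ → ℝ} (hg : g ∈ sineSpan L) :
    (fun x => g x * Real.cos (wn L 0 * x)) ∈ sineSpan L := by
  unfold sineSpan at hg ⊢
  induction hg using Submodule.span_induction with
  | mem g hg =>
    obtain ⟨n, rfl⟩ := hg
    have key : (fun x => sn L n x * Real.cos (wn L 0 * x)) =
        (1 / 2 : ℝ) • sn L (n + 1) + (if n = 0 then 0 else (1 / 2 : ℝ) • sn L (n - 1)) := by
      funext x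
      have e1 : sn L (n + 1) x = Real.sin (wn L n * x) * Real.cos (wn L 0 * x)
          + Real.cos (wn L n * x) * Real.sin (wn L 0 * x) := by
        rw [← Real.sin_add, sn]
        congr 1
        simp only [wn]; push_cast; ring
      rcases Nat.eq_zero_or_pos n with h0 | h0
      · subst h0
        simp only [if_true, Pi.add_apply, Pi.smul_apply, smul_eq_mul, Pi.zero_apply]
        rw [e1]
        simp only [sn]
        ring
      · have hn : n ≠ 0 := by omega
        obtain ⟨m, rfl⟩ := Nat.exists_eq_succ_of_ne_zero hn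
        simp only [hn, if_false, Pi.add_apply, Pi.smul_apply, smul_eq_mul]
        rw [e1]
        have e2 : sn L (m.succ - 1) x = Real.sin (wn L m.succ * x) * Real.cos (wn L 0 * x)
            - Real.cos (wn L m.succ * x) * Real.sin (wn L 0 * x) := by
          rw [← Real.sin_sub, sn]
          congr 1
          simp only [wn, Nat.succ_eq_add_one, Nat.add_sub_cancel]; push_cast; ring
        rw [e2]
        simp only [sn]
        ring
    rw [key]
    refine Submodule.add_mem _ (Submodule.smul_mem _ _ (Submodule.subset_span ⟨_, rfl⟩)) ?_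
    split_ifs
    · exact Submodule.zero_mem _
    · exact Submodule.smul_mem _ _ (Submodule.subset_span ⟨_, rfl⟩)
  | zero =>
    have : (fun x => (0 : ℝ → ℝ) x * Real.cos (wn L 0 * x)) = 0 := by funext x; simp
    rw [this]
    exact Submodule.zero_mem _
  | add g1 g2 _ _ h1 h2 =>
    convert Submodule.add_mem _ h1 h2 using 1
    funext x
    simp [add_mul]
  | smul r g _ h =>
    convert Submodule.smul_mem _ r h using 1
    funext x
    simp [mul_assoc]

lemma sineSpan_poly (L : ℝ) (p : Polynomial ℝ) :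
    (fun x => sn L 0 x * p.eval (Real.cos (wn L 0 * x))) ∈ sineSpan L := by
  induction p using Polynomial.induction_on' with
  | add p q hp hq =>
    convert Submodule.add_mem _ hp hq using 1
    funext x
    simp [mul_add]
  | monomial n a =>
    induction n with
    | zero =>
      have : (fun x => sn L 0 x * (Polynomial.monomial 0 a).eval (Real.cos (wn L 0 * x))) =
          a • sn L 0 := by
        funext x; simp [mul_comm]
      rw [this]
      exact Submodule.smul_mem _ _ (Submodule.subset_span ⟨_, rfl⟩)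
    | succ n ih =>
      have h2 := sineSpan_mul_cos L ih
      convert h2 using 1
      funext x
      simp only [Polynomial.eval_monomial]
      ring

lemma mem_sineSpan_iff (L : ℝ) {g : ℝ → ℝ} (hg : g ∈ sineSpan L) :
    ∃ (N : ℕ) (c : ℕ → ℝ), ∀ x, g x = ∑ n ∈ Finset.range N, c n * sn L n x := by
  unfold sineSpan at hg
  induction hg using Submodule.span_induction with
  | mem g hg =>
    obtain ⟨n, rfl⟩ := hg
    refine ⟨n + 1, fun m => if m = n then 1 else 0, fun x => ?_⟩
    simp
  | zero => exact ⟨0, fun _ => 0, fun x => by simp⟩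
  | add g1 g2 _ _ h1 h2 =>
    obtain ⟨N1, c1, h1⟩ := h1
    obtain ⟨N2, c2, h2⟩ := h2
    refine ⟨max N1 N2, fun n => (if n < N1 then c1 n else 0) + (if n < N2 then c2 n else 0),
      fun x => ?_⟩
    simp only [Pi.add_apply, add_mul, Finset.sum_add_distrib]
    rw [h1, h2]
    congr 1
    · rw [← Finset.sum_subset (Finset.range_mono (le_max_left N1 N2))]
      · refine Finset.sum_congr rfl fun n hn => ?_
        rw [if_pos (Finset.mem_range.1 hn)]
      · intro n _ hn
        rw [if_neg (by simpa using hn)]; simp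
    · rw [← Finset.sum_subset (Finset.range_mono (le_max_right N1 N2))]
      · refine Finset.sum_congr rfl fun n hn => ?_
        rw [if_pos (Finset.mem_range.1 hn)]
      · intro n _ hn
        rw [if_neg (by simpa using hn)]; simp
  | smul r g _ h =>
    obtain ⟨N, c, h⟩ := h
    refine ⟨N, fun n => r * c n, fun x => ?_⟩
    simp only [Pi.smul_apply, smul_eq_mul, h, Finset.mul_sum, mul_assoc]

end Pool.Agent.LV65
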