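import Pool.Agent.Lib.MP_e2b89c_an.Series

/-!
The competitive system in cooperative variables `z = y₁`, `w = 1 - y₂`: comparison.
-/

namespace Pool.Agent.LV65

open MeasureTheory Set Filter Topology

/-- reaction terms in the variables `z = y₁`, `w = 1 - y₂` -/
def G1 (a z w : ℝ) : ℝ := z * (1 - z - a * (1 - w))

def G2 (b z w : ℝ) : ℝ := (1 - w) * (b * z - w)

lemma G1_diff (a z w z' w' : ℝ) : G1 a z w - G1 a z' w' =
    (z - z') * (1 - a - z - z' + a * w) + a * z' * (w - w') := by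
  unfold G1; ring

lemma G2_diff (b z w z' w' : ℝ) : G2 b z w - G2 b z' w' =
    b * (1 - w) * (z - z') + (w - w') * (-(1 - w) - b * z' + w') := by
  unfold G2; ring

lemma G1_mono {a lam z w z' w' : ℝ} (ha : 0 ≤ a) (hlam : 1 + a ≤ lam) (hz : z ∈ Icc (0 : ℝ) 1)
    (hw : w ∈ Icc (0 : ℝ) 1) (hz' : z' ∈ Icc (0 : ℝ) 1) (h1 : z' ≤ z)
    (h2 : w' ≤ w) : G1 a z' w' + lam * z' ≤ G1 a z w + lam * z := by
  have := G1_diff a z w z' w'
  have e1 : 0 ≤ (z - z') * (1 - a - z - z' + a * w + lam) := by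
    apply mul_nonneg (by linarith)
    have := mul_nonneg ha hw.1
    linarith [hz.2, hz'.2]
  have e2 : 0 ≤ a * z' * (w - w') := mul_nonneg (mul_nonneg ha hz'.1) (by linarith)
  nlinarith

lemma G2_mono {b lam z w z' w' : ℝ} (hb : 0 ≤ b) (hlam : 1 + b ≤ lam) 
    (hw : w ∈ Icc (0 : ℝ) 1) (hz' : z' ∈ Icc (0 : ℝ) 1) (hw' : w' ∈ Icc (0 : ℝ) 1) (h1 : z' ≤ z)
    (h2 : w' ≤ w) : G2 b z' w' + lam * w' ≤ G2 b z w + lam * w := by
  have := G2_diff b z w z' w'
  have e1 : 0 ≤ (w - w') * (-(1 - w) - b * z' + w' + lam) := by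
    apply mul_nonneg (by linarith)
    have := mul_le_mul_of_nonneg_left hz'.2 hb
    linarith [hw.1, hw'.1]
  have e2 : 0 ≤ b * (1 - w) * (z - z') := mul_nonneg (mul_nonneg hb (by linarith [hw.2])) (by linarith)
  nlinarith

lemma quasi1 {a lam z w z' w' κ : ℝ} (ha : 0 ≤ a) (hlam : 1 + a ≤ lam) (hz : z ∈ Icc (0 : ℝ) 1)
    (hw : w ∈ Icc (0 : ℝ) 1) (hz' : z' ∈ Icc (0 : ℝ) 1) (hκ : 0 ≤ κ)
    (h1 : -κ ≤ z - z') (h2 : -κ ≤ w - w') :
    -((1 + lam + a) * κ) ≤ (G1 a z w - G1 a z' w') + lam * (z - z') := by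
  rw [G1_diff]
  have p0 : 0 ≤ 1 - a - z - z' + a * w + lam := by
    have := mul_nonneg ha hw.1
    linarith [hz.2, hz'.2]
  have p1 : 1 - a - z - z' + a * w + lam ≤ 1 + lam := by
    have := mul_le_mul_of_nonneg_left hw.2 ha
    linarith [hz.1, hz'.1]
  have e1 : -((1 + lam) * κ) ≤ (z - z') * (1 - a - z - z' + a * w + lam) := by
    have := mul_le_mul_of_nonneg_right h1 p0
    have := mul_le_mul_of_nonneg_right p1 hκ
    nlinarith
  have e2 : -(a * κ) ≤ a * z' * (w - w') := by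
    have q0 : 0 ≤ a * z' := mul_nonneg ha hz'.1
    have q1 : a * z' ≤ a := by
      have := mul_le_mul_of_nonneg_left hz'.2 ha
      linarith
    have := mul_le_mul_of_nonneg_left h2 q0
    have := mul_le_mul_of_nonneg_right q1 hκ
    nlinarith
  nlinarith

lemma quasi2 {b lam z w z' w' κ : ℝ} (hb : 0 ≤ b) (hlam : 1 + b ≤ lam)
    (hw : w ∈ Icc (0 : ℝ) 1) (hz' : z' ∈ Icc (0 : ℝ) 1) (hw' : w' ∈ Icc (0 : ℝ) 1) (hκ : 0 ≤ κ)
    (h1 : -κ ≤ z - z') (h2 : -κ ≤ w - w') :
    -((1 + lam + b) * κ) ≤ (G2 b z w - G2 b z' w') + lam * (w - w') := by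
  rw [G2_diff]
  have p0 : 0 ≤ -(1 - w) - b * z' + w' + lam := by
    have := mul_le_mul_of_nonneg_left hz'.2 hb
    linarith [hw.1, hw'.1]
  have p1 : -(1 - w) - b * z' + w' + lam ≤ 1 + lam := by
    have := mul_nonneg hb hz'.1
    linarith [hw.2, hw'.2]
  have e1 : -((1 + lam) * κ) ≤ (w - w') * (-(1 - w) - b * z' + w' + lam) := by
    have := mul_le_mul_of_nonneg_right h2 p0
    have := mul_le_mul_of_nonneg_right p1 hκ
    nlinarith
  have e2 : -(b * κ) ≤ b * (1 - w) * (z - z') := by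
    have q0 : 0 ≤ b * (1 - w) := mul_nonneg hb (by linarith [hw.2])
    have q1 : b * (1 - w) ≤ b := by
      have := mul_le_mul_of_nonneg_left (show 1 - w ≤ 1 by linarith [hw.1]) hb
      linarith
    have := mul_le_mul_of_nonneg_left h1 q0
    have := mul_le_mul_of_nonneg_right q1 hκ
    nlinarith
  nlinarith

/-- comparison of a super- and a subsolution of the system -/
theorem sys_le {L : ℝ} (hL : 0 < L) {a b : ℝ} (ha : 0 ≤ a) (hb : 0 ≤ b)
    {z0 w0 z0' w0' : ℝ → ℝ} {z w F E z' w' F' E' : ℝ → ℝ → ℝ}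
    {gl gr hl hr gl' gr' hl' hr' : ℝ → ℝ} {m n m' n' c : ℝ}
    (S1 : Sol L z0 z F gl gr m c) (S2 : Sol L w0 w E hl hr n c)
    (S1' : Sol L z0' z' F' gl' gr' m' c) (S2' : Sol L w0' w' E' hl' hr' n' c)
    (hc : c ∈ Icc 0 L) (hm : m' ≤ m) (hn : n' ≤ n) {T : ℝ} (hT : 0 ≤ T)
    (i1 : ∀ᵐ x ∂(volume.restrict (Ioc 0 L)), z0' x ≤ z0 x)
    (i2 : ∀ᵐ x ∂(volume.restrict (Ioc 0 L)), w0' x ≤ w0 x)
    (bl1 : ∀ s ∈ Icc 0 T, gl' s ≤ gl s) (br1 : ∀ s ∈ Icc 0 T, gr' s ≤ gr s)
    (bl2 : ∀ s ∈ Icc 0 T, hl' s ≤ hl s) (br2 : ∀ s ∈ Icc 0 T, hr' s ≤ hr s)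
    (r : ∀ s ∈ Icc 0 T, ∀ᵐ x ∂(volume.restrict (Ioc 0 L)), z s x ∈ Icc (0 : ℝ) 1 ∧
      w s x ∈ Icc (0 : ℝ) 1 ∧ z' s x ∈ Icc (0 : ℝ) 1 ∧ w' s x ∈ Icc (0 : ℝ) 1)
    (f : ∀ s ∈ Icc 0 T, ∀ᵐ x ∂(volume.restrict (Ioc 0 L)), G1 a (z s x) (w s x) ≤ F s x ∧
      G2 b (z s x) (w s x) ≤ E s x ∧ F' s x ≤ G1 a (z' s x) (w' s x) ∧
      E' s x ≤ G2 b (z' s x) (w' s x)) :
    ∀ᵐ x ∂(volume.restrict (Ioc 0 L)), z' T x ≤ z T x ∧ w' T x ≤ w T x := by
  have key := compare hL (S1.sub hL S1') (S2.sub hL S2') (lam := 1 + a + b)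
    (K := 2 + 2 * a + 2 * b) (by linarith) (by linarith) hc (by linarith) (by linarith)
    (by filter_upwards [i1] with x hx; linarith) (by filter_upwards [i2] with x hx; linarith) hT
    (fun s hs => by linarith [bl1 s hs]) (fun s hs => by linarith [br1 s hs])
    (fun s hs => by linarith [bl2 s hs]) (fun s hs => by linarith [br2 s hs]) (by
    intro s hs
    filter_upwards [r s hs, f s hs] with x hr hf κ hκ h1 h2
    obtain ⟨r1, r2, r3, r4⟩ := hr
    obtain ⟨f1, f2, f3, f4⟩ := hf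
    have q1 := quasi1 (a := a) (lam := 1 + a + b) ha (by linarith) r1 r2 r3 hκ h1 h2
    have q2 := quasi2 (b := b) (lam := 1 + a + b) hb (by linarith) r2 r3 r4 hκ h1 h2
    have hbk := mul_nonneg hb hκ
    have hak := mul_nonneg ha hκ
    constructor
    · nlinarith
    · nlinarith)
  filter_upwards [key] with x hx
  constructor <;> linarith [hx.1, hx.2]

/-- integration by parts against a sine mode -/
lemma green_sn {L : ℝ} (n : ℕ) {u u' g : ℝ → ℝ} {c d : ℝ} (hcd : c ≤ d)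
    (hu : ∀ x ∈ Icc c d, HasDerivAt u (u' x) x) (hu' : ∀ x ∈ Icc c d, HasDerivAt u' (-g x) x)
    (hg : ContinuousOn g (Icc c d)) :
    (wn L n) ^ 2 * (∫ x in c..d, u x * sn L n x) - ∫ x in c..d, g x * sn L n x =
      (u' d * sn L n d - u d * (wn L n * Real.cos (wn L n * d))) -
      (u' c * sn L n c - u c * (wn L n * Real.cos (wn L n * c))) := by
  have huc : ContinuousOn u (Icc c d) := fun x hx => (hu x hx).continuousAt.continuousWithinAt
  have h1 : ∀ x ∈ uIcc c d, HasDerivAt (fun x => u' x * sn L n x -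
      u x * (wn L n * Real.cos (wn L n * x)))
      ((wn L n) ^ 2 * (u x * sn L n x) - g x * sn L n x) x := by
    intro x hx
    rw [uIcc_of_le hcd] at hx
    have e1 := (hu' x hx).fun_mul (hasDerivAt_sn L n x)
    have e2 := (hu x hx).fun_mul (hasDerivAt_cos_wn L n x)
    refine (e1.fun_sub e2).congr_deriv ?_
    ring
  have hi1 : IntervalIntegrable (fun x => u x * sn L n x) volume c d := by
    apply ContinuousOn.intervalIntegrable
    rw [uIcc_of_le hcd]
    exact huc.mul (continuous_sn L n).continuousOn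
  have hi2 : IntervalIntegrable (fun x => g x * sn L n x) volume c d := by
    apply ContinuousOn.intervalIntegrable
    rw [uIcc_of_le hcd]
    exact hg.mul (continuous_sn L n).continuousOn
  rw [← intervalIntegral.integral_eq_sub_of_hasDerivAt h1 ((hi1.const_mul _).sub hi2),
    intervalIntegral.integral_sub (hi1.const_mul _) hi2, intervalIntegral.integral_const_mul]

/-- a piecewise `C²` function as a stationary weak solution -/
lemma kinkSol {L : ℝ} (hL : 0 < L) {A A' gA B B' gB : ℝ → ℝ} {c : ℝ} (hc : c ∈ Icc 0 L)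
    (hA : ∀ x, HasDerivAt A (A' x) x) (hA' : ∀ x, HasDerivAt A' (-gA x) x) (hgA : Continuous gA)
    (hB : ∀ x, HasDerivAt B (B' x) x) (hB' : ∀ x, HasDerivAt B' (-gB x) x) (hgB : Continuous gB)
    (hAB : A c = B c) :
    Sol L (fun x => if x ≤ c then A x else B x) (fun _ x => if x ≤ c then A x else B x)
      (fun _ x => if x ≤ c then gA x else gB x) (fun _ => A 0) (fun _ => B L) (A' c - B' c) c := by
  have hAc : Continuous A := continuous_iff_continuousAt.2 fun x => (hA x).continuousAt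
  have hBc : Continuous B := continuous_iff_continuousAt.2 fun x => (hB x).continuousAt
  have hbs : ∀ {f g : ℝ → ℝ}, Continuous f → Continuous g →
      BS L (fun x => if x ≤ c then f x else g x) := by
    intro f g hf hg
    obtain ⟨C, hC⟩ := (BS.of_continuous (L := L) hf).bdd
    obtain ⟨D, hD⟩ := (BS.of_continuous (L := L) hg).bdd
    refine ⟨Measurable.ite measurableSet_Iic hf.measurable hg.measurable, max C D, ?_⟩
    intro x hx
    split_ifs
    · exact (hC x hx).trans (le_max_left _ _)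
    · exact (hD x hx).trans (le_max_right _ _)
  have hV := hbs hAc hBc
  have hg := hbs hgA hgB
  have hsplit : ∀ {f g : ℝ → ℝ} (n : ℕ), Continuous f → Continuous g →
      coef L n (fun x => if x ≤ c then f x else g x) =
        (∫ x in (0 : ℝ)..c, f x * sn L n x) + ∫ x in c..L, g x * sn L n x := by
    intro f g n hf hg
    unfold coef
    have hi := (hbs hf hg).int hL (continuous_sn L n)
    have hi1 : IntervalIntegrable (fun x => (if x ≤ c then f x else g x) * sn L n x) volume 0 c :=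
      hi.mono_set (by rw [uIcc_of_le hc.1, uIcc_of_le hL.le]; exact Icc_subset_Icc_right hc.2)
    have hi2 : IntervalIntegrable (fun x => (if x ≤ c then f x else g x) * sn L n x) volume c L :=
      hi.mono_set (by rw [uIcc_of_le hc.2, uIcc_of_le hL.le]; exact Icc_subset_Icc_left hc.1)
    rw [← intervalIntegral.integral_add_adjacent_intervals hi1 hi2]
    congr 1
    · apply intervalIntegral.integral_congr
      intro x hx
      rw [uIcc_of_le hc.1] at hx
      simp only [if_pos hx.2]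
    · apply intervalIntegral.integral_congr_ae
      refine Eventually.of_forall fun x hx => ?_
      rw [uIoc_of_le hc.2] at hx
      simp only [if_neg (not_le.2 hx.1)]
  refine ⟨hV, BM.of_space hV, BM.of_space hg, BG.const _, BG.const _, ?_⟩
  intro n t ht
  have e0 : -(wn L n) ^ 2 * coef L n (fun x => if x ≤ c then A x else B x) +
      coef L n (fun x => if x ≤ c then gA x else gB x) +
      wn L n * (A 0 - Real.cos (wn L n * L) * B L) + (A' c - B' c) * sn L n c = 0 := by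
    rw [hsplit n hAc hBc, hsplit n hgA hgB]
    have g1 := green_sn (L := L) n hc.1 (fun x _ => hA x) (fun x _ => hA' x) hgA.continuousOn
    have g2 := green_sn (L := L) n hc.2 (fun x _ => hB x) (fun x _ => hB' x) hgB.continuousOn
    rw [sn_zero, mul_zero (wn L n), Real.cos_zero, hAB] at g1
    rw [sn_L hL] at g2
    linear_combination (-1) * g1 - g2
  have e1 : (∫ s in (0 : ℝ)..t, (-(wn L n) ^ 2 * coef L n (fun x => if x ≤ c then A x else B x) +
      coef L n (fun x => if x ≤ c then gA x else gB x) +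
      wn L n * (A 0 - Real.cos (wn L n * L) * B L) + (A' c - B' c) * sn L n c)) = 0 := by
    rw [e0]; simp
  rw [e1, add_zero]

/-- a `C²` function as a stationary weak solution -/
lemma statSol {L : ℝ} (hL : 0 < L) {u u' g : ℝ → ℝ} {c : ℝ} (hc : c ∈ Icc 0 L)
    (hu : ∀ x, HasDerivAt u (u' x) x) (hu' : ∀ x, HasDerivAt u' (-g x) x) (hg : Continuous g) :
    Sol L u (fun _ => u) (fun _ => g) (fun _ => u 0) (fun _ => u L) 0 c := by
  have := kinkSol hL hc hu hu' hg hu hu' hg rfl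
  simpa using this

end Pool.Agent.LV65
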