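import Pool.Agent.Lib.MP_e2b89c_an.Exist

/-!
The flow from the top and its limit: the maximal stationary solution.
-/

namespace Pool.Agent.LV65

open MeasureTheory Set Filter Topology

/-- a continuous function with vanishing sine coefficients vanishes -/
lemma eq_zero_of_coef {L : ℝ} (hL : 0 < L) {f : ℝ → ℝ} (hf : Continuous f)
    (h : ∀ n, coef L n f = 0) : ∀ x ∈ Icc 0 L, f x = 0 := by
  have key : ∀ g : ℝ → ℝ, Continuous g → (∀ n, coef L n g = 0) → ∀ x ∈ Icc 0 L, 0 ≤ g x := by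
    intro g hg hgc
    have hb := BS.of_continuous (L := L) hg
    obtain ⟨C, hC⟩ := hb.bdd
    have hP : PolyPos L g := by
      intro N c _
      rw [integral_mul_sum hL hb]
      simp [hgc]
    exact forall_of_ae hL hg (hP.ae_nonneg hL hb.meas hC)
  intro x hx
  have h1 := key f hf h x hx
  have h2 := key (fun x => -f x) hf.neg (fun n => by rw [coef_neg, h n, neg_zero]) x hx
  linarith

/-- data of a stationary solution on `[0,L]` in cooperative variables -/
structure Stat (L a b : ℝ) (U U' g V V' h : ℝ → ℝ) : Prop where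
  dU : ∀ x, HasDerivAt U (U' x) x
  dU' : ∀ x, HasDerivAt U' (-g x) x
  dV : ∀ x, HasDerivAt V (V' x) x
  dV' : ∀ x, HasDerivAt V' (-h x) x
  cg : Continuous g
  ch : Continuous h
  eg : ∀ x ∈ Icc 0 L, g x = G1 a (U x) (V x)
  eh : ∀ x ∈ Icc 0 L, h x = G2 b (U x) (V x)
  range : ∀ x ∈ Icc 0 L, U x ∈ Icc (0 : ℝ) 1 ∧ V x ∈ Icc (0 : ℝ) 1

lemma Stat.cU {L a b : ℝ} {U U' g V V' h : ℝ → ℝ} (S : Stat L a b U U' g V V' h) :
    Continuous U := continuous_iff_continuousAt.2 fun x => (S.dU x).continuousAt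

lemma Stat.cV {L a b : ℝ} {U U' g V V' h : ℝ → ℝ} (S : Stat L a b U U' g V V' h) :
    Continuous V := continuous_iff_continuousAt.2 fun x => (S.dV x).continuousAt

/-- flows are ordered -/
lemma flow_le {L a b β : ℝ} (hL : 0 < L) (ha : 0 ≤ a) (hb : 0 ≤ b) {z0 w0 z0' w0' : ℝ → ℝ}
    {Z W Z' W' : ℝ → ℝ → ℝ} (F : IsFlow L a b β z0 w0 Z W) (F' : IsFlow L a b β z0' w0' Z' W')
    (h0 : ∀ x ∈ Icc 0 L, z0' x ≤ z0 x ∧ w0' x ≤ w0 x) {t : ℝ} (ht : 0 < t) :
    ∀ x ∈ Icc 0 L, Z' t x ≤ Z t x ∧ W' t x ≤ W t x := by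
  have hc : (0 : ℝ) ∈ Icc 0 L := ⟨le_rfl, hL.le⟩
  have key := sys_le hL ha hb (F.solZ 0 hc) (F.solW 0 hc) (F'.solZ 0 hc) (F'.solW 0 hc) hc le_rfl
    le_rfl ht.le (by
      rw [ae_restrict_iff' measurableSet_Ioc]
      exact Eventually.of_forall fun x hx => (h0 x ⟨hx.1.le, hx.2⟩).1) (by
      rw [ae_restrict_iff' measurableSet_Ioc]
      exact Eventually.of_forall fun x hx => (h0 x ⟨hx.1.le, hx.2⟩).2)
    (fun s _ => le_rfl) (fun s _ => le_rfl) (fun s _ => le_rfl) (fun s _ => le_rfl) (by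
      intro s hs
      rw [ae_restrict_iff' measurableSet_Ioc]
      refine Eventually.of_forall fun x hx => ?_
      have h1 := F.range s hs.1 x ⟨hx.1.le, hx.2⟩
      have h2 := F'.range s hs.1 x ⟨hx.1.le, hx.2⟩
      exact ⟨h1.1, h1.2, h2.1, h2.2⟩) (by
      intro s hs
      exact Eventually.of_forall fun x => ⟨le_rfl, le_rfl, le_rfl, le_rfl⟩)
  have k1 := forall_of_ae hL (f := fun x => Z t x - Z' t x) ((F.cont t ht).1.sub (F'.cont t ht).1)
    (by filter_upwards [key] with x hx; linarith [hx.1])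
  have k2 := forall_of_ae hL (f := fun x => W t x - W' t x) ((F.cont t ht).2.sub (F'.cont t ht).2)
    (by filter_upwards [key] with x hx; linarith [hx.2])
  intro x hx
  exact ⟨by linarith [k1 x hx], by linarith [k2 x hx]⟩

lemma top_anti {L a b β : ℝ} (hL : 0 < L) (ha : 0 ≤ a) (hb : 0 ≤ b)
    {Z W : ℝ → ℝ → ℝ} (F : IsFlow L a b β (fun _ => 1) (fun _ => 1) Z W) {s t : ℝ} (hs : 0 ≤ s)
    (hst : s ≤ t) : ∀ x ∈ Icc 0 L, Z t x ≤ Z s x ∧ W t x ≤ W s x := by
  have hc : (0 : ℝ) ∈ Icc 0 L := ⟨le_rfl, hL.le⟩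
  rcases hs.eq_or_lt with h | h
  · subst h
    intro x hx
    rw [F.Z0, F.W0]
    exact ⟨(F.range t hst x hx).1.2, (F.range t hst x hx).2.2⟩
  · set d := t - s with hd
    have hd0 : 0 ≤ d := by linarith
    have key := sys_le hL ha hb (F.solZ 0 hc) (F.solW 0 hc) ((F.solZ 0 hc).shift hL hd0)
      ((F.solW 0 hc).shift hL hd0) hc le_rfl le_rfl hs (by
        rw [ae_restrict_iff' measurableSet_Ioc]
        exact Eventually.of_forall fun x hx => (F.range d hd0 x ⟨hx.1.le, hx.2⟩).1.2) (by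
        rw [ae_restrict_iff' measurableSet_Ioc]
        exact Eventually.of_forall fun x hx => (F.range d hd0 x ⟨hx.1.le, hx.2⟩).2.2)
      (fun s _ => le_rfl) (fun s _ => le_rfl) (fun s _ => le_rfl) (fun s _ => le_rfl) (by
        intro r hr
        rw [ae_restrict_iff' measurableSet_Ioc]
        refine Eventually.of_forall fun x hx => ?_
        have h1 := F.range r hr.1 x ⟨hx.1.le, hx.2⟩
        have h2 := F.range (r + d) (by linarith [hr.1]) x ⟨hx.1.le, hx.2⟩
        exact ⟨h1.1, h1.2, h2.1, h2.2⟩) (by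
        intro r hr
        exact Eventually.of_forall fun x => ⟨le_rfl, le_rfl, le_rfl, le_rfl⟩)
    have hsd : s + d = t := by rw [hd]; ring
    have ht : 0 < t := by linarith
    simp only [hsd] at key
    have k1 := forall_of_ae hL (f := fun x => Z s x - Z t x) ((F.cont s h).1.sub (F.cont t ht).1)
      (by filter_upwards [key] with x hx; linarith [hx.1])
    have k2 := forall_of_ae hL (f := fun x => W s x - W t x) ((F.cont s h).2.sub (F.cont t ht).2)
      (by filter_upwards [key] with x hx; linarith [hx.2])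
    intro x hx
    exact ⟨by linarith [k1 x hx], by linarith [k2 x hx]⟩

/-- the limit of one component: continuity and identification of the coefficients -/
lemma limit_component {L β : ℝ} (hL : 0 < L) {Z : ℝ → ℝ → ℝ} {B : ℝ}
    (hB : ∀ t, 0 ≤ t → ∀ x ∈ Icc 0 L, Z t x ∈ Icc (0 : ℝ) 1)
    (hm : ∀ t, 0 ≤ t → Measurable (Z t))
    (ha : ∀ s t, 0 ≤ s → s ≤ t → ∀ x ∈ Icc 0 L, Z t x ≤ Z s x)
    (h1 : ∀ t, 1 ≤ t → ∀ x, Z t x = lift L β x + (2 / L) *
      ∑' n, (coef L n (Z t) - coef L n (lift L β)) * sn L n x)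
    (h2 : ∀ t, 1 ≤ t → ∀ n, |coef L n (Z t) - coef L n (lift L β)| ≤ B * (1 / (wn L n) ^ 2)) :
    ∃ F : ℝ → ℝ, Continuous F ∧ (∀ x ∈ Icc 0 L, Tendsto (fun t => Z t x) atTop (𝓝 (F x))) ∧
      F 0 = 0 ∧ F L = β := by
  -- limits along the reals
  have hlim : ∀ x ∈ Icc 0 L, ∃ l, Tendsto (fun t => Z t x) atTop (𝓝 l) := by
    intro x hx
    have hanti : Antitone fun t => Z (max t 0) x := by
      intro s t hst
      exact ha _ _ (le_max_right _ _) (max_le_max_right 0 hst) x hx
    have hbd : BddBelow (range fun t => Z (max t 0) x) :=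
      ⟨0, by rintro _ ⟨t, rfl⟩; exact (hB _ (le_max_right _ _) x hx).1⟩
    have := tendsto_atTop_ciInf hanti hbd
    refine ⟨_, this.congr' ?_⟩
    filter_upwards [eventually_ge_atTop 0] with t ht
    rw [max_eq_left ht]
  choose! l hl using hlim
  have hnat : ∀ x ∈ Icc 0 L, Tendsto (fun k : ℕ => Z ((k : ℝ) + 1) x) atTop (𝓝 (l x)) := by
    intro x hx
    exact (hl x hx).comp (tendsto_atTop_add_const_right _ _ tendsto_natCast_atTop_atTop)
  -- coefficients converge
  have hco : ∀ n, ∃ c, Tendsto (fun k : ℕ => coef L n (Z ((k : ℝ) + 1))) atTop (𝓝 c) := by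
    intro n
    refine ⟨∫ x in (0 : ℝ)..L, l x * sn L n x, ?_⟩
    unfold coef
    apply intervalIntegral.tendsto_integral_filter_of_dominated_convergence (fun _ => 1)
    · refine Eventually.of_forall fun k => ?_
      exact ((hm _ (by positivity)).mul (continuous_sn L n).measurable).aestronglyMeasurable
    · refine Eventually.of_forall fun k => Eventually.of_forall fun y hy => ?_
      rw [uIoc_of_le hL.le] at hy
      rw [norm_mul]
      have e1 := hB ((k : ℝ) + 1) (by positivity) y ⟨hy.1.le, hy.2⟩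
      have e2 : ‖Z ((k : ℝ) + 1) y‖ ≤ 1 := by
        rw [Real.norm_eq_abs, abs_of_nonneg e1.1]; exact e1.2
      have e3 : ‖sn L n y‖ ≤ 1 := abs_sn_le_one L n y
      calc ‖Z ((k : ℝ) + 1) y‖ * ‖sn L n y‖ ≤ 1 * 1 :=
            mul_le_mul e2 e3 (norm_nonneg _) zero_le_one
        _ = 1 := by ring
    · exact intervalIntegrable_const
    · refine Eventually.of_forall fun y hy => ?_
      rw [uIoc_of_le hL.le] at hy
      exact (hnat y ⟨hy.1.le, hy.2⟩).mul_const _
  choose c hc using hco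
  have hcb : ∀ n, |c n - coef L n (lift L β)| ≤ B * (1 / (wn L n) ^ 2) := by
    intro n
    have := ((hc n).sub_const (coef L n (lift L β))).abs
    exact le_of_tendsto' this fun k => h2 _ (by linarith [Nat.cast_nonneg (α := ℝ) k]) n
  set F : ℝ → ℝ := fun x => lift L β x + (2 / L) * ∑' n, (c n - coef L n (lift L β)) * sn L n x
    with hF
  have hFc : Continuous F := by
    apply (continuous_lift L β).add
    apply continuous_const.mul
    refine continuous_tsum (u := fun n => B * (1 / (wn L n) ^ 2))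
      (fun n => continuous_const.mul (continuous_sn L n)) ((summable_wn hL).mul_left _) ?_
    intro n x
    rw [norm_mul]
    calc ‖c n - coef L n (lift L β)‖ * ‖sn L n x‖ ≤ ‖c n - coef L n (lift L β)‖ * 1 :=
          mul_le_mul_of_nonneg_left (abs_sn_le_one _ _ _) (norm_nonneg _)
      _ ≤ _ := by rw [mul_one]; exact hcb n
  have hFl : ∀ x, Tendsto (fun k : ℕ => Z ((k : ℝ) + 1) x) atTop (𝓝 (F x)) := by
    intro x
    have h3 : (fun k : ℕ => Z ((k : ℝ) + 1) x) = fun k : ℕ => lift L β x + (2 / L) *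
      ∑' n, (coef L n (Z ((k : ℝ) + 1)) - coef L n (lift L β)) * sn L n x := by
      funext k
      exact h1 _ (by linarith [Nat.cast_nonneg (α := ℝ) k]) x
    rw [h3]
    apply Tendsto.const_add
    apply Tendsto.const_mul
    refine tendsto_tsum_of_dominated_convergence (bound := fun n => B * (1 / (wn L n) ^ 2))
      ((summable_wn hL).mul_left _) (fun n => ((hc n).sub_const _).mul_const _) ?_
    refine Eventually.of_forall fun k n => ?_
    rw [norm_mul]
    calc ‖coef L n (Z ((k : ℝ) + 1)) - coef L n (lift L β)‖ * ‖sn L n x‖ ≤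
        ‖coef L n (Z ((k : ℝ) + 1)) - coef L n (lift L β)‖ * 1 :=
          mul_le_mul_of_nonneg_left (abs_sn_le_one _ _ _) (norm_nonneg _)
      _ ≤ _ := by
        rw [mul_one]
        exact h2 _ (by linarith [Nat.cast_nonneg (α := ℝ) k]) n
  refine ⟨F, hFc, ?_, ?_, ?_⟩
  · intro x hx
    have : l x = F x := tendsto_nhds_unique (hnat x hx) (hFl x)
    rw [← this]
    exact hl x hx
  · simp [hF, lift_zero, sn_zero]
  · simp [hF, lift_L hL, sn_L hL]

lemma coef_tendsto {L : ℝ} (hL : 0 < L) (n : ℕ) {ι : Type*} {l : Filter ι} [l.IsCountablyGenerated]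
    {f : ι → ℝ → ℝ} {g : ℝ → ℝ} {C : ℝ} (hm : ∀ᶠ k in l, Measurable (f k))
    (hb : ∀ᶠ k in l, ∀ x ∈ Icc 0 L, |f k x| ≤ C)
    (h : ∀ x ∈ Icc 0 L, Tendsto (fun k => f k x) l (𝓝 (g x))) :
    Tendsto (fun k => coef L n (f k)) l (𝓝 (coef L n g)) := by
  unfold coef
  apply intervalIntegral.tendsto_integral_filter_of_dominated_convergence (fun _ => C)
  · filter_upwards [hm] with k hk
    exact (hk.mul (continuous_sn L n).measurable).aestronglyMeasurable
  · filter_upwards [hb] with k hk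
    refine Eventually.of_forall fun y hy => ?_
    rw [uIoc_of_le hL.le] at hy
    rw [norm_mul]
    have e1 := hk y ⟨hy.1.le, hy.2⟩
    have e3 : ‖sn L n y‖ ≤ 1 := abs_sn_le_one L n y
    have e0 : 0 ≤ C := (abs_nonneg _).trans e1
    calc ‖f k y‖ * ‖sn L n y‖ ≤ C * 1 := mul_le_mul e1 e3 (norm_nonneg _) e0
      _ = C := by ring
  · exact intervalIntegrable_const
  · refine Eventually.of_forall fun y hy => ?_
    rw [uIoc_of_le hL.le] at hy
    exact (h y ⟨hy.1.le, hy.2⟩).mul_const _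

/-- the two point boundary value problem -/
lemma bvp {L : ℝ} (hL : 0 < L) (β : ℝ) {g : ℝ → ℝ} (hg : Continuous g) :
    ∃ U U' : ℝ → ℝ, (∀ x, HasDerivAt U (U' x) x) ∧ (∀ x, HasDerivAt U' (-g x) x) ∧
      U 0 = 0 ∧ U L = β := by
  set P : ℝ → ℝ := fun x => ∫ s in (0 : ℝ)..x, g s with hP
  have hPd : ∀ x, HasDerivAt P (g x) x := fun x =>
    intervalIntegral.integral_hasDerivAt_right (hg.intervalIntegrable _ _)
      (hg.stronglyMeasurableAtFilter _ _) hg.continuousAt
  have hPc : Continuous P := continuous_iff_continuousAt.2 fun x => (hPd x).continuousAt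
  set Q : ℝ → ℝ := fun x => ∫ s in (0 : ℝ)..x, P s with hQ
  have hQd : ∀ x, HasDerivAt Q (P x) x := fun x =>
    intervalIntegral.integral_hasDerivAt_right (hPc.intervalIntegrable _ _)
      (hPc.stronglyMeasurableAtFilter _ _) hPc.continuousAt
  refine ⟨fun x => (β + Q L) / L * x - Q x, fun x => (β + Q L) / L - P x, ?_, ?_, ?_, ?_⟩
  · intro x
    have h1 : HasDerivAt (fun x : ℝ => (β + Q L) / L * x) ((β + Q L) / L) x := by
      simpa using (hasDerivAt_id x).const_mul ((β + Q L) / L)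
    exact h1.fun_sub (hQd x)
  · intro x
    exact (hPd x).const_sub _
  · simp [hQ]
  · field_simp
    ring

lemma stat_coef {L β : ℝ} (hL : 0 < L) {z0 : ℝ → ℝ} {Z F : ℝ → ℝ → ℝ}
    {c : ℝ} (S : Sol L z0 Z F (fun _ => 0) (fun _ => β) 0 c) {C : ℝ} {f g : ℝ → ℝ}
    (hZ : ∀ t, 0 ≤ t → ∀ x ∈ Icc 0 L, |Z t x| ≤ C) (hF : ∀ t, 0 ≤ t → ∀ x ∈ Icc 0 L, |F t x| ≤ C)
    (hf : ∀ x ∈ Icc 0 L, Tendsto (fun t => Z t x) atTop (𝓝 (f x)))
    (hg : ∀ x ∈ Icc 0 L, Tendsto (fun t => F t x) atTop (𝓝 (g x))) (n : ℕ) :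
    (wn L n) ^ 2 * coef L n f = coef L n g + wn L n * (0 - Real.cos (wn L n * L) * β) := by
  have hC0 : 0 ≤ C := (abs_nonneg _).trans (hZ 0 le_rfl 0 ⟨le_rfl, hL.le⟩)
  have e1 : ∀ k : ℕ, coef L n (Z (1 + k)) = coef L n (Z k) + ∫ s in (0 : ℝ)..1,
    (-(wn L n) ^ 2 * coef L n (Z (s + k)) + coef L n (F (s + k)) +
      wn L n * (0 - Real.cos (wn L n * L) * β) + 0 * sn L n c) :=
    fun k => (S.shift hL (Nat.cast_nonneg k)).eq n 1 zero_le_one
  have hshift : ∀ s : ℝ, Tendsto (fun k : ℕ => s + (k : ℝ)) atTop atTop := fun s =>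
    tendsto_atTop_add_const_left _ _ tendsto_natCast_atTop_atTop
  have t1 : ∀ s : ℝ, 0 ≤ s → Tendsto (fun k : ℕ => coef L n (Z (s + k))) atTop
      (𝓝 (coef L n f)) := by
    intro s hs
    refine coef_tendsto hL n (C := C) (Eventually.of_forall fun k => ?_)
      (Eventually.of_forall fun k => hZ _ (by positivity))
      fun x hx => (hf x hx).comp (hshift s)
    exact (S.hz.bs (t := s + k) (by positivity)).meas
  have t2 : ∀ s : ℝ, 0 ≤ s → Tendsto (fun k : ℕ => coef L n (F (s + k))) atTop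
      (𝓝 (coef L n g)) := by
    intro s hs
    refine coef_tendsto hL n (C := C) (Eventually.of_forall fun k => ?_)
      (Eventually.of_forall fun k => hF _ (by positivity))
      fun x hx => (hg x hx).comp (hshift s)
    exact (S.hF.bs (t := s + k) (by positivity)).meas
  have t3 : Tendsto (fun k : ℕ => ∫ s in (0 : ℝ)..1,
    (-(wn L n) ^ 2 * coef L n (Z (s + k)) + coef L n (F (s + k)) +
      wn L n * (0 - Real.cos (wn L n * L) * β) + 0 * sn L n c)) atTop
      (𝓝 (∫ s in (0 : ℝ)..1, (-(wn L n) ^ 2 * coef L n f + coef L n g +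
      wn L n * (0 - Real.cos (wn L n * L) * β) + 0 * sn L n c))) := by
    apply intervalIntegral.tendsto_integral_filter_of_dominated_convergence
      (fun _ => (wn L n) ^ 2 * (C * L) + C * L + |wn L n * (0 - Real.cos (wn L n * L) * β)|)
    · refine Eventually.of_forall fun k => ?_
      exact ((S.shift hL (Nat.cast_nonneg k)).rhs_bg hL n).meas.aestronglyMeasurable
    · refine Eventually.of_forall fun k => Eventually.of_forall fun s hs => ?_
      rw [uIoc_of_le zero_le_one] at hs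
      have hsk : 0 ≤ s + k := add_nonneg hs.1.le (Nat.cast_nonneg k)
      have b1 := coef_abs_le hL n (hZ _ hsk)
      have b2 := coef_abs_le hL n (hF _ hsk)
      rw [zero_mul, add_zero, Real.norm_eq_abs]
      refine (abs_add_le _ _).trans (add_le_add ((abs_add_le _ _).trans (add_le_add ?_ b2)) le_rfl)
      rw [abs_mul, abs_neg, abs_of_nonneg (sq_nonneg _)]
      exact mul_le_mul_of_nonneg_left b1 (sq_nonneg _)
    · exact intervalIntegrable_const
    · refine Eventually.of_forall fun s hs => ?_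
      rw [uIoc_of_le zero_le_one] at hs
      exact ((((t1 s hs.1.le).const_mul _).add (t2 s hs.1.le)).add_const _).add_const _
  have t4 := t1 1 zero_le_one
  have t5 : Tendsto (fun k : ℕ => coef L n (Z k)) atTop (𝓝 (coef L n f)) := by
    simpa using t1 0 le_rfl
  have t6 := t5.add t3
  simp_rw [← e1] at t6
  have t7 := tendsto_nhds_unique t4 t6
  simp only [intervalIntegral.integral_const] at t7
  simp only [smul_eq_mul] at t7
  linarith

/-- the limit of the flow from the top is a stationary solution -/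
theorem top_limit {L a b β : ℝ} (hL : 0 < L) (ha : 0 ≤ a) (hb : 0 ≤ b)
    {Z W : ℝ → ℝ → ℝ} (F : IsFlow L a b β (fun _ => 1) (fun _ => 1) Z W) :
    ∃ U U' g V V' h : ℝ → ℝ, Stat L a b U U' g V V' h ∧ U 0 = 0 ∧ V 0 = 0 ∧ U L = β ∧ V L = β ∧
      (∀ x ∈ Icc 0 L, Tendsto (fun t => Z t x) atTop (𝓝 (U x))) ∧
      (∀ x ∈ Icc 0 L, Tendsto (fun t => W t x) atTop (𝓝 (V x))) := by
  have hc : (0 : ℝ) ∈ Icc 0 L := ⟨le_rfl, hL.le⟩
  obtain ⟨B, hB⟩ := F.reg
  obtain ⟨f, hfc, hfl, hf0, hfL⟩ := limit_component (β := β) (B := B) hL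
    (fun t ht x hx => (F.range t ht x hx).1) (fun t ht => ((F.solZ 0 hc).hz.bs ht).meas)
    (fun s t hs hst x hx => (top_anti hL ha hb F hs hst x hx).1)
    (fun t ht => (hB t ht).1) (fun t ht => (hB t ht).2.2.1)
  obtain ⟨e, hec, hel, he0, heL⟩ := limit_component (β := β) (B := B) hL
    (fun t ht x hx => (F.range t ht x hx).2) (fun t ht => ((F.solW 0 hc).hz.bs ht).meas)
    (fun s t hs hst x hx => (top_anti hL ha hb F hs hst x hx).2)
    (fun t ht => (hB t ht).2.1) (fun t ht => (hB t ht).2.2.2)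
  have hfr : ∀ x ∈ Icc 0 L, f x ∈ Icc (0 : ℝ) 1 := fun x hx =>
    isClosed_Icc.mem_of_tendsto (hfl x hx) (by
      filter_upwards [eventually_ge_atTop 0] with t ht using (F.range t ht x hx).1)
  have her : ∀ x ∈ Icc 0 L, e x ∈ Icc (0 : ℝ) 1 := fun x hx =>
    isClosed_Icc.mem_of_tendsto (hel x hx) (by
      filter_upwards [eventually_ge_atTop 0] with t ht using (F.range t ht x hx).2)
  set lam : ℝ := 1 + a + b with hlam
  have hlam0 : 0 ≤ lam := by linarith
  have hG1b : ∀ z ∈ Icc (0 : ℝ) 1, ∀ w ∈ Icc (0 : ℝ) 1, |G1 a z w| ≤ 2 * lam + 1 := by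
    intro z hz w hw
    have := G1_range (lam := lam) ha (by linarith) hz hw
    have h2 := mul_le_mul_of_nonneg_left hz.2 hlam0
    have h3 := mul_nonneg hlam0 hz.1
    rw [abs_le]; constructor <;> linarith
  have hG2b : ∀ z ∈ Icc (0 : ℝ) 1, ∀ w ∈ Icc (0 : ℝ) 1, |G2 b z w| ≤ 2 * lam + 1 := by
    intro z hz w hw
    have := G2_range (lam := lam) hb (by linarith) hz hw
    have h2 := mul_le_mul_of_nonneg_left hw.2 hlam0
    have h3 := mul_nonneg hlam0 hw.1
    rw [abs_le]; constructor <;> linarith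
  have hG1c : Continuous fun p : ℝ × ℝ => G1 a p.1 p.2 := by unfold G1; fun_prop
  have hG2c : Continuous fun p : ℝ × ℝ => G2 b p.1 p.2 := by unfold G2; fun_prop
  have h1b : ∀ z ∈ Icc (0 : ℝ) 1, |z| ≤ 2 * lam + 1 := by
    intro z hz
    rw [abs_of_nonneg hz.1]; linarith [hz.2]
  have sc1 := stat_coef hL (F.solZ 0 hc) (C := 2 * lam + 1) (f := f)
    (g := fun x => G1 a (f x) (e x))
    (fun t ht x hx => h1b _ (F.range t ht x hx).1)
    (fun t ht x hx => hG1b _ (F.range t ht x hx).1 _ (F.range t ht x hx).2) hfl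
    (fun x hx => (hG1c.tendsto (f x, e x)).comp ((hfl x hx).prodMk_nhds (hel x hx)))
  have sc2 := stat_coef hL (F.solW 0 hc) (C := 2 * lam + 1) (f := e)
    (g := fun x => G2 b (f x) (e x))
    (fun t ht x hx => h1b _ (F.range t ht x hx).2)
    (fun t ht x hx => hG2b _ (F.range t ht x hx).1 _ (F.range t ht x hx).2) hel
    (fun x hx => (hG2c.tendsto (f x, e x)).comp ((hfl x hx).prodMk_nhds (hel x hx)))
  have hgc : Continuous fun x => G1 a (f x) (e x) := hG1c.comp (hfc.prodMk hec)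
  have hhc : Continuous fun x => G2 b (f x) (e x) := hG2c.comp (hfc.prodMk hec)
  obtain ⟨U, U', hU, hU', hU0, hUL⟩ := bvp hL β hgc
  obtain ⟨V, V', hV, hV', hV0, hVL⟩ := bvp hL β hhc
  have hUc : Continuous U := continuous_iff_continuousAt.2 fun x => (hU x).continuousAt
  have hVc : Continuous V := continuous_iff_continuousAt.2 fun x => (hV x).continuousAt
  have same : ∀ (u u' g f : ℝ → ℝ), (∀ x, HasDerivAt u (u' x) x) → (∀ x, HasDerivAt u' (-g x) x) →
      Continuous g → u 0 = 0 → u L = β → Continuous f → Continuous u →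
      (∀ n, (wn L n) ^ 2 * coef L n f = coef L n g +
        wn L n * (0 - Real.cos (wn L n * L) * β)) → ∀ x ∈ Icc 0 L, u x = f x := by
    intro u u' g f hu hu' hg hu0 huL hf huc hsc
    have hS := statSol hL hc hu hu' hg
    rw [hu0, huL] at hS
    have h2 : ∀ n, coef L n (fun x => u x - f x) = 0 := by
      intro n
      rw [coef_sub hL n (BS.of_continuous huc) (BS.of_continuous hf)]
      have h3 := hS.eq n 1 zero_le_one
      simp only [intervalIntegral.integral_const, smul_eq_mul] at h3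
      have h4 := hsc n
      have h5 : (wn L n) ^ 2 * (coef L n u - coef L n f) = 0 := by
        linarith
      have h6 : (wn L n) ^ 2 ≠ 0 := by
        have := wn_pos hL n
        positivity
      exact (mul_eq_zero.1 h5).resolve_left h6
    intro x hx
    have := eq_zero_of_coef hL (f := fun x => u x - f x) (huc.sub hf) h2 x hx
    linarith
  have eU := same U U' _ f hU hU' hgc hU0 hUL hfc hUc sc1
  have eV := same V V' _ e hV hV' hhc hV0 hVL hec hVc sc2
  refine ⟨U, U', _, V, V', _, ⟨hU, hU', hV, hV', hgc, hhc, ?_, ?_, ?_⟩, hU0, hV0, hUL, hVL, ?_, ?_⟩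
  · intro x hx
    simp only [eU x hx, eV x hx]
  · intro x hx
    simp only [eU x hx, eV x hx]
  · intro x hx
    rw [eU x hx, eV x hx]
    exact ⟨hfr x hx, her x hx⟩
  · intro x hx
    rw [eU x hx]
    exact hfl x hx
  · intro x hx
    rw [eV x hx]
    exact hel x hx

end Pool.Agent.LV65
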