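import Pool.Agent.Lib.MP_e2b89c_an.Sine

/-!
A bounded function which integrates nonnegatively against all nonnegative sine polynomials is
nonnegative almost everywhere.
-/

namespace Pool.Agent.LV65

open MeasureTheory Set Filter Topology

lemma intervalIntegrable_of_bdd {f : ℝ → ℝ} (hf : Measurable f) {a b C : ℝ}
    (h : ∀ x ∈ uIcc a b, |f x| ≤ C) : IntervalIntegrable f volume a b := by
  rw [intervalIntegrable_iff]
  apply Measure.integrableOn_of_bounded (M := C)
  · simp [uIoc]
  · exact hf.aestronglyMeasurable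
  · rw [ae_restrict_iff' measurableSet_uIoc]
    exact Eventually.of_forall fun x hx => h x (uIoc_subset_uIcc hx)

/-- `w` integrates nonnegatively against nonnegative sine polynomials -/
def PolyPos (L : ℝ) (w : ℝ → ℝ) : Prop :=
  ∀ (N : ℕ) (c : ℕ → ℝ), (∀ x ∈ Icc 0 L, 0 ≤ ∑ n ∈ Finset.range N, c n * sn L n x) →
    0 ≤ ∫ x in (0 : ℝ)..L, w x * ∑ n ∈ Finset.range N, c n * sn L n x

lemma PolyPos.cont {L : ℝ} (hL : 0 < L) {w : ℝ → ℝ} (hw : Measurable w) {C : ℝ}
    (hC : ∀ x ∈ Icc 0 L, |w x| ≤ C) (h : PolyPos L w) {g : ℝ → ℝ} (hg : Continuous g)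
    (g0 : ∀ x ∈ Icc 0 L, 0 ≤ g x) : 0 ≤ ∫ x in (0 : ℝ)..L, w x * (sn L 0 x * g x) := by
  have hC0 : 0 ≤ C := le_trans (abs_nonneg _) (hC 0 ⟨le_rfl, hL.le⟩)
  have hu : uIcc 0 L = Icc 0 L := uIcc_of_le hL.le
  refine le_of_forall_pos_le_add fun ε hε => ?_
  set δ : ℝ := ε / (2 * (C + 1) * L) with hδ
  have hδ0 : 0 < δ := by positivity
  set h1 : ℝ → ℝ := fun c => g (L / Real.pi * Real.arccos c) with hh1
  have h1c : ContinuousOn h1 (Icc (-1) 1) := by
    apply Continuous.continuousOn
    exact hg.comp (continuous_const.mul Real.continuous_arccos)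
  obtain ⟨p, hp⟩ := exists_polynomial_near_of_continuousOn (-1) 1 h1 h1c δ hδ0
  obtain ⟨N, c, hc⟩ := mem_sineSpan_iff L (sineSpan_poly L (p + Polynomial.C δ))
  have hwn : wn L 0 * L = Real.pi := by rw [wn_mul_L hL]; simp
  have hval : ∀ x ∈ Icc 0 L, h1 (Real.cos (wn L 0 * x)) = g x := by
    intro x hx
    simp only [hh1]
    rw [Real.arccos_cos (mul_nonneg (wn_pos hL 0).le hx.1)
      (by rw [← hwn]; exact mul_le_mul_of_nonneg_left hx.2 (wn_pos hL 0).le)]
    congr 1
    have : wn L 0 = Real.pi / L := by simp [wn]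
    rw [this]
    field_simp
  have hnear : ∀ x ∈ Icc 0 L, |p.eval (Real.cos (wn L 0 * x)) - g x| < δ := by
    intro x hx
    rw [← hval x hx]
    exact hp _ ⟨Real.neg_one_le_cos _, Real.cos_le_one _⟩
  have hP := h N c (by
    intro x hx
    rw [← hc x]
    apply mul_nonneg (sn0_nonneg hL hx)
    simp only [Polynomial.eval_add, Polynomial.eval_C]
    have := (abs_lt.1 (hnear x hx)).1
    have := g0 x hx
    linarith)
  have hcsum : Continuous fun x => ∑ n ∈ Finset.range N, c n * sn L n x := by
    apply continuous_finsetSum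
    intro n _
    exact continuous_const.mul (continuous_sn L n)
  have hcont2 : Continuous fun x => sn L 0 x * g x := (continuous_sn L 0).mul hg
  have hint : ∀ (f : ℝ → ℝ), Continuous f →
      IntervalIntegrable (fun x => w x * f x) volume 0 L := by
    intro f hf
    obtain ⟨M, hM⟩ := (isCompact_Icc (a := (0 : ℝ)) (b := L)).exists_bound_of_continuousOn
      hf.continuousOn
    apply intervalIntegrable_of_bdd (hw.mul hf.measurable) (C := C * M)
    intro x hx
    rw [hu] at hx
    rw [Pi.mul_apply, abs_mul]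
    exact mul_le_mul (hC x hx) (hM x hx) (abs_nonneg _) hC0
  have hdiff : |(∫ x in (0 : ℝ)..L, w x * ∑ n ∈ Finset.range N, c n * sn L n x) -
      ∫ x in (0 : ℝ)..L, w x * (sn L 0 x * g x)| ≤ ε := by
    rw [← intervalIntegral.integral_sub (hint _ hcsum) (hint _ hcont2), ← Real.norm_eq_abs]
    have : ‖∫ x in (0 : ℝ)..L, (w x * ∑ n ∈ Finset.range N, c n * sn L n x) -
        w x * (sn L 0 x * g x)‖ ≤ C * (2 * δ) * |L - 0| := by
      apply intervalIntegral.norm_integral_le_of_norm_le_const
      intro x hx
      have hx' : x ∈ Icc 0 L := by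
        rw [← hu]; exact uIoc_subset_uIcc hx
      rw [← mul_sub, ← hc x, ← mul_sub, Real.norm_eq_abs, abs_mul, abs_mul]
      have e1 : |sn L 0 x| ≤ 1 := abs_sn_le_one _ _ _
      have e2 : |(p + Polynomial.C δ).eval (Real.cos (wn L 0 * x)) - g x| ≤ 2 * δ := by
        simp only [Polynomial.eval_add, Polynomial.eval_C]
        have := hnear x hx'
        rw [abs_lt] at this
        rw [abs_le]
        constructor <;> linarith [this.1, this.2]
      have e3 := hC x hx'
      calc |w x| * (|sn L 0 x| * |(p + Polynomial.C δ).eval (Real.cos (wn L 0 * x)) - g x|)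
          ≤ C * (1 * (2 * δ)) := by
            apply mul_le_mul e3 _ (by positivity) hC0
            exact mul_le_mul e1 e2 (abs_nonneg _) zero_le_one
        _ = C * (2 * δ) := by ring
    refine this.trans ?_
    rw [sub_zero, abs_of_pos hL, hδ]
    have : C * (2 * (ε / (2 * (C + 1) * L))) * L = ε * (C / (C + 1)) := by
      field_simp
    rw [this]
    have : C / (C + 1) ≤ 1 := by
      rw [div_le_one (by linarith)]; linarith
    nlinarith
  have := (abs_le.1 hdiff).2
  linarith

theorem PolyPos.ae_nonneg {L : ℝ} (hL : 0 < L) {w : ℝ → ℝ} (hw : Measurable w) {C : ℝ}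
    (hC : ∀ x ∈ Icc 0 L, |w x| ≤ C) (h : PolyPos L w) :
    ∀ᵐ x ∂(volume.restrict (Ioc 0 L)), 0 ≤ w x := by
  have hC0 : 0 ≤ C := le_trans (abs_nonneg _) (hC 0 ⟨le_rfl, hL.le⟩)
  set μ : Measure ℝ := volume.restrict (Ioc 0 L) with hμ
  have hfin : IsFiniteMeasure μ := by
    rw [hμ]; infer_instance
  set v : ℝ → ℝ := fun x => w x * sn L 0 x with hv
  have hvm : Measurable v := hw.mul (continuous_sn L 0).measurable
  have hvb : ∀ᵐ x ∂μ, ‖v x‖ ≤ C := by
    rw [hμ, ae_restrict_iff' measurableSet_Ioc]
    refine Eventually.of_forall fun x hx => ?_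
    rw [Real.norm_eq_abs, hv]
    simp only [abs_mul]
    have := mul_le_mul (hC x ⟨hx.1.le, hx.2⟩) (abs_sn_le_one L 0 x) (abs_nonneg _) hC0
    linarith
  have hvi : Integrable v μ := Integrable.of_bound hvm.aestronglyMeasurable C hvb
  have hset : ∀ s, MeasurableSet s → μ s < ⊤ → 0 ≤ ∫ x in s, v x ∂μ := by
    intro s hs _
    rw [← integral_indicator hs]
    refine le_of_forall_pos_le_add fun ε hε => ?_
    have hind : Integrable (s.indicator (fun _ => (1 : ℝ))) μ :=
      (integrable_const 1).indicator hs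
    obtain ⟨g, hg, -⟩ := hind.exists_boundedContinuous_integral_sub_le
      (ε := ε / (C + 1)) (by positivity)
    set g' : ℝ → ℝ := fun x => max 0 (min (g x) 1) with hg'
    have g'c : Continuous g' := by
      simp only [hg']
      exact continuous_const.max (g.continuous.min continuous_const)
    have g'0 : ∀ x, 0 ≤ g' x := fun x => le_max_left _ _
    have g'1 : ∀ x, g' x ≤ 1 := fun x => max_le zero_le_one (min_le_right _ _)
    have hcl : ∀ x, |s.indicator (fun _ => (1 : ℝ)) x - g' x| ≤
        ‖s.indicator (fun _ => (1 : ℝ)) x - g x‖ := by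
      intro x
      rw [Real.norm_eq_abs]
      by_cases hx : x ∈ s
      · rw [indicator_of_mem hx]
        simp only [hg']
        rcases le_total (g x) 1 with h1 | h1
        · rw [min_eq_left h1]
          rcases le_total 0 (g x) with h2 | h2
          · rw [max_eq_right h2]
          · rw [max_eq_left h2, abs_of_nonneg, abs_of_nonneg] <;> linarith
        · rw [min_eq_right h1]; simp
      · rw [indicator_of_notMem hx]
        simp only [hg']
        rcases le_total (g x) 1 with h1 | h1
        · rw [min_eq_left h1]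
          rcases le_total 0 (g x) with h2 | h2
          · rw [max_eq_right h2]
          · rw [max_eq_left h2]; simp
        · rw [min_eq_right h1, max_eq_right zero_le_one, zero_sub, zero_sub, abs_neg, abs_neg,
            abs_one, abs_of_nonneg (by linarith)]
          exact h1
    have hcont := h.cont hL hw hC g'c (fun x _ => g'0 x)
    rw [intervalIntegral.integral_of_le hL.le] at hcont
    have hvg' : Integrable (fun x => v x * g' x) μ := by
      apply Integrable.of_bound (hvm.mul g'c.measurable).aestronglyMeasurable C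
      filter_upwards [hvb] with x hx
      rw [Pi.mul_apply, norm_mul, Real.norm_eq_abs (g' x), abs_of_nonneg (g'0 x)]
      have := mul_le_mul hx (g'1 x) (g'0 x) hC0
      linarith
    have e1 : ∫ x, v x * g' x ∂μ = ∫ x in Ioc 0 L, w x * (sn L 0 x * g' x) := by
      rw [hμ]
      refine integral_congr_ae (Eventually.of_forall fun x => ?_)
      simp only [hv]; ring
    have e2 : |(∫ x, s.indicator v x ∂μ) - ∫ x, v x * g' x ∂μ| ≤ ε := by
      rw [← integral_sub (hvi.indicator hs) hvg', ← Real.norm_eq_abs]
      have hle : ‖∫ x, (s.indicator v x - v x * g' x) ∂μ‖ ≤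
          ∫ x, C * ‖s.indicator (fun _ => (1 : ℝ)) x - g x‖ ∂μ := by
        apply norm_integral_le_of_norm_le
        · exact (Integrable.sub hind (g.integrable μ)).norm.const_mul C
        · filter_upwards [hvb] with x hx
          have : s.indicator v x - v x * g' x =
              v x * (s.indicator (fun _ => (1 : ℝ)) x - g' x) := by
            by_cases hxs : x ∈ s
            · simp [hxs]; ring
            · simp [hxs]
          rw [this, norm_mul]
          exact mul_le_mul hx (hcl x) (norm_nonneg _) hC0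
      refine hle.trans ?_
      rw [integral_const_mul]
      have := mul_le_mul_of_nonneg_left hg hC0
      refine this.trans ?_
      rw [mul_div_assoc', div_le_iff₀ (by linarith)]
      nlinarith
    have := (abs_le.1 e2).1
    rw [e1] at this
    linarith
  have hres := ae_nonneg_of_forall_setIntegral_nonneg hvi hset
  have hmem : ∀ᵐ x ∂μ, x ∈ Ioc 0 L := by
    rw [hμ]; exact ae_restrict_mem measurableSet_Ioc
  have hne : ∀ᵐ x ∂μ, x ≠ L := by
    have : ∀ᵐ x ∂(volume : Measure ℝ), x ≠ L := by
      simp [ae_iff, measure_singleton]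
    exact ae_restrict_of_ae this
  filter_upwards [hres, hmem, hne] with x h1 h2 h3
  have hpos := sn0_pos hL (x := x) ⟨h2.1, lt_of_le_of_ne h2.2 h3⟩
  simp only [Pi.zero_apply, hv] at h1
  exact nonneg_of_mul_nonneg_left h1 hpos

end Pool.Agent.LV65
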